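import Pool.Agent.Karp.Asm1

/-!
# The matching algorithm, part 1: independence and the second moment
-/

namespace Karp

open Finset

section Indep

variable {E : Type} [Fintype E] [DecidableEq E]

/-- `h` on `Q`, `g` elsewhere. -/
def spl (Q : Finset E) (h g : E → Bool) : E → Bool := fun e => if e ∈ Q then h e else g e

/-- Events on disjoint sets of bits are independent. -/
theorem indep (Q : Finset E) (P R : (E → Bool) → Prop) [DecidablePred P] [DecidablePred R]
    (hP : ∀ g h, (∀ e, e ∉ Q → g e = h e) → P g → P h)
    (hR : ∀ g h, (∀ e ∈ Q, g e = h e) → R g → R h) :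
    (univ.filter fun g => P g ∧ R g).card * 2 ^ Fintype.card E =
      (univ.filter P).card * (univ.filter R).card := by
  have h2 : 2 ^ Fintype.card E = (univ : Finset (E → Bool)).card := by
    rw [card_univ, Fintype.card_fun, Fintype.card_bool]
  rw [h2, ← card_product, ← card_product]
  apply card_nbij' (i := fun x => (spl Q x.2 x.1, spl Q x.1 x.2))
    (j := fun x => (spl Q x.2 x.1, spl Q x.1 x.2))
  · rintro ⟨g, h⟩ hx
    rw [mem_coe, mem_product, mem_filter] at hx
    rw [mem_coe, mem_product, mem_filter, mem_filter]
    refine ⟨⟨mem_univ _, hP g _ ?_ hx.1.2.1⟩, ⟨mem_univ _, hR g _ ?_ hx.1.2.2⟩⟩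
    · intro e he
      simp [spl, he]
    · intro e he
      simp [spl, he]
  · rintro ⟨g, h⟩ hx
    rw [mem_coe, mem_product, mem_filter, mem_filter] at hx
    rw [mem_coe, mem_product, mem_filter]
    refine ⟨⟨mem_univ _, hP g _ ?_ hx.1.2, hR h _ ?_ hx.2.2⟩, mem_univ _⟩
    · intro e he
      simp [spl, he]
    · intro e he
      simp [spl, he]
  · rintro ⟨g, h⟩ _
    ext e <;> by_cases he : e ∈ Q <;> simp [spl, he]
  · rintro ⟨g, h⟩ _
    ext e <;> by_cases he : e ∈ Q <;> simp [spl, he]

theorem indepR (Q : Finset E) (P R : (E → Bool) → Prop) [DecidablePred P] [DecidablePred R]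
    (hP : ∀ g h, (∀ e, e ∉ Q → g e = h e) → P g → P h)
    (hR : ∀ g h, (∀ e ∈ Q, g e = h e) → R g → R h) :
    ((univ.filter fun g => P g ∧ R g).card : ℝ) * 2 ^ Fintype.card E =
      ((univ.filter P).card : ℝ) * ((univ.filter R).card : ℝ) := by
  have := indep Q P R hP hR
  exact_mod_cast this

/-- Number of inputs equal to `1` on `Q`. -/
theorem ones (Q : Finset E) :
    (univ.filter fun g : E → Bool => ∀ e ∈ Q, g e = true).card * 2 ^ Q.card =
      2 ^ Fintype.card E := by
  have h1 : (univ.filter fun g : E → Bool => ∀ e ∈ Q, g e = true) =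
      Fintype.piFinset fun e => if e ∈ Q then {true} else univ := by
    ext g
    rw [mem_filter, Fintype.mem_piFinset]
    constructor
    · rintro ⟨-, h⟩ e
      by_cases he : e ∈ Q
      · rw [if_pos he, mem_singleton]; exact h e he
      · rw [if_neg he]; exact mem_univ _
    · intro h
      refine ⟨mem_univ _, fun e he => ?_⟩
      have := h e
      rw [if_pos he, mem_singleton] at this
      exact this
  rw [h1, Fintype.card_piFinset]
  have h2 : ∀ e : E, (if e ∈ Q then ({true} : Finset Bool) else univ).card =
      if e ∈ Q then 1 else 2 := by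
    intro e
    by_cases he : e ∈ Q <;> simp [he]
  simp only [h2]
  rw [prod_ite, prod_const_one, one_mul, prod_const]
  have h3 : (univ.filter fun e => e ∉ Q) = Qᶜ := by
    ext e; simp
  rw [h3, ← pow_add, card_compl_add_card]

end Indep

section Search

variable {V : Type} [Fintype V] [DecidableEq V]

open Classical in
/-- No candidate of `B` is adjacent to all of `K`. -/
theorem search (K B : Finset V) (hKB : Disjoint K B) :
    ((univ.filter fun g : Pr V → Bool => ∀ w ∈ B, ∃ e ∈ cross {w} K, g e = false).card : ℝ) =
      (1 - 1 / 2 ^ K.card) ^ B.card * 2 ^ Fintype.card (Pr V) := by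
  induction B using Finset.induction_on with
  | empty =>
    simp
  | insert w B hw ih =>
    rw [disjoint_insert_right] at hKB
    have ih' := ih hKB.2
    set P : (Pr V → Bool) → Prop := fun g => ∀ w ∈ B, ∃ e ∈ cross {w} K, g e = false with hP
    set R : (Pr V → Bool) → Prop := fun g => ∃ e ∈ cross {w} K, g e = false with hR
    have hind' := indepR (cross {w} K) P R (by
      intro g h hgh hg v hv
      obtain ⟨e, he, h0⟩ := hg v hv
      refine ⟨e, he, ?_⟩
      rw [← hgh e ?_]
      · exact h0
      · intro he2
        unfold cross at he he2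
        rw [mem_filter] at he he2
        obtain ⟨-, v', hv', s, hs, e1⟩ := he
        obtain ⟨-, w', hw', s', hs', e2⟩ := he2
        rw [mem_singleton] at hv' hw'
        subst hv' hw'
        rw [e1, Sym2.eq_iff] at e2
        rcases e2 with ⟨a, -⟩ | ⟨a, -⟩
        · exact hw (a ▸ hv)
        · exact (disjoint_left.1 hKB.2) (a ▸ hs') hv) (by
      rintro g h hgh ⟨e, he, h0⟩
      exact ⟨e, he, by rw [← hgh e he]; exact h0⟩)
    have hRc : ((univ.filter R).card : ℝ) = (1 - 1 / 2 ^ K.card) * 2 ^ Fintype.card (Pr V) := by
      have h1 := ones (cross {w} K)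
      have h2 : (cross {w} K).card = K.card := by
        have hdis : Disjoint ({w} : Finset V) K := by
          rw [disjoint_singleton_left]; exact hKB.1
        have h3 := card_cross hdis (univ : Finset (Pr V))
        rw [univ_inter] at h3
        rw [h3, sum_singleton]
        unfold d1
        congr 1
        apply filter_true_of_mem
        intro s hs
        rw [mem_val]
        exact ⟨fun h => hKB.1 (show w ∈ K from (show w = s from h) ▸ hs), mem_univ _⟩
      rw [h2] at h1
      have h4 := card_filter_add_card_filter_not (s := (univ : Finset (Pr V → Bool)))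
        (fun g => ∀ e ∈ cross {w} K, g e = true)
      have h5 : (univ.filter fun g : Pr V → Bool => ¬ ∀ e ∈ cross {w} K, g e = true) =
          univ.filter R := by
        apply filter_congr
        intro g _
        rw [hR]
        push Not
        simp
      rw [h5, card_univ, Fintype.card_fun, Fintype.card_bool] at h4
      have h1' : ((univ.filter fun g : Pr V → Bool => ∀ e ∈ cross {w} K, g e = true).card : ℝ) =
          2 ^ Fintype.card (Pr V) / 2 ^ K.card := by
        rw [eq_div_iff (by positivity)]
        exact_mod_cast h1
      have h4' : ((univ.filter fun g : Pr V → Bool => ∀ e ∈ cross {w} K, g e = true).card : ℝ) +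
          ((univ.filter R).card : ℝ) = 2 ^ Fintype.card (Pr V) := by exact_mod_cast h4
      rw [h1'] at h4'
      have : ((univ.filter R).card : ℝ) =
          2 ^ Fintype.card (Pr V) - 2 ^ Fintype.card (Pr V) / 2 ^ K.card := by linarith
      rw [this]
      ring
    have hcg : (univ.filter fun g : Pr V → Bool =>
        ∀ v ∈ insert w B, ∃ e ∈ cross {v} K, g e = false) = univ.filter fun g => P g ∧ R g := by
      apply filter_congr
      intro g _
      rw [forall_mem_insert, and_comm]
    rw [hcg, card_insert_of_notMem hw]
    have hN : (0 : ℝ) < 2 ^ Fintype.card (Pr V) := by positivity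
    rw [hRc, ih'] at hind'
    apply mul_right_cancel₀ hN.ne'
    rw [hind']
    ring

end Search

end Karp
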