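import Mathlib

/-!
# Read-once programs with bounded memory on graphs
-/

namespace KarpRO

/-- Unordered pairs of distinct vertices of `{0, ..., n-1}`. -/
abbrev Pair (n : ℕ) := {e : Sym2 (Fin n) // ¬ e.IsDiag}

/-- A branching program on graphs with `n` vertices, with `steps` layers and `M` memory states
per layer. In state `s` at time `t` it asks whether the pair `query t s` is an edge (or asks
nothing), then moves to the state `next t s b`, where `b` is the answer; its output is a function
of the state at time `steps`. There is no restriction on the computation of these functions. -/
structure Program (n M : ℕ) where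
  steps : ℕ
  start : Fin M
  query : ℕ → Fin M → Option (Pair n)
  next : ℕ → Fin M → Bool → Fin M
  out : Fin M → Finset (Fin n)

namespace Program

variable {n M : ℕ} (P : Program n M)

open Classical in
/-- The answer to a query (`false` if nothing is asked). -/
noncomputable def answer {n : ℕ} (G : SimpleGraph (Fin n)) : Option (Pair n) → Bool
  | none => false
  | some e => decide (e.1 ∈ G.edgeSet)

/-- The state at time `t` on the graph `G`. -/
noncomputable def state (G : SimpleGraph (Fin n)) : ℕ → Fin M
  | 0 => P.start
  | t + 1 => P.next t (state G t) (answer G (P.query t (state G t)))

/-- On every graph, no pair is asked twice. -/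
def ReadOnce : Prop :=
  ∀ (G : SimpleGraph (Fin n)) (s t : ℕ), s < t → t < P.steps → ∀ e : Pair n,
    P.query s (P.state G s) = some e → P.query t (P.state G t) ≠ some e

/-- The output on the graph `G`. -/
noncomputable def output (G : SimpleGraph (Fin n)) : Finset (Fin n) :=
  P.out (P.state G P.steps)

end Program

end KarpRO
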