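import Pool.Agent.Karp.Main
import Pool.Agent.Karp.Model

/-!
# From abstract programs to programs on graphs
-/

namespace KarpRO

open Finset Karp

variable {n M : ℕ}

/-- The graph of a 0/1 labelling of the pairs. -/
def toG (g : Pair n → Bool) : SimpleGraph (Fin n) where
  Adj u v := ∃ h : ¬ (s(u, v) : Sym2 (Fin n)).IsDiag, g ⟨s(u, v), h⟩ = true
  symm := by
    constructor
    rintro u v ⟨h, hg⟩
    have e : (s(u, v) : Sym2 (Fin n)) = s(v, u) := Sym2.eq_swap
    refine ⟨e ▸ h, ?_⟩
    rw [← hg]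
    congr 1
    exact Subtype.ext e.symm
  loopless := by
    constructor
    rintro u ⟨h, -⟩
    exact h rfl

theorem mem_toG (g : Pair n → Bool) (e : Pair n) : e.1 ∈ (toG g).edgeSet ↔ g e = true := by
  obtain ⟨e, he⟩ := e
  induction e with
  | _ u v =>
  rw [SimpleGraph.mem_edgeSet]
  exact ⟨fun ⟨_, h⟩ => h, fun h => ⟨he, h⟩⟩

open Classical in
/-- Labellings and graphs. -/
noncomputable def graphEquiv : (Pair n → Bool) ≃ SimpleGraph (Fin n) where
  toFun := toG
  invFun G e := decide (e.1 ∈ G.edgeSet)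
  left_inv g := by
    funext e
    by_cases h : g e = true
    · rw [h]; exact decide_eq_true ((mem_toG g e).2 h)
    · have h2 : g e = false := by simpa using h
      rw [h2]
      exact decide_eq_false fun h3 => h ((mem_toG g e).1 h3)
  right_inv G := by
    ext u v
    constructor
    · rintro ⟨h, h2⟩
      have := of_decide_eq_true h2
      exact this
    · intro h
      have hne : u ≠ v := G.ne_of_adj h
      exact ⟨fun h' => hne h', decide_eq_true (show s(u, v) ∈ G.edgeSet from h)⟩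

/-- The abstract program. -/
def toProg (P : Program n M) : Prog (Pr (Fin n)) (Fin M) where
  start := P.start
  query t s := if t < P.steps then P.query t s else none
  next := P.next

theorem toProg_st (P : Program n M) (g : Pair n → Bool) (t : ℕ) (ht : t ≤ P.steps) :
    (toProg P).st g t = P.state (toG g) t := by
  classical
  induction t with
  | zero => rfl
  | succ t ih =>
    have h1 := ih (by omega)
    rw [Prog.st_succ, Program.state, ← h1]
    have hq : (toProg P).qr g t = P.query t ((toProg P).st g t) := by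
      unfold Prog.qr toProg
      simp only
      rw [if_pos (by omega)]
    rw [hq]
    have ha : Prog.ans g (P.query t ((toProg P).st g t)) =
        Program.answer (toG g) (P.query t ((toProg P).st g t)) := by
      cases P.query t ((toProg P).st g t) with
      | none => rfl
      | some e =>
        unfold Prog.ans Program.answer
        simp only
        by_cases h : g e = true
        · rw [h]
          exact (decide_eq_true ((mem_toG g e).2 h)).symm
        · have h2 : g e = false := by simpa using h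
          rw [h2]
          exact (decide_eq_false fun h3 => h ((mem_toG g e).1 h3)).symm
    rw [ha]
    rfl

theorem toProg_RO (P : Program n M) (h : P.ReadOnce) : (toProg P).RO := by
  intro g t e hq hmem
  rw [Prog.mem_rd] at hmem
  obtain ⟨s, hst, hs⟩ := hmem
  have ht : t < P.steps := by
    by_contra hcon
    unfold Prog.qr toProg at hq
    simp only at hq
    rw [if_neg hcon] at hq
    exact absurd hq (by simp)
  have e1 : ∀ u, u < P.steps → (toProg P).qr g u = P.query u (P.state (toG g) u) := by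
    intro u hu
    unfold Prog.qr
    rw [toProg_st P g u hu.le]
    unfold toProg
    simp only
    rw [if_pos hu]
  rw [e1 t ht] at hq
  rw [e1 s (by omega)] at hs
  exact h (toG g) s t hst ht e hs hq

/-- Lower bound for read-once programs. -/
theorem lower (c ε : ℝ) (hc : 0 ≤ c) (hε : 0 < ε) :
    ∃ η : ℝ, 0 < η ∧ ∃ n₀ : ℕ, ∀ n ≥ n₀, ∀ M : ℕ, (M : ℝ) ≤ 2 ^ ((n : ℝ) ^ c) →
      ∀ P : Program n M, P.ReadOnce → (P.steps : ℝ) ≤ (n : ℝ) ^ (η * Real.logb 2 n) →
      (Nat.card {G : SimpleGraph (Fin n) // G.IsClique (P.output G : Set (Fin n)) ∧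
        (1 + c / 2 + ε) * Real.logb 2 n ≤ ((P.output G).card : ℝ)} : ℝ) ≤
      (n : ℝ) ^ (-(η * Real.logb 2 n)) * Nat.card (SimpleGraph (Fin n)) := by
  classical
  obtain ⟨η', hη', J, hJ⟩ := main_prog (c / 2) ε (by positivity) hε
  refine ⟨η' / 8, by positivity, 2 ^ (J + 1 + ⌈6 / η'⌉₊), ?_⟩
  intro n hn M hM P hP hT
  have hn0 : n ≠ 0 := by
    have : 0 < 2 ^ (J + 1 + ⌈6 / η'⌉₊) := by positivity
    omega
  set j := Nat.log 2 n with hj
  have h1 : 2 ^ j ≤ n := Nat.pow_log_le_self 2 hn0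
  have h2 : n < 2 ^ (j + 1) := Nat.lt_pow_succ_log_self (by norm_num) n
  have hjJ' : J + 1 + ⌈6 / η'⌉₊ ≤ j := (Nat.le_log_iff_pow_le (by norm_num) hn0).2 hn
  have hjJ : J ≤ j := by omega
  set x := (1 + c / 2 + ε) * Real.logb 2 n with hx
  set k := ⌈x⌉₊ with hk
  have hnR : (0 : ℝ) < n := by positivity
  have hl1 : (j : ℝ) ≤ Real.logb 2 n := by
    rw [Real.le_logb_iff_rpow_le (by norm_num) hnR, Real.rpow_natCast]
    exact_mod_cast h1
  have hl2 : Real.logb 2 n ≤ j + 1 := by
    rw [Real.logb_le_iff_le_rpow (by norm_num) hnR]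
    have : (n : ℝ) ≤ 2 ^ (j + 1) := by exact_mod_cast h2.le
    refine this.trans (le_of_eq ?_)
    rw [← Real.rpow_natCast]; push_cast; rfl
  have hj1 : (1 : ℝ) ≤ j := by
    have : 1 ≤ j := by omega
    exact_mod_cast this
  have hj6 : 6 / η' ≤ (j : ℝ) := by
    refine (Nat.le_ceil _).trans ?_
    have : ⌈6 / η'⌉₊ ≤ j := by omega
    exact_mod_cast this
  have hlog0 : 0 ≤ Real.logb 2 n := by linarith
  have hnlog : ∀ y : ℝ, (n : ℝ) ^ (y * Real.logb 2 n) = 2 ^ (y * Real.logb 2 n ^ 2) := by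
    intro y
    have h3 : (2 : ℝ) ^ (Real.logb 2 n) = n :=
      Real.rpow_logb (by norm_num) (by norm_num) hnR
    calc (n : ℝ) ^ (y * Real.logb 2 n) = (2 ^ (Real.logb 2 n)) ^ (y * Real.logb 2 n) := by rw [h3]
      _ = 2 ^ (Real.logb 2 n * (y * Real.logb 2 n)) := by rw [← Real.rpow_mul (by norm_num)]
      _ = _ := by congr 1; ring
  have hlsq : η' / 8 * Real.logb 2 n ^ 2 ≤ η' / 2 * (j : ℝ) ^ 2 := by
    have h3 : Real.logb 2 n ^ 2 ≤ ((j : ℝ) + 1) ^ 2 := pow_le_pow_left₀ hlog0 hl2 2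
    have h4 : ((j : ℝ) + 1) ^ 2 ≤ 4 * (j : ℝ) ^ 2 := by nlinarith
    have h5 : η' / 8 * Real.logb 2 n ^ 2 ≤ η' / 8 * (4 * (j : ℝ) ^ 2) :=
      mul_le_mul_of_nonneg_left (h3.trans h4) (by positivity)
    linarith
  have hjj : (6 : ℝ) ≤ η' * (j : ℝ) ^ 2 := by
    rw [div_le_iff₀ hη'] at hj6
    nlinarith
  have hT' : (P.steps : ℝ) ≤ 2 ^ (η' * (j : ℝ) ^ 2) := by
    refine hT.trans ?_
    rw [hnlog]
    apply Real.rpow_le_rpow_of_exponent_le (by norm_num)
    have : 0 ≤ η' * (j : ℝ) ^ 2 := by positivity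
    linarith
  have hδ : 6 * (2 : ℝ) ^ (-(η' * (j : ℝ) ^ 2)) ≤ (n : ℝ) ^ (-(η' / 8 * Real.logb 2 n)) := by
    rw [show -(η' / 8 * Real.logb 2 (n : ℝ)) = (-(η' / 8)) * Real.logb 2 (n : ℝ) by ring, hnlog]
    have h3 : (6 : ℝ) ≤ 2 ^ (3 : ℝ) := by
      rw [show (3 : ℝ) = ((3 : ℕ) : ℝ) by norm_num, Real.rpow_natCast]; norm_num
    calc 6 * (2 : ℝ) ^ (-(η' * (j : ℝ) ^ 2)) ≤ 2 ^ (3 : ℝ) * 2 ^ (-(η' * (j : ℝ) ^ 2)) :=
          mul_le_mul_of_nonneg_right h3 (by positivity)
      _ = 2 ^ (3 + -(η' * (j : ℝ) ^ 2)) := by rw [Real.rpow_add (by norm_num)]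
      _ ≤ _ := by
          apply Real.rpow_le_rpow_of_exponent_le (by norm_num)
          linarith
  have hy : 0 < 1 + c / 2 + ε := by positivity
  have hx0 : 0 ≤ x := by
    rw [hx]
    positivity
  have hkl : (1 + c / 2 + ε) * (j : ℝ) ≤ k :=
    (mul_le_mul_of_nonneg_left hl1 hy.le).trans (Nat.le_ceil x)
  have hku : (k : ℝ) ≤ (1 + c / 2 + ε) * (j + 1) + 1 := by
    have h3 := (Nat.ceil_lt_add_one hx0).le
    have h4 := mul_le_mul_of_nonneg_left hl2 hy.le
    linarith
  -- the truncated output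
  set o : Fin M → Finset (Fin n) := fun s =>
    if h : k ≤ (P.out s).card then Classical.choose (exists_subset_card_eq h) else ∅ with ho
  have ho' : ∀ s, k ≤ (P.out s).card → o s ⊆ P.out s ∧ (o s).card = k := by
    intro s hs
    rw [ho]
    simp only
    rw [dif_pos hs]
    exact Classical.choose_spec (exists_subset_card_eq hs)
  have hM' : (M : ℝ) ≤ 2 ^ ((n : ℝ) ^ (2 * (c / 2))) := by
    rw [show 2 * (c / 2) = c by ring]; exact hM
  have hmain' := hJ j hjJ n k P.steps M h1 h2 hkl hku hT' hM' (toProg P) (toProg_RO P hP) o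
  have hmain := hmain'.trans (mul_le_mul_of_nonneg_right hδ (by positivity))
  have hcard : Nat.card (SimpleGraph (Fin n)) = 2 ^ Fintype.card (Pr (Fin n)) := by
    rw [← Nat.card_congr (graphEquiv (n := n)), Nat.card_eq_fintype_card, Fintype.card_fun,
      Fintype.card_bool]
  rw [hcard]
  push_cast
  refine le_trans ?_ hmain
  norm_cast
  have e1 : Nat.card {G : SimpleGraph (Fin n) // G.IsClique (P.output G : Set (Fin n)) ∧
        x ≤ ((P.output G).card : ℝ)} =
      Nat.card {g : Pair n → Bool // (toG g).IsClique (P.output (toG g) : Set (Fin n)) ∧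
        x ≤ ((P.output (toG g)).card : ℝ)} := by
    symm
    apply Nat.card_congr
    exact (graphEquiv (n := n)).subtypeEquiv (fun g => Iff.rfl)
  rw [e1, Nat.card_eq_fintype_card, Fintype.card_subtype]
  apply card_le_card
  intro g hg
  rw [mem_filter] at hg ⊢
  obtain ⟨-, hcl, hsz⟩ := hg
  have hkc : k ≤ (P.output (toG g)).card := Nat.ceil_le.2 hsz
  have hst := toProg_st P g P.steps le_rfl
  rw [hst]
  obtain ⟨h3, h4⟩ := ho' _ hkc
  refine ⟨mem_univ _, h4, ?_⟩
  intro e he
  rw [mem_prs] at he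
  obtain ⟨e, hnd⟩ := e
  induction e with
  | _ u v =>
  rw [mk_mem_sym2_iff] at he
  have hadj : (toG g).Adj u v := by
    apply hcl
    · exact mem_coe.2 (h3 he.1)
    · exact mem_coe.2 (h3 he.2)
    · exact fun h => hnd h
  exact hadj.2

end KarpRO
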