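import Pool.Agent.Karp.Alg9
import Pool.Agent.Karp.Bridge

/-!
# The matching algorithm, part 10: the program on graphs
-/

namespace KarpRO

open Finset Karp

/-- Blocks of consecutive vertices. -/
def blocks (n R b k1 : ℕ) (h : R * b ≤ n) : Blk (Fin n) R b where
  vx i u := ⟨i.1 * b + u.1, by
    have h1 : i.1 * b + u.1 < (i.1 + 1) * b := by
      rw [add_mul, one_mul]
      exact Nat.add_lt_add_left u.2 _
    exact lt_of_lt_of_le h1 ((Nat.mul_le_mul_right b i.2).trans h)⟩
  blk v := v.1 / b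
  k1 := k1
  hblk i u := by
    have hb : 0 < b := lt_of_le_of_lt (Nat.zero_le _) u.2
    show (i.1 * b + u.1) / b = i.1
    rw [mul_comm, Nat.mul_add_div hb, Nat.div_eq_of_lt u.2, add_zero]
  hinj i u v huv := by
    have h1 : i.1 * b + u.1 = i.1 * b + v.1 := Fin.mk.inj_iff.1 huv
    exact Fin.ext (by omega)

theorem lab_toG {n : ℕ} (g : Pair n → Bool) : lab (toG g) = g := by
  classical
  funext e
  unfold lab
  by_cases h : g e = true
  · rw [h]; exact decide_eq_true ((mem_toG g e).2 h)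
  · have h2 : g e = false := by simpa using h
    rw [h2]
    exact decide_eq_false fun h3 => h ((mem_toG g e).1 h3)

theorem isClique_toG {n : ℕ} (g : Pair n → Bool) (U : Finset (Fin n))
    (h : ∀ e ∈ prs U, g e = true) : (toG g).IsClique (U : Set (Fin n)) := by
  intro u hu v hv huv
  have hnd : ¬ (s(u, v) : Sym2 (Fin n)).IsDiag := fun h' => huv h'
  refine ⟨hnd, h _ ?_⟩
  rw [mem_prs, mk_mem_sym2_iff]
  exact ⟨mem_coe.1 hu, mem_coe.1 hv⟩

/-- The finite form of the matching algorithm. -/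
theorem upper_fin (n R b k1 k : ℕ) (h : R * b ≤ n) (hk : k1 < R) (hkL : k ≤ R - k1) {y z : ℝ}
    (hy : 0 ≤ y) (hy2 : ∀ i ≤ k, (2 : ℝ) ^ (i.choose 2) ≤ y ^ i)
    (hx : (k : ℝ) ^ 2 * y / ((R - k1 : ℕ) : ℝ) ≤ 1 / 2) (hz : z ≤ k1 + k) :
    ∃ P : Program n ((n + 1) ^ R * 2 ^ (R * R)), P.ReadOnce ∧
      P.steps ≤ R * (b * (R + 1)) + R * R ∧
      (1 - (R * (1 - 1 / 2 ^ k1) ^ b + 2 * ((k : ℝ) ^ 2 * y / ((R - k1 : ℕ) : ℝ)) ^ 2)) *
        (Nat.card (SimpleGraph (Fin n)) : ℝ) ≤
      (Nat.card {G : SimpleGraph (Fin n) // G.IsClique (P.output G : Set (Fin n)) ∧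
        z ≤ ((P.output G).card : ℝ)} : ℝ) := by
  classical
  set D := blocks n R b k1 h with hD
  have hcard : Fintype.card (Sta (Fin n) R) = (n + 1) ^ R * 2 ^ (R * R) := by
    unfold Sta
    rw [Fintype.card_prod, Fintype.card_fun, Fintype.card_fun, Fintype.card_option,
      Fintype.card_fin, Fintype.card_fin, Fintype.card_bool, Fintype.card_prod, Fintype.card_fin]
  set eqv : Sta (Fin n) R ≃ Fin ((n + 1) ^ R * 2 ^ (R * R)) := Fintype.equivFinOfCardEq hcard
  refine ⟨toP D.all (fun _ => none, fun _ => false) (D.outF k) eqv, toP_RO _ D.all_apart _ _ _,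
    D.all_length, ?_⟩
  have hs := D.success hk k hkL hy hy2 hx
  have hcardG : Nat.card (SimpleGraph (Fin n)) = 2 ^ Fintype.card (Pr (Fin n)) := by
    rw [← Nat.card_congr (graphEquiv (n := n)), Nat.card_eq_fintype_card, Fintype.card_fun,
      Fintype.card_bool]
  rw [hcardG]
  push_cast
  refine hs.trans ?_
  norm_cast
  set P := toP D.all (fun _ => none, fun _ => false) (D.outF k) eqv with hP
  have e1 : Nat.card {G : SimpleGraph (Fin n) // G.IsClique (P.output G : Set (Fin n)) ∧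
        z ≤ ((P.output G).card : ℝ)} =
      Nat.card {g : Pair n → Bool // (toG g).IsClique (P.output (toG g) : Set (Fin n)) ∧
        z ≤ ((P.output (toG g)).card : ℝ)} := by
    symm
    apply Nat.card_congr
    exact (graphEquiv (n := n)).subtypeEquiv (fun g => Iff.rfl)
  rw [e1, Nat.card_eq_fintype_card, Fintype.card_subtype]
  apply card_le_card
  intro g hg
  rw [mem_filter] at hg ⊢
  obtain ⟨-, h1, h2⟩ := hg
  have h3 : P.output (toG g) = D.outF k (run g D.all (fun _ => none, fun _ => false)) := by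
    rw [hP, toP_output, lab_toG]
  rw [h3]
  refine ⟨mem_univ _, isClique_toG g _ h2, ?_⟩
  rw [h1]
  push_cast
  exact hz

end KarpRO
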