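import Pool.Agent.Karp.Alg10

/-!
# The matching algorithm, part 11: asymptotics
-/

namespace KarpRO

open Finset Karp Filter

/-- The matching algorithm. -/
theorem upper (c ε δ : ℝ) (hc : 0 < c) (hc2 : c ≤ 2) (hε : 0 < ε) (hδ : 0 < δ) :
    ∃ n₀ : ℕ, ∀ n ≥ n₀, ∃ M : ℕ, (M : ℝ) ≤ 2 ^ ((n : ℝ) ^ c) ∧
      ∃ P : Program n M, P.ReadOnce ∧ P.steps ≤ n ^ 3 ∧
      (1 - δ) * (Nat.card (SimpleGraph (Fin n)) : ℝ) ≤
      (Nat.card {G : SimpleGraph (Fin n) // G.IsClique (P.output G : Set (Fin n)) ∧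
        (1 + c / 2 - ε) * Real.logb 2 n ≤ ((P.output G).card : ℝ)} : ℝ) := by
  set e : ℝ := min (min ε 1) c / 8 with he
  have he0 : 0 < e := by rw [he]; positivity
  have he1 : 8 * e ≤ ε := by
    have : min (min ε 1) c ≤ ε := (min_le_left _ _).trans (min_le_left _ _)
    rw [he]; linarith
  have he2 : 8 * e ≤ 1 := by
    have : min (min ε 1) c ≤ 1 := (min_le_left _ _).trans (min_le_right _ _)
    rw [he]; linarith
  have he3 : 8 * e ≤ c := by
    have : min (min ε 1) c ≤ c := min_le_right _ _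
    rw [he]; linarith
  set δ' : ℝ := min (1 / 2) (δ / 2) with hδ'
  have hδ0 : 0 < δ' := by rw [hδ']; positivity
  have hδ1 : δ' ≤ 1 / 2 := min_le_left _ _
  have hδ2 : δ' ≤ δ / 2 := min_le_right _ _
  obtain ⟨J, hJ⟩ := eventually_atTop.1 ((ev_pow 3 he0).and ((ev_pow 4 he0).and
    ((ev_const (2 / δ) (show (0 : ℝ) < 1 by norm_num)).and ((ev_ge (3 / (4 * e))).and
    ((ev_ge (8 / δ')).and (eventually_ge_atTop 8))))))
  refine ⟨2 ^ J, ?_⟩
  intro n hn
  have hn0 : n ≠ 0 := by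
    have : 0 < 2 ^ J := by positivity
    omega
  set j := Nat.log 2 n with hj
  have h1 : 2 ^ j ≤ n := Nat.pow_log_le_self 2 hn0
  have h2 : n < 2 ^ (j + 1) := Nat.lt_pow_succ_log_self (by norm_num) n
  have hjJ : J ≤ j := (Nat.le_log_iff_pow_le (by norm_num) hn0).2 hn
  obtain ⟨f1, f2, f3, f4, f5, f6⟩ := hJ j hjJ
  have hj8 : (8 : ℝ) ≤ j := by exact_mod_cast f6
  rw [div_le_iff₀ (by positivity)] at f4
  rw [div_le_iff₀ hδ0] at f5
  rw [div_le_iff₀ hδ, one_mul] at f3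
  set t := ⌊e * (j : ℝ)⌋₊ with ht
  set μ := ⌊(c / 2 - e) * (j : ℝ)⌋₊ with hμ
  have ht1 : (t : ℝ) ≤ e * j := Nat.floor_le (by positivity)
  have ht2 : e * (j : ℝ) ≤ t + 1 := (Nat.lt_floor_add_one _).le
  have hce : 0 ≤ c / 2 - e := by linarith
  have hμ1 : (μ : ℝ) ≤ (c / 2 - e) * j := Nat.floor_le (by positivity)
  have hμ2 : (c / 2 - e) * (j : ℝ) ≤ μ + 1 := (Nat.lt_floor_add_one _).le
  have htμ : t ≤ μ := Nat.floor_le_floor (mul_le_mul_of_nonneg_right (by linarith) (by positivity))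
  have hμt : μ + t ≤ j := by
    have h3 : (μ : ℝ) + t ≤ j := by
      have h4 : (μ : ℝ) + t ≤ c / 2 * j := by linarith
      have h5 : c / 2 * (j : ℝ) ≤ 1 * j := mul_le_mul_of_nonneg_right (by linarith) (by positivity)
      linarith
    exact_mod_cast h3
  -- powers of two
  have two0 : (0 : ℝ) < 2 := by norm_num
  have htp : (2 : ℝ) ^ (e * (j : ℝ)) ≤ 2 * 2 ^ t := by
    calc (2 : ℝ) ^ (e * (j : ℝ)) ≤ 2 ^ ((t : ℝ) + 1) :=
          Real.rpow_le_rpow_of_exponent_le (by norm_num) ht2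
      _ = 2 ^ (t : ℝ) * 2 := by rw [Real.rpow_add two0, Real.rpow_one]
      _ = _ := by rw [Real.rpow_natCast]; ring
  have g1 : (j + 1) * (j ^ 2 + 1) ≤ 2 ^ t := by
    have h3 : ((j : ℝ) + 1) * (j ^ 2 + 1) ≤ 2 ^ t := by
      have h4 : ((j : ℝ) + 1) * (j ^ 2 + 1) ≤ (2 * j) * (2 * j ^ 2) := by
        apply mul_le_mul _ _ (by positivity) (by positivity)
        · linarith
        · nlinarith
      have h5 : (8 : ℝ) * (j : ℝ) ^ 3 ≤ j ^ 4 := by
        have : (j : ℝ) ^ 4 = j * j ^ 3 := by ring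
        rw [this]
        exact mul_le_mul_of_nonneg_right hj8 (by positivity)
      have h6 : (2 * (j : ℝ)) * (2 * j ^ 2) = 4 * j ^ 3 := by ring
      linarith
    exact_mod_cast h3
  have hj1t : j + 1 ≤ 2 ^ t := le_trans (by nlinarith) g1
  set k1 := j - μ - t with hk1
  set k := 2 * (μ - t) with hk
  set R := k1 + 2 ^ μ with hR
  have hRk : R - k1 = 2 ^ μ := Nat.add_sub_cancel_left k1 (2 ^ μ)
  have hk1R : k1 < R := by
    have : 0 < 2 ^ μ := by positivity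
    omega
  have hRle : R ≤ (j + 1) * 2 ^ μ := by
    have h3 : k1 ≤ j * 2 ^ μ := by
      calc k1 ≤ j := by omega
        _ = j * 1 := by ring
        _ ≤ j * 2 ^ μ := Nat.mul_le_mul_left j Nat.one_le_two_pow
    rw [hR, add_mul, one_mul]
    omega
  have hjeq : 2 ^ j = 2 ^ k1 * 2 ^ μ * 2 ^ t := by
    rw [← pow_add, ← pow_add]
    congr 1
    omega
  have hRn : R ≤ n := by
    calc R ≤ (j + 1) * 2 ^ μ := hRle
      _ ≤ 2 ^ t * 2 ^ μ := Nat.mul_le_mul_right _ hj1t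
      _ ≤ 2 ^ k1 * (2 ^ t * 2 ^ μ) := Nat.le_mul_of_pos_left _ (by positivity)
      _ = 2 ^ j := by rw [hjeq]; ring
      _ ≤ n := h1
  have hR0 : 0 < R := by omega
  set b := n / R with hb
  have hRb : R * b ≤ n := Nat.mul_div_le n R
  have hkL : k ≤ R - k1 := by
    rw [hRk]
    have h3 : ∀ m : ℕ, 2 * m ≤ 2 ^ m := by
      intro m
      cases m with
      | zero => simp
      | succ m =>
        rw [pow_succ, mul_comm (2 ^ m) 2]
        exact Nat.mul_le_mul_left 2 Nat.lt_two_pow_self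
    calc k ≤ 2 * μ := by omega
      _ ≤ 2 ^ μ := h3 μ
  -- the second moment parameter
  set x := (k : ℝ) ^ 2 * 2 ^ (μ - t) / ((R - k1 : ℕ) : ℝ) with hx
  have hxle : x ≤ δ' := by
    have h3 : x = (k : ℝ) ^ 2 / 2 ^ t := by
      rw [hx, hRk]
      push_cast
      rw [div_eq_div_iff (by positivity) (by positivity), mul_assoc, ← pow_add]
      congr 2
      omega
    have h4 : (k : ℝ) ≤ 2 * j := by
      have : k ≤ 2 * j := by omega
      exact_mod_cast this
    have h5 : (k : ℝ) ^ 2 ≤ 4 * j ^ 2 := by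
      calc (k : ℝ) ^ 2 ≤ (2 * j) ^ 2 := pow_le_pow_left₀ (Nat.cast_nonneg _) h4 2
        _ = _ := by ring
    rw [h3, div_le_iff₀ (by positivity)]
    have h6 : 8 * (j : ℝ) ^ 2 ≤ δ' * 2 ^ (e * (j : ℝ)) := by
      calc 8 * (j : ℝ) ^ 2 ≤ (j * δ') * j ^ 2 := mul_le_mul_of_nonneg_right f5 (by positivity)
        _ = δ' * j ^ 3 := by ring
        _ ≤ _ := mul_le_mul_of_nonneg_left f1 hδ0.le
    have h7 : δ' * 2 ^ (e * (j : ℝ)) ≤ δ' * (2 * 2 ^ t) := mul_le_mul_of_nonneg_left htp hδ0.le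
    linarith
  have hx0 : 0 ≤ x := by positivity
  have hy2 : ∀ i ≤ k, (2 : ℝ) ^ (i.choose 2) ≤ ((2 : ℝ) ^ (μ - t)) ^ i := by
    intro i hi
    rw [← pow_mul]
    apply pow_le_pow_right₀ (by norm_num)
    rw [Nat.choose_two_right]
    calc i * (i - 1) / 2 ≤ i * (2 * (μ - t)) / 2 :=
          Nat.div_le_div_right (Nat.mul_le_mul_left i (by omega))
      _ = (μ - t) * i := by
          rw [show i * (2 * (μ - t)) = ((μ - t) * i) * 2 by ring]
          exact Nat.mul_div_cancel _ (by norm_num)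
  have hnR : (0 : ℝ) < n := by positivity
  have hl1 : (j : ℝ) ≤ Real.logb 2 n := by
    rw [Real.le_logb_iff_rpow_le (by norm_num) hnR, Real.rpow_natCast]
    exact_mod_cast h1
  have hl2 : Real.logb 2 n ≤ j + 1 := by
    rw [Real.logb_le_iff_le_rpow (by norm_num) hnR]
    have : (n : ℝ) ≤ 2 ^ (j + 1) := by exact_mod_cast h2.le
    refine this.trans (le_of_eq ?_)
    rw [← Real.rpow_natCast]; push_cast; rfl
  have hz : (1 + c / 2 - ε) * Real.logb 2 n ≤ (k1 : ℝ) + k := by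
    have h3 : (k1 : ℝ) = j - μ - t := by
      rw [hk1, Nat.cast_sub (by omega), Nat.cast_sub (by omega)]
    have h4 : (k : ℝ) = 2 * (μ - t) := by
      rw [hk]; push_cast [Nat.cast_sub htμ]; ring
    rw [h3, h4]
    have h5 : (1 + c / 2 - ε) * Real.logb 2 n ≤ (1 + c / 2 - 8 * e) * Real.logb 2 n :=
      mul_le_mul_of_nonneg_right (by linarith) (by linarith)
    have h6 : (1 + c / 2 - 8 * e) * Real.logb 2 n ≤ (1 + c / 2 - 8 * e) * (j + 1) :=
      mul_le_mul_of_nonneg_left hl2 (by linarith)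
    have h7 : (1 + c / 2 - 8 * e) * ((j : ℝ) + 1) =
        (j + (c / 2 - e) * j - 3 * (e * j)) - 4 * e * j + (1 + c / 2 - 8 * e) := by ring
    linarith
  obtain ⟨P, hP1, hP2, hP3⟩ := upper_fin n R b k1 k hRb hk1R hkL (y := (2 : ℝ) ^ (μ - t))
    (z := (1 + c / 2 - ε) * Real.logb 2 n) (by positivity) hy2 (hxle.trans hδ1) hz
  refine ⟨_, ?_, P, hP1, ?_, ?_⟩
  · -- memory
    push_cast
    have h3 : ((n : ℝ) + 1) ≤ 2 ^ (j + 1) := by exact_mod_cast h2
    have h4 : ((n : ℝ) + 1) ^ R * 2 ^ (R * R) ≤ (2 : ℝ) ^ ((j + 1) * R + R * R) := by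
      calc ((n : ℝ) + 1) ^ R * 2 ^ (R * R) ≤ ((2 : ℝ) ^ (j + 1)) ^ R * 2 ^ (R * R) :=
            mul_le_mul_of_nonneg_right (pow_le_pow_left₀ (by positivity) h3 R) (by positivity)
        _ = _ := by rw [← pow_mul, ← pow_add]
    refine h4.trans ?_
    rw [← Real.rpow_natCast]
    apply Real.rpow_le_rpow_of_exponent_le (by norm_num)
    have h5 : (j + 1) * R + R * R ≤ 2 * (j + 1) ^ 2 * 2 ^ (2 * μ) := by
      have h6 : (j + 1) * R ≤ (j + 1) ^ 2 * 2 ^ (2 * μ) := by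
        calc (j + 1) * R ≤ (j + 1) * ((j + 1) * 2 ^ μ) := Nat.mul_le_mul_left _ hRle
          _ = (j + 1) ^ 2 * 2 ^ μ := by ring
          _ ≤ (j + 1) ^ 2 * 2 ^ (2 * μ) :=
              Nat.mul_le_mul_left _ (Nat.pow_le_pow_right (by norm_num) (by omega))
      have h7 : R * R ≤ (j + 1) ^ 2 * 2 ^ (2 * μ) := by
        calc R * R ≤ ((j + 1) * 2 ^ μ) * ((j + 1) * 2 ^ μ) := Nat.mul_le_mul hRle hRle
          _ = (j + 1) ^ 2 * 2 ^ (2 * μ) := by rw [two_mul μ, pow_add]; ring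
      linarith
    have h6 : (((j + 1) * R + R * R : ℕ) : ℝ) ≤ 2 * (j + 1) ^ 2 * 2 ^ (2 * μ) := by
      exact_mod_cast h5
    refine h6.trans ?_
    have h7 : (2 : ℝ) * (j + 1) ^ 2 ≤ 2 ^ (2 * e * (j : ℝ)) := by
      have h8 : (2 : ℝ) * (j + 1) ^ 2 ≤ 2 ^ (e * (j : ℝ)) := by
        refine le_trans ?_ f2
        have h9 : ((j : ℝ) + 1) ^ 2 ≤ (2 * j) ^ 2 := pow_le_pow_left₀ (by positivity) (by linarith) 2
        have h10 : (8 : ℝ) * (j : ℝ) ^ 2 ≤ j ^ 2 * j ^ 2 :=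
          mul_le_mul_of_nonneg_right (by nlinarith) (by positivity)
        have h11 : (j : ℝ) ^ 4 = j ^ 2 * j ^ 2 := by ring
        have h12 : (2 * (j : ℝ)) ^ 2 = 4 * j ^ 2 := by ring
        linarith
      refine h8.trans (Real.rpow_le_rpow_of_exponent_le (by norm_num) ?_)
      have : 0 ≤ e * (j : ℝ) := by positivity
      linarith
    have h8 : (2 : ℝ) ^ (2 * μ) ≤ 2 ^ ((c - 2 * e) * (j : ℝ)) := by
      rw [← Real.rpow_natCast]
      apply Real.rpow_le_rpow_of_exponent_le (by norm_num)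
      push_cast
      linarith
    calc (2 : ℝ) * (j + 1) ^ 2 * 2 ^ (2 * μ) ≤ 2 ^ (2 * e * (j : ℝ)) * 2 ^ ((c - 2 * e) * (j : ℝ)) :=
          mul_le_mul h7 h8 (by positivity) (by positivity)
      _ = (2 ^ (j : ℝ)) ^ c := by
          rw [← Real.rpow_add two0, ← Real.rpow_mul two0.le]
          congr 1; ring
      _ ≤ (n : ℝ) ^ c := by
          apply Real.rpow_le_rpow (by positivity) _ hc.le
          rw [Real.rpow_natCast]
          exact_mod_cast h1
  · -- steps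
    refine hP2.trans ?_
    have h3 : R * (b * (R + 1)) = (R * b) * (R + 1) := by ring
    rw [h3]
    have hn3 : 3 ≤ n := by
      have : 2 ^ 3 ≤ 2 ^ j := Nat.pow_le_pow_right (by norm_num) (by omega)
      omega
    calc (R * b) * (R + 1) + R * R ≤ n * (n + 1) + n * n :=
          Nat.add_le_add (Nat.mul_le_mul hRb (by omega)) (Nat.mul_le_mul hRn hRn)
      _ ≤ 3 * n * n := by nlinarith
      _ ≤ n * n * n := by
          rw [mul_assoc, mul_assoc n n n]
          exact Nat.mul_le_mul_right _ hn3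
      _ = n ^ 3 := by ring
  · -- probability
    refine le_trans ?_ hP3
    apply mul_le_mul_of_nonneg_right _ (Nat.cast_nonneg _)
    rw [← hx]
    have h3 : 2 * x ^ 2 ≤ δ / 2 := by
      have h4 : x ^ 2 ≤ 1 / 2 * x := by
        rw [sq]
        exact mul_le_mul_of_nonneg_right (hxle.trans hδ1) hx0
      linarith
    have h4 : (R : ℝ) * (1 - 1 / 2 ^ k1) ^ b ≤ δ / 2 := by
      have h5 : (1 : ℝ) - 1 / 2 ^ k1 ≤ Real.exp (-(1 / 2 ^ k1)) := Real.one_sub_le_exp_neg _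
      have h50 : (0 : ℝ) ≤ 1 - 1 / 2 ^ k1 := by
        have : (1 : ℝ) / 2 ^ k1 ≤ 1 := by
          rw [div_le_one (by positivity)]
          exact one_le_pow₀ (by norm_num)
        linarith
      have h6 : (j : ℝ) ^ 2 ≤ b * (1 / 2 ^ k1) := by
        have h7 : n < R * (b + 1) := Nat.lt_mul_div_succ n hR0
        have h8 : 2 ^ k1 * 2 ^ t < (j + 1) * (b + 1) := by
          have h9 : 2 ^ μ * (2 ^ k1 * 2 ^ t) < 2 ^ μ * ((j + 1) * (b + 1)) := by
            calc 2 ^ μ * (2 ^ k1 * 2 ^ t) = 2 ^ j := by rw [hjeq]; ring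
              _ ≤ n := h1
              _ < R * (b + 1) := h7
              _ ≤ ((j + 1) * 2 ^ μ) * (b + 1) := Nat.mul_le_mul_right _ hRle
              _ = _ := by ring
          exact Nat.lt_of_mul_lt_mul_left h9
        have h9 : 2 ^ k1 * (j ^ 2 + 1) < b + 1 := by
          have h10 : (j + 1) * (2 ^ k1 * (j ^ 2 + 1)) < (j + 1) * (b + 1) := by
            calc (j + 1) * (2 ^ k1 * (j ^ 2 + 1)) = 2 ^ k1 * ((j + 1) * (j ^ 2 + 1)) := by ring
              _ ≤ 2 ^ k1 * 2 ^ t := Nat.mul_le_mul_left _ g1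
              _ < _ := h8
          exact Nat.lt_of_mul_lt_mul_left h10
        have h10 : 2 ^ k1 * j ^ 2 ≤ b := by
          have : 2 ^ k1 * (j ^ 2 + 1) = 2 ^ k1 * j ^ 2 + 2 ^ k1 := by ring
          have h11 : 0 < 2 ^ k1 := by positivity
          omega
        rw [mul_one_div, le_div_iff₀ (by positivity), mul_comm]
        exact_mod_cast h10
      have h7 : (1 - 1 / 2 ^ k1 : ℝ) ^ b ≤ 2 ^ (-((j : ℝ) ^ 2)) := by
        calc (1 - 1 / 2 ^ k1 : ℝ) ^ b ≤ (Real.exp (-(1 / 2 ^ k1))) ^ b := pow_le_pow_left₀ h50 h5 b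
          _ = Real.exp (-(b * (1 / 2 ^ k1))) := by
              rw [← Real.exp_nat_mul]; congr 1; ring
          _ ≤ Real.exp (-((j : ℝ) ^ 2)) := Real.exp_le_exp.2 (neg_le_neg h6)
          _ = (Real.exp 1) ^ (-((j : ℝ) ^ 2)) := by
              rw [← Real.exp_mul]; congr 1; ring
          _ ≤ 2 ^ (-((j : ℝ) ^ 2)) := by
              rw [Real.rpow_neg (Real.exp_pos 1).le, Real.rpow_neg two0.le]
              apply inv_anti₀ (by positivity)
              apply Real.rpow_le_rpow two0.le _ (by positivity)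
              have := Real.add_one_le_exp (1 : ℝ)
              linarith
      have h8 : (R : ℝ) ≤ 2 ^ ((j : ℝ) + 1) := by
        have h9 : (R : ℝ) ≤ 2 ^ (j + 1) := by exact_mod_cast hRn.trans h2.le
        refine h9.trans (le_of_eq ?_)
        rw [← Real.rpow_natCast]; push_cast; rfl
      calc (R : ℝ) * (1 - 1 / 2 ^ k1) ^ b ≤ 2 ^ ((j : ℝ) + 1) * 2 ^ (-((j : ℝ) ^ 2)) :=
            mul_le_mul h8 h7 (pow_nonneg h50 _) (by positivity)
        _ = 2 ^ ((j : ℝ) + 1 + -((j : ℝ) ^ 2)) := by rw [Real.rpow_add two0 ((j : ℝ) + 1)]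
        _ ≤ 2 ^ (-(j : ℝ)) := by
            apply Real.rpow_le_rpow_of_exponent_le (by norm_num)
            nlinarith
        _ ≤ δ / 2 := by
            rw [Real.rpow_neg two0.le, inv_le_comm₀ (by positivity) (by positivity), inv_div,
              div_le_iff₀ hδ]
            exact f3
    linarith

end KarpRO
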