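import Pool.Agent.Karp.Alg1

/-!
# The matching algorithm, part 2: the second moment
-/

namespace Karp

open Finset

theorem choose_ratio (m k : ℕ) (hkm : k ≤ m) (i : ℕ) (hik : i ≤ k) :
    (m - i).choose (k - i) * m ^ i ≤ m.choose k * k ^ i := by
  induction i with
  | zero => simp
  | succ i ih =>
    have ih' := ih (by omega)
    obtain ⟨a, ha⟩ : ∃ a, m - i = a + 1 := ⟨m - i - 1, by omega⟩
    obtain ⟨b, hb⟩ : ∃ b, k - i = b + 1 := ⟨k - i - 1, by omega⟩
    have e1 : m - (i + 1) = a := by omega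
    have e2 : k - (i + 1) = b := by omega
    rw [e1, e2]
    rw [ha, hb] at ih'
    have h1 := Nat.add_one_mul_choose_eq a b
    have h2 : (k - i) * m ≤ k * (m - i) := by
      rw [Nat.mul_sub, Nat.sub_mul]
      apply Nat.sub_le_sub_left
      rw [mul_comm]
      exact Nat.mul_le_mul_left i hkm
    rw [ha, hb] at h2
    have h3 : (a + 1) * (a.choose b * m ^ (i + 1)) ≤ (a + 1) * (m.choose k * k ^ (i + 1)) := by
      calc (a + 1) * (a.choose b * m ^ (i + 1)) = ((a + 1) * a.choose b) * (m ^ i * m) := by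
            rw [pow_succ]; ring
        _ = ((a + 1).choose (b + 1) * (b + 1)) * (m ^ i * m) := by rw [← h1]
        _ = ((a + 1).choose (b + 1) * m ^ i) * ((b + 1) * m) := by ring
        _ ≤ (m.choose k * k ^ i) * (k * (a + 1)) := Nat.mul_le_mul ih' h2
        _ = _ := by rw [pow_succ]; ring
    exact Nat.le_of_mul_le_mul_left h3 (by omega)

section

variable {V : Type} [DecidableEq V]

theorem superset_count (L S : Finset V) (k : ℕ) (hS : S ⊆ L) :
    ((powersetCard k L).filter fun B => S ⊆ B).card ≤ (L.card - S.card).choose (k - S.card) := by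
  rw [← card_sdiff_of_subset hS, ← card_powersetCard]
  apply card_le_card_of_injOn (fun B => B \ S)
  · intro B hB
    rw [mem_coe, mem_filter, mem_powersetCard] at hB
    rw [mem_coe, mem_powersetCard]
    refine ⟨sdiff_subset_sdiff hB.1.1 subset_rfl, ?_⟩
    rw [card_sdiff_of_subset hB.2, hB.1.2]
  · intro B hB C hC h
    rw [mem_coe, mem_filter] at hB hC
    simp only at h
    rw [← sdiff_union_of_subset hB.2, ← sdiff_union_of_subset hC.2, h]

theorem pair_sum (L A : Finset V) (k : ℕ) (hA : A ⊆ L) (hk : A.card = k) (hkL : k ≤ L.card)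
    (hL : 0 < L.card) {y : ℝ} (hy : 0 ≤ y) (hy2 : ∀ i ≤ k, (2 : ℝ) ^ (i.choose 2) ≤ y ^ i)
    (hx : (k : ℝ) ^ 2 * y / L.card ≤ 1 / 2) :
    ∑ B ∈ powersetCard k L, (2 : ℝ) ^ ((A ∩ B).card.choose 2) ≤
      (L.card.choose k) * (1 + 2 * ((k : ℝ) ^ 2 * y / L.card) ^ 2) := by
  set x := (k : ℝ) ^ 2 * y / L.card with hxd
  have hx0 : 0 ≤ x := by positivity
  have hLR : (0 : ℝ) < L.card := by exact_mod_cast hL
  have h1 : ∀ B : Finset V, (2 : ℝ) ^ ((A ∩ B).card.choose 2) ≤
      1 + ∑ S ∈ A.powerset.filter (fun S => 2 ≤ S.card), if S ⊆ B then (2 : ℝ) ^ (S.card.choose 2)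
        else 0 := by
    intro B
    have hnn : ∀ S ∈ A.powerset.filter (fun S => 2 ≤ S.card),
        (0 : ℝ) ≤ if S ⊆ B then (2 : ℝ) ^ (S.card.choose 2) else 0 := by
      intro S _
      split_ifs <;> positivity
    rcases lt_or_ge (A ∩ B).card 2 with h | h
    · rw [Nat.choose_eq_zero_of_lt h, pow_zero]
      have := sum_nonneg hnn
      linarith
    · have h2 : A ∩ B ∈ A.powerset.filter (fun S => 2 ≤ S.card) :=
        mem_filter.2 ⟨mem_powerset.2 inter_subset_left, h⟩
      have h3 := single_le_sum hnn h2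
      rw [if_pos inter_subset_right] at h3
      linarith
  have h2 : ∑ B ∈ powersetCard k L, (2 : ℝ) ^ ((A ∩ B).card.choose 2) ≤
      (L.card.choose k : ℝ) + ∑ S ∈ A.powerset.filter (fun S => 2 ≤ S.card),
        (2 : ℝ) ^ (S.card.choose 2) * (((powersetCard k L).filter fun B => S ⊆ B).card : ℝ) := by
    refine (sum_le_sum fun B _ => h1 B).trans ?_
    rw [sum_add_distrib, sum_const, card_powersetCard, nsmul_eq_mul, mul_one, sum_comm]
    apply add_le_add le_rfl
    apply sum_le_sum
    intro S _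
    rw [← sum_filter, sum_const, nsmul_eq_mul, mul_comm]
  refine h2.trans ?_
  have h3 : ∀ S ∈ A.powerset.filter (fun S => 2 ≤ S.card),
      (2 : ℝ) ^ (S.card.choose 2) * (((powersetCard k L).filter fun B => S ⊆ B).card : ℝ) ≤
      (L.card.choose k) * (y ^ S.card * ((k : ℝ) / L.card) ^ S.card) := by
    intro S hS
    rw [mem_filter, mem_powerset] at hS
    have hSk : S.card ≤ k := hk ▸ card_le_card hS.1
    have h4 := superset_count L S k (hS.1.trans hA)
    have h5 := choose_ratio L.card k hkL S.card hSk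
    have h6 : (((powersetCard k L).filter fun B => S ⊆ B).card : ℝ) ≤
        (L.card.choose k) * ((k : ℝ) / L.card) ^ S.card := by
      have h7 : (((powersetCard k L).filter fun B => S ⊆ B).card : ℝ) * (L.card : ℝ) ^ S.card ≤
          (L.card.choose k) * (k : ℝ) ^ S.card := by
        exact_mod_cast (Nat.mul_le_mul_right _ h4).trans h5
      rw [div_pow, mul_div_assoc', le_div_iff₀ (by positivity)]
      exact h7
    calc _ ≤ y ^ S.card * ((L.card.choose k) * ((k : ℝ) / L.card) ^ S.card) :=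
          mul_le_mul (hy2 _ hSk) h6 (Nat.cast_nonneg _) (by positivity)
      _ = _ := by ring
  have h4 : ∑ S ∈ A.powerset.filter (fun S => 2 ≤ S.card),
      (y ^ S.card * ((k : ℝ) / L.card) ^ S.card) ≤ 2 * x ^ 2 := by
    have h5 : ∑ S ∈ A.powerset.filter (fun S => 2 ≤ S.card),
        (y ^ S.card * ((k : ℝ) / L.card) ^ S.card) =
        ∑ S ∈ A.powerset, if 2 ≤ S.card then (y ^ S.card * ((k : ℝ) / L.card) ^ S.card) else 0 :=
      sum_filter _ _
    rw [h5, sum_powerset_apply_card (fun i => if 2 ≤ i then (y ^ i * ((k : ℝ) / L.card) ^ i) else 0),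
      hk]
    have h6 : ∀ i ∈ range (k + 1), (k.choose i • if 2 ≤ i then (y ^ i * ((k : ℝ) / L.card) ^ i)
        else 0) ≤ if 2 ≤ i then x ^ i else 0 := by
      intro i _
      split_ifs with h
      · rw [nsmul_eq_mul]
        have h7 : ((k.choose i : ℕ) : ℝ) ≤ (k : ℝ) ^ i := by exact_mod_cast Nat.choose_le_pow k i
        calc ((k.choose i : ℕ) : ℝ) * (y ^ i * ((k : ℝ) / L.card) ^ i)
            ≤ (k : ℝ) ^ i * (y ^ i * ((k : ℝ) / L.card) ^ i) :=
              mul_le_mul_of_nonneg_right h7 (by positivity)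
          _ = x ^ i := by rw [hxd, ← mul_pow, ← mul_pow]; congr 1; ring
      · simp
    refine (sum_le_sum h6).trans ?_
    have h7 : ∀ n : ℕ, ∑ i ∈ range (n + 2), (if 2 ≤ i then x ^ i else 0) ≤
        2 * x ^ 2 - 2 * x ^ 2 * (1 / 2) ^ n := by
      intro n
      induction n with
      | zero =>
        rw [sum_range_succ, sum_range_succ]
        simp
      | succ n ih =>
        rw [show n + 1 + 2 = (n + 2) + 1 by ring, sum_range_succ, if_pos (by omega)]
        have h8 : x ^ (n + 2) ≤ x ^ 2 * (1 / 2) ^ n := by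
          rw [pow_add, mul_comm]
          exact mul_le_mul_of_nonneg_left (pow_le_pow_left₀ hx0 hx n) (by positivity)
        have h9 : 2 * x ^ 2 * (1 / 2 : ℝ) ^ (n + 1) = x ^ 2 * (1 / 2) ^ n := by
          rw [pow_succ]; ring
        rw [h9]
        linarith
    have h8 : ∑ i ∈ range (k + 1), (if 2 ≤ i then x ^ i else 0) ≤
        ∑ i ∈ range (k + 2), (if 2 ≤ i then x ^ i else 0) := by
      apply sum_le_sum_of_subset_of_nonneg (range_subset_range.2 (by omega))
      intro i _ _
      split_ifs <;> positivity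
    have h9 := h7 k
    have h10 : 0 ≤ 2 * x ^ 2 * (1 / 2 : ℝ) ^ k := by positivity
    linarith
  have h5 := (sum_le_sum h3)
  rw [← mul_sum] at h5
  have h6 := mul_le_mul_of_nonneg_left h4 (show (0 : ℝ) ≤ (L.card.choose k : ℝ) from
    Nat.cast_nonneg _)
  linarith

end

end Karp
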