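import Pool.Agent.Karp.Alg2

/-!
# The matching algorithm, part 3: cliques in a given set
-/

namespace Karp

open Finset

variable {V : Type} [Fintype V] [DecidableEq V]

theorem prs_inter (A B : Finset V) : prs A ∩ prs B = prs (A ∩ B) := by
  ext e
  rw [mem_inter, mem_prs, mem_prs, mem_prs, mem_sym2_iff, mem_sym2_iff, mem_sym2_iff]
  constructor
  · rintro ⟨h1, h2⟩ a ha
    exact mem_inter.2 ⟨h1 a ha, h2 a ha⟩
  · intro h
    exact ⟨fun a ha => (mem_inter.1 (h a ha)).1, fun a ha => (mem_inter.1 (h a ha)).2⟩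

/-- A given set contains a clique of the size predicted by the first moment. -/
theorem no_clique (L : Finset V) (k : ℕ) (hkL : k ≤ L.card) (hL : 0 < L.card) {y : ℝ}
    (hy : 0 ≤ y) (hy2 : ∀ i ≤ k, (2 : ℝ) ^ (i.choose 2) ≤ y ^ i)
    (hx : (k : ℝ) ^ 2 * y / L.card ≤ 1 / 2) :
    ((univ.filter fun g : Pr V → Bool =>
      ¬ ∃ A ∈ powersetCard k L, ∀ e ∈ prs A, g e = true).card : ℝ) ≤
      2 * ((k : ℝ) ^ 2 * y / L.card) ^ 2 * 2 ^ Fintype.card (Pr V) := by
  set x := (k : ℝ) ^ 2 * y / L.card with hxd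
  set N := (2 : ℝ) ^ Fintype.card (Pr V) with hN
  have hN0 : 0 < N := by positivity
  set P := powersetCard k L with hP
  set c := k.choose 2 with hc
  have hPc : P.card = L.card.choose k := card_powersetCard _ _
  have hPpos : (0 : ℝ) < P.card := by
    rw [hPc]
    exact_mod_cast Nat.choose_pos hkL
  set ind : (Pr V → Bool) → Finset V → ℝ := fun g A => if ∀ e ∈ prs A, g e = true then 1 else 0
    with hind
  set X : (Pr V → Bool) → ℝ := fun g => ∑ A ∈ P, ind g A with hX
  have hcount : ∀ Q : Finset (Pr V), (∑ g : Pr V → Bool, if ∀ e ∈ Q, g e = true then (1 : ℝ)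
      else 0) = N / 2 ^ Q.card := by
    intro Q
    rw [sum_boole, eq_div_iff (by positivity), hN]
    exact_mod_cast ones Q
  have hAc : ∀ A ∈ P, A.card = k := fun A hA => (mem_powersetCard.1 hA).2
  have hAL : ∀ A ∈ P, A ⊆ L := fun A hA => (mem_powersetCard.1 hA).1
  have S1 : ∑ g, X g = P.card * (N / 2 ^ c) := by
    rw [hX, sum_comm]
    have : ∀ A ∈ P, ∑ g, ind g A = N / 2 ^ c := by
      intro A hA
      rw [hind]
      simp only
      rw [hcount, prs_card, hAc A hA]
    rw [sum_congr rfl this, sum_const, nsmul_eq_mul]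
  have hprod : ∀ g A B, ind g A * ind g B = if ∀ e ∈ prs A ∪ prs B, g e = true then 1 else 0 := by
    intro g A B
    rw [hind]
    simp only
    by_cases h1 : ∀ e ∈ prs A, g e = true
    · by_cases h2 : ∀ e ∈ prs B, g e = true
      · rw [if_pos h1, if_pos h2, if_pos, one_mul]
        intro e he
        rw [mem_union] at he
        exact he.elim (h1 e) (h2 e)
      · rw [if_pos h1, if_neg h2, if_neg, one_mul]
        intro h
        exact h2 fun e he => h e (mem_union_right _ he)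
    · rw [if_neg h1, zero_mul, if_neg]
      intro h
      exact h1 fun e he => h e (mem_union_left _ he)
  have S2 : ∑ g, X g ^ 2 ≤ P.card * (P.card * (1 + 2 * x ^ 2)) * (N / (2 ^ c) ^ 2) := by
    have e1 : ∀ g, X g ^ 2 = ∑ A ∈ P, ∑ B ∈ P, ind g A * ind g B := by
      intro g
      rw [sq, hX]
      simp only
      rw [sum_mul_sum]
    have e2 : ∑ g, X g ^ 2 = ∑ A ∈ P, ∑ B ∈ P, ∑ g, ind g A * ind g B := by
      rw [sum_congr rfl fun g _ => e1 g, sum_comm]
      apply sum_congr rfl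
      intro A _
      rw [sum_comm]
    rw [e2]
    have e3 : ∀ A ∈ P, ∑ B ∈ P, ∑ g, ind g A * ind g B ≤
        (P.card * (1 + 2 * x ^ 2)) * (N / (2 ^ c) ^ 2) := by
      intro A hA
      have e4 : ∀ B ∈ P, ∑ g, ind g A * ind g B =
          (2 : ℝ) ^ ((A ∩ B).card.choose 2) * (N / (2 ^ c) ^ 2) := by
        intro B hB
        rw [sum_congr rfl fun g _ => hprod g A B, hcount]
        have h1 := card_union_add_card_inter (prs A) (prs B)
        rw [prs_inter, prs_card A, prs_card B, prs_card (A ∩ B), hAc A hA, hAc B hB, ← hc] at h1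
        rw [mul_div_assoc', div_eq_div_iff (by positivity) (by positivity)]
        have h2 : ((2 : ℝ) ^ c) ^ 2 = 2 ^ ((prs A ∪ prs B).card) * 2 ^ ((A ∩ B).card.choose 2) := by
          rw [← pow_add, h1, ← pow_mul]; congr 1; ring
        rw [h2]; ring
      rw [sum_congr rfl e4, ← sum_mul]
      apply mul_le_mul_of_nonneg_right _ (by positivity)
      rw [hPc]
      exact pair_sum L A k (hAL A hA) (hAc A hA) hkL hL hy hy2 hx
    refine (sum_le_sum e3).trans (le_of_eq ?_)
    rw [sum_const, nsmul_eq_mul]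
    ring
  set μ := (P.card : ℝ) / 2 ^ c with hμ
  have hμ0 : 0 < μ := by positivity
  have hS2 : ∑ g, X g ^ 2 ≤ μ ^ 2 * N * (1 + 2 * x ^ 2) := by
    refine S2.trans (le_of_eq ?_)
    rw [hμ]; field_simp
  have hS1 : ∑ g, X g = μ * N := by
    rw [S1, hμ]; ring
  have hvar : ∑ g, (X g - μ) ^ 2 ≤ μ ^ 2 * N * (2 * x ^ 2) := by
    have e1 : ∀ g, (X g - μ) ^ 2 = X g ^ 2 - 2 * μ * X g + μ ^ 2 := fun g => by ring
    rw [sum_congr rfl fun g _ => e1 g, sum_add_distrib, sum_sub_distrib, ← mul_sum, hS1,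
      sum_const, card_univ, Fintype.card_fun, Fintype.card_bool, nsmul_eq_mul]
    push_cast
    rw [← hN]
    nlinarith
  set Z := univ.filter fun g : Pr V → Bool =>
      ¬ ∃ A ∈ powersetCard k L, ∀ e ∈ prs A, g e = true with hZ
  have hZ2 : (Z.card : ℝ) * μ ^ 2 ≤ ∑ g, (X g - μ) ^ 2 := by
    have e1 : ∑ g ∈ Z, (X g - μ) ^ 2 ≤ ∑ g, (X g - μ) ^ 2 :=
      sum_le_sum_of_subset_of_nonneg (subset_univ _) fun g _ _ => sq_nonneg _
    have e2 : ∑ g ∈ Z, (X g - μ) ^ 2 = Z.card * μ ^ 2 := by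
      rw [sum_congr rfl (g := fun _ => μ ^ 2), sum_const, nsmul_eq_mul]
      intro g hg
      rw [hZ, mem_filter] at hg
      have : X g = 0 := by
        rw [hX]
        apply sum_eq_zero
        intro A hA
        rw [hind]
        simp only
        rw [if_neg]
        exact fun h => hg.2 ⟨A, hA, h⟩
      rw [this]; ring
    rw [← e2]; exact e1
  have h3 : (Z.card : ℝ) * μ ^ 2 ≤ (2 * x ^ 2 * N) * μ ^ 2 := by
    refine (hZ2.trans hvar).trans (le_of_eq ?_)
    ring
  exact le_of_mul_le_mul_right h3 (by positivity)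

end Karp
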