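import Pool.Agent.Karp.Alg3
import Pool.Agent.Karp.Model

/-!
# The matching algorithm, part 4: lists of instructions
-/

namespace Karp

open Finset

/-- An instruction: read a bit (or nothing), then update the state. -/
structure Ins (E S : Type) where
  q : S → Option E
  nx : S → Bool → S

section

variable {E S : Type}

/-- Run a list of instructions. -/
def run (g : E → Bool) : List (Ins E S) → S → S
  | [], s => s
  | I :: l, s => run g l (I.nx s (Prog.ans g (I.q s)))

@[simp] theorem run_nil (g : E → Bool) (s : S) : run g [] s = s := rfl

@[simp] theorem run_cons (g : E → Bool) (I : Ins E S) (l : List (Ins E S)) (s : S) :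
    run g (I :: l) s = run g l (I.nx s (Prog.ans g (I.q s))) := rfl

theorem run_append (g : E → Bool) (l m : List (Ins E S)) (s : S) :
    run g (l ++ m) s = run g m (run g l s) := by
  induction l generalizing s with
  | nil => rfl
  | cons I l ih => rw [List.cons_append, run_cons, run_cons, ih]

end

/-- Instructions which never read the same bit. -/
def Apart {E S : Type} (I J : Ins E S) : Prop := ∀ s s' e, I.q s = some e → J.q s' ≠ some e

section

variable {n M : ℕ} {S : Type}

/-- The program on graphs given by a list of instructions. -/
def toP (l : List (Ins (KarpRO.Pair n) S)) (s0 : S) (o : S → Finset (Fin n)) (eqv : S ≃ Fin M) :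
    KarpRO.Program n M where
  steps := l.length
  start := eqv s0
  query t s := (l[t]?).bind fun I => I.q (eqv.symm s)
  next t s b := (l[t]?).elim s fun I => eqv (I.nx (eqv.symm s) b)
  out s := o (eqv.symm s)

open Classical in
/-- The labelling of a graph. -/
noncomputable def lab (G : SimpleGraph (Fin n)) : KarpRO.Pair n → Bool :=
  fun e => decide (e.1 ∈ G.edgeSet)

theorem toP_state (l : List (Ins (KarpRO.Pair n) S)) (s0 : S) (o : S → Finset (Fin n))
    (eqv : S ≃ Fin M) (G : SimpleGraph (Fin n)) (t : ℕ) :
    (toP l s0 o eqv).state G t = eqv (run (lab G) (l.take t) s0) := by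
  induction t with
  | zero => rfl
  | succ t ih =>
    rw [KarpRO.Program.state, ih]
    have hans : ∀ x : Option (KarpRO.Pair n),
        KarpRO.Program.answer G x = Prog.ans (lab G) x := by
      intro x
      cases x <;> rfl
    rcases lt_or_ge t l.length with h | h
    · have e1 : l[t]? = some l[t] := List.getElem?_eq_getElem h
      have e2 : l.take (t + 1) = l.take t ++ [l[t]] := by
        rw [List.take_add_one, e1]; rfl
      rw [e2, run_append]
      unfold toP
      simp only [e1, Option.bind_some, Option.elim_some, Equiv.symm_apply_apply, hans]
      rfl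
    · have e1 : l[t]? = none := List.getElem?_eq_none h
      have e2 : l.take (t + 1) = l.take t := by
        rw [List.take_of_length_le h, List.take_of_length_le (by omega)]
      rw [e2]
      unfold toP
      simp only [e1, Option.elim_none]

theorem toP_output (l : List (Ins (KarpRO.Pair n) S)) (s0 : S) (o : S → Finset (Fin n))
    (eqv : S ≃ Fin M) (G : SimpleGraph (Fin n)) :
    (toP l s0 o eqv).output G = o (run (lab G) l s0) := by
  unfold KarpRO.Program.output
  rw [toP_state]
  unfold toP
  simp only [Equiv.symm_apply_apply, List.take_length]

theorem toP_RO (l : List (Ins (KarpRO.Pair n) S)) (hl : l.Pairwise Apart) (s0 : S)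
    (o : S → Finset (Fin n)) (eqv : S ≃ Fin M) : (toP l s0 o eqv).ReadOnce := by
  intro G s t hst ht e h1 h2
  have ht' : t < l.length := ht
  have hs' : s < l.length := hst.trans ht'
  have e1 : l[t]? = some l[t] := List.getElem?_eq_getElem ht'
  have e2 : l[s]? = some l[s] := List.getElem?_eq_getElem hs'
  have h3 := (List.pairwise_iff_getElem.1 hl) s t hs' ht' hst
  unfold toP at h1 h2
  simp only [e1, e2, Option.bind_some] at h1 h2
  exact h3 _ _ _ h1 h2

end

end Karp
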