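import Pool.Agent.Karp.Alg4

/-!
# The matching algorithm, part 5: the instructions and their effect
-/

namespace Karp

open Finset

section

variable {V : Type} [DecidableEq V] {R b : ℕ}

/-- States: the vertex found in each block, and a table. -/
abbrev Sta (V : Type) (R : ℕ) := (Fin R → Option V) × (Fin R × Fin R → Bool)

/-- The pair `x y`, if `x` is in block `i` and `y` in block `j`. -/
def pairQ (blk : V → ℕ) (x y : V) (i j : ℕ) : Option (Pr V) :=
  if h : ¬ (s(x, y) : Sym2 V).IsDiag ∧ blk x = i ∧ blk y = j then some ⟨s(x, y), h.1⟩ else none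

theorem pairQ_some {blk : V → ℕ} {x y : V} {i j : ℕ} {e : Pr V} (h : pairQ blk x y i j = some e) :
    e.1 = s(x, y) ∧ blk x = i ∧ blk y = j := by
  unfold pairQ at h
  split_ifs at h with h1
  rw [Option.some_inj] at h
  rw [← h]
  exact ⟨rfl, h1.2⟩

/-- Query of a test. -/
def qT (blk : V → ℕ) (f : Fin R → Option V) (i : Fin R) (v : V) (l : Fin R) : Option (Pr V) :=
  (f l).bind fun w => pairQ blk w v l i

/-- Query of a store. -/
def qS (blk : V → ℕ) (f : Fin R → Option V) (i j : Fin R) : Option (Pr V) :=
  (f i).bind fun x => (f j).bind fun y => pairQ blk x y i j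

/-- Take `v` as candidate for block `i` if nothing has been found. -/
def iIni (i : Fin R) (v : V) : Ins (Pr V) (Sta V R) where
  q _ := none
  nx s _ := if s.1 i = none then (Function.update s.1 i (some v), s.2) else s

/-- If `v` is the candidate for block `i`, test it against the vertex of block `l`. -/
def iTst (blk : V → ℕ) (i : Fin R) (v : V) (l : Fin R) : Ins (Pr V) (Sta V R) where
  q s := if s.1 i = some v then qT blk s.1 i v l else none
  nx s b := if s.1 i = some v ∧ b = false then (Function.update s.1 i none, s.2) else s

/-- Store the adjacency of the vertices of blocks `i` and `j`. -/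
def iSto (blk : V → ℕ) (i j : Fin R) : Ins (Pr V) (Sta V R) where
  q s := qS blk s.1 i j
  nx s b := (s.1, Function.update s.2 (i, j) b)

/-- Result of a test. -/
def psB (blk : V → ℕ) (g : Pr V → Bool) (f : Fin R → Option V) (i : Fin R) (v : V) (l : Fin R) :
    Bool := Prog.ans g (qT blk f i v l)

theorem psB_congr (blk : V → ℕ) (g : Pr V → Bool) {f f' : Fin R → Option V} (i : Fin R) (v : V)
    {l : Fin R} (h : f l = f' l) : psB blk g f i v l = psB blk g f' i v l := by
  unfold psB qT
  rw [h]

theorem run_tests_ne (blk : V → ℕ) (g : Pr V → Bool) (s : Sta V R) (i : Fin R) (v : V)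
    (ls : List (Fin R)) (h : s.1 i ≠ some v) : run g (ls.map (iTst blk i v)) s = s := by
  induction ls with
  | nil => rfl
  | cons l ls ih =>
    rw [List.map_cons, run_cons]
    have : (iTst blk i v l).nx s (Prog.ans g ((iTst blk i v l).q s)) = s := by
      unfold iTst
      simp only
      rw [if_neg (fun h' => h h'.1)]
    rw [this, ih]

theorem run_tests (blk : V → ℕ) (g : Pr V → Bool) (s : Sta V R) (i : Fin R) (v : V)
    (ls : List (Fin R)) (h : s.1 i = some v) :
    run g (ls.map (iTst blk i v)) s =
      if ∀ l ∈ ls, psB blk g s.1 i v l = true then s else (Function.update s.1 i none, s.2) := by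
  induction ls with
  | nil => simp
  | cons l ls ih =>
    rw [List.map_cons, run_cons]
    have hq : Prog.ans g ((iTst blk i v l).q s) = psB blk g s.1 i v l := by
      unfold iTst psB
      simp only
      rw [if_pos h]
    rw [hq]
    by_cases hp : psB blk g s.1 i v l = true
    · have : (iTst blk i v l).nx s (psB blk g s.1 i v l) = s := by
        unfold iTst
        simp only
        rw [if_neg]
        rintro ⟨-, h2⟩
        rw [hp] at h2
        exact absurd h2 (by simp)
      rw [this, ih]
      apply if_congr _ rfl rfl
      rw [List.forall_mem_cons]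
      exact ⟨fun h1 => ⟨hp, h1⟩, fun h1 => h1.2⟩
    · have hp' : psB blk g s.1 i v l = false := by simpa using hp
      have : (iTst blk i v l).nx s (psB blk g s.1 i v l) = (Function.update s.1 i none, s.2) := by
        unfold iTst
        simp only
        rw [if_pos ⟨h, hp'⟩]
      rw [this, if_neg (fun h1 => hp (h1 l (List.mem_cons_self)))]
      apply run_tests_ne
      simp

/-- The first good candidate. -/
def fst (blk : V → ℕ) (g : Pr V → Bool) (f : Fin R → Option V) (i : Fin R) (vs : List V)
    (ls : List (Fin R)) : Option V :=
  vs.find? fun v => decide (∀ l ∈ ls, psB blk g f i v l = true)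

/-- Treatment of a list of candidates. -/
def candI (blk : V → ℕ) (i : Fin R) (vs : List V) (ls : List (Fin R)) :
    List (Ins (Pr V) (Sta V R)) :=
  vs.flatMap fun v => iIni i v :: ls.map (iTst blk i v)

theorem run_cands_some (blk : V → ℕ) (g : Pr V → Bool) (i : Fin R) (ls : List (Fin R))
    (vs : List V) (s : Sta V R) (w : V) (h : s.1 i = some w) (hw : w ∉ vs) :
    run g (candI blk i vs ls) s = s := by
  induction vs with
  | nil => rfl
  | cons v vs ih =>
    rw [List.mem_cons, not_or] at hw
    unfold candI at ih ⊢
    rw [List.flatMap_cons, run_append, run_cons]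
    have : (iIni i v).nx s (Prog.ans g ((iIni (R := R) i v).q s)) = s := by
      unfold iIni
      simp only
      rw [if_neg (by rw [h]; simp)]
    rw [this, run_tests_ne blk g s i v ls (by
      rw [h]; intro h'; exact hw.1 (Option.some_inj.1 h')), ih hw.2]

theorem run_cands (blk : V → ℕ) (g : Pr V → Bool) (i : Fin R) (ls : List (Fin R))
    (hls : ∀ l ∈ ls, l ≠ i) (vs : List V) (hvs : vs.Nodup) (s : Sta V R) (h : s.1 i = none) :
    run g (candI blk i vs ls) s = (Function.update s.1 i (fst blk g s.1 i vs ls), s.2) := by
  induction vs with
  | nil =>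
    unfold candI fst
    rw [List.flatMap_nil, run_nil, List.find?_nil, ← h, Function.update_eq_self]
  | cons v vs ih =>
    rw [List.nodup_cons] at hvs
    have ih' := ih hvs.2
    unfold candI at ih' ⊢
    rw [List.flatMap_cons, run_append, run_cons]
    have h1 : (iIni i v).nx s (Prog.ans g ((iIni (R := R) i v).q s)) =
        (Function.update s.1 i (some v), s.2) := by
      unfold iIni
      simp only
      rw [if_pos h]
    rw [h1]
    have h2 : ∀ l ∈ ls, psB blk g (Function.update s.1 i (some v)) i v l =
        psB blk g s.1 i v l := by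
      intro l hl
      apply psB_congr
      rw [Function.update_of_ne (hls l hl)]
    rw [run_tests blk g _ i v ls (by simp)]
    by_cases hp : ∀ l ∈ ls, psB blk g s.1 i v l = true
    · rw [if_pos (fun l hl => by rw [h2 l hl]; exact hp l hl)]
      have h3 : fst blk g s.1 i (v :: vs) ls = some v := by
        unfold fst
        rw [List.find?_cons_of_pos]
        exact decide_eq_true hp
      rw [h3]
      exact run_cands_some blk g i ls vs _ v (by simp) hvs.1
    · rw [if_neg (fun h' => hp (fun l hl => by rw [← h2 l hl]; exact h' l hl))]
      have h3 : fst blk g s.1 i (v :: vs) ls = fst blk g s.1 i vs ls := by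
        unfold fst
        rw [List.find?_cons_of_neg]
        simpa using hp
      have h4 : ((Function.update (Function.update s.1 i (some v)) i none, s.2) : Sta V R) = s := by
        rw [Function.update_idem, ← h, Function.update_eq_self]
      rw [h3, h4, ih']

/-- Storing does not change the vertices found. -/
theorem run_sto (blk : V → ℕ) (g : Pr V → Bool) (ps : List (Fin R × Fin R)) (s : Sta V R) :
    run g (ps.map fun p => iSto blk p.1 p.2) s =
      (s.1, fun p => if p ∈ ps then Prog.ans g (qS blk s.1 p.1 p.2) else s.2 p) := by
  induction ps generalizing s with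
  | nil => simp
  | cons p ps ih =>
    rw [List.map_cons, run_cons, ih]
    have h1 : (iSto blk p.1 p.2).nx s (Prog.ans g ((iSto blk p.1 p.2).q s)) =
        (s.1, Function.update s.2 p (Prog.ans g (qS blk s.1 p.1 p.2))) := rfl
    rw [h1]
    simp only
    congr 1
    funext q
    by_cases hq : q ∈ ps
    · rw [if_pos hq, if_pos (List.mem_cons_of_mem _ hq)]
    · rw [if_neg hq]
      by_cases hqp : q = p
      · subst hqp
        rw [Function.update_self, if_pos List.mem_cons_self]
      · rw [Function.update_of_ne hqp, if_neg]
        rw [List.mem_cons, not_or]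
        exact ⟨hqp, hq⟩

end

end Karp
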