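import Pool.Agent.Karp.Alg5

/-!
# The matching algorithm, part 6: the whole list of instructions
-/

namespace Karp

open Finset

/-- Data of the algorithm: `R` blocks of `b` vertices, of which `k1` belong to the first phase. -/
structure Blk (V : Type) (R b : ℕ) where
  vx : Fin R → Fin b → V
  blk : V → ℕ
  k1 : ℕ
  hblk : ∀ i u, blk (vx i u) = i
  hinj : ∀ i, Function.Injective (vx i)

namespace Blk

variable {V : Type} [DecidableEq V] {R b : ℕ} (D : Blk V R b)

/-- Candidates of block `i`. -/
def cand (i : Fin R) : List V := (List.finRange b).map (D.vx i)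

/-- Earlier blocks of the first phase. -/
def prev (i : Fin R) : List (Fin R) := (List.finRange R).filter fun l => l < i ∧ l.1 < D.k1

/-- Instructions for block `i`. -/
def blockI (i : Fin R) : List (Ins (Pr V) (Sta V R)) := candI D.blk i (D.cand i) (D.prev i)

/-- Pairs of blocks of the second phase. -/
def ps : List (Fin R × Fin R) :=
  ((List.finRange R).flatMap fun i => ((List.finRange R).filter fun j =>
    D.k1 ≤ i.1 ∧ i < j).map fun j => (i, j))

/-- The whole program. -/
def all : List (Ins (Pr V) (Sta V R)) :=
  ((List.finRange R).flatMap D.blockI) ++ D.ps.map fun p => iSto D.blk p.1 p.2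

theorem mem_prev {i l : Fin R} : l ∈ D.prev i ↔ l < i ∧ l.1 < D.k1 := by
  simp [prev]

theorem mem_cand {i : Fin R} {v : V} : v ∈ D.cand i ↔ ∃ u, D.vx i u = v := by
  simp [cand]

theorem mem_ps {p : Fin R × Fin R} : p ∈ D.ps ↔ D.k1 ≤ p.1.1 ∧ p.1 < p.2 := by
  obtain ⟨i, j⟩ := p
  unfold ps
  rw [List.mem_flatMap]
  constructor
  · rintro ⟨a, -, h⟩
    rw [List.mem_map] at h
    obtain ⟨c, hc, h⟩ := h
    rw [Prod.mk.injEq] at h
    obtain ⟨rfl, rfl⟩ := h
    rw [List.mem_filter] at hc
    simpa using hc.2
  · intro h
    refine ⟨i, List.mem_finRange _, ?_⟩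
    rw [List.mem_map]
    refine ⟨j, ?_, rfl⟩
    rw [List.mem_filter]
    exact ⟨List.mem_finRange _, by simpa using h⟩

theorem cand_nodup (i : Fin R) : (D.cand i).Nodup :=
  (List.nodup_finRange b).map (D.hinj i)

theorem blk_cand {i : Fin R} {v : V} (h : v ∈ D.cand i) : D.blk v = i := by
  obtain ⟨u, rfl⟩ := D.mem_cand.1 h
  exact D.hblk i u

/-- The vertices found in the first `m` blocks. -/
def FF (g : Pr V → Bool) : ℕ → (Fin R → Option V)
  | 0 => fun _ => none
  | m + 1 => if h : m < R then
      Function.update (FF g m) ⟨m, h⟩ (fst D.blk g (FF g m) ⟨m, h⟩ (D.cand ⟨m, h⟩) (D.prev ⟨m, h⟩))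
    else FF g m

theorem FF_none (g : Pr V → Bool) (m : ℕ) (i : Fin R) (h : m ≤ i.1) : D.FF g m i = none := by
  induction m with
  | zero => rfl
  | succ m ih =>
    unfold FF
    have hm : m < R := by omega
    rw [dif_pos hm, Function.update_of_ne]
    · exact ih (by omega)
    · intro h2
      rw [h2] at h
      simp at h

theorem FF_stable (g : Pr V → Bool) (i : Fin R) (m : ℕ) (h : i.1 + 1 ≤ m) :
    D.FF g m i = D.FF g (i.1 + 1) i := by
  induction m with
  | zero => omega
  | succ m ih =>
    rcases Nat.lt_or_ge i.1 m with h1 | h1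
    · rw [← ih (by omega)]
      conv_lhs => unfold FF
      split_ifs with h2
      · rw [Function.update_of_ne]
        intro h3
        rw [h3] at h1
        simp at h1
      · rfl
    · have : m = i.1 := by omega
      rw [this]

theorem FF_self (g : Pr V → Bool) (i : Fin R) :
    D.FF g (i.1 + 1) i = fst D.blk g (D.FF g i.1) i (D.cand i) (D.prev i) := by
  conv_lhs => unfold FF
  rw [dif_pos i.2, Function.update_self]

theorem FF_cand (g : Pr V → Bool) (m : ℕ) (i : Fin R) (v : V) (h : D.FF g m i = some v) :
    v ∈ D.cand i := by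
  rcases Nat.lt_or_ge i.1 m with h1 | h1
  · rw [D.FF_stable g i m h1, FF_self] at h
    exact List.mem_of_find?_eq_some h
  · rw [D.FF_none g m i h1] at h
    exact absurd h (by simp)

theorem FF_adj (g : Pr V → Bool) (i l : Fin R) (v : V) (h : D.FF g R i = some v)
    (hl : l ∈ D.prev i) : psB D.blk g (D.FF g R) i v l = true := by
  rw [D.FF_stable g i R i.2, FF_self] at h
  have h2 := List.find?_some h
  have h3 := of_decide_eq_true h2 l hl
  rw [← h3]
  apply psB_congr
  rw [D.mem_prev] at hl
  rw [D.FF_stable g l R l.2, D.FF_stable g l i.1 (by have := hl.1; omega)]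

theorem run_blocks (g : Pr V → Bool) (m : ℕ) (hm : m ≤ R) :
    run g (((List.finRange R).take m).flatMap D.blockI) (fun _ => none, fun _ => false) =
      (D.FF g m, fun _ => false) := by
  induction m with
  | zero => rfl
  | succ m ih =>
    have hmR : m < R := hm
    have e1 : (List.finRange R).take (m + 1) = (List.finRange R).take m ++ [⟨m, hmR⟩] := by
      rw [List.take_add_one]
      congr 1
      rw [List.getElem?_eq_getElem (by rw [List.length_finRange]; exact hmR)]
      simp
    rw [e1, List.flatMap_append, run_append, ih (by omega)]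
    have e2 : ([⟨m, hmR⟩] : List (Fin R)).flatMap D.blockI = D.blockI ⟨m, hmR⟩ := by
      simp
    rw [e2]
    unfold blockI
    rw [run_cands D.blk g ⟨m, hmR⟩ _ (by
      intro l hl
      rw [D.mem_prev] at hl
      exact ne_of_lt hl.1) _ (D.cand_nodup _) _ (D.FF_none g m _ le_rfl)]
    simp only
    congr 1
    conv_rhs => unfold FF
    rw [dif_pos hmR]

theorem run_all (g : Pr V → Bool) :
    run g D.all (fun _ => none, fun _ => false) =
      (D.FF g R, fun p => if p ∈ D.ps then Prog.ans g (qS D.blk (D.FF g R) p.1 p.2) else false) := by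
  unfold all
  rw [run_append]
  have h := D.run_blocks g R le_rfl
  have e : (List.finRange R).take R = List.finRange R := by
    apply List.take_of_length_le
    rw [List.length_finRange]
  rw [e] at h
  rw [h, run_sto]

/-- The pairs which can influence the first `m` blocks. -/
theorem FF_congr (g h : Pr V → Bool) (m : ℕ)
    (H : ∀ e : Pr V, (∃ x ∈ e.1, D.blk x < D.k1) → (∀ x ∈ e.1, D.blk x < m) → g e = h e) :
    D.FF g m = D.FF h m := by
  induction m with
  | zero => rfl
  | succ m ih =>
    have ih' := ih (fun e h1 h2 => H e h1 fun x hx => (h2 x hx).trans (Nat.lt_succ_self m))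
    unfold FF
    split_ifs with hm
    · rw [ih']
      congr 1
      unfold fst
      apply List.find?_congr
      intro v hv
      congr 1
      rw [eq_iff_iff]
      apply forall₂_congr
      intro l hl
      have : psB D.blk g (D.FF h m) ⟨m, hm⟩ v l = psB D.blk h (D.FF h m) ⟨m, hm⟩ v l := by
        unfold psB
        cases hq : qT D.blk (D.FF h m) ⟨m, hm⟩ v l with
        | none => rfl
        | some e =>
          show g e = h e
          unfold qT at hq
          rw [Option.bind_eq_some_iff] at hq
          obtain ⟨w, -, hw⟩ := hq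
          obtain ⟨he, h1, h2⟩ := pairQ_some hw
          rw [D.mem_prev] at hl
          apply H
          · refine ⟨w, ?_, ?_⟩
            · rw [he]; exact Sym2.mem_mk_left _ _
            · rw [h1]; exact hl.2
          · intro x hx
            rw [he, Sym2.mem_iff] at hx
            rcases hx with rfl | rfl
            · rw [h1]
              have : l.1 < m := hl.1
              omega
            · rw [h2]
              exact Nat.lt_succ_self m
      rw [this]
    · exact ih'

end Blk

end Karp
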