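import Pool.Agent.Karp.Alg6

/-!
# The matching algorithm, part 7: no pair is read twice
-/

namespace Karp

open Finset

namespace Blk

variable {V : Type} {R b : ℕ} (D : Blk V R b)

/-- All pairs read by `I` go from block `l` to a vertex of block `i` satisfying `C`. -/
def Has (I : Ins (Pr V) (Sta V R)) (l i : ℕ) (C : V → Prop) : Prop :=
  ∀ s e, I.q s = some e → ∃ w v, e.1 = s(w, v) ∧ D.blk w = l ∧ D.blk v = i ∧ C v

theorem apart_of {I J : Ins (Pr V) (Sta V R)} {l i l' i' : ℕ} {C C' : V → Prop}
    (h1 : D.Has I l i C) (h2 : D.Has J l' i' C') (hl : l < i) (hl' : l' < i')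
    (h : l = l' → i = i' → ∀ v, C v → C' v → False) : Apart I J := by
  intro s s' e he he'
  obtain ⟨w, v, e1, hw, hv, hc⟩ := h1 s e he
  obtain ⟨w', v', e2, hw', hv', hc'⟩ := h2 s' e he'
  rw [e1, Sym2.eq_iff] at e2
  rcases e2 with ⟨a, c⟩ | ⟨a, c⟩
  · subst a c
    exact h (hw ▸ hw') (hv ▸ hv') _ hc hc'
  · subst a c
    omega

variable [DecidableEq V]

theorem has_tst (i : Fin R) (v : V) (l : Fin R) : D.Has (iTst D.blk i v l) l i (fun x => x = v) := by
  intro s e he
  unfold iTst at he
  simp only at he
  split_ifs at he with h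
  unfold qT at he
  rw [Option.bind_eq_some_iff] at he
  obtain ⟨w, -, hw⟩ := he
  obtain ⟨h1, h2, h3⟩ := pairQ_some hw
  exact ⟨w, v, h1, h2, h3, rfl⟩

theorem has_sto (i j : Fin R) : D.Has (iSto D.blk i j) i j (fun _ => True) := by
  intro s e he
  unfold iSto qS at he
  simp only at he
  rw [Option.bind_eq_some_iff] at he
  obtain ⟨x, -, he⟩ := he
  rw [Option.bind_eq_some_iff] at he
  obtain ⟨y, -, he⟩ := he
  obtain ⟨h1, h2, h3⟩ := pairQ_some he
  exact ⟨x, y, h1, h2, h3, trivial⟩

omit [DecidableEq V] in
theorem apart_none {I J : Ins (Pr V) (Sta V R)} (h : ∀ s, I.q s = none) : Apart I J := by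
  intro s s' e he
  rw [h s] at he
  exact absurd he (by simp)

omit [DecidableEq V] in
theorem apart_none' {I J : Ins (Pr V) (Sta V R)} (h : ∀ s, J.q s = none) : Apart I J := by
  intro s s' e _
  rw [h s']
  simp

theorem mem_blockI {i : Fin R} {I : Ins (Pr V) (Sta V R)} (h : I ∈ D.blockI i) :
    (∀ s, I.q s = none) ∨ ∃ l : Fin R, l ∈ D.prev i ∧ D.Has I l i (fun _ => True) := by
  unfold blockI candI at h
  rw [List.mem_flatMap] at h
  obtain ⟨v, -, h⟩ := h
  rw [List.mem_cons] at h
  rcases h with rfl | h
  · left; intro s; rfl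
  · right
    rw [List.mem_map] at h
    obtain ⟨l, hl, rfl⟩ := h
    refine ⟨l, hl, ?_⟩
    intro s e he
    obtain ⟨w, v', h1, h2, h3, -⟩ := D.has_tst i v l s e he
    exact ⟨w, v', h1, h2, h3, trivial⟩

theorem blockI_apart (i : Fin R) : (D.blockI i).Pairwise Apart := by
  unfold blockI candI
  rw [List.pairwise_flatMap]
  constructor
  · intro v _
    rw [List.pairwise_cons]
    constructor
    · intro J _
      exact apart_none fun s => rfl
    · rw [List.pairwise_map]
      have hnd : (D.prev i).Nodup := (List.nodup_finRange R).filter _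
      apply List.Pairwise.imp_of_mem _ hnd
      intro l l' hl hl' hne
      rw [D.mem_prev] at hl hl'
      apply D.apart_of (D.has_tst i v l) (D.has_tst i v l') hl.1 hl'.1
      intro h
      exact absurd (Fin.ext h) hne
  · apply List.Pairwise.imp_of_mem _ (D.cand_nodup i)
    intro v v' _ _ hne x hx y hy
    rw [List.mem_cons] at hx hy
    rcases hx with rfl | hx
    · exact apart_none fun s => rfl
    · rcases hy with rfl | hy
      · exact apart_none' fun s => rfl
      · rw [List.mem_map] at hx hy
        obtain ⟨l, hl, rfl⟩ := hx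
        obtain ⟨l', hl', rfl⟩ := hy
        rw [D.mem_prev] at hl hl'
        apply D.apart_of (D.has_tst i v l) (D.has_tst i v' l') hl.1 hl'.1
        intro _ _ u hu hu'
        exact hne (hu ▸ hu')

theorem ps_nodup : D.ps.Nodup := by
  unfold ps
  rw [List.nodup_flatMap]
  constructor
  · intro i _
    apply List.Nodup.map
    · intro a c h
      exact (Prod.mk.inj h).2
    · exact (List.nodup_finRange R).filter _
  · apply List.Pairwise.imp _ (List.nodup_finRange R)
    intro i i' hne
    rw [Function.onFun, List.disjoint_left]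
    intro p hp hp'
    rw [List.mem_map] at hp hp'
    obtain ⟨j, -, rfl⟩ := hp
    obtain ⟨j', -, h⟩ := hp'
    exact hne (Prod.mk.inj h).1.symm

theorem all_apart : D.all.Pairwise Apart := by
  unfold all
  rw [List.pairwise_append]
  refine ⟨?_, ?_, ?_⟩
  · rw [List.pairwise_flatMap]
    refine ⟨fun i _ => D.blockI_apart i, ?_⟩
    apply List.Pairwise.imp _ (List.nodup_finRange R)
    intro i i' hne x hx y hy
    rcases D.mem_blockI hx with h | ⟨l, hl, h⟩
    · exact apart_none h
    · rcases D.mem_blockI hy with h' | ⟨l', hl', h'⟩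
      · exact apart_none' h'
      · rw [D.mem_prev] at hl hl'
        apply D.apart_of h h' hl.1 hl'.1
        intro _ h2
        exact absurd (Fin.ext h2) hne
  · rw [List.pairwise_map]
    apply List.Pairwise.imp_of_mem _ D.ps_nodup
    rintro ⟨i, j⟩ ⟨i', j'⟩ hp hp' hne
    rw [D.mem_ps] at hp hp'
    apply D.apart_of (D.has_sto i j) (D.has_sto i' j') hp.2 hp'.2
    intro h1 h2
    exact absurd (Prod.ext (Fin.ext h1) (Fin.ext h2)) hne
  · intro x hx y hy
    rw [List.mem_flatMap] at hx
    obtain ⟨i, -, hx⟩ := hx
    rw [List.mem_map] at hy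
    obtain ⟨⟨i', j'⟩, hp, rfl⟩ := hy
    rw [D.mem_ps] at hp
    rcases D.mem_blockI hx with h | ⟨l, hl, h⟩
    · exact apart_none h
    · rw [D.mem_prev] at hl
      apply D.apart_of h (D.has_sto i' j') hl.1 hp.2
      intro h1 _
      exfalso
      have h3 : D.k1 ≤ i'.1 := hp.1
      have h4 : l.1 < D.k1 := hl.2
      have h5 : l.1 = i'.1 := h1
      omega

omit [DecidableEq V] in
theorem length_flatMap_le {α β : Type} (l : List α) (f : α → List β) (c : ℕ)
    (h : ∀ x ∈ l, (f x).length ≤ c) : (l.flatMap f).length ≤ l.length * c := by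
  induction l with
  | nil => simp
  | cons x l ih =>
    rw [List.flatMap_cons, List.length_append, List.length_cons, add_mul, one_mul, add_comm]
    exact Nat.add_le_add (ih fun y hy => h y (List.mem_cons_of_mem _ hy))
      (h x List.mem_cons_self)

theorem all_length : D.all.length ≤ R * (b * (R + 1)) + R * R := by
  unfold all
  rw [List.length_append, List.length_map]
  apply Nat.add_le_add
  · have h := length_flatMap_le (List.finRange R) D.blockI (b * (R + 1)) (by
      intro i _
      unfold blockI candI
      have h2 := length_flatMap_le (D.cand i)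
        (fun v => iIni i v :: (D.prev i).map (iTst D.blk i v)) (R + 1) (by
        intro v _
        rw [List.length_cons, List.length_map]
        have : (D.prev i).length ≤ R := by
          unfold prev
          refine (List.length_filter_le _ _).trans ?_
          rw [List.length_finRange]
        omega)
      have h3 : (D.cand i).length = b := by
        unfold cand
        rw [List.length_map, List.length_finRange]
      rw [h3] at h2
      exact h2)
    rw [List.length_finRange] at h
    exact h
  · unfold ps
    have h := length_flatMap_le (List.finRange R) (fun i => ((List.finRange R).filter fun j =>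
      D.k1 ≤ i.1 ∧ i < j).map fun j => (i, j)) R (by
      intro i _
      rw [List.length_map]
      refine (List.length_filter_le _ _).trans ?_
      rw [List.length_finRange])
    rw [List.length_finRange] at h
    exact h

end Blk

end Karp
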