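import Pool.Agent.Karp.Alg7

/-!
# The matching algorithm, part 8: probability of failure
-/

namespace Karp

open Finset

namespace Blk

variable {V : Type} [Fintype V] [DecidableEq V] {R b : ℕ} (D : Blk V R b)

theorem card_fst (i : Fin R) (f : Fin R → Option V) (hf : ∀ l < i, f l ≠ none) :
    ((univ.filter fun g : Pr V → Bool => D.FF g i.1 = f ∧
      fst D.blk g f i (D.cand i) (D.prev i) = none).card : ℝ) ≤
    (1 - 1 / 2 ^ D.k1) ^ b * ((univ.filter fun g : Pr V → Bool => D.FF g i.1 = f).card : ℝ) := by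
  classical
  have hp0 : (0 : ℝ) ≤ 1 - 1 / 2 ^ D.k1 := by
    have : (1 : ℝ) / 2 ^ D.k1 ≤ 1 := by
      rw [div_le_one (by positivity)]
      exact one_le_pow₀ (by norm_num)
    linarith
  by_cases hne : ∃ g0, D.FF g0 i.1 = f
  swap
  · have : (univ.filter fun g : Pr V → Bool => D.FF g i.1 = f ∧
      fst D.blk g f i (D.cand i) (D.prev i) = none) = ∅ := by
      rw [filter_eq_empty_iff]
      intro g _ h
      exact hne ⟨g, h.1⟩
    rw [this, card_empty]
    push_cast
    positivity
  obtain ⟨g0, hg0⟩ := hne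
  have hblk : ∀ l w, f l = some w → D.blk w = l := by
    intro l w h
    rw [← hg0] at h
    exact D.blk_cand (D.FF_cand g0 i.1 l w h)
  set K : Finset V := univ.filter fun w => ∃ l ∈ D.prev i, f l = some w with hK
  set B : Finset V := (D.cand i).toFinset with hB
  have hBc : B.card = b := by
    rw [hB, List.toFinset_card_of_nodup (D.cand_nodup i)]
    unfold cand
    rw [List.length_map, List.length_finRange]
  have hBb : ∀ v ∈ B, D.blk v = i := by
    intro v hv
    rw [hB, List.mem_toFinset] at hv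
    exact D.blk_cand hv
  have hKb : ∀ w ∈ K, D.blk w < i.1 ∧ D.blk w < D.k1 := by
    intro w hw
    rw [hK, mem_filter] at hw
    obtain ⟨-, l, hl, hlw⟩ := hw
    rw [D.mem_prev] at hl
    rw [hblk l w hlw]
    exact hl
  have hKc : K.card ≤ D.k1 := by
    rw [← card_range D.k1]
    apply card_le_card_of_injOn D.blk
    · intro w hw
      rw [mem_coe, mem_range]
      exact (hKb w hw).2
    · intro w hw w' hw' h
      rw [mem_coe, hK, mem_filter] at hw hw'
      obtain ⟨-, l, hl, hlw⟩ := hw
      obtain ⟨-, l', hl', hlw'⟩ := hw'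
      rw [hblk l w hlw, hblk l' w' hlw'] at h
      have : l = l' := Fin.ext h
      rw [this, hlw'] at hlw
      exact (Option.some_inj.1 hlw).symm
  have hKB : Disjoint K B := by
    rw [disjoint_left]
    intro w hw hw'
    have h1 := (hKb w hw).1
    rw [hBb w hw'] at h1
    exact lt_irrefl _ h1
  have hs := search K B hKB
  set P : (Pr V → Bool) → Prop := fun g => D.FF g i.1 = f with hP
  set Q : (Pr V → Bool) → Prop := fun g => ∀ w ∈ B, ∃ e ∈ cross {w} K, g e = false with hQ
  have hsub : (univ.filter fun g : Pr V → Bool => D.FF g i.1 = f ∧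
      fst D.blk g f i (D.cand i) (D.prev i) = none) ⊆ univ.filter fun g => P g ∧ Q g := by
    intro g hg
    rw [mem_filter] at hg ⊢
    refine ⟨mem_univ _, hg.2.1, ?_⟩
    intro v hv
    have hvc : v ∈ D.cand i := by rw [hB, List.mem_toFinset] at hv; exact hv
    have h1 := hg.2.2
    unfold fst at h1
    rw [List.find?_eq_none] at h1
    have h2 := h1 v hvc
    rw [decide_eq_true_eq] at h2
    push Not at h2
    obtain ⟨l, hl, h3⟩ := h2
    have hl' := (D.mem_prev.1 hl)
    obtain ⟨w, hw⟩ := Option.ne_none_iff_exists'.1 (hf l hl'.1)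
    have hwv : ¬ (s(w, v) : Sym2 V).IsDiag := by
      intro h4
      have h5 : w = v := h4
      have h6 := hblk l w hw
      rw [h5, D.blk_cand hvc] at h6
      have := hl'.1
      omega
    refine ⟨⟨s(w, v), hwv⟩, ?_, ?_⟩
    · unfold cross
      rw [mem_filter]
      refine ⟨mem_univ _, v, mem_singleton_self v, w, ?_, Sym2.eq_swap⟩
      rw [hK, mem_filter]
      exact ⟨mem_univ _, l, hl, hw⟩
    · have h4 : psB D.blk g f i v l = g ⟨s(w, v), hwv⟩ := by
        unfold psB qT
        rw [hw]
        simp only [Option.bind_some]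
        unfold pairQ
        rw [dif_pos ⟨hwv, hblk l w hw, D.blk_cand hvc⟩]
        rfl
      rw [h4] at h3
      simpa using h3
  have hind := indepR (cross B K) P Q (by
    intro g h hgh hg
    rw [hP] at hg ⊢
    simp only at hg ⊢
    rw [← hg]
    apply D.FF_congr
    intro e _ he
    symm
    apply hgh
    intro hc
    unfold cross at hc
    rw [mem_filter] at hc
    obtain ⟨-, v, hv, w, hw, h1⟩ := hc
    have h2 := he v (by rw [h1]; exact Sym2.mem_mk_left _ _)
    rw [hBb v hv] at h2
    exact lt_irrefl _ h2) (by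
    intro g h hgh hg v hv
    obtain ⟨e, he, h0⟩ := hg v hv
    refine ⟨e, he, ?_⟩
    rw [← hgh e ?_]
    · exact h0
    · unfold cross at he ⊢
      rw [mem_filter] at he ⊢
      obtain ⟨-, v', hv', w, hw, h1⟩ := he
      rw [mem_singleton] at hv'
      exact ⟨mem_univ _, v, hv, w, hw, by rw [h1, hv']⟩)
  have hN : (0 : ℝ) < 2 ^ Fintype.card (Pr V) := by positivity
  have hQc : ((univ.filter Q).card : ℝ) ≤ (1 - 1 / 2 ^ D.k1) ^ b * 2 ^ Fintype.card (Pr V) := by
    have h1 : (0 : ℝ) ≤ 1 - 1 / 2 ^ K.card := by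
      have : (1 : ℝ) / 2 ^ K.card ≤ 1 := by
        rw [div_le_one (by positivity)]
        exact one_le_pow₀ (by norm_num)
      linarith
    have h2 : (1 : ℝ) - 1 / 2 ^ K.card ≤ 1 - 1 / 2 ^ D.k1 := by
      have : (1 : ℝ) / 2 ^ D.k1 ≤ 1 / 2 ^ K.card :=
        one_div_le_one_div_of_le (by positivity) (pow_le_pow_right₀ (by norm_num) hKc)
      linarith
    have h3 := pow_le_pow_left₀ h1 h2 b
    have h4 := mul_le_mul_of_nonneg_right h3 hN.le
    rw [hBc] at hs
    refine le_trans (le_of_eq ?_) h4
    convert hs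
  have h1 : ((univ.filter fun g => P g ∧ Q g).card : ℝ) ≤
      (1 - 1 / 2 ^ D.k1) ^ b * ((univ.filter P).card : ℝ) := by
    apply le_of_mul_le_mul_right _ hN
    rw [hind]
    calc ((univ.filter P).card : ℝ) * ((univ.filter Q).card : ℝ)
        ≤ ((univ.filter P).card : ℝ) * ((1 - 1 / 2 ^ D.k1) ^ b * 2 ^ Fintype.card (Pr V)) :=
          mul_le_mul_of_nonneg_left hQc (Nat.cast_nonneg _)
      _ = _ := by ring
  have h2 : ((univ.filter fun g : Pr V → Bool => D.FF g i.1 = f ∧
      fst D.blk g f i (D.cand i) (D.prev i) = none).card : ℝ) ≤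
      ((univ.filter fun g => P g ∧ Q g).card : ℝ) := by
    exact_mod_cast card_le_card hsub
  exact h2.trans (h1.trans le_rfl)

theorem card_fail (i : Fin R) :
    ((univ.filter fun g : Pr V → Bool => (∀ l < i, D.FF g i.1 l ≠ none) ∧
      D.FF g (i.1 + 1) i = none).card : ℝ) ≤
    (1 - 1 / 2 ^ D.k1) ^ b * 2 ^ Fintype.card (Pr V) := by
  classical
  set Z := univ.filter fun g : Pr V → Bool => (∀ l < i, D.FF g i.1 l ≠ none) ∧
      D.FF g (i.1 + 1) i = none with hZ
  have h1 : (Z.card : ℝ) = ∑ f : Fin R → Option V, ((Z.filter fun g => D.FF g i.1 = f).card : ℝ) := by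
    have := card_eq_sum_card_fiberwise (f := fun g : Pr V → Bool => D.FF g i.1)
      (s := Z) (t := univ) (fun _ _ => mem_coe.2 (mem_univ _))
    exact_mod_cast this
  have h2 : (∑ f : Fin R → Option V,
      ((univ.filter fun g : Pr V → Bool => D.FF g i.1 = f).card : ℝ)) =
      2 ^ Fintype.card (Pr V) := by
    have := card_eq_sum_card_fiberwise (f := fun g : Pr V → Bool => D.FF g i.1)
      (s := univ) (t := univ) (fun _ _ => mem_coe.2 (mem_univ _))
    rw [card_univ, Fintype.card_fun, Fintype.card_bool] at this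
    exact_mod_cast this.symm
  rw [h1, ← h2, mul_sum]
  apply sum_le_sum
  intro f _
  by_cases hf : ∀ l < i, f l ≠ none
  · refine le_trans ?_ (D.card_fst i f hf)
    have hsub : (Z.filter fun g => D.FF g i.1 = f) ⊆
        (univ.filter fun g : Pr V → Bool => D.FF g i.1 = f ∧
          fst D.blk g f i (D.cand i) (D.prev i) = none) := by
      intro g hg
      rw [mem_filter, hZ, mem_filter] at hg
      rw [mem_filter]
      refine ⟨mem_univ _, hg.2, ?_⟩
      have h3 := hg.1.2.2
      rw [D.FF_self, hg.2] at h3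
      exact h3
    exact_mod_cast card_le_card hsub
  · have : (Z.filter fun g => D.FF g i.1 = f) = ∅ := by
      rw [filter_eq_empty_iff]
      intro g hg h
      rw [hZ, mem_filter] at hg
      apply hf
      rw [← h]
      exact hg.2.1
    rw [this, card_empty]
    have hp0 : (0 : ℝ) ≤ 1 - 1 / 2 ^ D.k1 := by
      have : (1 : ℝ) / 2 ^ D.k1 ≤ 1 := by
        rw [div_le_one (by positivity)]
        exact one_le_pow₀ (by norm_num)
      linarith
    push_cast
    positivity

theorem card_fail_total :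
    ((univ.filter fun g : Pr V → Bool => ∃ i, D.FF g R i = none).card : ℝ) ≤
    R * ((1 - 1 / 2 ^ D.k1) ^ b * 2 ^ Fintype.card (Pr V)) := by
  classical
  set Z : Fin R → Finset (Pr V → Bool) := fun i => univ.filter fun g : Pr V → Bool =>
    (∀ l < i, D.FF g i.1 l ≠ none) ∧ D.FF g (i.1 + 1) i = none with hZ
  have hsub : (univ.filter fun g : Pr V → Bool => ∃ i, D.FF g R i = none) ⊆ univ.biUnion Z := by
    intro g hg
    rw [mem_filter] at hg
    obtain ⟨-, i, hi⟩ := hg
    rw [mem_biUnion]
    have hne : (univ.filter fun i : Fin R => D.FF g R i = none).Nonempty :=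
      ⟨i, mem_filter.2 ⟨mem_univ _, hi⟩⟩
    set i0 := (univ.filter fun i : Fin R => D.FF g R i = none).min' hne with hi0
    have h1 := (mem_filter.1 (min'_mem _ hne)).2
    refine ⟨i0, mem_univ _, ?_⟩
    rw [hZ, mem_filter]
    refine ⟨mem_univ _, ?_, ?_⟩
    · intro l hl h2
      have h3 : D.FF g R l = none := by
        rw [D.FF_stable g l R l.2, ← D.FF_stable g l i0.1 (by have := hl; omega)]
        exact h2
      have h3' : l ∈ univ.filter fun i : Fin R => D.FF g R i = none :=
        mem_filter.2 ⟨mem_univ _, h3⟩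
      have h4 := min'_le _ l h3'
      exact absurd (lt_of_lt_of_le hl h4) (lt_irrefl _)
    · rw [← D.FF_stable g i0 R i0.2]
      exact h1
  have h1 : ((univ.filter fun g : Pr V → Bool => ∃ i, D.FF g R i = none).card : ℝ) ≤
      ∑ i, ((Z i).card : ℝ) := by
    exact_mod_cast (card_le_card hsub).trans card_biUnion_le
  refine h1.trans ?_
  refine (sum_le_sum fun i _ => D.card_fail i).trans (le_of_eq ?_)
  rw [sum_const, card_univ, Fintype.card_fin, nsmul_eq_mul]

end Blk

end Karp
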