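import Pool.Agent.Karp.Alg8

/-!
# The matching algorithm, part 9: the second phase and the output
-/

namespace Karp

open Finset

namespace Blk

variable {V : Type} [Fintype V] [DecidableEq V] {R b : ℕ} (D : Blk V R b)

/-- The vertices found in the second phase. -/
def LL (f : Fin R → Option V) : Finset V :=
  univ.filter fun v => ∃ j : Fin R, D.k1 ≤ j.1 ∧ f j = some v

theorem LL_card (f : Fin R → Option V) (w : Fin R → V) (hf : ∀ j, f j = some (w j))
    (hb : ∀ j, D.blk (w j) = j) (hk : D.k1 ≤ R) : (D.LL f).card = R - D.k1 := by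
  classical
  have h1 : D.LL f = (univ.filter fun j : Fin R => D.k1 ≤ j.1).image w := by
    ext v
    rw [mem_image]
    unfold LL
    rw [mem_filter]
    constructor
    · rintro ⟨-, j, h1, h2⟩
      refine ⟨j, mem_filter.2 ⟨mem_univ _, h1⟩, ?_⟩
      rw [hf j] at h2
      exact Option.some_inj.1 h2
    · rintro ⟨j, h1, rfl⟩
      exact ⟨mem_univ _, j, (mem_filter.1 h1).2, hf j⟩
  have hinj : Function.Injective w := by
    intro i j h
    apply Fin.ext
    rw [← hb i, ← hb j, h]
  rw [h1, card_image_of_injective _ hinj]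
  have h2 : (univ.filter fun j : Fin R => D.k1 ≤ j.1).map Fin.valEmbedding =
      Finset.Ico D.k1 R := by
    ext x
    rw [mem_map, Finset.mem_Ico]
    constructor
    · rintro ⟨j, h1, rfl⟩
      exact ⟨(mem_filter.1 h1).2, j.2⟩
    · rintro ⟨h1, h2⟩
      exact ⟨⟨x, h2⟩, mem_filter.2 ⟨mem_univ _, h1⟩, rfl⟩
  rw [← card_map Fin.valEmbedding, h2, Nat.card_Ico]

theorem card_noclique (f : Fin R → Option V) (hf : ∀ j, f j ≠ none) (hk : D.k1 < R) (k : ℕ)
    (hkL : k ≤ R - D.k1) {y : ℝ} (hy : 0 ≤ y)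
    (hy2 : ∀ i ≤ k, (2 : ℝ) ^ (i.choose 2) ≤ y ^ i)
    (hx : (k : ℝ) ^ 2 * y / ((R - D.k1 : ℕ) : ℝ) ≤ 1 / 2) :
    ((univ.filter fun g : Pr V → Bool => D.FF g R = f ∧
      ¬ ∃ A ∈ powersetCard k (D.LL f), ∀ e ∈ prs A, g e = true).card : ℝ) ≤
    2 * ((k : ℝ) ^ 2 * y / ((R - D.k1 : ℕ) : ℝ)) ^ 2 *
      ((univ.filter fun g : Pr V → Bool => D.FF g R = f).card : ℝ) := by
  classical
  by_cases hne : ∃ g0, D.FF g0 R = f
  swap
  · have : (univ.filter fun g : Pr V → Bool => D.FF g R = f ∧
      ¬ ∃ A ∈ powersetCard k (D.LL f), ∀ e ∈ prs A, g e = true) = ∅ := by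
      rw [filter_eq_empty_iff]
      intro g _ h
      exact hne ⟨g, h.1⟩
    rw [this, card_empty]
    push_cast
    positivity
  obtain ⟨g0, hg0⟩ := hne
  have hw : ∀ j, ∃ w, f j = some w := fun j => Option.ne_none_iff_exists'.1 (hf j)
  choose w hw using hw
  have hb : ∀ j, D.blk (w j) = j := by
    intro j
    have := hw j
    rw [← hg0] at this
    exact D.blk_cand (D.FF_cand g0 R j (w j) this)
  have hL := D.LL_card f w hw hb hk.le
  have hmain := no_clique (D.LL f) k (by rw [hL]; exact hkL) (by rw [hL]; omega) hy hy2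
    (by rw [hL]; exact hx)
  rw [hL] at hmain
  set P : (Pr V → Bool) → Prop := fun g => D.FF g R = f with hP
  set Q : (Pr V → Bool) → Prop := fun g =>
    ¬ ∃ A ∈ powersetCard k (D.LL f), ∀ e ∈ prs A, g e = true with hQ
  have hLb : ∀ v ∈ D.LL f, D.k1 ≤ D.blk v := by
    intro v hv
    unfold LL at hv
    rw [mem_filter] at hv
    obtain ⟨-, j, h1, h2⟩ := hv
    rw [hw j] at h2
    rw [← Option.some_inj.1 h2, hb j]
    exact h1
  have hind := indepR (prs (D.LL f)) P Q (by
    intro g h hgh hg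
    rw [hP] at hg ⊢
    simp only at hg ⊢
    rw [← hg]
    apply D.FF_congr
    rintro e ⟨x, hx1, hx2⟩ _
    symm
    apply hgh
    intro hc
    rw [mem_prs, mem_sym2_iff] at hc
    exact absurd (hLb x (hc x hx1)) (not_le.2 hx2)) (by
    rintro g h hgh hg ⟨A, hA, h1⟩
    apply hg
    refine ⟨A, hA, ?_⟩
    intro e he
    rw [hgh e (prs_mono (mem_powersetCard.1 hA).1 he)]
    exact h1 e he)
  have hN : (0 : ℝ) < 2 ^ Fintype.card (Pr V) := by positivity
  have h1 : ((univ.filter fun g => P g ∧ Q g).card : ℝ) ≤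
      2 * ((k : ℝ) ^ 2 * y / ((R - D.k1 : ℕ) : ℝ)) ^ 2 * ((univ.filter P).card : ℝ) := by
    apply le_of_mul_le_mul_right _ hN
    rw [hind]
    calc ((univ.filter P).card : ℝ) * ((univ.filter Q).card : ℝ)
        ≤ ((univ.filter P).card : ℝ) * (2 * ((k : ℝ) ^ 2 * y / ((R - D.k1 : ℕ) : ℝ)) ^ 2 *
          2 ^ Fintype.card (Pr V)) := by
          apply mul_le_mul_of_nonneg_left _ (Nat.cast_nonneg _)
          convert hmain
      _ = _ := by ring
  refine le_trans (le_of_eq ?_) (h1.trans (le_of_eq ?_))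
  · congr
  · congr

open Classical in
/-- The output of the algorithm. -/
noncomputable def outF (k : ℕ) (s : Sta V R) : Finset V :=
  if h : ∃ S : Finset (Fin R), S.card = k ∧ (∀ i ∈ S, D.k1 ≤ i.1) ∧
    ∀ i ∈ S, ∀ j ∈ S, i < j → s.2 (i, j) = true then
    ((univ.filter fun i : Fin R => i.1 < D.k1) ∪ Classical.choose h).biUnion
      fun i => (s.1 i).toFinset
  else ∅

theorem pair_true {g : Pr V → Bool} {f : Fin R → Option V} {w : Fin R → V}
    (hf : ∀ j, f j = some (w j)) (hb : ∀ j, D.blk (w j) = j) {i j : Fin R}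
    (hne : ¬ (s(w i, w j) : Sym2 V).IsDiag) :
    psB D.blk g f j (w j) i = g ⟨s(w i, w j), hne⟩ ∧
      Prog.ans g (qS D.blk f i j) = g ⟨s(w i, w j), hne⟩ := by
  have h1 : pairQ D.blk (w i) (w j) i j = some ⟨s(w i, w j), hne⟩ := by
    unfold pairQ
    rw [dif_pos ⟨hne, hb i, hb j⟩]
  constructor
  · unfold psB qT
    rw [hf i]
    simp only [Option.bind_some]
    rw [h1]
    rfl
  · unfold qS
    rw [hf i, hf j]
    simp only [Option.bind_some]
    rw [h1]
    rfl

theorem out_ok (g : Pr V → Bool) (k : ℕ) (hk : D.k1 ≤ R) (hf : ∀ j, D.FF g R j ≠ none)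
    (hA : ∃ A ∈ powersetCard k (D.LL (D.FF g R)), ∀ e ∈ prs A, g e = true) :
    (D.outF k (run g D.all (fun _ => none, fun _ => false))).card = D.k1 + k ∧
      ∀ e ∈ prs (D.outF k (run g D.all (fun _ => none, fun _ => false))), g e = true := by
  classical
  rw [D.run_all]
  set f := D.FF g R with hfd
  have hw : ∀ j, ∃ w, f j = some w := fun j => Option.ne_none_iff_exists'.1 (hf j)
  choose w hw using hw
  have hb : ∀ j, D.blk (w j) = j := by
    intro j
    exact D.blk_cand (D.FF_cand g R j (w j) (hw j))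
  have hinj : Function.Injective w := by
    intro i j h
    apply Fin.ext
    rw [← hb i, ← hb j, h]
  have hnd : ∀ {i j : Fin R}, i ≠ j → ¬ (s(w i, w j) : Sym2 V).IsDiag :=
    fun hij h => hij (hinj h)
  have hex : ∃ S : Finset (Fin R), S.card = k ∧ (∀ i ∈ S, D.k1 ≤ i.1) ∧
      ∀ i ∈ S, ∀ j ∈ S, i < j →
      (if (i, j) ∈ D.ps then Prog.ans g (qS D.blk f i j) else false) = true := by
    obtain ⟨A, hA1, hA2⟩ := hA
    rw [mem_powersetCard] at hA1
    refine ⟨univ.filter fun j => w j ∈ A ∧ D.k1 ≤ j.1, ?_, ?_, ?_⟩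
    · rw [← hA1.2, ← card_image_of_injective _ hinj]
      congr 1
      ext v
      rw [mem_image]
      constructor
      · rintro ⟨j, hj, rfl⟩
        exact (mem_filter.1 hj).2.1
      · intro hv
        have := hA1.1 hv
        unfold LL at this
        rw [mem_filter] at this
        obtain ⟨-, j, h1, h2⟩ := this
        rw [hw j, Option.some_inj] at h2
        exact ⟨j, mem_filter.2 ⟨mem_univ _, by rw [h2]; exact hv, h1⟩, h2⟩
    · intro i hi
      exact (mem_filter.1 hi).2.2
    · intro i hi j hj hij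
      rw [mem_filter] at hi hj
      rw [if_pos (D.mem_ps.2 ⟨hi.2.2, hij⟩), (D.pair_true hw hb (hnd hij.ne)).2]
      apply hA2
      rw [mem_prs, mk_mem_sym2_iff]
      exact ⟨hi.2.1, hj.2.1⟩
  unfold outF
  rw [dif_pos hex]
  set S := Classical.choose hex with hS
  obtain ⟨hS1, hS2, hS3⟩ := Classical.choose_spec hex
  rw [← hS] at hS1 hS2 hS3
  set I := (univ.filter fun i : Fin R => i.1 < D.k1) ∪ S with hI
  have hU : (I.biUnion fun i => (f i).toFinset) = I.image w := by
    ext v
    rw [mem_biUnion, mem_image]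
    constructor
    · rintro ⟨i, hi, hv⟩
      rw [hw i, Option.toFinset_some, mem_singleton] at hv
      exact ⟨i, hi, hv.symm⟩
    · rintro ⟨i, hi, rfl⟩
      exact ⟨i, hi, by rw [hw i, Option.toFinset_some, mem_singleton]⟩
  simp only
  rw [hU]
  constructor
  · rw [card_image_of_injective _ hinj, hI, card_union_of_disjoint, hS1]
    · congr 1
      have h2 : (univ.filter fun j : Fin R => j.1 < D.k1).map Fin.valEmbedding =
          Finset.range D.k1 := by
        ext x
        rw [mem_map, mem_range]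
        constructor
        · rintro ⟨j, h1, rfl⟩
          exact (mem_filter.1 h1).2
        · intro h1
          exact ⟨⟨x, by omega⟩, mem_filter.2 ⟨mem_univ _, h1⟩, rfl⟩
      rw [← card_map Fin.valEmbedding, h2, card_range]
    · rw [disjoint_left]
      intro i hi hi'
      have h1 := (mem_filter.1 hi).2
      have h2 := hS2 i hi'
      omega
  · have key : ∀ i ∈ I, ∀ j ∈ I, ∀ hij : i < j, g ⟨s(w i, w j), hnd hij.ne⟩ = true := by
      intro i hi j hj hij
      rcases Nat.lt_or_ge i.1 D.k1 with h1 | h1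
      · rw [← (D.pair_true (g := g) hw hb (hnd hij.ne)).1]
        exact D.FF_adj g j i (w j) (hw j) (D.mem_prev.2 ⟨hij, h1⟩)
      · have hiS : i ∈ S := by
          rw [hI, mem_union] at hi
          rcases hi with hi | hi
          · have := (mem_filter.1 hi).2; omega
          · exact hi
        have hjS : j ∈ S := by
          rw [hI, mem_union] at hj
          rcases hj with hj | hj
          · have := (mem_filter.1 hj).2
            have : i.1 < j.1 := hij
            omega
          · exact hj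
        have h3 := hS3 i hiS j hjS hij
        rw [if_pos (D.mem_ps.2 ⟨h1, hij⟩), (D.pair_true hw hb (hnd hij.ne)).2] at h3
        exact h3
    intro e he
    obtain ⟨e, hnde⟩ := e
    induction e with
    | _ x y =>
    rw [mem_prs, mk_mem_sym2_iff, mem_image, mem_image] at he
    obtain ⟨⟨i, hi, rfl⟩, ⟨j, hj, rfl⟩⟩ := he
    rcases lt_trichotomy i j with h | h | h
    · exact key i hi j hj h
    · exact absurd (congrArg w h) (fun h' => hnde h')
    · have h1 := key j hj i hi h
      rw [← h1]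
      congr 1
      exact Subtype.ext Sym2.eq_swap

/-- Probability of success. -/
theorem success (hk : D.k1 < R) (k : ℕ)
    (hkL : k ≤ R - D.k1) {y : ℝ} (hy : 0 ≤ y)
    (hy2 : ∀ i ≤ k, (2 : ℝ) ^ (i.choose 2) ≤ y ^ i)
    (hx : (k : ℝ) ^ 2 * y / ((R - D.k1 : ℕ) : ℝ) ≤ 1 / 2) :
    (1 - (R * (1 - 1 / 2 ^ D.k1) ^ b + 2 * ((k : ℝ) ^ 2 * y / ((R - D.k1 : ℕ) : ℝ)) ^ 2)) *
      2 ^ Fintype.card (Pr V) ≤
    ((univ.filter fun g : Pr V → Bool =>
      (D.outF k (run g D.all (fun _ => none, fun _ => false))).card = D.k1 + k ∧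
      ∀ e ∈ prs (D.outF k (run g D.all (fun _ => none, fun _ => false))), g e = true).card : ℝ) := by
  classical
  set x := (k : ℝ) ^ 2 * y / ((R - D.k1 : ℕ) : ℝ) with hxd
  set N := (2 : ℝ) ^ Fintype.card (Pr V) with hN
  set W := univ.filter fun g : Pr V → Bool =>
      (D.outF k (run g D.all (fun _ => none, fun _ => false))).card = D.k1 + k ∧
      ∀ e ∈ prs (D.outF k (run g D.all (fun _ => none, fun _ => false))), g e = true with hW
  set Z1 := univ.filter fun g : Pr V → Bool => ∃ i, D.FF g R i = none with hZ1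
  set Z2 := univ.filter fun g : Pr V → Bool => (∀ j, D.FF g R j ≠ none) ∧
      ¬ ∃ A ∈ powersetCard k (D.LL (D.FF g R)), ∀ e ∈ prs A, g e = true with hZ2
  have h1 : (univ : Finset (Pr V → Bool)) ⊆ W ∪ (Z1 ∪ Z2) := by
    intro g _
    rw [mem_union, mem_union]
    by_cases h1 : ∃ i, D.FF g R i = none
    · right; left
      rw [hZ1, mem_filter]
      exact ⟨mem_univ _, h1⟩
    · push Not at h1
      by_cases h2 : ∃ A ∈ powersetCard k (D.LL (D.FF g R)), ∀ e ∈ prs A, g e = true
      · left
        rw [hW, mem_filter]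
        exact ⟨mem_univ _, D.out_ok g k hk.le h1 h2⟩
      · right; right
        rw [hZ2, mem_filter]
        exact ⟨mem_univ _, h1, h2⟩
  have h2 : N ≤ (W.card : ℝ) + ((Z1.card : ℝ) + (Z2.card : ℝ)) := by
    have h3 := (card_le_card h1).trans ((card_union_le _ _).trans
      (Nat.add_le_add_left (card_union_le _ _) _))
    rw [card_univ, Fintype.card_fun, Fintype.card_bool] at h3
    rw [hN]
    exact_mod_cast h3
  have h3 : (Z1.card : ℝ) ≤ R * ((1 - 1 / 2 ^ D.k1) ^ b * N) := D.card_fail_total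
  have h4 : (Z2.card : ℝ) ≤ 2 * x ^ 2 * N := by
    have e1 : (Z2.card : ℝ) = ∑ f : Fin R → Option V, ((Z2.filter fun g => D.FF g R = f).card : ℝ) := by
      have := card_eq_sum_card_fiberwise (f := fun g : Pr V → Bool => D.FF g R)
        (s := Z2) (t := univ) (fun _ _ => mem_coe.2 (mem_univ _))
      exact_mod_cast this
    have e2 : (∑ f : Fin R → Option V,
        ((univ.filter fun g : Pr V → Bool => D.FF g R = f).card : ℝ)) = N := by
      have := card_eq_sum_card_fiberwise (f := fun g : Pr V → Bool => D.FF g R)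
        (s := univ) (t := univ) (fun _ _ => mem_coe.2 (mem_univ _))
      rw [card_univ, Fintype.card_fun, Fintype.card_bool] at this
      rw [hN]
      exact_mod_cast this.symm
    rw [e1, ← e2, mul_sum]
    apply sum_le_sum
    intro f _
    by_cases hf : ∀ j, f j ≠ none
    · refine le_trans ?_ (D.card_noclique f hf hk k hkL hy hy2 hx)
      have hsub : (Z2.filter fun g => D.FF g R = f) ⊆
          (univ.filter fun g : Pr V → Bool => D.FF g R = f ∧
            ¬ ∃ A ∈ powersetCard k (D.LL f), ∀ e ∈ prs A, g e = true) := by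
        intro g hg
        rw [mem_filter, hZ2, mem_filter] at hg
        rw [mem_filter]
        refine ⟨mem_univ _, hg.2, ?_⟩
        have h5 := hg.1.2.2
        rw [hg.2] at h5
        exact h5
      exact_mod_cast card_le_card hsub
    · have : (Z2.filter fun g => D.FF g R = f) = ∅ := by
        rw [filter_eq_empty_iff]
        intro g hg h
        rw [hZ2, mem_filter] at hg
        apply hf
        rw [← h]
        exact hg.2.1
      rw [this, card_empty]
      push_cast
      positivity
  have h5 : (1 - (R * (1 - 1 / 2 ^ D.k1) ^ b + 2 * x ^ 2)) * N =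
      N - (R * ((1 - 1 / 2 ^ D.k1) ^ b * N) + 2 * x ^ 2 * N) := by ring
  rw [h5]
  linarith

end Blk

end Karp
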