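import Mathlib

/-!
# Sampling lemma
-/

namespace Karp

open Finset

section count

variable {K ε : Type} [DecidableEq K] [DecidableEq ε]

/-- Tuples from `F` whose union with `H` stays small. -/
def Tup (F : Finset K) (Z : K → Finset ε) (w m : ℕ) (H : Finset ε) : Finset (Fin m → K) :=
  (Fintype.piFinset fun _ : Fin m => F).filter fun κ =>
    (H ∪ univ.biUnion fun i => Z (κ i)).card < w

theorem Tup_succ (F : Finset K) (Z : K → Finset ε) (w m : ℕ) (H : Finset ε) :
    (Tup F Z w (m + 1) H).card ≤ ∑ x ∈ F, (Tup F Z w m (H ∪ Z x)).card := by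
  rw [← card_sigma]
  apply card_le_card_of_injOn (fun κ => ⟨κ 0, Fin.tail κ⟩)
  · intro κ hκ
    rw [mem_coe, Tup, mem_filter, Fintype.mem_piFinset] at hκ
    rw [mem_coe, mem_sigma]
    refine ⟨hκ.1 0, ?_⟩
    rw [Tup, mem_filter, Fintype.mem_piFinset]
    refine ⟨fun i => hκ.1 i.succ, ?_⟩
    refine lt_of_le_of_lt (card_le_card ?_) hκ.2
    intro x hx
    rw [mem_union, mem_union, mem_biUnion] at hx
    rw [mem_union, mem_biUnion]
    rcases hx with (h | h) | ⟨i, -, h⟩
    · exact Or.inl h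
    · exact Or.inr ⟨0, mem_univ _, h⟩
    · exact Or.inr ⟨i.succ, mem_univ _, h⟩
  · intro κ _ κ' _ h
    simp only [Sigma.mk.injEq, heq_eq_eq] at h
    funext i
    refine Fin.cases h.1 (fun j => ?_) i
    exact congrFun h.2 j

theorem Tup_bound (F : Finset K) (Z : K → Finset ε) (w r : ℕ) (X : ℝ) (hX : 0 ≤ X)
    (hXF : X ≤ F.card)
    (h : ∀ H : Finset ε, H.card ≤ w → ((F.filter fun x => (Z x \ H).card < r).card : ℝ) ≤ X) :
    ∀ (m s : ℕ) (H : Finset ε), w ≤ H.card + s * r →
      ((Tup F Z w m H).card : ℝ) ≤ 2 ^ m * ((F.card : ℝ) ^ min m s * X ^ (m - min m s)) := by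
  intro m
  induction m with
  | zero =>
    intro s H _
    have : (Tup F Z w 0 H).card ≤ 1 := by
      refine (card_filter_le _ _).trans ?_
      simp
    simpa using (by exact_mod_cast this : ((Tup F Z w 0 H).card : ℝ) ≤ 1)
  | succ m ih =>
    intro s H hs
    rcases le_or_gt w H.card with hw | hw
    · have : Tup F Z w (m + 1) H = ∅ := by
        rw [Tup, filter_eq_empty_iff]
        intro κ _ hlt
        have := card_le_card (subset_union_left (s₁ := H) (s₂ := univ.biUnion fun i => Z (κ i)))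
        omega
      rw [this, card_empty, Nat.cast_zero]
      positivity
    · have hs1 : 1 ≤ s := by
        rcases Nat.eq_zero_or_pos s with h0 | h0
        · subst h0; omega
        · exact h0
      have h1 : ((Tup F Z w (m + 1) H).card : ℝ) ≤
          ∑ x ∈ F, ((Tup F Z w m (H ∪ Z x)).card : ℝ) := by
        exact_mod_cast Tup_succ F Z w m H
      refine h1.trans ?_
      rw [← sum_filter_add_sum_filter_not F (fun x => (Z x \ H).card < r)]
      have hcu : ∀ x, (H ∪ Z x).card = H.card + (Z x \ H).card := by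
        intro x
        rw [← card_union_of_disjoint disjoint_sdiff, union_sdiff_self_eq_union]
      have hb : ∑ x ∈ F.filter (fun x => (Z x \ H).card < r),
          ((Tup F Z w m (H ∪ Z x)).card : ℝ) ≤
          X * (2 ^ m * ((F.card : ℝ) ^ min m s * X ^ (m - min m s))) := by
        have h2 : ∀ x ∈ F.filter (fun x => (Z x \ H).card < r),
            ((Tup F Z w m (H ∪ Z x)).card : ℝ) ≤
            2 ^ m * ((F.card : ℝ) ^ min m s * X ^ (m - min m s)) := by
          intro x _
          apply ih s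
          rw [hcu]; omega
        refine (sum_le_card_nsmul _ _ _ h2).trans ?_
        rw [nsmul_eq_mul]
        exact mul_le_mul_of_nonneg_right (h H hw.le) (by positivity)
      have hg : ∑ x ∈ F.filter (fun x => ¬ (Z x \ H).card < r),
          ((Tup F Z w m (H ∪ Z x)).card : ℝ) ≤
          F.card * (2 ^ m * ((F.card : ℝ) ^ min m (s - 1) * X ^ (m - min m (s - 1)))) := by
        have h2 : ∀ x ∈ F.filter (fun x => ¬ (Z x \ H).card < r),
            ((Tup F Z w m (H ∪ Z x)).card : ℝ) ≤
            2 ^ m * ((F.card : ℝ) ^ min m (s - 1) * X ^ (m - min m (s - 1))) := by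
          intro x hx
          rw [mem_filter, not_lt] at hx
          apply ih (s - 1)
          rw [hcu]
          obtain ⟨s', rfl⟩ : ∃ s', s = s' + 1 := ⟨s - 1, by omega⟩
          rw [add_mul, one_mul] at hs
          rw [Nat.add_sub_cancel]
          omega
        refine (sum_le_card_nsmul _ _ _ h2).trans ?_
        rw [nsmul_eq_mul]
        apply mul_le_mul_of_nonneg_right _ (by positivity)
        exact_mod_cast card_filter_le _ _
      have e1 : (F.card : ℝ) * ((F.card : ℝ) ^ min m (s - 1) * X ^ (m - min m (s - 1))) =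
          (F.card : ℝ) ^ min (m + 1) s * X ^ (m + 1 - min (m + 1) s) := by
        have a1 : min (m + 1) s = min m (s - 1) + 1 := by omega
        have a2 : m + 1 - min (m + 1) s = m - min m (s - 1) := by omega
        rw [a2, a1, pow_succ]; ring
      have e2 : X * ((F.card : ℝ) ^ min m s * X ^ (m - min m s)) ≤
          (F.card : ℝ) ^ min (m + 1) s * X ^ (m + 1 - min (m + 1) s) := by
        rcases le_or_gt s m with hsm | hsm
        · rw [min_eq_right hsm, min_eq_right (by omega : s ≤ m + 1)]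
          have a3 : m + 1 - s = (m - s) + 1 := by omega
          rw [a3, pow_succ]
          exact le_of_eq (by ring)
        · rw [min_eq_left hsm.le, min_eq_left (by omega : m + 1 ≤ s), Nat.sub_self, Nat.sub_self,
            pow_zero, mul_one, pow_succ, mul_one, mul_comm]
          exact mul_le_mul_of_nonneg_left hXF (by positivity)
      calc _ ≤ X * (2 ^ m * ((F.card : ℝ) ^ min m s * X ^ (m - min m s))) +
            F.card * (2 ^ m * ((F.card : ℝ) ^ min m (s - 1) * X ^ (m - min m (s - 1)))) :=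
            add_le_add hb hg
        _ = 2 ^ m * (X * ((F.card : ℝ) ^ min m s * X ^ (m - min m s))) +
            2 ^ m * ((F.card : ℝ) * ((F.card : ℝ) ^ min m (s - 1) *
              X ^ (m - min m (s - 1)))) := by ring
        _ ≤ 2 ^ m * ((F.card : ℝ) ^ min (m + 1) s * X ^ (m + 1 - min (m + 1) s)) +
            2 ^ m * ((F.card : ℝ) ^ min (m + 1) s * X ^ (m + 1 - min (m + 1) s)) := by
            rw [e1]
            exact add_le_add (mul_le_mul_of_nonneg_left e2 (by positivity)) le_rfl
        _ = _ := by rw [pow_succ]; ring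

end count

variable {Ω K ε : Type} [DecidableEq Ω] [DecidableEq K] [DecidableEq ε]

theorem sampling (G0 : Finset Ω) (F : Finset K) (C : Ω → K → Prop) [∀ g, DecidablePred (C g)]
    (Z : Ω → K → Finset ε) (w r G : ℕ) (X d : ℝ) (hX : 0 ≤ X) (hd : 0 < d) (hG : 0 < G)
    (hw : w ≤ G * r) (hG0 : G0.Nonempty)
    (h1 : ∀ x ∈ F, d * G0.card ≤ ((G0.filter fun g => C g x).card : ℝ))
    (h2 : ∀ κ : Fin (2 * G) → K, (∀ i, κ i ∈ F) →
      ((G0.filter fun g => (∀ i, C g (κ i)) ∧ w ≤ (univ.biUnion fun i => Z g (κ i)).card).card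
        : ℝ) ≤ d ^ (2 * G) / 2 * G0.card)
    (h3 : ∀ g ∈ G0, ∀ H : Finset ε, H.card ≤ w →
      ((F.filter fun x => C g x ∧ (Z g x \ H).card < r).card : ℝ) ≤ X) :
    d ^ 2 * F.card ≤ 16 * X := by
  by_contra hcon
  push Not at hcon
  have hG0c : (0 : ℝ) < G0.card := by exact_mod_cast card_pos.2 hG0
  have hF : F.Nonempty := by
    rw [nonempty_iff_ne_empty]
    rintro rfl
    simp at hcon
    linarith
  have hd1 : d ≤ 1 := by
    obtain ⟨x, hx⟩ := hF
    have h4 := h1 x hx
    have h5 : ((G0.filter fun g => C g x).card : ℝ) ≤ G0.card := by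
      exact_mod_cast card_filter_le _ _
    have h6 : d * G0.card ≤ 1 * G0.card := by linarith
    exact le_of_mul_le_mul_right h6 hG0c
  have hXF : X ≤ F.card := by
    have : d ^ 2 * F.card ≤ 1 * F.card :=
      mul_le_mul_of_nonneg_right (pow_le_one₀ hd.le hd1) (Nat.cast_nonneg _)
    linarith
  set Fg : Ω → Finset K := fun g => F.filter fun x => C g x with hFg
  -- power mean
  have hpm : (d * F.card) ^ (2 * G) * G0.card ≤ ∑ g ∈ G0, ((Fg g).card : ℝ) ^ (2 * G) := by
    have h4 : d * F.card * G0.card ≤ ∑ g ∈ G0, ((Fg g).card : ℝ) := by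
      have h5 : ∑ g ∈ G0, ((Fg g).card : ℝ) = ∑ x ∈ F, ((G0.filter fun g => C g x).card : ℝ) := by
        have : ∑ g ∈ G0, (Fg g).card = ∑ x ∈ F, (G0.filter fun g => C g x).card := by
          simp only [hFg, card_filter]
          exact sum_comm
        exact_mod_cast this
      rw [h5]
      calc d * F.card * G0.card = ∑ _x ∈ F, d * (G0.card : ℝ) := by
            rw [sum_const, nsmul_eq_mul]; ring
        _ ≤ _ := sum_le_sum h1
    obtain ⟨m, hm⟩ : ∃ m, 2 * G = m + 1 := ⟨2 * G - 1, by omega⟩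
    have h6 := pow_sum_div_card_le_sum_pow (s := G0) (f := fun g => ((Fg g).card : ℝ))
      (fun _ _ => Nat.cast_nonneg _) m
    rw [hm]
    refine le_trans ?_ h6
    rw [le_div_iff₀ (by positivity)]
    have h7 : (d * F.card * G0.card) ^ (m + 1) ≤ (∑ g ∈ G0, ((Fg g).card : ℝ)) ^ (m + 1) :=
      pow_le_pow_left₀ (by positivity) h4 _
    refine le_trans (le_of_eq ?_) h7
    rw [mul_pow _ (G0.card : ℝ), pow_succ (G0.card : ℝ)]
    ring
  -- tuples
  have htup : ∀ g, ((Fg g).card : ℝ) ^ (2 * G) =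
      ((Tup (Fg g) (Z g) w (2 * G) ∅).card : ℝ) +
      (((Fintype.piFinset fun _ : Fin (2 * G) => Fg g).filter fun κ =>
        ¬ (∅ ∪ univ.biUnion fun i => Z g (κ i)).card < w).card : ℝ) := by
    intro g
    have := card_filter_add_card_filter_not (s := Fintype.piFinset fun _ : Fin (2 * G) => Fg g)
      (fun κ => (∅ ∪ univ.biUnion fun i => Z g (κ i)).card < w)
    rw [Fintype.card_piFinset_const] at this
    unfold Tup
    exact_mod_cast this.symm
  have hbig : ∑ g ∈ G0, (((Fintype.piFinset fun _ : Fin (2 * G) => Fg g).filter fun κ =>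
        ¬ (∅ ∪ univ.biUnion fun i => Z g (κ i)).card < w).card : ℝ) ≤
      (F.card : ℝ) ^ (2 * G) * (d ^ (2 * G) / 2 * G0.card) := by
    have h4 : ∑ g ∈ G0, (((Fintype.piFinset fun _ : Fin (2 * G) => Fg g).filter fun κ =>
        ¬ (∅ ∪ univ.biUnion fun i => Z g (κ i)).card < w).card : ℝ) =
        ∑ κ ∈ Fintype.piFinset fun _ : Fin (2 * G) => F,
        ((G0.filter fun g => (∀ i, C g (κ i)) ∧
          w ≤ (univ.biUnion fun i => Z g (κ i)).card).card : ℝ) := by
      have : ∑ g ∈ G0, ((Fintype.piFinset fun _ : Fin (2 * G) => Fg g).filter fun κ =>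
          ¬ (∅ ∪ univ.biUnion fun i => Z g (κ i)).card < w).card =
          ∑ κ ∈ Fintype.piFinset fun _ : Fin (2 * G) => F,
          (G0.filter fun g => (∀ i, C g (κ i)) ∧
            w ≤ (univ.biUnion fun i => Z g (κ i)).card).card := by
        rw [← card_sigma, ← card_sigma]
        refine card_bij' (fun p _ => ⟨p.2, p.1⟩) (fun p _ => ⟨p.2, p.1⟩) ?_ ?_ ?_ ?_
        · rintro ⟨g, κ⟩ hp
          simp only [mem_sigma, mem_filter, Fintype.mem_piFinset, hFg, empty_union, not_lt] at hp ⊢
          exact ⟨fun i => (hp.2.1 i).1, hp.1, fun i => (hp.2.1 i).2, hp.2.2⟩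
        · rintro ⟨κ, g⟩ hp
          simp only [mem_sigma, mem_filter, Fintype.mem_piFinset, hFg, empty_union, not_lt] at hp ⊢
          exact ⟨hp.2.1, fun i => ⟨hp.1 i, hp.2.2.1 i⟩, hp.2.2.2⟩
        · intro _ _; rfl
        · intro _ _; rfl
      exact_mod_cast this
    rw [h4]
    refine (sum_le_card_nsmul _ _ (d ^ (2 * G) / 2 * G0.card) ?_).trans ?_
    · intro κ hκ
      rw [Fintype.mem_piFinset] at hκ
      exact h2 κ hκ
    · rw [nsmul_eq_mul, Fintype.card_piFinset_const]
      push_cast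
      rfl
  have hsmall : (d * F.card) ^ (2 * G) / 2 * G0.card ≤
      ∑ g ∈ G0, ((Tup (Fg g) (Z g) w (2 * G) ∅).card : ℝ) := by
    rw [sum_congr rfl fun g _ => htup g, sum_add_distrib] at hpm
    have : (F.card : ℝ) ^ (2 * G) * (d ^ (2 * G) / 2 * G0.card) =
        (d * F.card) ^ (2 * G) / 2 * G0.card := by rw [mul_pow]; ring
    rw [this] at hbig
    linarith
  -- a good g
  obtain ⟨g, hg, hgt⟩ : ∃ g ∈ G0, (d * F.card) ^ (2 * G) / 2 ≤
      ((Tup (Fg g) (Z g) w (2 * G) ∅).card : ℝ) := by
    by_contra h4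
    push Not at h4
    have h5 := sum_lt_sum_of_nonempty hG0 h4
    rw [sum_const, nsmul_eq_mul] at h5
    linarith
  have hXFg : ((Tup (Fg g) (Z g) w (2 * G) ∅).card : ℝ) ≤
      2 ^ (2 * G) * ((F.card : ℝ) ^ G * X ^ G) := by
    -- bound with X' = min X |F g|
    rcases le_or_gt X (Fg g).card with hle | hgt'
    · have h4 := Tup_bound (Fg g) (Z g) w r X hX hle (by
        intro H hH
        have := h3 g hg H hH
        rwa [hFg, filter_filter]) (2 * G) G ∅ (by rw [card_empty]; omega)
      have h5 : min (2 * G) G = G := by omega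
      have h6 : 2 * G - G = G := by omega
      rw [h5, h6] at h4
      refine h4.trans ?_
      have h7 : ((Fg g).card : ℝ) ≤ F.card := by exact_mod_cast card_filter_le _ _
      gcongr
    · have h4 : ((Tup (Fg g) (Z g) w (2 * G) ∅).card : ℝ) ≤ ((Fg g).card : ℝ) ^ (2 * G) := by
        have : (Tup (Fg g) (Z g) w (2 * G) ∅).card ≤ (Fg g).card ^ (2 * G) := by
          refine (card_filter_le _ _).trans ?_
          rw [Fintype.card_piFinset_const]
        exact_mod_cast this
      have h5 : ((Fg g).card : ℝ) ^ (2 * G) ≤ (F.card : ℝ) ^ G * X ^ G := by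
        rw [two_mul, pow_add]
        have h7 : ((Fg g).card : ℝ) ≤ F.card := by exact_mod_cast card_filter_le _ _
        gcongr
      have h6 : (1 : ℝ) ≤ 2 ^ (2 * G) := one_le_pow₀ (by norm_num)
      have h8 : 0 ≤ (F.card : ℝ) ^ G * X ^ G := by positivity
      nlinarith
  -- contradiction
  have hFc : (0 : ℝ) < F.card := by exact_mod_cast card_pos.2 hF
  have h5 : (d ^ 2 * F.card) ^ G ≤ 2 * (4 * X) ^ G := by
    have h6 := hgt.trans hXFg
    have h7 : (d * (F.card : ℝ)) ^ (2 * G) = (d ^ 2 * F.card) ^ G * F.card ^ G := by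
      rw [pow_mul, ← mul_pow]; congr 1; ring
    have h8 : (2 : ℝ) ^ (2 * G) * ((F.card : ℝ) ^ G * X ^ G) = (4 * X) ^ G * F.card ^ G := by
      rw [pow_mul, mul_pow]; norm_num; ring
    rw [h7, h8] at h6
    have h9 : (d ^ 2 * (F.card : ℝ)) ^ G * F.card ^ G ≤ 2 * (4 * X) ^ G * F.card ^ G := by
      linarith
    exact le_of_mul_le_mul_right h9 (by positivity)
  rcases hX.eq_or_lt with h0 | h0
  · rw [← h0, mul_zero, zero_pow hG.ne', mul_zero] at h5
    rw [← h0, mul_zero] at hcon
    have : 0 < (d ^ 2 * (F.card : ℝ)) ^ G := by positivity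
    linarith
  · have h6 : (16 * X) ^ G < (d ^ 2 * F.card) ^ G := pow_lt_pow_left₀ hcon (by positivity) hG.ne'
    have h7 : (16 * X) ^ G = 4 ^ G * (4 * X) ^ G := by rw [← mul_pow]; congr 1; ring
    rw [h7] at h6
    have h8 : (2 : ℝ) ≤ 4 ^ G := by
      calc (2 : ℝ) ≤ 4 ^ 1 := by norm_num
        _ ≤ 4 ^ G := pow_le_pow_right₀ (by norm_num) hG
    have h9 : 0 < (4 * X) ^ G := by positivity
    nlinarith

end Karp
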