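import Pool.Agent.Karp.ClsB
import Pool.Agent.Karp.Samp

/-!
# Assembly, part 1: pairs inside a set, evolution of the cover number
-/

namespace Karp

open Finset

variable {V : Type} [Fintype V] [DecidableEq V] {S : Type} {A : Prog (Pr V) S}

/-- Pairs inside `K`. -/
def prs (K : Finset V) : Finset (Pr V) := univ.filter fun e => e.1 ∈ K.sym2

theorem mem_prs {K : Finset V} {e : Pr V} : e ∈ prs K ↔ e.1 ∈ K.sym2 := by
  simp [prs]

theorem prs_mono {K L : Finset V} (h : K ⊆ L) : prs K ⊆ prs L := by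
  intro e he
  rw [mem_prs, mem_sym2_iff] at he ⊢
  exact fun a ha => h (he a ha)

theorem prs_card (K : Finset V) : (prs K).card = K.card.choose 2 := by
  rw [← Sym2.card_image_offDiag K]
  have : (prs K).image Subtype.val = K.offDiag.image Sym2.mk.uncurry := by
    ext e
    rw [mem_image, mem_image]
    constructor
    · rintro ⟨x, hx, rfl⟩
      rw [mem_prs] at hx
      obtain ⟨e, he⟩ := x
      induction e with
      | _ a b =>
      refine ⟨(a, b), ?_, rfl⟩
      rw [mem_offDiag]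
      exact ⟨(mk_mem_sym2_iff.1 hx).1, (mk_mem_sym2_iff.1 hx).2, fun h => he h⟩
    · rintro ⟨⟨a, b⟩, h, rfl⟩
      rw [mem_offDiag] at h
      exact ⟨⟨s(a, b), fun h' => h.2.2 h'⟩, mem_prs.2 (mk_mem_sym2_iff.2 ⟨h.1, h.2.1⟩), rfl⟩
  rw [← this, card_image_of_injective _ Subtype.val_injective]

theorem inn_val (X : Finset (Pr V)) (K : Finset V) : inn (val X) K = (X ∩ prs K).card := by
  unfold inn val
  rw [filter_map, card_map]
  congr 1
  ext e
  rw [mem_filter, mem_inter, mem_prs]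
  rfl

theorem val_sdiff (X H : Finset (Pr V)) : val X \ val H = val (X \ H) := by
  ext e
  rw [mem_sdiff, mem_val, mem_val, mem_val]
  constructor
  · rintro ⟨⟨h, h1⟩, h2⟩
    exact ⟨h, mem_sdiff.2 ⟨h1, fun h3 => h2 ⟨h, h3⟩⟩⟩
  · rintro ⟨h, h1⟩
    rw [mem_sdiff] at h1
    exact ⟨⟨h, h1.1⟩, fun ⟨_, h3⟩ => h1.2 h3⟩

theorem clean_iff (g : Pr V → Bool) (t : ℕ) (K : Finset V) :
    clean (r0 A g t) K ↔ ∀ e ∈ A.rd g t ∩ prs K, g e = true := by
  unfold clean
  constructor
  · intro h e he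
    rw [mem_inter, mem_prs] at he
    by_contra hne
    rw [Bool.not_eq_true] at hne
    exact h e.1 (mem_r0.2 ⟨e.2, he.1, hne⟩) he.2
  · intro h e he h2
    obtain ⟨hd, h3, h4⟩ := mem_r0.1 he
    have := h ⟨e, hd⟩ (mem_inter.2 ⟨h3, mem_prs.2 h2⟩)
    rw [h4] at this
    exact absurd this (by simp)

theorem inn_r1 {g : Pr V → Bool} {t : ℕ} {K : Finset V} (h : clean (r0 A g t) K) :
    inn (r1 A g t) K = (A.rd g t ∩ prs K).card := by
  rw [r1, inn_val]
  congr 1
  rw [clean_iff] at h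
  ext e
  rw [mem_inter, mem_filter, mem_inter]
  constructor
  · rintro ⟨⟨h1, -⟩, h2⟩; exact ⟨h1, h2⟩
  · rintro ⟨h1, h2⟩; exact ⟨⟨h1, h e (mem_inter.2 ⟨h1, h2⟩)⟩, h2⟩

theorem unread_card {g : Pr V → Bool} {t : ℕ} {K : Finset V} (h : clean (r0 A g t) K) :
    (prs K \ A.rd g t).card = K.card.choose 2 - inn (r1 A g t) K := by
  rw [inn_r1 h, ← prs_card K, inter_comm]
  have := card_sdiff_add_card_inter (prs K) (A.rd g t)
  omega

/-! ### Evolution of `cov` -/

theorem cov_zero (b0 : ℕ) (g : Pr V → Bool) (K : Finset V) : cov (r1 A g 0) b0 K = 0 := by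
  have h := cov_le (r1 A g 0) b0 (empty_subset K)
  have h1 : r1 A g 0 = ∅ := by
    unfold r1 val Prog.rd
    simp
  rw [h1] at h ⊢
  simpa [inn] using h

theorem inn_step (g : Pr V → Bool) (t : ℕ) (L : Finset V) :
    inn (r1 A g (t + 1)) L ≤ inn (r1 A g t) L + 1 := by
  rw [r1, r1, inn_val, inn_val, Prog.rd_succ, filter_union, union_inter_distrib_right]
  refine (card_union_le _ _).trans (Nat.add_le_add_left ?_ _)
  refine (card_le_card inter_subset_left).trans ((card_filter_le _ _).trans ?_)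
  cases A.qr g t <;> simp

theorem inn_step_eq (g : Pr V → Bool) (t : ℕ) (L : Finset V)
    (h : ∀ e, A.qr g t = some e → e ∉ prs L) :
    inn (r1 A g (t + 1)) L = inn (r1 A g t) L := by
  rw [r1, r1, inn_val, inn_val, Prog.rd_succ, filter_union, union_inter_distrib_right]
  have : ((A.qr g t).toFinset.filter fun e => g e = true) ∩ prs L = ∅ := by
    rw [eq_empty_iff_forall_notMem]
    intro e he
    rw [mem_inter, mem_filter, Option.mem_toFinset, Option.mem_def] at he
    exact h e he.1.1 he.2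
  rw [this, union_empty]

theorem cov_step (b0 : ℕ) (g : Pr V → Bool) (t : ℕ) (K : Finset V) :
    cov (r1 A g (t + 1)) b0 K ≤ cov (r1 A g t) b0 K + 1 := by
  obtain ⟨C, hC, h⟩ := cov_eq (r1 A g t) b0 K
  have h1 := cov_le (r1 A g (t + 1)) b0 hC
  have h2 := inn_step (A := A) g t (K \ C)
  omega

theorem cov_step_eq (b0 : ℕ) (g : Pr V → Bool) (t : ℕ) (K : Finset V)
    (hq : ∀ e, A.qr g t = some e → e ∉ prs K) :
    cov (r1 A g (t + 1)) b0 K ≤ cov (r1 A g t) b0 K := by
  obtain ⟨C, hC, h⟩ := cov_eq (r1 A g t) b0 K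
  have h1 := cov_le (r1 A g (t + 1)) b0 hC
  have h2 := inn_step_eq (A := A) g t (K \ C) (fun e he h3 => hq e he (prs_mono sdiff_subset h3))
  omega

/-- Crossing time. -/
theorem crossing (b0 m : ℕ) (hm : 0 < m) (g : Pr V → Bool) (K : Finset V) (T : ℕ)
    (h : m ≤ cov (r1 A g T) b0 K) :
    ∃ t < T, cov (r1 A g t) b0 K + 1 = m ∧ ∃ e, A.qr g t = some e ∧ e ∈ prs K := by
  classical
  induction T with
  | zero => rw [cov_zero] at h; omega
  | succ T ih =>
    rcases le_or_gt m (cov (r1 A g T) b0 K) with h1 | h1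
    · obtain ⟨t, ht, h2⟩ := ih h1
      exact ⟨t, by omega, h2⟩
    · refine ⟨T, Nat.lt_succ_self _, ?_, ?_⟩
      · have := cov_step (A := A) b0 g T K
        omega
      · by_contra hcon
        push Not at hcon
        have := cov_step_eq (A := A) b0 g T K hcon
        omega

/-- No crossing: many unread pairs. -/
theorem no_crossing (b0 j k : ℕ) (hb0 : 0 < b0) (g : Pr V → Bool) (K : Finset V) (T : ℕ)
    (hK : K.card = k) (hc : clean (r0 A g T) K) (h : cov (r1 A g T) b0 K < b0 * j) :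
    (k - j).choose 2 - b0 * j ≤ (prs K \ A.rd g T).card := by
  obtain ⟨C, hC, h1⟩ := cov_eq (r1 A g T) b0 K
  have hCj : C.card ≤ j := by
    have : b0 * C.card ≤ b0 * j := by omega
    exact Nat.le_of_mul_le_mul_left this hb0
  have h2 : (prs (K \ C) \ A.rd g T).card ≤ (prs K \ A.rd g T).card :=
    card_le_card (sdiff_subset_sdiff (prs_mono sdiff_subset) subset_rfl)
  have h3 := unread_card (A := A) (clean_mono (sdiff_subset (t := C)) hc)
  rw [h3, card_sdiff_of_subset hC, hK] at h2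
  have h4 : (k - j).choose 2 ≤ (k - C.card).choose 2 := Nat.choose_le_choose 2 (by omega)
  omega

end Karp
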