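import Pool.Agent.Karp.Asm1

/-!
# Assembly, part 2: the finite bound
-/

namespace Karp

open Finset

/-- The bound for the class. -/
noncomputable def Bd (n k j Lg Y u0 b0 θ0 ρ r b : ℕ) (m0 Λ : ℝ) : ℝ :=
  ((k / θ0 + 1) * (n : ℝ) ^ (k / θ0)) *
      (2 ^ ((j - ρ).choose 2) * ((m0 + (k + 1) * u0) ^ (j - ρ) * Λ ^ (b * (b + 1) / 2))) *
      ((k + 1 : ℝ) ^ (k - (j - ρ)) * ((Y : ℝ) ^ (k - (j - ρ)) *
        2 ^ ((k - (j - ρ)) * Lg + (b0 * j + (r + k * θ0) + ρ * k))))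

/-- Conditions on the parameters. -/
structure Cond (n k j Lg Y q u0 u1 b0 θ0 ρ r w G d0 b : ℕ) (m0 Λ η d : ℝ) : Prop where
  hq : 3 ≤ q
  hm0 : 0 ≤ m0
  hΛ : 1 ≤ Λ
  hm : Λ * ((1 / 2 + 3 / (2 * q)) * m0 + 2 * u1) ≤ m0
  hθ : 0 < θ0
  hb0 : 0 < b0
  hρ : r + k * θ0 + 1 ≤ b0 * ρ
  hjk : j ≤ k
  hj : 0 < j
  hjL : j ≤ Lg
  hn1 : 1 ≤ n
  hn : n ≤ 2 ^ Lg
  hd0 : 0 < d0
  hU : (2 * w / d0 + k / θ0 * d0 : ℝ) ≤ m0 * Λ ^ b
  hG : 0 < G
  hw : w ≤ G * r
  hη : 0 < η
  hd : 0 < d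
  hw2 : 2 ≤ η * d ^ (2 * G) * 2 ^ w
  hY : 2 ≤ Y
  hu0 : 2 * q ^ 2 * (Lg + 1) ≤ u0
  hu1 : q * u0 ≤ u1

variable {V : Type} [Fintype V] [DecidableEq V] {M : ℕ} {A : Prog (Pr V) (Fin M)}

/-- Typical behaviour at time `t`. -/
def Typ (A : Prog (Pr V) (Fin M)) (k Y Lg q u0 u1 : ℕ) (g : Pr V → Bool) (t : ℕ) : Prop :=
  T1 (r1 A g t) (r0 A g t) k Y Lg ∧ T3 (r1 A g t) (r0 A g t) q u0 u1

/-- The past event attached to `K`. -/
def Cp (A : Prog (Pr V) (Fin M)) (k j Lg Y q u0 u1 b0 a0 t : ℕ) (g : Pr V → Bool)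
    (K : Finset V) : Prop :=
  K.card = k ∧ clean (r0 A g t) K ∧ inn (r1 A g t) K = a0 ∧ cov (r1 A g t) b0 K + 1 = b0 * j ∧
    Typ A k Y Lg q u0 u1 g t

theorem Cp_past {k j Lg Y q u0 u1 b0 a0 t : ℕ} {K : Finset V} (g h : Pr V → Bool)
    (H : ∀ e ∈ A.rd g t, h e = g e) (hc : Cp A k j Lg Y q u0 u1 b0 a0 t g K) :
    Cp A k j Lg Y q u0 u1 b0 a0 t h K := by
  unfold Cp Typ at *
  rw [r1_congr H, r0_congr H]
  exact hc

section

variable {n k j Lg Y q u0 u1 b0 θ0 ρ r w G d0 b : ℕ} {m0 Λ η d : ℝ}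

open Classical in
/-- Few sets are likely at a node which is not rare. -/
theorem large_family (hA : A.RO)
    (hc : Cond (Fintype.card V) k j Lg Y q u0 u1 b0 θ0 ρ r w G d0 b m0 Λ η d) (t a0 : ℕ)
    (s : Fin M)
    (hs : η * 2 ^ Fintype.card (Pr V) ≤
      ((univ.filter fun g : Pr V → Bool => A.st g t = s).card : ℝ)) :
    d ^ 2 * (((univ : Finset (Finset V)).filter fun K =>
      d * ((univ.filter fun g : Pr V → Bool => A.st g t = s).card : ℝ) ≤
      ((univ.filter fun g : Pr V → Bool => A.st g t = s ∧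
        Cp A k j Lg Y q u0 u1 b0 a0 t g K).card : ℝ)).card : ℝ) ≤
    16 * (Bd (Fintype.card V) k j Lg Y u0 b0 θ0 ρ r b m0 Λ / 2 ^ a0) := by
  set G0 := univ.filter fun g : Pr V → Bool => A.st g t = s with hG0
  have hpos : (0 : ℝ) < G0.card := lt_of_lt_of_le (by have := hc.hη; positivity) hs
  apply sampling G0 _ (fun g K => Cp A k j Lg Y q u0 u1 b0 a0 t g K)
    (fun g K => A.rd g t ∩ prs K) w r G _ d _ hc.hd hc.hG hc.hw (card_pos.1 (by exact_mod_cast hpos))
  · intro K hK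
    rw [mem_filter] at hK
    rw [hG0, filter_filter]
    exact hK.2
  · intro κ _
    set Q : Finset (Pr V) := univ.biUnion fun i => prs (κ i) with hQ
    have h1 := Prog.plant hA Q t w
    have h2 : ((G0.filter fun g => (∀ i, Cp A k j Lg Y q u0 u1 b0 a0 t g (κ i)) ∧
        w ≤ (univ.biUnion fun i => A.rd g t ∩ prs (κ i)).card).card : ℝ) ≤
        ((univ.filter fun g : Pr V → Bool => (∀ e ∈ A.rd g t ∩ Q, g e = true) ∧
        w ≤ (A.rd g t ∩ Q).card).card : ℝ) := by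
      norm_cast
      apply card_le_card
      intro g hg
      rw [mem_filter] at hg ⊢
      obtain ⟨-, h3, h4⟩ := hg
      refine ⟨mem_univ _, ?_, ?_⟩
      · intro e he
        rw [mem_inter, hQ, mem_biUnion] at he
        obtain ⟨h5, i, -, h6⟩ := he
        exact (clean_iff g t (κ i)).1 (h3 i).2.1 e (mem_inter.2 ⟨h5, h6⟩)
      · refine h4.trans (card_le_card ?_)
        intro e he
        rw [mem_biUnion] at he
        obtain ⟨i, -, hi⟩ := he
        rw [mem_inter] at hi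
        rw [mem_inter, hQ, mem_biUnion]
        exact ⟨hi.1, i, mem_univ _, hi.2⟩
    refine h2.trans ?_
    have h3 : (0 : ℝ) < 2 ^ w := by positivity
    refine le_of_mul_le_mul_right ?_ h3
    refine h1.trans ?_
    have h4 := hc.hw2
    have h5 : (0 : ℝ) ≤ d ^ (2 * G) / 2 * 2 ^ w := by have := hc.hd; positivity
    calc (2 : ℝ) ^ Fintype.card (Pr V) = 1 * 2 ^ Fintype.card (Pr V) := (one_mul _).symm
      _ ≤ (η * d ^ (2 * G) * 2 ^ w / 2) * 2 ^ Fintype.card (Pr V) := by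
          apply mul_le_mul_of_nonneg_right _ (by positivity)
          linarith
      _ = (d ^ (2 * G) / 2 * 2 ^ w) * (η * 2 ^ Fintype.card (Pr V)) := by ring
      _ ≤ (d ^ (2 * G) / 2 * 2 ^ w) * G0.card := mul_le_mul_of_nonneg_left hs h5
      _ = _ := by ring
  · intro g hg H hH
    by_cases hne : ((((univ : Finset (Finset V)).filter fun K =>
      d * ((univ.filter fun g : Pr V → Bool => A.st g t = s).card : ℝ) ≤
      ((univ.filter fun g : Pr V → Bool => A.st g t = s ∧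
        Cp A k j Lg Y q u0 u1 b0 a0 t g K).card : ℝ)).filter fun K =>
        Cp A k j Lg Y q u0 u1 b0 a0 t g K ∧ ((A.rd g t ∩ prs K) \ H).card < r)).Nonempty
    · obtain ⟨K0, hK0⟩ := hne
      rw [mem_filter] at hK0
      have hTyp : Typ A k Y Lg q u0 u1 g t := hK0.2.1.2.2.2.2
      have hb := Cls_bound (R1 := r1 A g t) (R0 := r0 A g t) (by have := hc.hq; omega) hTyp.2
        hTyp.1 hc.hm0 hc.hΛ hc.hm (fun e he => r1_nd he) (fun e he => val_nd he) b (val H)
        (fun e he => val_nd he) a0 r b0 j d0 θ0 ρ hc.hθ hc.hb0 hc.hρ hc.hjk hc.hjL hc.hn1 (by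
          intro Z hZ hZc
          refine le_trans ?_ hc.hU
          have h1 := UA_card (val H) d0 Z hZ
          have h2 := Bg_card (val H) d0
          have h3 : (val H).card ≤ w := by unfold val; rw [card_map]; exact hH
          have hd0 : (0 : ℝ) < d0 := by exact_mod_cast hc.hd0
          have hθ0 : (0 : ℝ) < θ0 := by exact_mod_cast hc.hθ
          have h4 : ((Bg (val H) d0).card : ℝ) ≤ 2 * w / d0 := by
            rw [le_div_iff₀ hd0]
            exact_mod_cast h2.trans (Nat.mul_le_mul_left 2 h3)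
          have h5 : (Z.card : ℝ) ≤ k / θ0 := by
            rw [le_div_iff₀ hθ0]
            exact_mod_cast hZc
          have h6 : ((UA (val H) d0 Z).card : ℝ) ≤ (Bg (val H) d0).card + Z.card * d0 := by
            exact_mod_cast h1
          have h7 := mul_le_mul_of_nonneg_right h5 hd0.le
          linarith)
      rw [le_div_iff₀ (by positivity)]
      refine le_trans (mul_le_mul_of_nonneg_right ?_ (by positivity)) hb
      norm_cast
      apply card_le_card
      intro K hK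
      rw [mem_filter] at hK
      obtain ⟨-, hCp, hr⟩ := hK
      rw [Cls, mem_filter]
      refine ⟨mem_univ _, hCp.1, hCp.2.1, hCp.2.2.1, ?_, hCp.2.2.2.1⟩
      rw [r1, val_sdiff, inn_val]
      refine lt_of_le_of_lt (card_le_card ?_) hr
      intro e he
      rw [mem_inter, mem_sdiff, mem_filter] at he
      rw [mem_sdiff, mem_inter]
      exact ⟨⟨he.1.1.1, he.2⟩, he.1.2⟩
    · rw [not_nonempty_iff_eq_empty] at hne
      rw [hne, card_empty, Nat.cast_zero]
      have := hc.hm0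
      have := hc.hΛ
      unfold Bd
      positivity
  · have := hc.hm0
    have := hc.hΛ
    unfold Bd
    positivity

end

end Karp
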