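import Pool.Agent.Karp.Asm2

/-!
# Assembly, part 3: the finite bound
-/

namespace Karp

open Finset

variable {V : Type} [Fintype V] [DecidableEq V] {M : ℕ} {A : Prog (Pr V) (Fin M)}
  {n k j Lg Y q u0 u1 b0 θ0 ρ r w G d0 b : ℕ} {m0 Λ η d : ℝ}

/-- The query at time `t` lies inside the final output, which has `k` elements. -/
def hit (A : Prog (Pr V) (Fin M)) (o : Fin M → Finset V) (k T t : ℕ) (g : Pr V → Bool) : Prop :=
  (o (A.st g T)).card = k ∧ ∃ e, A.qr g t = some e ∧ e ∈ prs (o (A.st g T))

open Classical in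
/-- Contribution of one node. -/
theorem node_bound (hA : A.RO)
    (hc : Cond (Fintype.card V) k j Lg Y q u0 u1 b0 θ0 ρ r w G d0 b m0 Λ η d) {t T : ℕ}
    (htT : t ≤ T) (a0 : ℕ) (ha0 : a0 ≤ k.choose 2) (o : Fin M → Finset V) (s : Fin M) :
    ((univ.filter fun g : Pr V → Bool => A.st g t = s ∧ hit A o k T t g ∧
      (∀ e ∈ prs (o (A.st g T)), g e = true) ∧
      Cp A k j Lg Y q u0 u1 b0 a0 t g (o (A.st g T))).card : ℝ) ≤
    η * 2 ^ Fintype.card (Pr V) +
    16 * Bd (Fintype.card V) k j Lg Y u0 b0 θ0 ρ r b m0 Λ / (d ^ 2 * 2 ^ (k.choose 2)) *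
      ((univ.filter fun g : Pr V → Bool => A.st g t = s).card : ℝ) +
    d * ((univ.filter fun g : Pr V → Bool => A.st g t = s ∧ hit A o k T t g).card : ℝ) := by
  set N := ((univ.filter fun g : Pr V → Bool => A.st g t = s).card : ℝ) with hN
  have hN0 : 0 ≤ N := Nat.cast_nonneg _
  have hd := hc.hd
  have hη := hc.hη
  have hBd : 0 ≤ Bd (Fintype.card V) k j Lg Y u0 b0 θ0 ρ r b m0 Λ := by
    have := hc.hm0
    have := hc.hΛ
    unfold Bd
    positivity
  rcases lt_or_ge N (η * 2 ^ Fintype.card (Pr V)) with hlt | hge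
  · have h1 : ((univ.filter fun g : Pr V → Bool => A.st g t = s ∧ hit A o k T t g ∧
      (∀ e ∈ prs (o (A.st g T)), g e = true) ∧
      Cp A k j Lg Y q u0 u1 b0 a0 t g (o (A.st g T))).card : ℝ) ≤ N := by
      rw [hN]
      norm_cast
      apply card_le_card
      intro g hg
      rw [mem_filter] at hg ⊢
      exact ⟨mem_univ _, hg.2.1⟩
    have h2 : 0 ≤ 16 * Bd (Fintype.card V) k j Lg Y u0 b0 θ0 ρ r b m0 Λ /
        (d ^ 2 * 2 ^ (k.choose 2)) * N := by positivity
    have h3 : 0 ≤ d * ((univ.filter fun g : Pr V → Bool =>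
        A.st g t = s ∧ hit A o k T t g).card : ℝ) := by positivity
    linarith
  · -- the query at this node
    set KK : Finset (Finset V) := univ.filter fun K => K.card = k ∧
      ∃ e, A.query t s = some e ∧ e ∈ prs K with hKK
    set CC : Finset V → ℝ := fun K => ((univ.filter fun g : Pr V → Bool => A.st g t = s ∧
        Cp A k j Lg Y q u0 u1 b0 a0 t g K).card : ℝ) with hCC
    set FF : Finset (Finset V) := univ.filter fun K => d * N ≤ CC K with hFF
    have hlf := large_family hA hc t a0 s hge
    -- decomposition over the output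
    have h1 : ((univ.filter fun g : Pr V → Bool => A.st g t = s ∧ hit A o k T t g ∧
        (∀ e ∈ prs (o (A.st g T)), g e = true) ∧
        Cp A k j Lg Y q u0 u1 b0 a0 t g (o (A.st g T))).card : ℝ) ≤
        ∑ K ∈ KK, ((univ.filter fun g : Pr V → Bool => A.st g t = s ∧ o (A.st g T) = K ∧
          (∀ e ∈ prs K, g e = true) ∧ Cp A k j Lg Y q u0 u1 b0 a0 t g K).card : ℝ) := by
      have : (univ.filter fun g : Pr V → Bool => A.st g t = s ∧ hit A o k T t g ∧
          (∀ e ∈ prs (o (A.st g T)), g e = true) ∧
          Cp A k j Lg Y q u0 u1 b0 a0 t g (o (A.st g T))) ⊆ KK.biUnion fun K =>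
          univ.filter fun g : Pr V → Bool => A.st g t = s ∧ o (A.st g T) = K ∧
          (∀ e ∈ prs K, g e = true) ∧ Cp A k j Lg Y q u0 u1 b0 a0 t g K := by
        intro g hg
        rw [mem_filter] at hg
        obtain ⟨-, hgs, hh, hall, hcp⟩ := hg
        rw [mem_biUnion]
        refine ⟨o (A.st g T), ?_, ?_⟩
        · rw [hKK, mem_filter]
          refine ⟨mem_univ _, hh.1, ?_⟩
          have h2 := hh.2
          unfold Prog.qr at h2
          rw [hgs] at h2
          exact h2
        · rw [mem_filter]
          exact ⟨mem_univ _, hgs, rfl, hall, hcp⟩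
      have h2 := (card_le_card this).trans card_biUnion_le
      exact_mod_cast h2
    refine h1.trans ?_
    rw [← sum_filter_add_sum_filter_not KK (fun K => d * N ≤ CC K)]
    -- large part
    have hL : ∑ K ∈ KK.filter (fun K => d * N ≤ CC K),
        ((univ.filter fun g : Pr V → Bool => A.st g t = s ∧ o (A.st g T) = K ∧
          (∀ e ∈ prs K, g e = true) ∧ Cp A k j Lg Y q u0 u1 b0 a0 t g K).card : ℝ) ≤
        16 * Bd (Fintype.card V) k j Lg Y u0 b0 θ0 ρ r b m0 Λ / (d ^ 2 * 2 ^ (k.choose 2)) * N := by
      have h2 : ∀ K ∈ KK.filter (fun K => d * N ≤ CC K),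
          ((univ.filter fun g : Pr V → Bool => A.st g t = s ∧ o (A.st g T) = K ∧
          (∀ e ∈ prs K, g e = true) ∧ Cp A k j Lg Y q u0 u1 b0 a0 t g K).card : ℝ) ≤
          N / 2 ^ (k.choose 2 - a0) := by
        intro K _
        rw [le_div_iff₀ (by positivity)]
        have h3 := Prog.unread (A := A) t (k.choose 2 - a0) (prs K)
          (fun g => A.st g t = s ∧ Cp A k j Lg Y q u0 u1 b0 a0 t g K) (by
            intro g h H hP
            exact ⟨(Prog.det_st H).trans hP.1, Cp_past g h H hP.2⟩)
        have h4 : (univ.filter fun g : Pr V → Bool => A.st g t = s ∧ o (A.st g T) = K ∧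
          (∀ e ∈ prs K, g e = true) ∧ Cp A k j Lg Y q u0 u1 b0 a0 t g K).card ≤
          (univ.filter fun g : Pr V → Bool => (A.st g t = s ∧
            Cp A k j Lg Y q u0 u1 b0 a0 t g K) ∧ (∀ e ∈ prs K \ A.rd g t, g e = true) ∧
            k.choose 2 - a0 ≤ (prs K \ A.rd g t).card).card := by
          apply card_le_card
          intro g hg
          rw [mem_filter] at hg ⊢
          obtain ⟨-, h5, h6, h7, h8⟩ := hg
          refine ⟨mem_univ _, ⟨h5, h8⟩, fun e he => h7 e (mem_sdiff.1 he).1, ?_⟩
          rw [unread_card h8.2.1, h8.1, h8.2.2.1]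
        have h5 : (univ.filter fun g : Pr V → Bool => A.st g t = s ∧
            Cp A k j Lg Y q u0 u1 b0 a0 t g K).card ≤
            (univ.filter fun g : Pr V → Bool => A.st g t = s).card := by
          apply card_le_card
          intro g hg
          rw [mem_filter] at hg ⊢
          exact ⟨mem_univ _, hg.2.1⟩
        have h6 := (Nat.mul_le_mul_right (2 ^ (k.choose 2 - a0)) h4).trans (h3.trans h5)
        rw [hN]
        exact_mod_cast h6
      refine (sum_le_card_nsmul _ _ _ h2).trans ?_
      rw [nsmul_eq_mul]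
      have h3 : ((KK.filter (fun K => d * N ≤ CC K)).card : ℝ) ≤ FF.card := by
        norm_cast
        apply card_le_card
        intro K hK
        rw [mem_filter] at hK
        rw [hFF, mem_filter]
        exact ⟨mem_univ _, hK.2⟩
      have h4 : d ^ 2 * (FF.card : ℝ) ≤
          16 * (Bd (Fintype.card V) k j Lg Y u0 b0 θ0 ρ r b m0 Λ / 2 ^ a0) := hlf
      have h5 : (FF.card : ℝ) ≤
          16 * (Bd (Fintype.card V) k j Lg Y u0 b0 θ0 ρ r b m0 Λ / 2 ^ a0) / d ^ 2 := by
        rw [le_div_iff₀ (by positivity)]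
        linarith
      have h6 : (2 : ℝ) ^ (k.choose 2) = 2 ^ (k.choose 2 - a0) * 2 ^ a0 := by
        rw [← pow_add]; congr 1; omega
      calc _ ≤ (16 * (Bd (Fintype.card V) k j Lg Y u0 b0 θ0 ρ r b m0 Λ / 2 ^ a0) / d ^ 2) *
            (N / 2 ^ (k.choose 2 - a0)) :=
            mul_le_mul_of_nonneg_right (h3.trans h5) (by positivity)
        _ = _ := by
            rw [h6]
            field_simp
    -- small part
    have hS : ∑ K ∈ KK.filter (fun K => ¬ d * N ≤ CC K),
        ((univ.filter fun g : Pr V → Bool => A.st g t = s ∧ o (A.st g T) = K ∧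
          (∀ e ∈ prs K, g e = true) ∧ Cp A k j Lg Y q u0 u1 b0 a0 t g K).card : ℝ) ≤
        d * ((univ.filter fun g : Pr V → Bool => A.st g t = s ∧ hit A o k T t g).card : ℝ) := by
      have h2 : ∀ K ∈ KK.filter (fun K => ¬ d * N ≤ CC K),
          ((univ.filter fun g : Pr V → Bool => A.st g t = s ∧ o (A.st g T) = K ∧
          (∀ e ∈ prs K, g e = true) ∧ Cp A k j Lg Y q u0 u1 b0 a0 t g K).card : ℝ) ≤
          d * ((univ.filter fun g : Pr V → Bool => A.st g t = s ∧
            o (A.st g T) = K).card : ℝ) := by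
        intro K hK
        rw [mem_filter, not_le] at hK
        have hNpos : 0 < N := lt_of_lt_of_le (by positivity) hge
        have h3 := Prog.swap hA htT s (fun g => Cp A k j Lg Y q u0 u1 b0 a0 t g K)
          (fun g h H hP => Cp_past g h H hP) (fun x => o x = K)
        have h4 : (univ.filter fun g : Pr V → Bool => A.st g t = s ∧ o (A.st g T) = K ∧
          (∀ e ∈ prs K, g e = true) ∧ Cp A k j Lg Y q u0 u1 b0 a0 t g K).card ≤
          (univ.filter fun g : Pr V → Bool => A.st g t = s ∧
            Cp A k j Lg Y q u0 u1 b0 a0 t g K ∧ o (A.st g T) = K).card := by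
          apply card_le_card
          intro g hg
          rw [mem_filter] at hg ⊢
          exact ⟨mem_univ _, hg.2.1, hg.2.2.2.2, hg.2.2.1⟩
        have h5 : ((univ.filter fun g : Pr V → Bool => A.st g t = s ∧ o (A.st g T) = K ∧
          (∀ e ∈ prs K, g e = true) ∧ Cp A k j Lg Y q u0 u1 b0 a0 t g K).card : ℝ) * N ≤
          CC K * ((univ.filter fun g : Pr V → Bool => A.st g t = s ∧
            o (A.st g T) = K).card : ℝ) := by
          rw [hN]
          simp only [hCC]
          exact_mod_cast (Nat.mul_le_mul_right _ h4).trans h3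
        refine le_of_mul_le_mul_right (h5.trans ?_) hNpos
        calc _ ≤ (d * N) * ((univ.filter fun g : Pr V → Bool => A.st g t = s ∧
            o (A.st g T) = K).card : ℝ) := mul_le_mul_of_nonneg_right hK.2.le (Nat.cast_nonneg _)
          _ = _ := by ring
      refine (sum_le_sum h2).trans ?_
      rw [← mul_sum]
      apply mul_le_mul_of_nonneg_left _ hd.le
      have h3 : ∑ K ∈ KK.filter (fun K => ¬ d * N ≤ CC K),
          (univ.filter fun g : Pr V → Bool => A.st g t = s ∧ o (A.st g T) = K).card ≤
          (univ.filter fun g : Pr V → Bool => A.st g t = s ∧ hit A o k T t g).card := by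
        rw [← card_biUnion]
        · apply card_le_card
          intro g hg
          rw [mem_biUnion] at hg
          obtain ⟨K, hK, hg⟩ := hg
          rw [mem_filter] at hK hg
          rw [mem_filter]
          obtain ⟨hK1, -⟩ := hK
          rw [hKK, mem_filter] at hK1
          obtain ⟨-, hg1, hg2⟩ := hg
          refine ⟨mem_univ _, hg1, ?_, ?_⟩
          · rw [hg2]; exact hK1.2.1
          · rw [hg2]
            unfold Prog.qr
            rw [hg1]
            exact hK1.2.2
        · intro K _ K' _ hne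
          rw [Function.onFun, disjoint_left]
          intro g hg hg'
          rw [mem_filter] at hg hg'
          exact hne (hg.2.2.symm.trans hg'.2.2)
      exact_mod_cast h3
    have hz : 0 ≤ η * 2 ^ Fintype.card (Pr V) := by positivity
    linarith

open Classical in
/-- Each pair of the output is read at most once. -/
theorem hit_sum (hA : A.RO) (o : Fin M → Finset V) (k T : ℕ) :
    ∑ t ∈ range T, ((univ.filter fun g : Pr V → Bool => hit A o k T t g).card : ℝ) ≤
      k.choose 2 * 2 ^ Fintype.card (Pr V) := by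
  have h1 : ∑ t ∈ range T, (univ.filter fun g : Pr V → Bool => hit A o k T t g).card =
      ∑ g : Pr V → Bool, ((range T).filter fun t => hit A o k T t g).card := by
    simp only [card_filter]
    exact sum_comm
  have h2 : ∀ g : Pr V → Bool, ((range T).filter fun t => hit A o k T t g).card ≤
      k.choose 2 := by
    intro g
    by_cases hk : (o (A.st g T)).card = k
    · have hk2 : k.choose 2 = ((prs (o (A.st g T))).map Function.Embedding.some).card := by
        rw [card_map, prs_card, hk]
      rw [hk2]
      apply card_le_card_of_injOn (fun t => A.qr g t)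
      · intro t ht
        rw [mem_coe, mem_filter] at ht
        obtain ⟨-, -, e, he, hm⟩ := ht
        rw [mem_coe, mem_map]
        exact ⟨e, hm, he.symm⟩
      · intro t ht t' ht' heq
        rw [mem_coe, mem_filter] at ht ht'
        obtain ⟨-, -, e, he, hm⟩ := ht
        simp only at heq
        rcases lt_trichotomy t t' with h | h | h
        · exfalso
          exact hA g t' e (heq ▸ he) ((Prog.mem_rd g t' e).2 ⟨t, h, he⟩)
        · exact h
        · exfalso
          exact hA g t e he ((Prog.mem_rd g t e).2 ⟨t', h, heq ▸ he⟩)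
    · have : ((range T).filter fun t => hit A o k T t g) = ∅ := by
        rw [filter_eq_empty_iff]
        intro t _ h
        exact hk h.1
      rw [this, card_empty]
      exact Nat.zero_le _
  have h3 : ∑ t ∈ range T, (univ.filter fun g : Pr V → Bool => hit A o k T t g).card ≤
      k.choose 2 * 2 ^ Fintype.card (Pr V) := by
    rw [h1]
    refine (sum_le_sum fun g _ => h2 g).trans (le_of_eq ?_)
    rw [sum_const, smul_eq_mul, card_univ, Fintype.card_fun, Fintype.card_bool, mul_comm]
  exact_mod_cast h3

open Classical in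
/-- Never crossing. -/
theorem never_bound (hb0 : 0 < b0) (o : Fin M → Finset V) (k j T : ℕ) :
    ((univ.filter fun g : Pr V → Bool => (o (A.st g T)).card = k ∧
      (∀ e ∈ prs (o (A.st g T)), g e = true) ∧
      cov (r1 A g T) b0 (o (A.st g T)) < b0 * j).card : ℝ) * 2 ^ ((k - j).choose 2 - b0 * j) ≤
      2 ^ Fintype.card (Pr V) := by
  set D := (k - j).choose 2 - b0 * j with hD
  have h1 : (univ.filter fun g : Pr V → Bool => (o (A.st g T)).card = k ∧
      (∀ e ∈ prs (o (A.st g T)), g e = true) ∧
      cov (r1 A g T) b0 (o (A.st g T)) < b0 * j) ⊆ (univ : Finset (Finset V)).biUnion fun K =>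
      univ.filter fun g : Pr V → Bool => o (A.st g T) = K ∧
        (∀ e ∈ prs K \ A.rd g T, g e = true) ∧ D ≤ (prs K \ A.rd g T).card := by
    intro g hg
    rw [mem_filter] at hg
    obtain ⟨-, hk, hall, hcov⟩ := hg
    rw [mem_biUnion]
    refine ⟨o (A.st g T), mem_univ _, ?_⟩
    rw [mem_filter]
    refine ⟨mem_univ _, rfl, fun e he => hall e (mem_sdiff.1 he).1, ?_⟩
    apply no_crossing b0 j k hb0 g _ T hk _ hcov
    rw [clean_iff]
    intro e he
    exact hall e (mem_inter.1 he).2
  have h2 : ∀ K : Finset V, (univ.filter fun g : Pr V → Bool => o (A.st g T) = K ∧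
        (∀ e ∈ prs K \ A.rd g T, g e = true) ∧ D ≤ (prs K \ A.rd g T).card).card * 2 ^ D ≤
      (univ.filter fun g : Pr V → Bool => o (A.st g T) = K).card := by
    intro K
    exact Prog.unread (A := A) T D (prs K) (fun g => o (A.st g T) = K) (by
      intro g h H hP
      rw [Prog.det_st H]; exact hP)
  have h3 : (univ.filter fun g : Pr V → Bool => (o (A.st g T)).card = k ∧
      (∀ e ∈ prs (o (A.st g T)), g e = true) ∧
      cov (r1 A g T) b0 (o (A.st g T)) < b0 * j).card * 2 ^ D ≤ 2 ^ Fintype.card (Pr V) := by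
    calc _ ≤ (∑ K : Finset V, (univ.filter fun g : Pr V → Bool => o (A.st g T) = K ∧
        (∀ e ∈ prs K \ A.rd g T, g e = true) ∧ D ≤ (prs K \ A.rd g T).card).card) * 2 ^ D :=
          Nat.mul_le_mul_right _ ((card_le_card h1).trans card_biUnion_le)
      _ ≤ ∑ K : Finset V, (univ.filter fun g : Pr V → Bool => o (A.st g T) = K).card := by
          rw [sum_mul]
          exact sum_le_sum fun K _ => h2 K
      _ = 2 ^ Fintype.card (Pr V) := by
          rw [← card_eq_sum_card_fiberwise (f := fun g : Pr V → Bool => o (A.st g T))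
            (s := univ) (t := univ) (fun _ _ => mem_coe.2 (mem_univ _))]
          rw [card_univ, Fintype.card_fun, Fintype.card_bool]
  exact_mod_cast h3

end Karp
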