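import Pool.Agent.Karp.Asm3

/-!
# Assembly, part 4: the finite bound
-/

namespace Karp

open Finset

variable {V : Type} [Fintype V] [DecidableEq V] {M : ℕ} {A : Prog (Pr V) (Fin M)}
  {n k j Lg Y q u0 u1 b0 θ0 ρ r w G d0 b : ℕ} {m0 Λ η d : ℝ}

open Classical in
theorem finite_bound (hA : A.RO)
    (hc : Cond (Fintype.card V) k j Lg Y q u0 u1 b0 θ0 ρ r w G d0 b m0 Λ η d) (T : ℕ)
    (o : Fin M → Finset V) :
    ((univ.filter fun g : Pr V → Bool => (o (A.st g T)).card = k ∧
      ∀ e ∈ prs (o (A.st g T)), g e = true).card : ℝ) ≤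
    2 ^ Fintype.card (Pr V) * (T * ((k + 1) ^ 2 * (Fintype.card V : ℝ) ^ k / 2 ^ (Y - 2) +
      (Fintype.card V + 1) / 2 ^ u0) + 1 / 2 ^ ((k - j).choose 2 - b0 * j) +
      (k.choose 2 + 1) * (T * (M * η +
        16 * Bd (Fintype.card V) k j Lg Y u0 b0 θ0 ρ r b m0 Λ / (d ^ 2 * 2 ^ (k.choose 2))) +
        d * k.choose 2)) := by
  set N := (2 : ℝ) ^ Fintype.card (Pr V) with hN
  have hN0 : 0 < N := by positivity
  set n := Fintype.card V with hn
  set B := 16 * Bd n k j Lg Y u0 b0 θ0 ρ r b m0 Λ / (d ^ 2 * 2 ^ (k.choose 2)) with hB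
  set E1 : ℕ → Finset (Pr V → Bool) := fun t =>
    univ.filter fun g => ¬ T1 (r1 A g t) (r0 A g t) k Y Lg with hE1
  set E3 : ℕ → Finset (Pr V → Bool) := fun t =>
    univ.filter fun g => ¬ T3 (r1 A g t) (r0 A g t) q u0 u1 with hE3
  set NV : Finset (Pr V → Bool) := univ.filter fun g => (o (A.st g T)).card = k ∧
      (∀ e ∈ prs (o (A.st g T)), g e = true) ∧
      cov (r1 A g T) b0 (o (A.st g T)) < b0 * j with hNV
  set ND : ℕ → ℕ → Fin M → Finset (Pr V → Bool) := fun a0 t s =>
    univ.filter fun g => A.st g t = s ∧ hit A o k T t g ∧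
      (∀ e ∈ prs (o (A.st g T)), g e = true) ∧
      Cp A k j Lg Y q u0 u1 b0 a0 t g (o (A.st g T)) with hND
  set HT : ℕ → Finset (Pr V → Bool) := fun t => univ.filter fun g => hit A o k T t g with hHT
  have hsub : (univ.filter fun g : Pr V → Bool => (o (A.st g T)).card = k ∧
      ∀ e ∈ prs (o (A.st g T)), g e = true) ⊆
      (((range T).biUnion E1) ∪ ((range T).biUnion E3)) ∪ (NV ∪
        (range (k.choose 2 + 1)).biUnion fun a0 => (range T).biUnion fun t =>
          (univ : Finset (Fin M)).biUnion fun s => ND a0 t s) := by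
    intro g hg
    rw [mem_filter] at hg
    obtain ⟨-, hk, hall⟩ := hg
    have hclean : ∀ t, clean (r0 A g t) (o (A.st g T)) := by
      intro t
      rw [clean_iff]
      intro e he
      exact hall e (mem_inter.1 he).2
    rw [mem_union]
    by_cases hty : ∃ t ∈ range T, ¬ Typ A k Y Lg q u0 u1 g t
    · left
      obtain ⟨t, ht, hnt⟩ := hty
      rw [mem_union, mem_biUnion, mem_biUnion]
      unfold Typ at hnt
      rw [not_and_or] at hnt
      rcases hnt with h | h
      · left; exact ⟨t, ht, by rw [hE1, mem_filter]; exact ⟨mem_univ _, h⟩⟩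
      · right; exact ⟨t, ht, by rw [hE3, mem_filter]; exact ⟨mem_univ _, h⟩⟩
    · right
      push Not at hty
      rw [mem_union]
      rcases lt_or_ge (cov (r1 A g T) b0 (o (A.st g T))) (b0 * j) with h | h
      · left
        rw [hNV, mem_filter]
        exact ⟨mem_univ _, hk, hall, h⟩
      · right
        obtain ⟨t, ht, hcov, e, he, hep⟩ := crossing b0 (b0 * j)
          (Nat.mul_pos hc.hb0 hc.hj) g (o (A.st g T)) T h
        rw [mem_biUnion]
        refine ⟨inn (r1 A g t) (o (A.st g T)), ?_, ?_⟩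
        · rw [mem_range, Nat.lt_succ_iff, ← hk]
          exact inn_le_choose (fun e he => r1_nd he) _
        · rw [mem_biUnion]
          refine ⟨t, mem_range.2 ht, ?_⟩
          rw [mem_biUnion]
          refine ⟨A.st g t, mem_univ _, ?_⟩
          rw [hND, mem_filter]
          exact ⟨mem_univ _, rfl, ⟨hk, e, he, hep⟩, hall, hk, hclean t, rfl, hcov,
            hty t (mem_range.2 ht)⟩
  have hcard : ((univ.filter fun g : Pr V → Bool => (o (A.st g T)).card = k ∧
      ∀ e ∈ prs (o (A.st g T)), g e = true).card : ℝ) ≤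
      (∑ t ∈ range T, ((E1 t).card : ℝ) + ∑ t ∈ range T, ((E3 t).card : ℝ)) + ((NV.card : ℝ) +
        ∑ a0 ∈ range (k.choose 2 + 1), ∑ t ∈ range T, ∑ s : Fin M, ((ND a0 t s).card : ℝ)) := by
    have h1 := (card_le_card hsub).trans ((card_union_le _ _).trans (Nat.add_le_add
      ((card_union_le _ _).trans (Nat.add_le_add card_biUnion_le card_biUnion_le))
      ((card_union_le _ _).trans (Nat.add_le_add le_rfl (card_biUnion_le.trans
        (sum_le_sum fun a0 _ => card_biUnion_le.trans
          (sum_le_sum fun t _ => card_biUnion_le)))))))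
    exact_mod_cast h1
  refine hcard.trans ?_
  have b1 : ∑ t ∈ range T, ((E1 t).card : ℝ) ≤
      N * (T * ((k + 1) ^ 2 * (n : ℝ) ^ k / 2 ^ (Y - 2))) := by
    refine (sum_le_card_nsmul _ _ (N * ((k + 1) ^ 2 * (n : ℝ) ^ k / 2 ^ (Y - 2))) ?_).trans ?_
    · intro t _
      have := typ1 hA t k Y Lg hc.hn1 hc.hn hc.hY
      rw [← mul_div_assoc, le_div_iff₀ (by positivity)]
      refine this.trans (le_of_eq ?_)
      ring
    · rw [nsmul_eq_mul, card_range]
      exact le_of_eq (by ring)
  have b3 : ∑ t ∈ range T, ((E3 t).card : ℝ) ≤ N * (T * ((n + 1) / 2 ^ u0)) := by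
    refine (sum_le_card_nsmul _ _ (N * ((n + 1) / 2 ^ u0)) ?_).trans ?_
    · intro t _
      have := typ3 hA t q u0 u1 Lg hc.hq hc.hu0 hc.hu1 hc.hn
      rw [← mul_div_assoc, le_div_iff₀ (by positivity)]
      refine this.trans (le_of_eq ?_)
      ring
    · rw [nsmul_eq_mul, card_range]
      exact le_of_eq (by ring)
  have b2 : (NV.card : ℝ) ≤ N * (1 / 2 ^ ((k - j).choose 2 - b0 * j)) := by
    have := never_bound (A := A) hc.hb0 o k j T
    rw [mul_one_div, le_div_iff₀ (by positivity)]
    exact this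
  have b4 : ∀ a0 ∈ range (k.choose 2 + 1), ∑ t ∈ range T, ∑ s : Fin M, ((ND a0 t s).card : ℝ) ≤
      N * (T * (M * η + B) + d * k.choose 2) := by
    intro a0 ha0
    rw [mem_range, Nat.lt_succ_iff] at ha0
    have h1 : ∀ t ∈ range T, ∑ s : Fin M, ((ND a0 t s).card : ℝ) ≤
        N * (M * η + B) + d * ((HT t).card : ℝ) := by
      intro t ht
      have h2 : ∑ s : Fin M, ((ND a0 t s).card : ℝ) ≤ ∑ s : Fin M, (η * N +
          B * ((univ.filter fun g : Pr V → Bool => A.st g t = s).card : ℝ) +
          d * ((univ.filter fun g : Pr V → Bool => A.st g t = s ∧ hit A o k T t g).card : ℝ)) := by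
        apply sum_le_sum
        intro s _
        exact node_bound hA hc (mem_range.1 ht).le a0 ha0 o s
      refine h2.trans ?_
      rw [sum_add_distrib, sum_add_distrib, sum_const, card_univ, Fintype.card_fin,
        nsmul_eq_mul, ← mul_sum, ← mul_sum]
      have h3 : ∑ s : Fin M, ((univ.filter fun g : Pr V → Bool => A.st g t = s).card : ℝ) = N := by
        have h4 : ∑ s : Fin M, (univ.filter fun g : Pr V → Bool => A.st g t = s).card =
            2 ^ Fintype.card (Pr V) := by
          rw [← card_eq_sum_card_fiberwise (f := fun g : Pr V → Bool => A.st g t)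
            (s := univ) (t := univ) (fun _ _ => mem_coe.2 (mem_univ _))]
          rw [card_univ, Fintype.card_fun, Fintype.card_bool]
        rw [hN]
        exact_mod_cast h4
      have h5 : ∑ s : Fin M, ((univ.filter fun g : Pr V → Bool =>
          A.st g t = s ∧ hit A o k T t g).card : ℝ) = (HT t).card := by
        have h4 : ∑ s : Fin M, (univ.filter fun g : Pr V → Bool =>
            A.st g t = s ∧ hit A o k T t g).card = (HT t).card := by
          rw [card_eq_sum_card_fiberwise (f := fun g : Pr V → Bool => A.st g t)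
            (s := HT t) (t := univ) (fun _ _ => mem_coe.2 (mem_univ _))]
          apply sum_congr rfl
          intro s _
          rw [hHT, filter_filter]
          congr 1
          apply filter_congr
          intro g _
          exact and_comm
        exact_mod_cast h4
      rw [h3, h5]
      exact le_of_eq (by ring)
    refine (sum_le_sum h1).trans ?_
    rw [sum_add_distrib, sum_const, card_range, nsmul_eq_mul, ← mul_sum]
    have h6 := hit_sum hA o k T
    have h7 := mul_le_mul_of_nonneg_left h6 hc.hd.le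
    calc _ ≤ (T : ℝ) * (N * (M * η + B)) + d * (k.choose 2 * 2 ^ Fintype.card (Pr V)) :=
          add_le_add le_rfl h7
      _ = _ := by rw [hN]; ring
  have b5 := sum_le_card_nsmul _ _ _ b4
  rw [nsmul_eq_mul, card_range] at b5
  push_cast at b5
  calc _ ≤ (N * (T * ((k + 1) ^ 2 * (n : ℝ) ^ k / 2 ^ (Y - 2))) + N * (T * ((n + 1) / 2 ^ u0))) +
        (N * (1 / 2 ^ ((k - j).choose 2 - b0 * j)) +
          (k.choose 2 + 1) * (N * (T * (M * η + B) + d * k.choose 2))) :=
        add_le_add (add_le_add b1 b3) (add_le_add b2 b5)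
    _ = _ := by ring

end Karp
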