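import Pool.Agent.Karp.Asm4

/-!
# Asymptotics, part 1: elementary facts and the exponent inequality
-/

namespace Karp

open Finset Filter

theorem ev_ge (x : ℝ) : ∀ᶠ j : ℕ in atTop, x ≤ (j : ℝ) :=
  tendsto_natCast_atTop_atTop.eventually_ge_atTop x

/-- Powers are smaller than exponentials. -/
theorem ev_pow (m : ℕ) {κ : ℝ} (hκ : 0 < κ) : ∀ᶠ j : ℕ in atTop, (j : ℝ) ^ m ≤ 2 ^ (κ * j) := by
  have h1 : (1 : ℝ) < 2 ^ κ := Real.one_lt_rpow (by norm_num) hκ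
  have h2 := tendsto_pow_const_div_const_pow_of_one_lt m h1
  filter_upwards [h2.eventually_le_const (show (0 : ℝ) < 1 by norm_num)] with j hj
  rw [div_le_one (by positivity)] at hj
  rw [Real.rpow_mul (by norm_num), Real.rpow_natCast]
  exact hj

/-- A linear function is smaller than a quadratic one. -/
theorem ev_lin (x y : ℝ) {κ : ℝ} (hκ : 0 < κ) : ∀ᶠ j : ℕ in atTop, x * j + y ≤ κ * j ^ 2 := by
  filter_upwards [ev_ge ((|x| + |y|) / κ), ev_ge 1] with j h1 h2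
  rw [div_le_iff₀ hκ] at h1
  have h3 : x * j ≤ |x| * j := mul_le_mul_of_nonneg_right (le_abs_self x) (by linarith)
  have h4 : y ≤ |y| * j := by nlinarith [le_abs_self y, abs_nonneg y]
  have h5 : (|x| + |y|) * j ≤ (j * κ) * j := mul_le_mul_of_nonneg_right h1 (by linarith)
  nlinarith

/-- The exponent inequality. -/
theorem expo {a ε κ κ1 K1 σ j k ρ b0 θ0 b c2 r : ℝ} (ha : 0 ≤ a) (hε : 0 < ε)
    (hκ1 : 0 < κ1) (hκe : (a + ε / 4) ^ 2 = κ1 * (a + ε / 2) ^ 2) (hK1 : 0 ≤ K1)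
    (hσ : 0 ≤ σ) (hσ1 : σ ≤ 1) (hσs : 14 * (K1 + 2) ^ 2 * σ ≤ ε ^ 2 / 16)
    (hκ : (4 + 2 * K1) * κ ≤ ε ^ 2 / 16) (hκ0 : 0 ≤ κ) (hr : r ≤ κ * j ^ 2)
    (hj : 0 ≤ j) (hk : (1 + a + ε) * j ≤ k) (hkK : k ≤ K1 * j) (hρ0 : 0 ≤ ρ)
    (hρ : ρ ≤ 4 * (K1 + 2) * σ * j) (hb0 : b0 ≤ σ * j)
    (hθ0 : θ0 ≤ σ * j) (hθ00 : 0 ≤ θ0) (hb : b ≤ (a + ε / 4) * j / κ1 + 1) (hb00 : 0 ≤ b)
    (hlin : j + (j + 1) * c2 + k / 2 + (k - (j - ρ)) + (3 / 2 * (a + ε / 4) * j + κ1) ≤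
      κ * j ^ 2) :
    j + (j + 1) * c2 + (j - ρ) * (j - ρ) / 2 + κ * j ^ 2 + κ1 * (b * (b + 1) / 2) +
      2 * κ * K1 * j ^ 2 + ((k - (j - ρ)) * (j + 1) + (b0 * j + (r + k * θ0) + ρ * k)) ≤
    k * (k - 1) / 2 - ε ^ 2 / 4 * j ^ 2 := by
  have h1 : κ1 * (b * (b + 1) / 2) ≤
      (a + ε / 2) ^ 2 * j ^ 2 / 2 + (3 / 2 * (a + ε / 4) * j + κ1) := by
    set β := (a + ε / 4) * j / κ1 with hβ
    have h2 : b * (b + 1) ≤ (β + 1) * (β + 2) :=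
      mul_le_mul hb (by linarith) (by linarith) (by linarith)
    have h3 : κ1 * β = (a + ε / 4) * j := by rw [hβ]; field_simp
    have h4 : κ1 * (b * (b + 1)) ≤ κ1 * ((β + 1) * (β + 2)) :=
      mul_le_mul_of_nonneg_left h2 hκ1.le
    have h5 : κ1 * ((β + 1) * (β + 2)) = (κ1 * β) * β + 3 * (κ1 * β) + 2 * κ1 := by ring
    have h6 : (κ1 * β) * β = (a + ε / 2) ^ 2 * j ^ 2 := by
      have : κ1 * ((κ1 * β) * β) = κ1 * ((a + ε / 2) ^ 2 * j ^ 2) := by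
        calc κ1 * ((κ1 * β) * β) = (κ1 * β) ^ 2 := by ring
          _ = (a + ε / 4) ^ 2 * j ^ 2 := by rw [h3]; ring
          _ = _ := by rw [hκe]; ring
      exact mul_left_cancel₀ hκ1.ne' this
    rw [h5, h6, h3] at h4
    linarith
  have h7 : ((a + ε) * j) ^ 2 ≤ (k - j) ^ 2 := by
    apply pow_le_pow_left₀ (by positivity)
    linarith
  have h8 : k * θ0 ≤ K1 * σ * j ^ 2 := by
    calc k * θ0 ≤ (K1 * j) * (σ * j) := mul_le_mul hkK hθ0 hθ00 (by positivity)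
      _ = _ := by ring
  have h9 : b0 * j ≤ σ * j ^ 2 := by
    calc b0 * j ≤ (σ * j) * j := mul_le_mul_of_nonneg_right hb0 hj
      _ = _ := by ring
  have h10 : ρ * k ≤ 4 * (K1 + 2) * K1 * σ * j ^ 2 := by
    have hk0 : 0 ≤ k := le_trans (by positivity) hk
    calc ρ * k ≤ (4 * (K1 + 2) * σ * j) * (K1 * j) := mul_le_mul hρ hkK hk0 (by positivity)
      _ = _ := by ring
  have h11 : ρ ^ 2 / 2 ≤ 8 * (K1 + 2) ^ 2 * σ * j ^ 2 := by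
    have h12 : ρ ^ 2 ≤ (4 * (K1 + 2) * σ * j) ^ 2 := pow_le_pow_left₀ hρ0 hρ 2
    have h13 : (4 * (K1 + 2) * σ * j) ^ 2 = 16 * (K1 + 2) ^ 2 * j ^ 2 * (σ * σ) := by ring
    have h14 : σ * σ ≤ σ * 1 := mul_le_mul_of_nonneg_left hσ1 hσ
    have h15 : 16 * (K1 + 2) ^ 2 * j ^ 2 * (σ * σ) ≤ 16 * (K1 + 2) ^ 2 * j ^ 2 * (σ * 1) :=
      mul_le_mul_of_nonneg_left h14 (by positivity)
    have e1 : 16 * (K1 + 2) ^ 2 * j ^ 2 * (σ * 1) = 2 * (8 * (K1 + 2) ^ 2 * σ * j ^ 2) := by ring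
    linarith
  have hj2 : 0 ≤ j ^ 2 := by positivity
  have h16 : K1 * σ * j ^ 2 + σ * j ^ 2 + 4 * (K1 + 2) * K1 * σ * j ^ 2 +
      8 * (K1 + 2) ^ 2 * σ * j ^ 2 ≤ 14 * (K1 + 2) ^ 2 * σ * j ^ 2 := by
    have : 0 ≤ σ * j ^ 2 := by positivity
    have h17 : K1 + 1 + 4 * (K1 + 2) * K1 + 8 * (K1 + 2) ^ 2 ≤ 14 * (K1 + 2) ^ 2 := by
      nlinarith [mul_nonneg hK1 hK1]
    have h18 := mul_le_mul_of_nonneg_right h17 this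
    have e1 : K1 * σ * j ^ 2 + σ * j ^ 2 + 4 * (K1 + 2) * K1 * σ * j ^ 2 +
      8 * (K1 + 2) ^ 2 * σ * j ^ 2 =
      (K1 + 1 + 4 * (K1 + 2) * K1 + 8 * (K1 + 2) ^ 2) * (σ * j ^ 2) := by ring
    have e2 : 14 * (K1 + 2) ^ 2 * σ * j ^ 2 = 14 * (K1 + 2) ^ 2 * (σ * j ^ 2) := by ring
    rw [e1, e2]
    exact h18
  have h19 : 14 * (K1 + 2) ^ 2 * σ * j ^ 2 ≤ ε ^ 2 / 16 * j ^ 2 :=
    mul_le_mul_of_nonneg_right hσs hj2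
  have h20 : (4 + 2 * K1) * κ * j ^ 2 ≤ ε ^ 2 / 16 * j ^ 2 := mul_le_mul_of_nonneg_right hκ hj2
  have h21 : (a + ε / 2) ^ 2 * j ^ 2 / 2 - ((a + ε) * j) ^ 2 / 2 ≤ -(3 / 8 * ε ^ 2 * j ^ 2) := by
    have : 0 ≤ a * ε * j ^ 2 := by positivity
    have e1 : (a + ε / 2) ^ 2 * j ^ 2 / 2 - ((a + ε) * j) ^ 2 / 2 =
      -(3 / 8 * ε ^ 2 * j ^ 2) - a * ε * j ^ 2 / 2 := by ring
    rw [e1]
    linarith
  have h22 : (j - ρ) * (j - ρ) / 2 + (k - (j - ρ)) * (j + 1) - k * (k - 1) / 2 =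
      -((k - j) ^ 2 / 2) + ρ ^ 2 / 2 + k / 2 + (k - (j - ρ)) := by ring
  have h23 : 0 ≤ κ * j ^ 2 := by positivity
  have h24 : (4 + 2 * K1) * κ * j ^ 2 = 4 * (κ * j ^ 2) + 2 * κ * K1 * j ^ 2 := by ring
  have h25 : ρ * k = ρ * k := rfl
  have h26 : ((a + ε) * j) ^ 2 / 2 ≤ (k - j) ^ 2 / 2 := by linarith
  linarith

end Karp
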