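import Pool.Agent.Karp.Asym1

/-!
# Asymptotics, part 2: the bound for the class in terms of exponents
-/

namespace Karp

open Finset Filter

theorem pow_le_two {x : ℝ} {m : ℕ} {s e : ℝ} (hx0 : 0 ≤ x) (hx : x ≤ 2 ^ s) (hm : s * m ≤ e) :
    x ^ m ≤ 2 ^ e := by
  calc x ^ m ≤ (2 ^ s) ^ m := pow_le_pow_left₀ hx0 hx m
    _ = 2 ^ (s * m) := by rw [← Real.rpow_natCast, ← Real.rpow_mul (by norm_num)]
    _ ≤ 2 ^ e := Real.rpow_le_rpow_of_exponent_le (by norm_num) hm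

theorem Bd_le {n k j Y u0 b0 θ0 ρ r b : ℕ} {m0 κ κ1 K1 c2 : ℝ} (hκ : 0 ≤ κ)
    (h1 : (k / θ0 + 1 : ℝ) ≤ 2 ^ (j : ℝ)) (h2 : n < 2 ^ (j + 1)) (hc2 : ((k / θ0 : ℕ) : ℝ) ≤ c2)
    (hm : 0 ≤ m0) (h4 : m0 + (k + 1) * u0 ≤ 2 ^ (κ * j)) (hκ1 : 0 ≤ κ1)
    (h6 : (k + 1 : ℝ) ≤ 2 ^ (κ * j)) (h7 : (Y : ℝ) ≤ 2 ^ (κ * j)) (hkK : (k : ℝ) ≤ K1 * j)
    (hρj : ρ ≤ j) (hjk : j ≤ k) :
    Bd n k j (j + 1) Y u0 b0 θ0 ρ r b m0 (2 ^ κ1) ≤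
      2 ^ ((j : ℝ) + (j + 1) * c2 + (j - ρ) * (j - ρ) / 2 + κ * j ^ 2 + κ1 * (b * (b + 1) / 2) +
      2 * κ * K1 * j ^ 2 + ((k - (j - ρ)) * (j + 1) + (b0 * j + (r + k * θ0) + ρ * k))) := by
  have hj0 : (0 : ℝ) ≤ j := Nat.cast_nonneg _
  have hρ0 : (0 : ℝ) ≤ ρ := Nat.cast_nonneg _
  have hcj : ((j - ρ : ℕ) : ℝ) = j - ρ := by push_cast [Nat.cast_sub hρj]; ring
  have hcR : ((k - (j - ρ) : ℕ) : ℝ) = k - (j - ρ) := by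
    rw [Nat.cast_sub (by omega), hcj]
  have hρj' : (ρ : ℝ) ≤ j := by exact_mod_cast hρj
  have hjk' : (j : ℝ) ≤ k := by exact_mod_cast hjk
  have hlej : ((j : ℝ) - ρ) ≤ j := by linarith
  have f2 : (n : ℝ) ^ (k / θ0) ≤ 2 ^ (((j : ℝ) + 1) * c2) := by
    apply pow_le_two (s := (j : ℝ) + 1) (Nat.cast_nonneg _)
    · have : (n : ℝ) ≤ 2 ^ (j + 1) := by exact_mod_cast h2.le
      refine this.trans (le_of_eq ?_)
      rw [← Real.rpow_natCast]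
      push_cast
      rfl
    · exact mul_le_mul_of_nonneg_left hc2 (by positivity)
  have f3 : (2 : ℝ) ^ ((j - ρ).choose 2) ≤ 2 ^ (((j : ℝ) - ρ) * (j - ρ) / 2) := by
    rw [← Real.rpow_natCast]
    apply Real.rpow_le_rpow_of_exponent_le (by norm_num)
    rw [Nat.cast_choose_two, hcj]
    nlinarith
  have f4 : (m0 + (k + 1) * u0) ^ (j - ρ) ≤ 2 ^ (κ * j ^ 2) := by
    apply pow_le_two (by positivity) h4
    rw [hcj]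
    nlinarith [mul_nonneg hκ hj0]
  have f5 : ((2 : ℝ) ^ κ1) ^ (b * (b + 1) / 2) ≤ 2 ^ (κ1 * (b * (b + 1) / 2)) := by
    apply pow_le_two (s := κ1) (by positivity) le_rfl
    apply mul_le_mul_of_nonneg_left _ hκ1
    refine Nat.cast_div_le.trans (le_of_eq ?_)
    push_cast
    ring
  have hRk : ((k : ℝ) - (j - ρ)) ≤ k := by linarith
  have hR0 : (0 : ℝ) ≤ (k : ℝ) - (j - ρ) := by linarith
  have hRb : κ * j * ((k : ℝ) - (j - ρ)) ≤ κ * K1 * j ^ 2 := by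
    calc κ * j * ((k : ℝ) - (j - ρ)) ≤ κ * j * (K1 * j) :=
          mul_le_mul_of_nonneg_left (hRk.trans hkK) (by positivity)
      _ = _ := by ring
  have f6 : (k + 1 : ℝ) ^ (k - (j - ρ)) ≤ 2 ^ (κ * K1 * j ^ 2) := by
    apply pow_le_two (by positivity) h6
    rw [hcR]; exact hRb
  have f7 : (Y : ℝ) ^ (k - (j - ρ)) ≤ 2 ^ (κ * K1 * j ^ 2) := by
    apply pow_le_two (by positivity) h7
    rw [hcR]; exact hRb
  have f8 : (2 : ℝ) ^ ((k - (j - ρ)) * (j + 1) + (b0 * j + (r + k * θ0) + ρ * k)) =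
      2 ^ (((k : ℝ) - (j - ρ)) * (j + 1) + (b0 * j + (r + k * θ0) + ρ * k)) := by
    rw [← Real.rpow_natCast]
    congr 1
    push_cast [hcR]
    ring
  unfold Bd
  rw [f8]
  have e : (2 : ℝ) ^ ((j : ℝ) + (j + 1) * c2 + (j - ρ) * (j - ρ) / 2 + κ * j ^ 2 +
      κ1 * (b * (b + 1) / 2) + 2 * κ * K1 * j ^ 2 +
      ((k - (j - ρ)) * (j + 1) + (b0 * j + (r + k * θ0) + ρ * k))) =
      (2 ^ (j : ℝ) * 2 ^ (((j : ℝ) + 1) * c2)) * (2 ^ (((j : ℝ) - ρ) * (j - ρ) / 2) *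
      (2 ^ (κ * (j : ℝ) ^ 2) * 2 ^ (κ1 * ((b : ℝ) * (b + 1) / 2)))) *
      (2 ^ (κ * K1 * (j : ℝ) ^ 2) * (2 ^ (κ * K1 * (j : ℝ) ^ 2) *
      2 ^ (((k : ℝ) - (j - ρ)) * (j + 1) + (b0 * j + (r + k * θ0) + ρ * k)))) := by
    simp only [← Real.rpow_add (show (0 : ℝ) < 2 by norm_num)]
    congr 1
    ring
  rw [e]
  gcongr

end Karp
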