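import Pool.Agent.Karp.Asym2

/-!
# Asymptotics, part 3: the choice of the parameters
-/

namespace Karp

open Finset Filter

/-- Facts about `j` which hold for all large `j`. -/
structure Fac (a ε κ κ1 : ℝ) (K1 s q : ℕ) (η0 : ℝ) (l j : ℕ) : Prop where
  hs : 2 * s ^ 2 ≤ j
  hq : q ≤ j
  h2 : 2 ≤ j
  hK : (K1 * j + 1 : ℝ) ≤ j ^ 2
  hp : (j : ℝ) ^ 5 ≤ 2 ^ (κ * j)
  h1 : (j : ℝ) ^ 2 ≤ 2 ^ (j : ℝ)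
  hlin : (j + (j + 1) * (2 * K1 * s ^ 2) + K1 * j / 2 + K1 * j +
    (3 / 2 * (a + ε / 4) * j + κ1) : ℝ) ≤ κ * j ^ 2
  hm : 2 * (2 : ℝ) ^ κ1 ≤ (1 - 2 ^ κ1 * (1 / 2 + 3 / (2 * q))) * j
  hu : (2 * q ^ 2 * (j + 2) : ℝ) ≤ j ^ 2
  hl1 : 1 ≤ l
  hρ : (4 * l + 1 : ℝ) ≤ 2 / s ^ 2 * j ^ 2
  hr : (4 * l : ℝ) ≤ κ * j ^ 2
  hw1 : (4 * l : ℝ) ≤ 2 ^ (ε / 12 * j)
  hw2 : (2 ^ (2 * a) + 2 + j ^ 2 : ℝ) ≤ 2 ^ (ε / 12 * j)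
  hw3 : (2 * (2 + 2 * K1 * s ^ 2) : ℝ) ≤ 2 ^ (ε / 8 * j)
  ht1 : (η0 / 2 * j ^ 2 + 2 * κ * j + (j + 1) * (K1 * j) + 2 + η0 / 2 * j ^ 2 : ℝ) ≤ j ^ 3
  ht2 : (η0 / 2 * j ^ 2 + (j + 2) + 2 * κ * j + η0 / 2 * j ^ 2 : ℝ) ≤ j ^ 2
  ht3 : (1 / s * j ^ 2 + η0 / 2 * j ^ 2 : ℝ) ≤ ε * j * (ε * j - 1) / 2
  ht5 : (2 * κ * j + η0 / 2 * j ^ 2 + 4 + 2 * l + η0 / 2 * j ^ 2 : ℝ) ≤ ε ^ 2 / 4 * j ^ 2
  ht6 : (4 * κ * j + η0 / 2 * j ^ 2 : ℝ) ≤ l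

theorem ev_quad (x y z : ℝ) : ∀ᶠ j : ℕ in atTop, x * j ^ 2 + y * j + z ≤ (j : ℝ) ^ 3 := by
  filter_upwards [ev_ge (|x| + |y| + |z|), ev_ge 1] with j h1 h2
  have h3 : x * (j : ℝ) ^ 2 ≤ |x| * j ^ 2 :=
    mul_le_mul_of_nonneg_right (le_abs_self x) (by positivity)
  have h4 : y * (j : ℝ) ≤ |y| * j ^ 2 := by
    have : (j : ℝ) ≤ j ^ 2 := by nlinarith
    calc y * (j : ℝ) ≤ |y| * j := mul_le_mul_of_nonneg_right (le_abs_self y) (by linarith)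
      _ ≤ _ := mul_le_mul_of_nonneg_left this (abs_nonneg _)
  have h5 : z ≤ |z| * j ^ 2 := by
    have : (1 : ℝ) ≤ j ^ 2 := by nlinarith
    calc z ≤ |z| * 1 := by rw [mul_one]; exact le_abs_self z
      _ ≤ _ := mul_le_mul_of_nonneg_left this (abs_nonneg _)
  have h6 : (|x| + |y| + |z|) * (j : ℝ) ^ 2 ≤ j * j ^ 2 :=
    mul_le_mul_of_nonneg_right h1 (by positivity)
  nlinarith

theorem ev_const (x : ℝ) {κ : ℝ} (hκ : 0 < κ) : ∀ᶠ j : ℕ in atTop, x ≤ 2 ^ (κ * j) := by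
  filter_upwards [ev_pow 1 hκ, ev_ge x] with j h1 h2
  rw [pow_one] at h1
  linarith

theorem Fac_ev (a ε κ κ1 η0 : ℝ) (K1 s q : ℕ) (hε : 0 < ε) (hκ : 0 < κ)
    (hs : 0 < s) (hq : 2 ^ κ1 * (1 / 2 + 3 / (2 * (q : ℝ))) < 1)
    (hsε : (1 / s : ℝ) ≤ ε ^ 2 / 8) (hη : 0 < η0) (hη1 : η0 ≤ 1 / 4) (hη2 : 4 * η0 ≤ κ)
    (hη3 : 4 * η0 ≤ 1 / s ^ 2) (hη4 : η0 ≤ ε ^ 2 / 32) :
    ∀ᶠ j : ℕ in atTop, Fac a ε κ κ1 K1 s q η0 ⌊η0 * (j : ℝ) ^ 2⌋₊ j := by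
  have hs0 : (0 : ℝ) < s := by exact_mod_cast hs
  have e1 := ev_lin (K1 : ℝ) 1 (show (0 : ℝ) < 1 by norm_num)
  have e2 := ev_pow 5 hκ
  have e3 := ev_pow 2 (show (0 : ℝ) < 1 by norm_num)
  have e4 := ev_lin (1 + 2 * K1 * s ^ 2 + K1 / 2 + K1 + 3 / 2 * (a + ε / 4))
    (2 * K1 * s ^ 2 + κ1) hκ
  have e5 := ev_ge (2 * 2 ^ κ1 / (1 - 2 ^ κ1 * (1 / 2 + 3 / (2 * (q : ℝ)))))
  have e6 := ev_lin (2 * q ^ 2) (4 * q ^ 2) (show (0 : ℝ) < 1 by norm_num)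
  have e7 := ev_lin 0 1 (show (0 : ℝ) < 1 / s ^ 2 by positivity)
  have e8 := ev_pow 2 (show (0 : ℝ) < ε / 12 by positivity)
  have e9 := ev_pow 3 (show (0 : ℝ) < ε / 12 by positivity)
  have e10 := ev_const (2 * (2 + 2 * K1 * s ^ 2)) (show (0 : ℝ) < ε / 8 by positivity)
  have e11 := ev_quad (K1 + η0) (2 * κ + K1) 2
  have e12 := ev_lin (1 + 2 * κ) 2 (show (0 : ℝ) < 1 / 2 by norm_num)
  have e13 := ev_lin (ε / 2) 0 (show (0 : ℝ) < ε ^ 2 / 4 by positivity)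
  have e14 := ev_lin (2 * κ) 4 (show (0 : ℝ) < ε ^ 2 / 8 by positivity)
  have e15 := ev_ge (2 ^ (2 * a) + 2)
  have e16 := ev_lin (4 * κ) 1 (show (0 : ℝ) < η0 / 2 by positivity)
  have e17 := ev_lin 0 1 hη
  filter_upwards [e1, e2, e3, e4, e5, e6, e7, e8, e9, e10, e11, e12, e13, e14, e15, e16, e17,
    eventually_ge_atTop (2 * s ^ 2), eventually_ge_atTop q, eventually_ge_atTop 4]
    with j h1 h2 h3 h4 h5 h6 h7 h8 h9 h10 h11 h12 h13 h14 h15 hx16 hx17 h16 h17 h18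
  have hj4 : (4 : ℝ) ≤ j := by exact_mod_cast h18
  have hj2 : (0 : ℝ) ≤ (j : ℝ) ^ 2 := by positivity
  have hl : ((⌊η0 * (j : ℝ) ^ 2⌋₊ : ℕ) : ℝ) ≤ η0 * j ^ 2 := Nat.floor_le (by positivity)
  have hl' : η0 * (j : ℝ) ^ 2 ≤ ((⌊η0 * (j : ℝ) ^ 2⌋₊ : ℕ) : ℝ) + 1 := (Nat.lt_floor_add_one _).le
  have m1 : η0 * (j : ℝ) ^ 2 ≤ 1 / 4 * j ^ 2 := mul_le_mul_of_nonneg_right hη1 hj2
  have m2 : 4 * η0 * (j : ℝ) ^ 2 ≤ κ * j ^ 2 := mul_le_mul_of_nonneg_right hη2 hj2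
  have m3 : 4 * η0 * (j : ℝ) ^ 2 ≤ 1 / s ^ 2 * j ^ 2 := mul_le_mul_of_nonneg_right hη3 hj2
  have m4 : η0 * (j : ℝ) ^ 2 ≤ ε ^ 2 / 32 * j ^ 2 := mul_le_mul_of_nonneg_right hη4 hj2
  refine ⟨h16, h17, by omega, by linarith, h2, by simpa using h3, ?_, ?_, ?_, ?_, ?_, ?_, ?_, ?_,
    h10, ?_, ?_, ?_, ?_, ?_⟩
  · refine le_trans (le_of_eq ?_) h4
    ring
  · rw [div_le_iff₀ (by linarith)] at h5
    linarith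
  · refine le_trans (le_of_eq ?_) (h6.trans (le_of_eq (one_mul _)))
    ring
  · rw [Nat.one_le_floor_iff]
    linarith
  · have : 2 / (s : ℝ) ^ 2 * j ^ 2 = 1 / s ^ 2 * j ^ 2 + 1 / s ^ 2 * j ^ 2 := by ring
    rw [this]
    linarith
  · linarith
  · refine le_trans ?_ h8
    linarith
  · refine le_trans ?_ h9
    nlinarith [sq_nonneg ((j : ℝ))]
  · refine le_trans (le_of_eq ?_) h11
    ring
  · linarith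
  · have h19 : 1 / (s : ℝ) * j ^ 2 ≤ ε ^ 2 / 8 * j ^ 2 :=
      mul_le_mul_of_nonneg_right hsε (by positivity)
    have h20 : 0 ≤ ε ^ 2 * (j : ℝ) ^ 2 := by positivity
    nlinarith
  · linarith
  · linarith

end Karp
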