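import Pool.Agent.Karp.Asym3

/-!
# Asymptotics, part 4: the conditions hold
-/

namespace Karp

open Finset Filter

/-- Number of anchors is bounded. -/
theorem div_theta {K1 s j k : ℕ} (hs0 : 0 < s) (hs : 2 * s ^ 2 ≤ j) (hk : (k : ℝ) ≤ K1 * j) :
    (k : ℝ) / ((j / s ^ 2 : ℕ) : ℝ) ≤ 2 * K1 * s ^ 2 ∧ 0 < j / s ^ 2 ∧
      (j : ℝ) / (2 * s ^ 2) ≤ ((j / s ^ 2 : ℕ) : ℝ) := by
  have hs2 : 0 < s ^ 2 := by positivity
  have hs2' : (0 : ℝ) < (s : ℝ) ^ 2 := by exact_mod_cast hs2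
  have h0 : 0 < j / s ^ 2 := Nat.div_pos (by omega) hs2
  have h1 : j < (j / s ^ 2 + 1) * s ^ 2 := by
    have := Nat.lt_div_mul_add hs2 (a := j)
    rw [add_mul, one_mul]; exact this
  have h2 : (j : ℝ) ≤ (((j / s ^ 2 : ℕ) : ℝ) + 1) * s ^ 2 := by exact_mod_cast h1.le
  have h3 : (1 : ℝ) ≤ ((j / s ^ 2 : ℕ) : ℝ) := by exact_mod_cast h0
  have h4 : (j : ℝ) / (2 * s ^ 2) ≤ ((j / s ^ 2 : ℕ) : ℝ) := by
    rw [div_le_iff₀ (by positivity)]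
    nlinarith
  refine ⟨?_, h0, h4⟩
  rw [div_le_iff₀ (by linarith)]
  rw [div_le_iff₀ (by positivity)] at h4
  have hK : (0 : ℝ) ≤ K1 := Nat.cast_nonneg _
  calc (k : ℝ) ≤ K1 * j := hk
    _ ≤ K1 * (((j / s ^ 2 : ℕ) : ℝ) * (2 * s ^ 2)) := mul_le_mul_of_nonneg_left h4 hK
    _ = _ := by ring

theorem div_b {s j : ℕ} (hs0 : 0 < s) (hs : 2 * s ^ 2 ≤ j) :
    0 < j / s ∧ (j : ℝ) / (2 * s) ≤ ((j / s : ℕ) : ℝ) := by
  have h00 : s ≤ s ^ 2 := Nat.le_self_pow (by norm_num) s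
  have h0 : 0 < j / s := Nat.div_pos (by omega) hs0
  have h1 : j < (j / s + 1) * s := by
    have := Nat.lt_div_mul_add hs0 (a := j)
    rw [add_mul, one_mul]; exact this
  have hs0' : (0 : ℝ) < s := by exact_mod_cast hs0
  have h2 : (j : ℝ) ≤ (((j / s : ℕ) : ℝ) + 1) * s := by exact_mod_cast h1.le
  have h3 : (1 : ℝ) ≤ ((j / s : ℕ) : ℝ) := by exact_mod_cast h0
  refine ⟨h0, ?_⟩
  rw [div_le_iff₀ (by positivity)]
  nlinarith

theorem Cond_of {a ε κ κ1 η0 : ℝ} {K1 s q l j : ℕ} (F : Fac a ε κ κ1 K1 s q η0 l j) (ha : 0 ≤ a)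
    (hε : 0 < ε) (hκ1 : 0 < κ1) (hq3 : 3 ≤ q) (hs0 : 0 < s)
    {n k : ℕ} (hn1 : 2 ^ j ≤ n) (hn2 : n < 2 ^ (j + 1)) (hjk : j ≤ k) (hk : (k : ℝ) ≤ K1 * j) :
    Cond n k j (j + 1) (j ^ 3) q (j ^ 2) (j ^ 3) (j / s) (j / s ^ 2) (4 * (K1 + 2) * (j / s))
      (4 * l) (4 * l * ((⌈(n : ℝ) ^ (2 * a)⌉₊ + j ^ 2) + 1)) ((⌈(n : ℝ) ^ (2 * a)⌉₊ + j ^ 2) + 1)
      (Nat.sqrt (4 * l * ((⌈(n : ℝ) ^ (2 * a)⌉₊ + j ^ 2) + 1)) + 1) ⌈(a + ε / 4) * j / κ1⌉₊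
      ((j : ℝ) ^ 4) (2 ^ κ1) ((1 / 2) ^ (⌈(n : ℝ) ^ (2 * a)⌉₊ + j ^ 2)) ((1 / 2) ^ l) := by
  set h := ⌈(n : ℝ) ^ (2 * a)⌉₊ + j ^ 2 with hh
  set w := 4 * l * (h + 1) with hw
  have hl1 := F.hl1
  have hj2 : (2 : ℝ) ≤ j := by exact_mod_cast F.h2
  have hj0 : (0 : ℝ) < j := by linarith
  obtain ⟨hdt, hθ, hθ2⟩ := div_theta hs0 F.hs hk
  obtain ⟨hb, hb2⟩ := div_b hs0 F.hs
  have hs0' : (0 : ℝ) < s := by exact_mod_cast hs0
  have hK0 : (0 : ℝ) ≤ K1 := Nat.cast_nonneg _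
  constructor
  · exact hq3
  · positivity
  · exact Real.one_le_rpow (by norm_num) hκ1.le
  · -- hm
    have h1 := F.hm
    push_cast
    have h3 : (0 : ℝ) ≤ (j : ℝ) ^ 3 := by positivity
    have h4 := mul_le_mul_of_nonneg_right h1 h3
    have e1 : (2 : ℝ) ^ κ1 * ((1 / 2 + 3 / (2 * q)) * (j : ℝ) ^ 4 + 2 * j ^ 3) =
        2 ^ κ1 * (1 / 2 + 3 / (2 * q)) * (j : ℝ) ^ 4 + 2 * 2 ^ κ1 * j ^ 3 := by ring
    have e2 : (1 - (2 : ℝ) ^ κ1 * (1 / 2 + 3 / (2 * q))) * j * (j : ℝ) ^ 3 =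
        (j : ℝ) ^ 4 - 2 ^ κ1 * (1 / 2 + 3 / (2 * q)) * (j : ℝ) ^ 4 := by ring
    rw [e1]
    rw [e2] at h4
    linarith
  · exact hθ
  · exact hb
  · -- hρ
    have h1 : (4 * l + k * ((j / s ^ 2 : ℕ) : ℝ) + 1 : ℝ) ≤
        ((j / s : ℕ) : ℝ) * (4 * (K1 + 2) * ((j / s : ℕ) : ℝ)) := by
      have h2 : ((j / s ^ 2 : ℕ) : ℝ) ≤ j / s ^ 2 := by
        refine Nat.cast_div_le.trans (le_of_eq ?_)
        push_cast; rfl
      have h3 : (k : ℝ) * ((j / s ^ 2 : ℕ) : ℝ) ≤ K1 * j * (j / s ^ 2) :=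
        mul_le_mul hk h2 (Nat.cast_nonneg _) (by positivity)
      have h4 : (j : ℝ) / (2 * s) * (j / (2 * s)) ≤
          ((j / s : ℕ) : ℝ) * ((j / s : ℕ) : ℝ) :=
        mul_le_mul hb2 hb2 (by positivity) (Nat.cast_nonneg _)
      have h5 := mul_le_mul_of_nonneg_left h4 (show (0 : ℝ) ≤ 4 * (K1 + 2) by positivity)
      have e1 : 4 * (K1 + 2 : ℝ) * ((j : ℝ) / (2 * s) * (j / (2 * s))) =
          K1 * j * (j / s ^ 2) + 2 / s ^ 2 * j ^ 2 := by field_simp; ring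
      have h6 := F.hρ
      rw [e1] at h5
      linarith
    have h7 : 4 * l + k * (j / s ^ 2) + 1 ≤ (j / s) * (4 * (K1 + 2) * (j / s)) := by
      exact_mod_cast h1
    exact h7
  · exact hjk
  · have := F.h2; omega
  · omega
  · exact le_trans Nat.one_le_two_pow hn1
  · exact hn2.le
  · omega
  · -- hU
    set d0 := Nat.sqrt w + 1 with hd0
    have hd0' : (0 : ℝ) < d0 := by positivity
    have h1 : (w : ℝ) ≤ d0 * d0 := by
      have := Nat.lt_succ_sqrt w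
      exact_mod_cast this.le
    have h2 : (2 * w / d0 : ℝ) ≤ 2 * d0 := by
      rw [div_le_iff₀ hd0']; linarith
    have h3 : (k : ℝ) / ((j / s ^ 2 : ℕ) : ℝ) * d0 ≤ 2 * K1 * s ^ 2 * d0 :=
      mul_le_mul_of_nonneg_right hdt hd0'.le
    -- bound on w
    have hna : (n : ℝ) ^ (2 * a) ≤ 2 ^ (2 * a) * 2 ^ (2 * a * j) := by
      have h4 : (n : ℝ) ≤ 2 ^ ((j : ℝ) + 1) := by
        have : (n : ℝ) ≤ 2 ^ (j + 1) := by exact_mod_cast hn2.le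
        refine this.trans (le_of_eq ?_)
        rw [← Real.rpow_natCast]; push_cast; rfl
      refine (Real.rpow_le_rpow (Nat.cast_nonneg _) h4 (by positivity)).trans (le_of_eq ?_)
      rw [← Real.rpow_mul (by norm_num), ← Real.rpow_add (by norm_num)]
      congr 1; ring
    have hhb : ((h : ℕ) : ℝ) + 1 ≤ 2 ^ (2 * a * j) * 2 ^ (ε / 12 * j) := by
      have h4 : ((⌈(n : ℝ) ^ (2 * a)⌉₊ : ℕ) : ℝ) ≤ (n : ℝ) ^ (2 * a) + 1 :=
        (Nat.ceil_lt_add_one (by positivity)).le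
      have h5 : (1 : ℝ) ≤ 2 ^ (2 * a * j) := Real.one_le_rpow (by norm_num) (by positivity)
      have h6 : ((h : ℕ) : ℝ) + 1 ≤ (2 ^ (2 * a) + 2 + j ^ 2) * 2 ^ (2 * a * (j : ℝ)) := by
        rw [hh]; push_cast
        have h7 : (0 : ℝ) ≤ (j : ℝ) ^ 2 := by positivity
        nlinarith
      refine h6.trans ?_
      rw [mul_comm]
      exact mul_le_mul_of_nonneg_left F.hw2 (by positivity)
    have hwb : (w : ℝ) ≤ (2 ^ ((a + ε / 8) * j)) ^ 2 := by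
      have h4 : (w : ℝ) ≤ 2 ^ (ε / 12 * j) * (2 ^ (2 * a * j) * 2 ^ (ε / 12 * j)) := by
        rw [hw]; push_cast
        exact mul_le_mul F.hw1 hhb (by positivity) (by positivity)
      refine h4.trans ?_
      rw [← Real.rpow_add (by norm_num), ← Real.rpow_add (by norm_num), ← Real.rpow_natCast,
        ← Real.rpow_mul (by norm_num)]
      apply Real.rpow_le_rpow_of_exponent_le (by norm_num)
      push_cast
      nlinarith [mul_pos hε hj0]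
    have hsq : ((Nat.sqrt w : ℕ) : ℝ) ≤ 2 ^ ((a + ε / 8) * j) := by
      have h4 : ((Nat.sqrt w : ℕ) : ℝ) ^ 2 ≤ w := by
        have := Nat.sqrt_le' w
        exact_mod_cast this
      exact (pow_le_pow_iff_left₀ (Nat.cast_nonneg _) (by positivity)
        (by norm_num : (2 : ℕ) ≠ 0)).1 (h4.trans hwb)
    have hd0b : (d0 : ℝ) ≤ 2 * 2 ^ ((a + ε / 8) * j) := by
      rw [hd0]; push_cast
      have h5 : (1 : ℝ) ≤ 2 ^ ((a + ε / 8) * j) := Real.one_le_rpow (by norm_num) (by positivity)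
      linarith
    have hb3 : (2 : ℝ) ^ ((a + ε / 4) * j) ≤ ((2 : ℝ) ^ κ1) ^ ⌈(a + ε / 4) * j / κ1⌉₊ := by
      rw [← Real.rpow_natCast, ← Real.rpow_mul (by norm_num)]
      apply Real.rpow_le_rpow_of_exponent_le (by norm_num)
      have := Nat.le_ceil ((a + ε / 4) * j / κ1)
      rw [div_le_iff₀ hκ1] at this
      linarith
    have hm1 : (1 : ℝ) ≤ (j : ℝ) ^ 4 := one_le_pow₀ (by linarith)
    have hfin : (2 * d0 + 2 * K1 * s ^ 2 * d0 : ℝ) ≤ 2 ^ ((a + ε / 4) * j) := by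
      have h4 : (2 * d0 + 2 * K1 * s ^ 2 * d0 : ℝ) = (2 + 2 * K1 * s ^ 2) * d0 := by ring
      rw [h4]
      calc (2 + 2 * K1 * s ^ 2 : ℝ) * d0 ≤ (2 + 2 * K1 * s ^ 2) * (2 * 2 ^ ((a + ε / 8) * j)) :=
            mul_le_mul_of_nonneg_left hd0b (by positivity)
        _ = (2 * (2 + 2 * K1 * s ^ 2)) * 2 ^ ((a + ε / 8) * j) := by ring
        _ ≤ 2 ^ (ε / 8 * j) * 2 ^ ((a + ε / 8) * j) :=
            mul_le_mul_of_nonneg_right F.hw3 (by positivity)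
        _ = _ := by
            rw [← Real.rpow_add (by norm_num)]; congr 1; ring
    have hpos : (0 : ℝ) < ((2 : ℝ) ^ κ1) ^ ⌈(a + ε / 4) * j / κ1⌉₊ := by positivity
    calc (2 * w / d0 + (k : ℝ) / ((j / s ^ 2 : ℕ) : ℝ) * d0 : ℝ)
        ≤ 2 * d0 + 2 * K1 * s ^ 2 * d0 := add_le_add h2 h3
      _ ≤ 1 * ((2 : ℝ) ^ κ1) ^ ⌈(a + ε / 4) * j / κ1⌉₊ := by
          rw [one_mul]; exact hfin.trans hb3
      _ ≤ _ := mul_le_mul_of_nonneg_right hm1 hpos.le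
  · omega
  · rw [hw]; exact le_of_eq (by ring)
  · positivity
  · positivity
  · -- hw2
    have e1 : (2 : ℝ) ^ w = 2 ^ h * 2 ^ (l * (2 * (h + 1))) * 2 ^ (2 * l * (h + 1) - h) := by
      rw [← pow_add, ← pow_add]
      congr 1
      have : h ≤ 2 * l * (h + 1) := by nlinarith
      rw [hw]
      have e2 : l * (2 * (h + 1)) = 2 * l * (h + 1) := by ring
      have e3 : 4 * l * (h + 1) = 2 * (2 * l * (h + 1)) := by ring
      omega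
    rw [e1, ← pow_mul]
    have e2 : ((1 : ℝ) / 2) ^ h * (1 / 2) ^ (l * (2 * (h + 1))) *
        (2 ^ h * 2 ^ (l * (2 * (h + 1))) * 2 ^ (2 * l * (h + 1) - h)) =
        ((1 / 2 * 2) ^ h * (1 / 2 * 2) ^ (l * (2 * (h + 1)))) * 2 ^ (2 * l * (h + 1) - h) := by
      rw [mul_pow, mul_pow]; ring
    rw [e2]
    norm_num
    have h1 : 1 ≤ 2 * l * (h + 1) - h := by
      have : h + 1 ≤ 2 * l * (h + 1) := by nlinarith
      omega
    calc (2 : ℝ) = 2 ^ 1 := by norm_num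
      _ ≤ _ := pow_le_pow_right₀ (by norm_num) h1
  · have := F.h2
    calc 2 ≤ j := this
      _ ≤ j ^ 3 := Nat.le_self_pow (by norm_num) j
  · have h1 := F.hu
    have h2 : 2 * q ^ 2 * (j + 1 + 1) ≤ j ^ 2 := by exact_mod_cast h1
    exact h2
  · have := F.hq
    calc q * j ^ 2 ≤ j * j ^ 2 := Nat.mul_le_mul_right _ this
      _ = j ^ 3 := by ring

end Karp
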