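import Pool.Agent.Karp.Asym4

/-!
# Asymptotics, part 5: the total bound
-/

namespace Karp

open Finset Filter

theorem cast2 (m : ℕ) : (2 : ℝ) ^ m = 2 ^ (m : ℝ) := (Real.rpow_natCast 2 m).symm

theorem Bd_final {a ε κ κ1 η0 : ℝ} {K1 s q l j : ℕ} (F : Fac a ε κ κ1 K1 s q η0 l j) (ha : 0 ≤ a)
    (hε : 0 < ε) (hκ1 : 0 < κ1) (hκ0 : 0 ≤ κ)
    (hκe : (a + ε / 4) ^ 2 = κ1 * (a + ε / 2) ^ 2) (hs0 : 0 < s) (hsK : 4 * (K1 + 2) ≤ s)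
    (hσs : 14 * (K1 + 2 : ℝ) ^ 2 * (1 / s) ≤ ε ^ 2 / 16)
    (hκs : (4 + 2 * K1) * κ ≤ ε ^ 2 / 16)
    {n k : ℕ} (hn2 : n < 2 ^ (j + 1)) (hjk : j ≤ k) (hk : (k : ℝ) ≤ K1 * j)
    (hkl : (1 + a + ε) * j ≤ k) :
    Bd n k j (j + 1) (j ^ 3) (j ^ 2) (j / s) (j / s ^ 2) (4 * (K1 + 2) * (j / s)) (4 * l)
      ⌈(a + ε / 4) * j / κ1⌉₊ ((j : ℝ) ^ 4) (2 ^ κ1) ≤
      2 ^ ((k.choose 2 : ℝ) - ε ^ 2 / 4 * j ^ 2) := by
  have hj2 : (2 : ℝ) ≤ j := by exact_mod_cast F.h2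
  have hj0 : (0 : ℝ) < j := by linarith
  have hK0 : (0 : ℝ) ≤ K1 := Nat.cast_nonneg _
  obtain ⟨hdt, hθ, hθ2⟩ := div_theta hs0 F.hs hk
  have hs1 : (1 : ℝ) ≤ s := by exact_mod_cast hs0
  have hθ1 : (1 : ℝ) ≤ ((j / s ^ 2 : ℕ) : ℝ) := by exact_mod_cast hθ
  have hρj : 4 * (K1 + 2) * (j / s) ≤ j :=
    (Nat.mul_le_mul_right _ hsK).trans (Nat.mul_div_le j s)
  have hk1 : (k + 1 : ℝ) ≤ j ^ 2 := by have := F.hK; linarith
  have hpj : (1 : ℝ) ≤ (j : ℝ) ^ 3 := one_le_pow₀ (by linarith)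
  have hj25 : (j : ℝ) ^ 2 ≤ 2 ^ (κ * j) := by
    refine le_trans ?_ F.hp
    exact pow_le_pow_right₀ (by linarith) (by norm_num)
  have h1 := Bd_le (n := n) (k := k) (j := j) (Y := j ^ 3) (u0 := j ^ 2) (b0 := j / s)
    (θ0 := j / s ^ 2) (ρ := 4 * (K1 + 2) * (j / s)) (r := 4 * l) (b := ⌈(a + ε / 4) * j / κ1⌉₊)
    (m0 := (j : ℝ) ^ 4) (κ := κ) (κ1 := κ1) (K1 := K1) (c2 := 2 * K1 * s ^ 2) hκ0 (by
      refine le_trans ?_ F.h1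
      have : (k : ℝ) / ((j / s ^ 2 : ℕ) : ℝ) ≤ k := div_le_self (Nat.cast_nonneg _) hθ1
      linarith) hn2 (by
      exact Nat.cast_div_le.trans hdt) (by positivity) (by
      refine le_trans ?_ F.hp
      push_cast
      have h3 : (k + 1 : ℝ) * (j : ℝ) ^ 2 ≤ j ^ 2 * j ^ 2 :=
        mul_le_mul_of_nonneg_right hk1 (by positivity)
      have h4 : (j : ℝ) ^ 2 * j ^ 2 = j ^ 4 := by ring
      have h5 : (j : ℝ) ^ 5 = j * j ^ 4 := by ring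
      have h6 : 2 * (j : ℝ) ^ 4 ≤ j * j ^ 4 := mul_le_mul_of_nonneg_right hj2 (by positivity)
      linarith) hκ1.le (hk1.trans hj25) (by
      push_cast
      refine le_trans ?_ F.hp
      exact pow_le_pow_right₀ (by linarith) (by norm_num)) hk hρj hjk
  refine h1.trans ?_
  apply Real.rpow_le_rpow_of_exponent_le (by norm_num)
  rw [Nat.cast_choose_two]
  have hrr : ((4 * l : ℕ) : ℝ) ≤ κ * j ^ 2 := by
    push_cast
    exact F.hr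
  have hb0 : (((j / s : ℕ)) : ℝ) ≤ 1 / s * j := by
    refine Nat.cast_div_le.trans (le_of_eq ?_)
    ring
  have hρR : ((4 * (K1 + 2) * (j / s) : ℕ) : ℝ) ≤ 4 * (K1 + 2) * (1 / s) * j := by
    push_cast
    have := mul_le_mul_of_nonneg_left hb0 (show (0 : ℝ) ≤ 4 * (K1 + 2) by positivity)
    refine this.trans (le_of_eq ?_)
    ring
  have hρj' : ((4 * (K1 + 2) * (j / s) : ℕ) : ℝ) ≤ j := by exact_mod_cast hρj
  have hθR : (((j / s ^ 2 : ℕ)) : ℝ) ≤ 1 / s * j := by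
    refine Nat.cast_div_le.trans ?_
    push_cast
    rw [div_mul_eq_mul_div, one_mul]
    apply div_le_div_of_nonneg_left hj0.le (by positivity)
    nlinarith
  have hx0 : 0 ≤ (a + ε / 4) * j / κ1 := by positivity
  have hlin := F.hlin
  exact expo (a := a) (ε := ε) (κ := κ) (κ1 := κ1) (K1 := K1) (σ := 1 / s) ha hε hκ1 hκe hK0
    (by positivity) (by rw [div_le_one (by linarith)]; exact hs1) hσs hκs hκ0 hrr hj0.le hkl hk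
    (Nat.cast_nonneg _) hρR hb0 hθR (Nat.cast_nonneg _) (Nat.ceil_lt_add_one hx0).le
    (Nat.cast_nonneg _) (by
      have h3 : (0 : ℝ) ≤ ((4 * (K1 + 2) * (j / s) : ℕ) : ℝ) := Nat.cast_nonneg _
      linarith)

theorem total_of {a ε κ κ1 η0 : ℝ} {K1 s q l j : ℕ} (F : Fac a ε κ κ1 K1 s q η0 l j) (ha : 0 ≤ a)
    (hε : 0 < ε) (hκ1 : 0 < κ1) (hκ0 : 0 ≤ κ)
    (hκe : (a + ε / 4) ^ 2 = κ1 * (a + ε / 2) ^ 2) (hs0 : 0 < s) (hsK : 4 * (K1 + 2) ≤ s)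
    (hσs : 14 * (K1 + 2 : ℝ) ^ 2 * (1 / s) ≤ ε ^ 2 / 16)
    (hκs : (4 + 2 * K1) * κ ≤ ε ^ 2 / 16) (hη : 0 < η0)
    {n k T M : ℕ} (hn2 : n < 2 ^ (j + 1)) (hjk : j ≤ k) (hk : (k : ℝ) ≤ K1 * j)
    (hkl : (1 + a + ε) * j ≤ k) (hT : (T : ℝ) ≤ 2 ^ (η0 / 2 * (j : ℝ) ^ 2))
    (hM : (M : ℝ) ≤ 2 ^ ((n : ℝ) ^ (2 * a))) :
    (T * ((k + 1) ^ 2 * (n : ℝ) ^ k / 2 ^ (j ^ 3 - 2) + (n + 1) / 2 ^ (j ^ 2)) +
      1 / 2 ^ ((k - j).choose 2 - (j / s) * j) +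
      (k.choose 2 + 1) * (T * (M * (1 / 2) ^ (⌈(n : ℝ) ^ (2 * a)⌉₊ + j ^ 2) +
        16 * Bd n k j (j + 1) (j ^ 3) (j ^ 2) (j / s) (j / s ^ 2) (4 * (K1 + 2) * (j / s)) (4 * l)
      ⌈(a + ε / 4) * j / κ1⌉₊ ((j : ℝ) ^ 4) (2 ^ κ1) / (((1 / 2) ^ l) ^ 2 * 2 ^ (k.choose 2))) +
        (1 / 2) ^ l * k.choose 2) : ℝ) ≤ 6 * 2 ^ (-(η0 / 2 * (j : ℝ) ^ 2)) := by
  have hj2 : (2 : ℝ) ≤ j := by exact_mod_cast F.h2
  have hj0 : (0 : ℝ) < j := by linarith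
  have hK0 : (0 : ℝ) ≤ K1 := Nat.cast_nonneg _
  have hBd := Bd_final F ha hε hκ1 hκ0 hκe hs0 hsK hσs hκs hn2 hjk hk hkl
  set B := Bd n k j (j + 1) (j ^ 3) (j ^ 2) (j / s) (j / s ^ 2) (4 * (K1 + 2) * (j / s)) (4 * l)
      ⌈(a + ε / 4) * j / κ1⌉₊ ((j : ℝ) ^ 4) (2 ^ κ1) with hB
  have hnR : (n : ℝ) ≤ 2 ^ ((j : ℝ) + 1) := by
    have : (n : ℝ) ≤ 2 ^ (j + 1) := by exact_mod_cast hn2.le
    refine this.trans (le_of_eq ?_)
    rw [← Real.rpow_natCast]; push_cast; rfl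
  have hk1' : (k + 1 : ℝ) ≤ j ^ 2 := by have := F.hK; linarith
  have hk1 : (k + 1 : ℝ) ≤ 2 ^ (κ * j) := by
    refine hk1'.trans (le_trans ?_ F.hp)
    exact pow_le_pow_right₀ (by linarith) (by norm_num)
  have hC : (k.choose 2 + 1 : ℝ) ≤ 2 ^ (2 * κ * j) := by
    have h1 : (k.choose 2 + 1 : ℝ) ≤ (k + 1) ^ 2 := by
      rw [Nat.cast_choose_two]
      have : (0 : ℝ) ≤ k := Nat.cast_nonneg _
      nlinarith
    refine h1.trans (pow_le_two (by positivity) hk1 (le_of_eq ?_))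
    push_cast; ring
  have hC' : (k.choose 2 : ℝ) ≤ 2 ^ (2 * κ * j) := by linarith
  have hhalf : ∀ m : ℕ, ((1 : ℝ) / 2) ^ m = 2 ^ (-(m : ℝ)) := by
    intro m
    rw [Real.rpow_neg (by norm_num), Real.rpow_natCast, one_div, inv_pow]
  have two0 : (0 : ℝ) < 2 := by norm_num
  have hη2 : 0 < η0 / 2 * (j : ℝ) ^ 2 := by positivity
  have hκj : 0 ≤ 2 * κ * j := by positivity
  set τ := η0 / 2 * (j : ℝ) ^ 2 with hτ
  -- A1
  have A1 : (T : ℝ) * ((k + 1) ^ 2 * (n : ℝ) ^ k / 2 ^ (j ^ 3 - 2)) ≤ 2 ^ (-τ) := by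
    have h1 : ((k + 1 : ℝ)) ^ 2 ≤ 2 ^ (2 * κ * j) :=
      pow_le_two (by positivity) hk1 (le_of_eq (by push_cast; ring))
    have h2 : (n : ℝ) ^ k ≤ 2 ^ (((j : ℝ) + 1) * (K1 * j)) :=
      pow_le_two (Nat.cast_nonneg _) hnR (mul_le_mul_of_nonneg_left hk (by positivity))
    have h3 : ((j ^ 3 - 2 : ℕ) : ℝ) = (j : ℝ) ^ 3 - 2 := by
      have : 2 ≤ j ^ 3 := le_trans F.h2 (Nat.le_self_pow (by norm_num) j)
      push_cast [Nat.cast_sub this]; ring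
    rw [cast2 (j ^ 3 - 2), h3, div_eq_mul_inv, ← Real.rpow_neg two0.le]
    calc (T : ℝ) * ((k + 1) ^ 2 * (n : ℝ) ^ k * 2 ^ (-((j : ℝ) ^ 3 - 2)))
        ≤ 2 ^ τ * (2 ^ (2 * κ * j) * 2 ^ (((j : ℝ) + 1) * (K1 * j)) *
          2 ^ (-((j : ℝ) ^ 3 - 2))) := by gcongr
      _ = 2 ^ (τ + (2 * κ * j + ((j : ℝ) + 1) * (K1 * j) +
          -((j : ℝ) ^ 3 - 2))) := by
          rw [Real.rpow_add two0, Real.rpow_add two0, Real.rpow_add two0]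
      _ ≤ 2 ^ (-τ) := by
          apply Real.rpow_le_rpow_of_exponent_le (by norm_num)
          have := F.ht1
          linarith
  have A2 : (T : ℝ) * ((n + 1) / 2 ^ (j ^ 2)) ≤ 2 ^ (-τ) := by
    have h1 : (n + 1 : ℝ) ≤ 2 ^ ((j : ℝ) + 2) := by
      have h2 : (1 : ℝ) ≤ 2 ^ ((j : ℝ) + 1) := Real.one_le_rpow (by norm_num) (by positivity)
      have h3 : (2 : ℝ) ^ ((j : ℝ) + 2) = 2 ^ ((j : ℝ) + 1) * 2 := by
        rw [show (j : ℝ) + 2 = ((j : ℝ) + 1) + 1 by ring, Real.rpow_add two0, Real.rpow_one]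
      rw [h3]; linarith
    rw [cast2 (j ^ 2), div_eq_mul_inv, ← Real.rpow_neg two0.le]
    push_cast
    calc (T : ℝ) * ((n + 1) * 2 ^ (-((j : ℝ) ^ 2)))
        ≤ 2 ^ τ * (2 ^ ((j : ℝ) + 2) * 2 ^ (-((j : ℝ) ^ 2))) := by gcongr
      _ = 2 ^ (τ + (((j : ℝ) + 2) + -((j : ℝ) ^ 2))) := by
          rw [Real.rpow_add two0 τ, Real.rpow_add two0 ((j : ℝ) + 2)]
      _ ≤ 2 ^ (-τ) := by
          apply Real.rpow_le_rpow_of_exponent_le (by norm_num)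
          have := F.ht2
          linarith
  have A3 : (1 : ℝ) / 2 ^ ((k - j).choose 2 - (j / s) * j) ≤ 2 ^ (-τ) := by
    have hb0 : (((j / s : ℕ)) : ℝ) ≤ 1 / s * j := by
      refine Nat.cast_div_le.trans (le_of_eq ?_)
      ring
    have h2 : (τ + ((j / s : ℕ) : ℝ) * j) ≤ ((k - j).choose 2 : ℕ) := by
      rw [Nat.cast_choose_two, Nat.cast_sub hjk]
      have h3 : ε * j ≤ (k : ℝ) - j := by
        have : 0 ≤ a * j := by positivity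
        linarith
      have h4 := F.ht3
      have h5 : ((j / s : ℕ) : ℝ) * j ≤ 1 / s * j ^ 2 := by
        calc ((j / s : ℕ) : ℝ) * j ≤ (1 / s * j) * j := mul_le_mul_of_nonneg_right hb0 hj0.le
          _ = _ := by ring
      have h6 : 0 < ε * j := by positivity
      have h7 : 0 < ε * j - 1 := by
        have h8 : 0 ≤ 1 / (s : ℝ) * j ^ 2 := by positivity
        by_contra hcon
        push Not at hcon
        have h9 : ε * j * (ε * j - 1) ≤ 0 := mul_nonpos_of_nonneg_of_nonpos h6.le hcon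
        linarith
      have h8 : ε * j * (ε * j - 1) ≤ ((k : ℝ) - j) * ((k : ℝ) - j - 1) :=
        mul_le_mul h3 (by linarith) h7.le (by linarith)
      linarith
    rw [one_div, cast2, ← Real.rpow_neg two0.le]
    apply Real.rpow_le_rpow_of_exponent_le (by norm_num)
    have h9 : (((k - j).choose 2 : ℕ) : ℝ) ≤
        (((k - j).choose 2 - (j / s) * j : ℕ) : ℝ) + ((j / s : ℕ) : ℝ) * j := by
      have h10 : (k - j).choose 2 ≤ ((k - j).choose 2 - (j / s) * j) + (j / s) * j := by omega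
      exact_mod_cast h10
    linarith
  have A4 : (k.choose 2 + 1 : ℝ) * (T * (M * (1 / 2) ^ (⌈(n : ℝ) ^ (2 * a)⌉₊ + j ^ 2))) ≤
      2 ^ (-τ) := by
    have h1 : (M : ℝ) * (1 / 2) ^ (⌈(n : ℝ) ^ (2 * a)⌉₊ + j ^ 2) ≤ 2 ^ (-((j : ℝ) ^ 2)) := by
      rw [hhalf]
      calc (M : ℝ) * 2 ^ (-((⌈(n : ℝ) ^ (2 * a)⌉₊ + j ^ 2 : ℕ) : ℝ))
          ≤ 2 ^ ((n : ℝ) ^ (2 * a)) * 2 ^ (-((⌈(n : ℝ) ^ (2 * a)⌉₊ + j ^ 2 : ℕ) : ℝ)) :=
            mul_le_mul_of_nonneg_right hM (by positivity)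
        _ = 2 ^ ((n : ℝ) ^ (2 * a) + -((⌈(n : ℝ) ^ (2 * a)⌉₊ + j ^ 2 : ℕ) : ℝ)) := by
            rw [Real.rpow_add two0]
        _ ≤ _ := by
            apply Real.rpow_le_rpow_of_exponent_le (by norm_num)
            have := Nat.le_ceil ((n : ℝ) ^ (2 * a))
            push_cast
            linarith
    calc (k.choose 2 + 1 : ℝ) * (T * (M * (1 / 2) ^ (⌈(n : ℝ) ^ (2 * a)⌉₊ + j ^ 2)))
        ≤ 2 ^ (2 * κ * j) * (2 ^ τ * 2 ^ (-((j : ℝ) ^ 2))) := by gcongr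
      _ = 2 ^ (2 * κ * j + (τ + -((j : ℝ) ^ 2))) := by
          rw [Real.rpow_add two0, Real.rpow_add two0 τ]
      _ ≤ 2 ^ (-τ) := by
          apply Real.rpow_le_rpow_of_exponent_le (by norm_num)
          have := F.ht2
          linarith
  have A5 : (k.choose 2 + 1 : ℝ) * (T * (16 * B / (((1 / 2) ^ l) ^ 2 * 2 ^ (k.choose 2)))) ≤
      2 ^ (-τ) := by
    have h1 : 16 * B / (((1 / 2 : ℝ) ^ l) ^ 2 * 2 ^ (k.choose 2)) ≤
        2 ^ (4 + 2 * (l : ℝ) - ε ^ 2 / 4 * j ^ 2) := by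
      have h2 : ((1 / 2 : ℝ) ^ l) ^ 2 = 2 ^ (-(2 * (l : ℝ))) := by
        rw [← pow_mul, hhalf]; congr 1; push_cast; ring
      rw [h2, cast2 (k.choose 2), ← Real.rpow_add two0, div_le_iff₀ (by positivity),
        ← Real.rpow_add two0]
      have h3 : (16 : ℝ) = 2 ^ (4 : ℝ) := by
        rw [show (4 : ℝ) = ((4 : ℕ) : ℝ) by norm_num, Real.rpow_natCast]; norm_num
      calc 16 * B ≤ 2 ^ (4 : ℝ) * 2 ^ ((k.choose 2 : ℝ) - ε ^ 2 / 4 * j ^ 2) := by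
            rw [h3]; exact mul_le_mul_of_nonneg_left hBd (by positivity)
        _ = 2 ^ (4 + ((k.choose 2 : ℝ) - ε ^ 2 / 4 * j ^ 2)) := by rw [Real.rpow_add two0]
        _ ≤ _ := by
            apply Real.rpow_le_rpow_of_exponent_le (by norm_num)
            linarith
    have hB0 : 0 ≤ 16 * B / (((1 / 2 : ℝ) ^ l) ^ 2 * 2 ^ (k.choose 2)) := by
      have : 0 ≤ B := by rw [hB]; unfold Bd; positivity
      positivity
    calc (k.choose 2 + 1 : ℝ) * (T * (16 * B / (((1 / 2) ^ l) ^ 2 * 2 ^ (k.choose 2))))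
        ≤ 2 ^ (2 * κ * j) * (2 ^ τ * 2 ^ (4 + 2 * (l : ℝ) - ε ^ 2 / 4 * j ^ 2)) := by gcongr
      _ = 2 ^ (2 * κ * j + (τ + (4 + 2 * (l : ℝ) - ε ^ 2 / 4 * j ^ 2))) := by
          rw [Real.rpow_add two0, Real.rpow_add two0 τ]
      _ ≤ 2 ^ (-τ) := by
          apply Real.rpow_le_rpow_of_exponent_le (by norm_num)
          have := F.ht5
          linarith
  have A6 : (k.choose 2 + 1 : ℝ) * ((1 / 2) ^ l * k.choose 2) ≤ 2 ^ (-τ) := by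
    rw [hhalf]
    calc (k.choose 2 + 1 : ℝ) * (2 ^ (-(l : ℝ)) * k.choose 2)
        ≤ 2 ^ (2 * κ * j) * (2 ^ (-(l : ℝ)) * 2 ^ (2 * κ * j)) := by gcongr
      _ = 2 ^ (2 * κ * j + (-(l : ℝ) + 2 * κ * j)) := by
          rw [Real.rpow_add two0, Real.rpow_add two0 (-(l : ℝ))]
      _ ≤ 2 ^ (-τ) := by
          apply Real.rpow_le_rpow_of_exponent_le (by norm_num)
          have := F.ht6
          linarith
  calc _ = (T : ℝ) * ((k + 1) ^ 2 * (n : ℝ) ^ k / 2 ^ (j ^ 3 - 2)) +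
        (T : ℝ) * ((n + 1) / 2 ^ (j ^ 2)) + 1 / 2 ^ ((k - j).choose 2 - (j / s) * j) +
        (k.choose 2 + 1 : ℝ) * (T * (M * (1 / 2) ^ (⌈(n : ℝ) ^ (2 * a)⌉₊ + j ^ 2))) +
        (k.choose 2 + 1 : ℝ) * (T * (16 * B / (((1 / 2) ^ l) ^ 2 * 2 ^ (k.choose 2)))) +
        (k.choose 2 + 1 : ℝ) * ((1 / 2) ^ l * k.choose 2) := by ring
    _ ≤ _ := by linarith

end Karp
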