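import Pool.Agent.Karp.Ext

/-!
# The class of sets compatible with a small set of pairs
-/

namespace Karp

open Finset

variable {V : Type} [Fintype V] [DecidableEq V] {R1 R0 : Finset (Sym2 V)}

/-- Robust vertex cover number. -/
def cov (X : Finset (Sym2 V)) (b0 : ℕ) (K : Finset V) : ℕ :=
  K.powerset.inf' ⟨∅, empty_mem_powerset K⟩ fun C => b0 * C.card + inn X (K \ C)

theorem cov_le (X : Finset (Sym2 V)) (b0 : ℕ) {K C : Finset V} (h : C ⊆ K) :
    cov X b0 K ≤ b0 * C.card + inn X (K \ C) :=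
  inf'_le (fun C => b0 * C.card + inn X (K \ C)) (mem_powerset.2 h)

theorem cov_eq (X : Finset (Sym2 V)) (b0 : ℕ) (K : Finset V) :
    ∃ C ⊆ K, cov X b0 K = b0 * C.card + inn X (K \ C) := by
  obtain ⟨C, hC, h⟩ := exists_mem_eq_inf' (s := K.powerset) ⟨∅, empty_mem_powerset K⟩
    (fun C => b0 * C.card + inn X (K \ C))
  exact ⟨C, mem_powerset.1 hC, h⟩

/-- The class. -/
def Cls (R1 R0 H : Finset (Sym2 V)) (k a0 r b0 j : ℕ) : Finset (Finset V) :=
  univ.filter fun K => K.card = k ∧ clean R0 K ∧ inn R1 K = a0 ∧ inn (R1 \ H) K < r ∧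
    cov R1 b0 K + 1 = b0 * j

theorem inn_split (X H : Finset (Sym2 V)) (S : Finset V) :
    inn X S ≤ inn (X \ H) S + inn H S := by
  unfold inn
  refine le_trans (card_le_card ?_) (card_union_le _ _)
  intro e he
  rw [mem_filter] at he
  rw [mem_union, mem_filter, mem_filter, mem_sdiff]
  by_cases h : e ∈ H
  · exact Or.inr ⟨h, he.2⟩
  · exact Or.inl ⟨⟨he.1, h⟩, he.2⟩

/-- Ordering lemma. -/
theorem ordering (h1 : ∀ e ∈ R1, ¬ e.IsDiag) {K Y C : Finset V} {j ρ b0 s k : ℕ}
    (hYK : Y ⊆ K) (hCK : C ⊆ K) (hK : K.card = k) (hY : j - ρ ≤ Y.card) (hC : C.card ≤ j)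
    (hYe : inn R1 (K \ Y) ≤ s) (hCe : inn R1 (K \ C) ≤ b0) :
    ∃ (P : Finset V) (l : List V), P ⊆ Y ∧ P.card = j - ρ ∧ l.Nodup ∧ (∀ w ∈ l, w ∉ P) ∧
      P ∪ l.toFinset = K ∧ exc j (prof R1 P l) ≤ b0 + s + ρ * k := by
  classical
  obtain ⟨P, hPY, hPc, hcase⟩ : ∃ P : Finset V, P ⊆ Y ∧ P.card = j - ρ ∧
      (C ∩ Y ⊆ P ∨ P ⊆ C) := by
    rcases le_or_gt (C ∩ Y).card (j - ρ) with h | h
    · obtain ⟨P, hP1, hP2, hP3⟩ := exists_subsuperset_card_eq (inter_subset_right (s₁ := C)) h hY
      exact ⟨P, hP2, hP3, Or.inl hP1⟩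
    · obtain ⟨P, hP1, hP2⟩ := exists_subset_card_eq h.le
      exact ⟨P, hP1.trans inter_subset_right, hP2, Or.inr (hP1.trans inter_subset_left)⟩
  have hPK : P ⊆ K := hPY.trans hYK
  set l1 := (C \ P).toList with hl1
  set l2 := (K \ (P ∪ C)).toList with hl2
  have e1 : l1.toFinset = C \ P := toList_toFinset _
  have e2 : l2.toFinset = K \ (P ∪ C) := toList_toFinset _
  have hdis : Disjoint (C \ P) (K \ (P ∪ C)) := by
    rw [disjoint_left]
    intro x hx hx'
    rw [mem_sdiff] at hx hx'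
    exact hx'.2 (mem_union_right _ hx.1)
  refine ⟨P, l1 ++ l2, hPY, hPc, ?_, ?_, ?_, ?_⟩
  · rw [List.nodup_append]
    refine ⟨nodup_toList _, nodup_toList _, ?_⟩
    intro a ha b hb hab
    subst hab
    rw [hl1, mem_toList] at ha
    rw [hl2, mem_toList] at hb
    exact disjoint_left.1 hdis ha hb
  · intro w hw
    rw [List.mem_append, hl1, hl2, mem_toList, mem_toList, mem_sdiff, mem_sdiff, mem_union] at hw
    rcases hw with h | h
    · exact h.2
    · exact fun h' => h.2 (Or.inl h')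
  · rw [List.toFinset_append, e1, e2]
    ext x
    simp only [mem_union, mem_sdiff]
    constructor
    · rintro (h | h | h)
      · exact hPK h
      · exact hCK h.1
      · exact h.1
    · intro h
      by_cases hP : x ∈ P
      · exact Or.inl hP
      · by_cases hC' : x ∈ C
        · exact Or.inr (Or.inl ⟨hC', hP⟩)
        · exact Or.inr (Or.inr ⟨h, fun h' => h'.elim hP hC'⟩)
  · rw [prof_append, exc_append, e1]
    -- second part
    have hsec : exc j (prof R1 (P ∪ C \ P) l2) ≤ b0 := by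
      have h3 : P ∪ C \ P = (P \ C) ∪ C := by
        rw [union_sdiff_self_eq_union, sdiff_union_self_eq_union]
      rw [h3]
      refine (exc_split j _ _ hC l2).trans ?_
      have h4 := prof_sum h1 (P \ C) l2 (nodup_toList _) (by
        intro w hw hw'
        rw [hl2, mem_toList, mem_sdiff] at hw
        exact hw.2 (mem_union_left _ (mem_sdiff.1 hw').1))
      have h5 : inn R1 (P \ C ∪ l2.toFinset) ≤ inn R1 (K \ C) := by
        apply inn_mono
        rw [e2]
        intro x hx
        rw [mem_union, mem_sdiff, mem_sdiff, mem_union] at hx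
        rw [mem_sdiff]
        rcases hx with h | h
        · exact ⟨hPK h.1, h.2⟩
        · exact ⟨h.1, fun h' => h.2 (Or.inr h')⟩
      omega
    have hfir : exc j (prof R1 P l1) ≤ s + ρ * k := by
      rcases hcase with h | h
      · have h3 : P = ∅ ∪ P := by rw [empty_union]
        rw [h3]
        refine (exc_split j _ _ (by omega) l1).trans ?_
        have h4 := prof_sum h1 ∅ l1 (nodup_toList _) (by simp)
        have h5 : inn R1 (∅ ∪ l1.toFinset) ≤ inn R1 (K \ Y) := by
          apply inn_mono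
          rw [e1, empty_union]
          intro x hx
          rw [mem_sdiff] at hx ⊢
          exact ⟨hCK hx.1, fun h' => hx.2 (h (mem_inter.2 ⟨hx.1, h'⟩))⟩
        omega
      · have h3 : (C \ P).card = C.card - P.card := card_sdiff_of_subset h
        have h4 : l1.length = (C \ P).card := length_toList _
        have h5 : ∀ p ∈ prof R1 P l1, p ≤ k := by
          intro p hp
          have h6 := prof_le P l1 p hp
          have h7 : P.card ≤ C.card := card_le_card h
          have h8 : C.card ≤ K.card := card_le_card hCK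
          omega
        have h6 := exc_le_mul j k _ h5
        rw [prof_length, h4, h3] at h6
        have h7 : (C.card - P.card) * k ≤ ρ * k := Nat.mul_le_mul_right _ (by omega)
        omega
    omega

/-- All lists of length `R` with entries at most `k`. -/
def lists (R k : ℕ) : Finset (List ℕ) :=
  (univ : Finset (Fin R → Fin (k + 1))).image fun f => List.ofFn fun i => (f i : ℕ)

theorem lists_card (R k : ℕ) : (lists R k).card ≤ (k + 1) ^ R := by
  refine card_image_le.trans ?_
  simp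

theorem mem_lists {R k : ℕ} {l : List ℕ} (h : l.length = R) (hk : ∀ p ∈ l, p ≤ k) :
    l ∈ lists R k := by
  subst h
  rw [lists, mem_image]
  refine ⟨fun i => ⟨l.get i, Nat.lt_succ_of_le (hk _ (List.get_mem _ _))⟩, mem_univ _, ?_⟩
  simp

/-- Covering of the class. -/
theorem Cls_sub (h1 : ∀ e ∈ R1, ¬ e.IsDiag) (h0 : ∀ e ∈ R0, ¬ e.IsDiag)
    (H : Finset (Sym2 V)) (hH : ∀ e ∈ H, ¬ e.IsDiag) (k a0 r b0 j d0 θ0 ρ : ℕ)
    (hθ : 0 < θ0) (hb0 : 0 < b0) (hρ : r + k * θ0 + 1 ≤ b0 * ρ) :
    Cls R1 R0 H k a0 r b0 j ⊆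
      ((univ : Finset (Finset V)).filter fun Z => Disjoint Z (Bg H d0) ∧ Z.card * θ0 ≤ k).biUnion
        fun Z => ((powersetCard (j - ρ) (UA H d0 Z)).filter fun P => clean R0 P).biUnion
          fun P => ((lists (k - (j - ρ)) k).filter fun ps => inn R1 P + ps.sum = a0 ∧
            exc j ps ≤ b0 * j + (r + k * θ0) + ρ * k).biUnion fun ps => Ext R1 R0 P ps := by
  classical
  intro K hK
  rw [Cls, mem_filter] at hK
  obtain ⟨-, hKk, hKc, hKa, hKr, hKj⟩ := hK
  obtain ⟨Z, hZd, hZc, hZ⟩ := anchors H d0 θ0 hθ K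
  rw [mem_biUnion]
  refine ⟨Z, by rw [mem_filter]; exact ⟨mem_univ _, hZd, by omega⟩, ?_⟩
  set Y := K ∩ UA H d0 Z with hY
  have hKY : K \ Y = K \ UA H d0 Z := by
    rw [hY]; ext x; simp only [mem_sdiff, mem_inter]; tauto
  have hYe : inn R1 (K \ Y) ≤ r + k * θ0 := by
    refine (inn_split R1 H _).trans ?_
    have h2 : inn (R1 \ H) (K \ Y) ≤ inn (R1 \ H) K := inn_mono sdiff_subset
    have h3 : inn H (K \ Y) ≤ k * θ0 := by
      refine (inn_le_sum hH _).trans ?_
      calc ∑ x ∈ K \ Y, d1 H (K \ Y) x ≤ ∑ _x ∈ K \ Y, θ0 := by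
            apply sum_le_sum
            intro x hx
            rw [hKY] at hx ⊢
            refine (hZ x ?_).le
            rw [mem_sdiff] at hx ⊢
            exact ⟨hx.1, fun h => hx.2 (mem_union_left _ h)⟩
        _ ≤ _ := by
            rw [sum_const, smul_eq_mul]
            apply Nat.mul_le_mul_right
            rw [← hKk]
            exact card_le_card sdiff_subset
    omega
  have hYc : j - ρ ≤ Y.card := by
    have h2 : cov R1 b0 K ≤ b0 * Y.card + inn R1 (K \ Y) := cov_le R1 b0 inter_subset_left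
    have h3 : b0 * j ≤ b0 * (Y.card + ρ) := by rw [mul_add]; omega
    have h4 := Nat.le_of_mul_le_mul_left h3 hb0
    omega
  obtain ⟨C, hCK, hCe⟩ := cov_eq R1 b0 K
  have hCj : C.card ≤ j := by
    have : b0 * C.card ≤ b0 * j := by omega
    exact Nat.le_of_mul_le_mul_left this hb0
  obtain ⟨P, l, hPY, hPc, hl, hd, hPl, hexc⟩ := ordering (k := k) (b0 := b0 * j) h1
    (inter_subset_left : Y ⊆ K) hCK hKk hYc hCj hYe (by omega)
  rw [mem_biUnion]
  refine ⟨P, ?_, ?_⟩
  · rw [mem_filter, mem_powersetCard]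
    refine ⟨⟨hPY.trans inter_subset_right, hPc⟩, clean_mono ?_ hKc⟩
    exact hPY.trans inter_subset_left
  have hPK : P ⊆ K := by rw [← hPl]; exact subset_union_left
  have hlen : l.length = k - (j - ρ) := by
    have h2 : (P ∪ l.toFinset).card = P.card + l.toFinset.card := by
      apply card_union_of_disjoint
      rw [disjoint_left]
      intro x hx hx'
      exact hd x (List.mem_toFinset.1 hx') hx
    rw [hPl, hKk, hPc, List.toFinset_card_of_nodup hl] at h2
    omega
  rw [mem_biUnion]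
  refine ⟨prof R1 P l, ?_, ?_⟩
  · rw [mem_filter]
    refine ⟨mem_lists (by rw [prof_length, hlen]) ?_, ?_, hexc⟩
    · intro p hp
      have h2 := prof_le P l p hp
      have h3 : P.card ≤ k := hKk ▸ card_le_card hPK
      omega
    · rw [prof_sum h1 P l hl hd, hPl, hKa]
  · have := mem_Ext (R1 := R1) h0 P l hl hd (by rw [hPl]; exact hKc)
    rwa [hPl] at this

end Karp
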