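import Pool.Agent.Karp.Cls

/-!
# Bound for the class
-/

namespace Karp

open Finset

variable {V : Type} [Fintype V] [DecidableEq V] {R1 R0 : Finset (Sym2 V)}

theorem sum_P {q u0 u1 k : ℕ} (hq : 0 < q) (h3 : T3 R1 R0 q u0 u1) {m0 Λ : ℝ} (hm0 : 0 ≤ m0)
    (hΛ : 1 ≤ Λ) (hm : Λ * ((1 / 2 + 3 / (2 * q)) * m0 + 2 * u1) ≤ m0)
    (h1 : ∀ e ∈ R1, ¬ e.IsDiag) (h0 : ∀ e ∈ R0, ¬ e.IsDiag) (b j' : ℕ) (hj : j' ≤ k)
    (U : Finset V) (hU : (U.card : ℝ) ≤ m0 * Λ ^ b) :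
    ∑ P ∈ (powersetCard j' U).filter (fun P => clean R0 P), (2 : ℝ) ^ inn R1 P ≤
      2 ^ (j'.choose 2) * ((m0 + (k + 1) * u0) ^ j' * Λ ^ (b * (b + 1) / 2)) := by
  classical
  set μ : V → ℝ := fun u => if u ∈ U then 1 else 0 with hμ
  have hlev : Lev 0 μ := by
    intro u
    by_cases h : u ∈ U
    · right; exact ⟨0, le_rfl, by simp [hμ, h]⟩
    · left; simp [hμ, h]
  have hsum : ∑ u, μ u ≤ m0 * Λ ^ b := by
    have : ∑ u, μ u = U.card := by simp [hμ]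
    rw [this]; exact hU
  have hT := TT_bound (k := k) hq h3 hm0 hΛ hm j' b 0 μ hlev (by omega) hsum
  have hwt := sum_wt_le (R1 := R1) (R0 := R0) h1 h0 j' μ (fun u => hlev.nonneg u)
  refine le_trans ?_ (mul_le_mul_of_nonneg_left (hwt.trans hT) (by positivity))
  rw [mul_sum]
  have hsub : (powersetCard j' U).filter (fun P => clean R0 P) ⊆
      powersetCard j' (univ : Finset V) := by
    intro P hP
    rw [mem_filter, mem_powersetCard] at hP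
    rw [mem_powersetCard]
    exact ⟨subset_univ _, hP.1.2⟩
  refine le_trans (le_of_eq ?_) (sum_le_sum_of_subset_of_nonneg hsub ?_)
  · apply sum_congr rfl
    intro P hP
    rw [mem_filter, mem_powersetCard] at hP
    obtain ⟨⟨hPU, hPc⟩, hcl⟩ := hP
    have hp1 : ∏ u ∈ P, μ u = 1 := by
      apply prod_eq_one
      intro u hu
      simp [hμ, hPU hu]
    rw [hp1, one_mul, wt, if_pos hcl, hPc]
    have h4 := inn_le_choose h1 P
    rw [hPc] at h4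
    have h5 : (2 : ℝ) ^ j'.choose 2 = 2 ^ (j'.choose 2 - inn R1 P) * 2 ^ inn R1 P := by
      rw [← pow_add]; congr 1; omega
    rw [h5, mul_comm (2 ^ (j'.choose 2 - inn R1 P)), mul_assoc, ← mul_pow]
    norm_num
  · intro P _ _
    apply mul_nonneg (by positivity)
    apply mul_nonneg (prod_nonneg fun u _ => hlev.nonneg u)
    unfold wt
    split_ifs <;> positivity

theorem Cls_bound {q u0 u1 k Y Lg : ℕ} (hq : 0 < q) (h3 : T3 R1 R0 q u0 u1)
    (hT1 : T1 R1 R0 k Y Lg) {m0 Λ : ℝ} (hm0 : 0 ≤ m0)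
    (hΛ : 1 ≤ Λ) (hm : Λ * ((1 / 2 + 3 / (2 * q)) * m0 + 2 * u1) ≤ m0)
    (h1 : ∀ e ∈ R1, ¬ e.IsDiag) (h0 : ∀ e ∈ R0, ¬ e.IsDiag) (b : ℕ)
    (H : Finset (Sym2 V)) (hH : ∀ e ∈ H, ¬ e.IsDiag) (a0 r b0 j d0 θ0 ρ : ℕ)
    (hθ : 0 < θ0) (hb0 : 0 < b0) (hρ : r + k * θ0 + 1 ≤ b0 * ρ) (hjk : j ≤ k) (hjL : j ≤ Lg)
    (hn1 : 1 ≤ Fintype.card V)
    (hU : ∀ Z : Finset V, Disjoint Z (Bg H d0) → Z.card * θ0 ≤ k →
      ((UA H d0 Z).card : ℝ) ≤ m0 * Λ ^ b) :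
    ((Cls R1 R0 H k a0 r b0 j).card : ℝ) * 2 ^ a0 ≤
      ((k / θ0 + 1) * (Fintype.card V : ℝ) ^ (k / θ0)) *
      (2 ^ ((j - ρ).choose 2) * ((m0 + (k + 1) * u0) ^ (j - ρ) * Λ ^ (b * (b + 1) / 2))) *
      ((k + 1 : ℝ) ^ (k - (j - ρ)) * ((Y : ℝ) ^ (k - (j - ρ)) *
        2 ^ ((k - (j - ρ)) * Lg + (b0 * j + (r + k * θ0) + ρ * k)))) := by
  classical
  set R := k - (j - ρ) with hR
  set Δ := b0 * j + (r + k * θ0) + ρ * k with hΔ
  have hsub := Cls_sub (R1 := R1) (R0 := R0) h1 h0 H hH k a0 r b0 j d0 θ0 ρ hθ hb0 hρ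
  set ZZ := ((univ : Finset (Finset V)).filter fun Z => Disjoint Z (Bg H d0) ∧
    Z.card * θ0 ≤ k) with hZZ
  have hcard : ((Cls R1 R0 H k a0 r b0 j).card : ℝ) ≤
      ∑ Z ∈ ZZ, ∑ P ∈ (powersetCard (j - ρ) (UA H d0 Z)).filter (fun P => clean R0 P),
        ∑ ps ∈ (lists R k).filter (fun ps => inn R1 P + ps.sum = a0 ∧ exc j ps ≤ Δ),
          ((Ext R1 R0 P ps).card : ℝ) := by
    have h5 := card_le_card hsub
    have h6 := h5.trans (card_biUnion_le.trans (sum_le_sum fun Z _ =>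
      card_biUnion_le.trans (sum_le_sum fun P _ => card_biUnion_le)))
    exact_mod_cast h6
  refine (mul_le_mul_of_nonneg_right hcard (by positivity)).trans ?_
  rw [sum_mul]
  have hpart : ∀ Z ∈ ZZ, (∑ P ∈ (powersetCard (j - ρ) (UA H d0 Z)).filter
      (fun P => clean R0 P),
        ∑ ps ∈ (lists R k).filter (fun ps => inn R1 P + ps.sum = a0 ∧ exc j ps ≤ Δ),
          ((Ext R1 R0 P ps).card : ℝ)) * 2 ^ a0 ≤
      (2 ^ ((j - ρ).choose 2) * ((m0 + (k + 1) * u0) ^ (j - ρ) * Λ ^ (b * (b + 1) / 2))) *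
      ((k + 1 : ℝ) ^ R * ((Y : ℝ) ^ R * 2 ^ (R * Lg + Δ))) := by
    intro Z hZ
    rw [hZZ, mem_filter] at hZ
    have hP : ∀ P ∈ (powersetCard (j - ρ) (UA H d0 Z)).filter (fun P => clean R0 P),
        (∑ ps ∈ (lists R k).filter (fun ps => inn R1 P + ps.sum = a0 ∧ exc j ps ≤ Δ),
          ((Ext R1 R0 P ps).card : ℝ)) * 2 ^ a0 ≤
        2 ^ inn R1 P * ((k + 1 : ℝ) ^ R * ((Y : ℝ) ^ R * 2 ^ (R * Lg + Δ))) := by
      intro P hP
      rw [mem_filter, mem_powersetCard] at hP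
      rw [sum_mul]
      have hps : ∀ ps ∈ (lists R k).filter (fun ps => inn R1 P + ps.sum = a0 ∧ exc j ps ≤ Δ),
          ((Ext R1 R0 P ps).card : ℝ) * 2 ^ a0 ≤
          2 ^ inn R1 P * ((Y : ℝ) ^ R * 2 ^ (R * Lg + Δ)) := by
        intro ps hps
        rw [mem_filter] at hps
        obtain ⟨hl, hs, he⟩ := hps
        have hlen : ps.length = R := by
          rw [lists, mem_image] at hl
          obtain ⟨f, -, rfl⟩ := hl
          simp
        have h5 := Ext_card hT1 P ps (by omega)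
        have h6 := sum_sub_le Lg j hjL ps
        rw [hlen] at h5 h6
        have h7 : (2 : ℝ) ^ (ps.map fun p => Lg - p).sum * 2 ^ a0 ≤
            2 ^ inn R1 P * 2 ^ (R * Lg + Δ) := by
          rw [← pow_add, ← pow_add]
          apply pow_le_pow_right₀ (by norm_num)
          omega
        have h8 : ((Ext R1 R0 P ps).card : ℝ) ≤ Y ^ R * 2 ^ (ps.map fun p => Lg - p).sum := by
          exact_mod_cast h5
        calc ((Ext R1 R0 P ps).card : ℝ) * 2 ^ a0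
            ≤ (Y ^ R * 2 ^ (ps.map fun p => Lg - p).sum) * 2 ^ a0 :=
              mul_le_mul_of_nonneg_right h8 (by positivity)
          _ = Y ^ R * (2 ^ (ps.map fun p => Lg - p).sum * 2 ^ a0) := by ring
          _ ≤ Y ^ R * (2 ^ inn R1 P * 2 ^ (R * Lg + Δ)) :=
              mul_le_mul_of_nonneg_left h7 (by positivity)
          _ = _ := by ring
      refine (sum_le_card_nsmul _ _ _ hps).trans ?_
      rw [nsmul_eq_mul]
      have h5 : (((lists R k).filter (fun ps => inn R1 P + ps.sum = a0 ∧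
          exc j ps ≤ Δ)).card : ℝ) ≤ (k + 1 : ℝ) ^ R := by
        exact_mod_cast (card_filter_le _ _).trans (lists_card R k)
      calc _ ≤ (k + 1 : ℝ) ^ R * (2 ^ inn R1 P * ((Y : ℝ) ^ R * 2 ^ (R * Lg + Δ))) :=
            mul_le_mul_of_nonneg_right h5 (by positivity)
        _ = _ := by ring
    rw [sum_mul]
    refine (sum_le_sum hP).trans ?_
    rw [← sum_mul]
    apply mul_le_mul_of_nonneg_right _ (by positivity)
    exact sum_P hq h3 hm0 hΛ hm h1 h0 b (j - ρ) (by omega) _ (hU Z hZ.2.1 hZ.2.2)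
  refine (sum_le_card_nsmul _ _ _ hpart).trans ?_
  rw [nsmul_eq_mul]
  have hZc : (ZZ.card : ℝ) ≤ (k / θ0 + 1) * (Fintype.card V : ℝ) ^ (k / θ0) := by
    have h5 : ZZ.card ≤ (k / θ0 + 1) * Fintype.card V ^ (k / θ0) := by
      refine (card_le_card ?_).trans (card_small (k / θ0) hn1)
      intro Z hZ
      rw [hZZ, mem_filter] at hZ
      rw [mem_filter]
      exact ⟨mem_univ _, (Nat.le_div_iff_mul_le hθ).2 hZ.2.2⟩
    have h6 : (((k / θ0 : ℕ) : ℝ)) ≤ (k : ℝ) / θ0 := Nat.cast_div_le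
    calc (ZZ.card : ℝ) ≤ (((k / θ0 : ℕ) : ℝ) + 1) * (Fintype.card V : ℝ) ^ (k / θ0) := by
          exact_mod_cast h5
      _ ≤ _ := by gcongr
  calc _ ≤ ((k / θ0 + 1) * (Fintype.card V : ℝ) ^ (k / θ0)) *
        ((2 ^ ((j - ρ).choose 2) * ((m0 + (k + 1) * u0) ^ (j - ρ) * Λ ^ (b * (b + 1) / 2))) *
      ((k + 1 : ℝ) ^ R * ((Y : ℝ) ^ R * 2 ^ (R * Lg + Δ)))) :=
        mul_le_mul_of_nonneg_right hZc (by positivity)
    _ = _ := by ring

end Karp
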