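import Pool.Agent.Karp.Mart

/-!
# Graph side definitions
-/

namespace Karp

open Finset

variable {V : Type} [Fintype V] [DecidableEq V]

/-- Unordered pairs of distinct vertices. -/
abbrev Pr (V : Type) := {e : Sym2 V // ¬ e.IsDiag}

/-- Number of `s` in `S` with `s(w,s)` in `X`. -/
def d1 (X : Finset (Sym2 V)) (S : Finset V) (w : V) : ℕ := (S.filter fun s => s(w, s) ∈ X).card

/-- No pair between `w` and `S` lies in `X`. -/
def ok (X : Finset (Sym2 V)) (S : Finset V) (w : V) : Prop := ∀ s ∈ S, s(w, s) ∉ X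

instance (X : Finset (Sym2 V)) (S : Finset V) : DecidablePred (ok X S) := fun _ =>
  inferInstanceAs (Decidable (∀ _ ∈ _, _))

/-- Number of pairs of `X` inside `K`. -/
def inn (X : Finset (Sym2 V)) (K : Finset V) : ℕ := (X.filter fun e => e ∈ K.sym2).card

/-- No pair of `X` inside `K`. -/
def clean (X : Finset (Sym2 V)) (K : Finset V) : Prop := ∀ e ∈ X, e ∉ K.sym2

instance (X : Finset (Sym2 V)) : DecidablePred (clean X) := fun _ =>
  inferInstanceAs (Decidable (∀ _ ∈ _, _))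

/-- Typicality of degrees into small sets. -/
def T1 (R1 R0 : Finset (Sym2 V)) (k Y Lg : ℕ) : Prop :=
  ∀ S : Finset V, S.card ≤ k → ∀ p : ℕ,
    ((univ \ S).filter fun w => ok R0 S w ∧ d1 R1 S w = p).card ≤ Y * 2 ^ (Lg - p)

/-- Typicality of degrees into large sets. -/
def T3 (R1 R0 : Finset (Sym2 V)) (q u0 u1 : ℕ) : Prop :=
  ∀ A : Finset V, u1 ≤ A.card →
    (univ.filter fun v => q * d1 R0 A v + 3 * A.card < q * d1 R1 A v).card < u0

/-- Forget the proofs in a set of pairs. -/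
def val (X : Finset (Pr V)) : Finset (Sym2 V) := X.map (Function.Embedding.subtype _)

theorem mem_val {X : Finset (Pr V)} {e : Sym2 V} : e ∈ val X ↔ ∃ h : ¬ e.IsDiag, ⟨e, h⟩ ∈ X := by
  simp [val]

theorem val_nd {X : Finset (Pr V)} {e : Sym2 V} (h : e ∈ val X) : ¬ e.IsDiag :=
  (mem_val.1 h).1

/-- All pairs between `Z` and `S`. -/
def cross (Z S : Finset V) : Finset (Pr V) :=
  univ.filter fun e => ∃ w ∈ Z, ∃ s ∈ S, e.1 = s(w, s)

theorem card_cross {Z S : Finset V} (hZS : Disjoint Z S) (X : Finset (Pr V)) :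
    (X ∩ cross Z S).card = ∑ w ∈ Z, d1 (val X) S w := by
  unfold d1
  rw [← card_sigma]
  symm
  apply card_bij (fun (p : Σ _ : V, V) hp => (⟨s(p.1, p.2), by
    rw [mem_sigma, mem_filter] at hp
    exact val_nd hp.2.2⟩ : Pr V))
  · rintro ⟨w, s⟩ hp
    rw [mem_sigma, mem_filter] at hp
    obtain ⟨hd, h2⟩ := mem_val.1 hp.2.2
    rw [mem_inter]
    refine ⟨h2, ?_⟩
    rw [cross, mem_filter]
    exact ⟨mem_univ _, w, hp.1, s, hp.2.1, rfl⟩
  · rintro ⟨w, s⟩ hp ⟨w', s'⟩ hp' heq
    rw [mem_sigma, mem_filter] at hp hp'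
    simp only [Subtype.mk.injEq, Sym2.eq_iff] at heq
    rcases heq with ⟨h1, h2⟩ | ⟨h1, h2⟩
    · subst h1 h2; rfl
    · exfalso
      simp only at hp hp'
      rw [disjoint_left] at hZS
      apply hZS hp.1
      rw [h1]; exact hp'.2.1
  · rintro e he
    rw [mem_inter, cross, mem_filter] at he
    obtain ⟨h1, -, w, hw, s, hs, h⟩ := he
    refine ⟨⟨w, s⟩, ?_, ?_⟩
    · rw [mem_sigma, mem_filter]
      refine ⟨hw, hs, ?_⟩
      rw [mem_val]
      have hnd := e.2
      rw [h] at hnd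
      refine ⟨hnd, ?_⟩
      convert h1
      exact h.symm
    · apply Subtype.ext
      exact h.symm

variable {S : Type}

/-- Pairs read and present before time `t`. -/
def r1 (A : Prog (Pr V) S) (g : Pr V → Bool) (t : ℕ) : Finset (Sym2 V) :=
  val ((A.rd g t).filter fun e => g e = true)

/-- Pairs read and absent before time `t`. -/
def r0 (A : Prog (Pr V) S) (g : Pr V → Bool) (t : ℕ) : Finset (Sym2 V) :=
  val ((A.rd g t).filter fun e => g e = false)

theorem r1_nd {A : Prog (Pr V) S} {g : Pr V → Bool} {t : ℕ} {e : Sym2 V} (h : e ∈ r1 A g t) :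
    ¬ e.IsDiag := val_nd h

theorem r1_congr {A : Prog (Pr V) S} {g h : Pr V → Bool} {t : ℕ}
    (H : ∀ e ∈ A.rd g t, h e = g e) : r1 A h t = r1 A g t := by
  unfold r1
  rw [Prog.det_rd H]
  congr 1
  apply filter_congr
  intro e he
  rw [H e he]

theorem r0_congr {A : Prog (Pr V) S} {g h : Pr V → Bool} {t : ℕ}
    (H : ∀ e ∈ A.rd g t, h e = g e) : r0 A h t = r0 A g t := by
  unfold r0
  rw [Prog.det_rd H]
  congr 1
  apply filter_congr
  intro e he
  rw [H e he]

end Karp
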