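import Pool.Agent.Karp.Ppart

/-!
# Extensions of a set with a prescribed profile; anchors
-/

namespace Karp

open Finset

variable {V : Type} [Fintype V] [DecidableEq V] {R1 R0 : Finset (Sym2 V)}

/-- All sets obtained from `P` by adding vertices with profile `ps` and no absent pair. -/
def Ext (R1 R0 : Finset (Sym2 V)) : Finset V → List ℕ → Finset (Finset V)
  | P, [] => {P}
  | P, p :: ps => ((univ \ P).filter fun w => ok R0 P w ∧ d1 R1 P w = p).biUnion
      fun w => Ext R1 R0 (insert w P) ps

theorem Ext_card {k Y Lg : ℕ} (h1 : T1 R1 R0 k Y Lg) (P : Finset V) (ps : List ℕ)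
    (hk : P.card + ps.length ≤ k) :
    (Ext R1 R0 P ps).card ≤ Y ^ ps.length * 2 ^ (ps.map fun p => Lg - p).sum := by
  induction ps generalizing P with
  | nil => simp [Ext]
  | cons p ps ih =>
    rw [List.length_cons] at hk
    rw [Ext]
    refine card_biUnion_le.trans ?_
    calc _ ≤ ∑ _w ∈ (univ \ P).filter fun w => ok R0 P w ∧ d1 R1 P w = p,
          Y ^ ps.length * 2 ^ (ps.map fun p => Lg - p).sum := by
          apply sum_le_sum
          intro w _
          apply ih
          have := card_insert_le w P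
          omega
      _ ≤ (Y * 2 ^ (Lg - p)) * (Y ^ ps.length * 2 ^ (ps.map fun p => Lg - p).sum) := by
          rw [sum_const, smul_eq_mul]
          exact Nat.mul_le_mul_right _ (h1 P (by omega) p)
      _ = _ := by
          rw [List.length_cons, List.map_cons, List.sum_cons, pow_succ, pow_add]
          ring

theorem mem_Ext (h0 : ∀ e ∈ R0, ¬ e.IsDiag) (P : Finset V) (l : List V) (hl : l.Nodup)
    (hd : ∀ w ∈ l, w ∉ P) (hc : clean R0 (P ∪ l.toFinset)) :
    P ∪ l.toFinset ∈ Ext R1 R0 P (prof R1 P l) := by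
  induction l generalizing P with
  | nil => simp [Ext]
  | cons w l ih =>
    rw [List.nodup_cons] at hl
    have hw : w ∉ P := hd w List.mem_cons_self
    have h2 : P ∪ (w :: l).toFinset = insert w P ∪ l.toFinset := by
      rw [List.toFinset_cons, insert_union, union_insert]
    rw [h2] at hc ⊢
    rw [prof_cons, Ext, mem_biUnion]
    refine ⟨w, ?_, ?_⟩
    · rw [mem_filter, mem_sdiff]
      refine ⟨⟨mem_univ _, hw⟩, ?_, rfl⟩
      exact ((clean_insert h0 hw).1 (clean_mono subset_union_left hc)).2
    · apply ih (insert w P) hl.2 _ hc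
      intro x hx
      rw [mem_insert]
      rintro (rfl | h)
      · exact hl.1 hx
      · exact hd x (List.mem_cons_of_mem _ hx) h

theorem sum_sub_le (Lg j : ℕ) (hj : j ≤ Lg) (ps : List ℕ) :
    (ps.map fun p => Lg - p).sum + ps.sum ≤ ps.length * Lg + exc j ps := by
  induction ps with
  | nil => simp [exc]
  | cons p ps ih =>
    have h1 : exc j (p :: ps) = (p - j) + exc j ps := by simp [exc]
    rw [h1, List.map_cons, List.sum_cons, List.sum_cons, List.length_cons, add_mul, one_mul]
    omega

/-! ### Anchors -/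

theorem inn_le_sum {X : Finset (Sym2 V)} (hX : ∀ e ∈ X, ¬ e.IsDiag) (S : Finset V) :
    inn X S ≤ ∑ x ∈ S, d1 X S x := by
  induction S using Finset.induction_on with
  | empty => rw [inn_empty hX]; exact Nat.zero_le _
  | insert v S hv ih =>
    rw [inn_insert hX hv, sum_insert hv]
    have h1 : ∑ x ∈ S, d1 X S x ≤ ∑ x ∈ S, d1 X (insert v S) x :=
      sum_le_sum fun x _ => d1_mono (subset_insert _ _) _
    have h2 : d1 X S v ≤ d1 X (insert v S) v := d1_mono (subset_insert _ _) _
    omega

/-- Vertices of large degree. -/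
def Bg (H : Finset (Sym2 V)) (d0 : ℕ) : Finset V := univ.filter fun v => d0 ≤ d1 H univ v

/-- Big vertices and neighbours of anchors. -/
def UA (H : Finset (Sym2 V)) (d0 : ℕ) (Z : Finset V) : Finset V :=
  Bg H d0 ∪ Z.biUnion fun x => univ.filter fun u => s(x, u) ∈ H

theorem sum_deg_le (H : Finset (Sym2 V)) : ∑ v, d1 H univ v ≤ 2 * H.card := by
  unfold d1
  rw [← card_sigma]
  have : ((univ : Finset V).sigma fun v => univ.filter fun s => s(v, s) ∈ H).card ≤
      ∑ e ∈ H, 2 := by
    rw [card_eq_sum_card_fiberwise (f := fun p : (Σ _ : V, V) => s(p.1, p.2)) (t := H)]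
    · apply sum_le_sum
      intro e _
      induction e with
      | _ a b =>
      refine (card_le_card (t := {⟨a, b⟩, ⟨b, a⟩}) ?_).trans card_le_two
      rintro ⟨x, y⟩ hp
      rw [mem_filter] at hp
      have := hp.2
      simp only [Sym2.eq_iff] at this
      rw [mem_insert, mem_singleton]
      rcases this with ⟨rfl, rfl⟩ | ⟨rfl, rfl⟩
      · left; rfl
      · right; rfl
    · rintro ⟨x, y⟩ hp
      rw [mem_coe, mem_sigma, mem_filter] at hp
      exact hp.2.2
  rw [sum_const, smul_eq_mul] at this
  omega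

theorem Bg_card (H : Finset (Sym2 V)) (d0 : ℕ) : (Bg H d0).card * d0 ≤ 2 * H.card := by
  refine le_trans ?_ (sum_deg_le H)
  calc (Bg H d0).card * d0 = ∑ _v ∈ Bg H d0, d0 := by rw [sum_const, smul_eq_mul]
    _ ≤ ∑ v ∈ Bg H d0, d1 H univ v := sum_le_sum fun v hv => (mem_filter.1 hv).2
    _ ≤ _ := sum_le_sum_of_subset (subset_univ _)

theorem UA_card (H : Finset (Sym2 V)) (d0 : ℕ) (Z : Finset V) (hZ : Disjoint Z (Bg H d0)) :
    (UA H d0 Z).card ≤ (Bg H d0).card + Z.card * d0 := by
  refine (card_union_le _ _).trans (Nat.add_le_add_left ?_ _)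
  refine card_biUnion_le.trans ?_
  calc _ ≤ ∑ _x ∈ Z, d0 := by
        apply sum_le_sum
        intro x hx
        have h1 : x ∉ Bg H d0 := disjoint_left.1 hZ hx
        unfold Bg at h1
        rw [mem_filter] at h1
        have h2 : d1 H univ x = (univ.filter fun u => s(x, u) ∈ H).card := rfl
        by_contra h3
        push Not at h3
        exact h1 ⟨mem_univ _, by rw [h2]; exact h3.le⟩
    _ = _ := by rw [sum_const, smul_eq_mul]

theorem anchors (H : Finset (Sym2 V)) (d0 θ0 : ℕ) (hθ : 0 < θ0) (K : Finset V) :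
    ∃ Z : Finset V, Disjoint Z (Bg H d0) ∧ Z.card * θ0 ≤ K.card ∧
      ∀ x ∈ K \ Bg H d0, d1 H (K \ UA H d0 Z) x < θ0 := by
  classical
  set PP := (K \ Bg H d0).powerset.filter fun Z => Z.card * θ0 ≤ (K ∩ UA H d0 Z).card with hPP
  have hne : PP.Nonempty := ⟨∅, by
    rw [hPP, mem_filter, mem_powerset]
    exact ⟨empty_subset _, by simp⟩⟩
  obtain ⟨Z, hZ, hmax⟩ := exists_max_image PP card hne
  rw [hPP, mem_filter, mem_powerset] at hZ
  refine ⟨Z, ?_, hZ.2.trans (card_le_card inter_subset_left), ?_⟩
  · rw [disjoint_left]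
    intro x hx hb
    exact (mem_sdiff.1 (hZ.1 hx)).2 hb
  · intro x hx
    by_contra hcon
    push Not at hcon
    by_cases hxZ : x ∈ Z
    · have : d1 H (K \ UA H d0 Z) x = 0 := by
        unfold d1
        rw [card_eq_zero, filter_eq_empty_iff]
        intro s hs h
        apply (mem_sdiff.1 hs).2
        unfold UA
        rw [mem_union, mem_biUnion]
        exact Or.inr ⟨x, hxZ, mem_filter.2 ⟨mem_univ _, h⟩⟩
      omega
    · have hins : insert x Z ∈ PP := by
        rw [hPP, mem_filter, mem_powerset]
        refine ⟨insert_subset hx hZ.1, ?_⟩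
        rw [card_insert_of_notMem hxZ, add_mul, one_mul]
        have hsub : (K ∩ UA H d0 Z) ∪ ((K \ UA H d0 Z).filter fun s => s(x, s) ∈ H) ⊆
            K ∩ UA H d0 (insert x Z) := by
          intro s hs
          rw [mem_union, mem_inter, mem_filter, mem_sdiff] at hs
          rw [mem_inter]
          rcases hs with ⟨h1, h2⟩ | ⟨⟨h1, -⟩, h2⟩
          · refine ⟨h1, ?_⟩
            unfold UA at h2 ⊢
            rw [mem_union, mem_biUnion] at h2 ⊢
            rcases h2 with h2 | ⟨y, hy, h2⟩
            · exact Or.inl h2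
            · exact Or.inr ⟨y, mem_insert_of_mem hy, h2⟩
          · refine ⟨h1, ?_⟩
            unfold UA
            rw [mem_union, mem_biUnion]
            exact Or.inr ⟨x, mem_insert_self _ _, mem_filter.2 ⟨mem_univ _, h2⟩⟩
        have hdis : Disjoint (K ∩ UA H d0 Z) ((K \ UA H d0 Z).filter fun s => s(x, s) ∈ H) := by
          rw [disjoint_left]
          intro s h1 h2
          exact (mem_sdiff.1 (mem_filter.1 h2).1).2 (mem_inter.1 h1).2
        have h3 := card_le_card hsub
        rw [card_union_of_disjoint hdis] at h3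
        have h4 : θ0 ≤ ((K \ UA H d0 Z).filter fun s => s(x, s) ∈ H).card := hcon
        omega
      have := hmax _ hins
      rw [card_insert_of_notMem hxZ] at this
      omega

end Karp
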