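import Pool.Agent.Karp.Typ3

/-!
# Counting pairs inside sets
-/

namespace Karp

open Finset

variable {V : Type} [Fintype V] [DecidableEq V]

theorem d1_mono {X : Finset (Sym2 V)} {S T : Finset V} (h : S ⊆ T) (w : V) :
    d1 X S w ≤ d1 X T w := card_le_card (filter_subset_filter _ h)

theorem d1_union {X : Finset (Sym2 V)} (S T : Finset V) (w : V) :
    d1 X (S ∪ T) w ≤ d1 X S w + d1 X T w := by
  unfold d1
  rw [filter_union]
  exact card_union_le _ _

theorem d1_le {X : Finset (Sym2 V)} (S : Finset V) (w : V) : d1 X S w ≤ S.card :=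
  card_filter_le _ _

theorem inn_empty {X : Finset (Sym2 V)} (hX : ∀ e ∈ X, ¬ e.IsDiag) : inn X ∅ = 0 := by
  unfold inn
  rw [card_eq_zero, filter_eq_empty_iff]
  intro e _
  simp

theorem inn_mono {X : Finset (Sym2 V)} {S T : Finset V} (h : S ⊆ T) : inn X S ≤ inn X T := by
  unfold inn
  apply card_le_card
  intro e he
  rw [mem_filter] at he ⊢
  refine ⟨he.1, ?_⟩
  rw [mem_sym2_iff] at he ⊢
  exact fun a ha => h (he.2 a ha)

theorem inn_insert {X : Finset (Sym2 V)} (hX : ∀ e ∈ X, ¬ e.IsDiag) {P : Finset V} {v : V}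
    (hv : v ∉ P) : inn X (insert v P) = inn X P + d1 X P v := by
  unfold inn d1
  have h : (X.filter fun e => e ∈ (insert v P).sym2) =
      (X.filter fun e => e ∈ P.sym2) ∪ ((P.filter fun s => s(v, s) ∈ X).image fun s => s(v, s)) := by
    ext e
    rw [mem_union, mem_filter, mem_filter, mem_image]
    constructor
    · rintro ⟨h1, h2⟩
      induction e with
      | _ a b =>
      rw [mk_mem_sym2_iff, mem_insert, mem_insert] at h2
      obtain ⟨ha, hb⟩ := h2
      have hne : a ≠ b := fun h => hX _ h1 h
      rcases ha with rfl | ha <;> rcases hb with rfl | hb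
      · exact absurd rfl hne
      · right; exact ⟨b, mem_filter.2 ⟨hb, h1⟩, rfl⟩
      · right
        refine ⟨a, mem_filter.2 ⟨ha, ?_⟩, Sym2.eq_swap⟩
        rw [Sym2.eq_swap]; exact h1
      · left; exact ⟨h1, mk_mem_sym2_iff.2 ⟨ha, hb⟩⟩
    · rintro (⟨h1, h2⟩ | ⟨s, hs, rfl⟩)
      · refine ⟨h1, ?_⟩
        rw [mem_sym2_iff] at h2 ⊢
        exact fun a ha => mem_insert_of_mem (h2 a ha)
      · rw [mem_filter] at hs
        exact ⟨hs.2, mk_mem_sym2_iff.2 ⟨mem_insert_self _ _, mem_insert_of_mem hs.1⟩⟩
  rw [h, card_union_of_disjoint, card_image_of_injOn]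
  · intro s hs s' hs' heq
    simp only [Sym2.eq_iff, true_and] at heq
    rcases heq with h | ⟨h1, h2⟩
    · exact h
    · rw [h2, h1]
  · rw [disjoint_left]
    intro e he1 he2
    rw [mem_filter] at he1
    rw [mem_image] at he2
    obtain ⟨s, hs, rfl⟩ := he2
    exact hv (mk_mem_sym2_iff.1 he1.2).1

theorem clean_insert {X : Finset (Sym2 V)} (hX : ∀ e ∈ X, ¬ e.IsDiag) {P : Finset V} {v : V}
    (hv : v ∉ P) : clean X (insert v P) ↔ clean X P ∧ ok X P v := by
  unfold clean ok
  constructor
  · intro h
    refine ⟨fun e he h2 => h e he ?_, fun s hs h2 => h _ h2 ?_⟩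
    · rw [mem_sym2_iff] at h2 ⊢
      exact fun a ha => mem_insert_of_mem (h2 a ha)
    · exact mk_mem_sym2_iff.2 ⟨mem_insert_self _ _, mem_insert_of_mem hs⟩
  · rintro ⟨h1, h2⟩ e he h3
    induction e with
    | _ a b =>
    rw [mk_mem_sym2_iff, mem_insert, mem_insert] at h3
    obtain ⟨ha, hb⟩ := h3
    have hne : a ≠ b := fun h => hX _ he h
    rcases ha with rfl | ha <;> rcases hb with rfl | hb
    · exact absurd rfl hne
    · exact h2 _ hb he
    · exact h2 _ ha (by rw [Sym2.eq_swap]; exact he)
    · exact h1 _ he (mk_mem_sym2_iff.2 ⟨ha, hb⟩)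

theorem clean_mono {X : Finset (Sym2 V)} {S T : Finset V} (h : S ⊆ T) (hT : clean X T) :
    clean X S := by
  intro e he h2
  apply hT e he
  rw [mem_sym2_iff] at h2 ⊢
  exact fun a ha => h (h2 a ha)

theorem inn_le_choose {X : Finset (Sym2 V)} (hX : ∀ e ∈ X, ¬ e.IsDiag) (P : Finset V) :
    inn X P ≤ P.card.choose 2 := by
  induction P using Finset.induction_on with
  | empty => rw [inn_empty hX]; exact Nat.zero_le _
  | insert v P hv ih =>
    have h2 : (P.card + 1).choose 2 = P.card + P.card.choose 2 := by
      rw [Nat.choose_succ_succ' P.card 1, Nat.choose_one_right]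
    rw [inn_insert hX hv, card_insert_of_notMem hv, h2]
    have := d1_le (X := X) P v
    omega

/-- Profile of a list of vertices added one after the other to `P`. -/
def prof (X : Finset (Sym2 V)) : Finset V → List V → List ℕ
  | _, [] => []
  | P, w :: l => d1 X P w :: prof X (insert w P) l

@[simp] theorem prof_nil (X : Finset (Sym2 V)) (P : Finset V) : prof X P [] = [] := rfl

@[simp] theorem prof_cons (X : Finset (Sym2 V)) (P : Finset V) (w : V) (l : List V) :
    prof X P (w :: l) = d1 X P w :: prof X (insert w P) l := rfl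

@[simp] theorem prof_length (X : Finset (Sym2 V)) (P : Finset V) (l : List V) :
    (prof X P l).length = l.length := by
  induction l generalizing P with
  | nil => rfl
  | cons w l ih => simp [ih]

theorem prof_sum {X : Finset (Sym2 V)} (hX : ∀ e ∈ X, ¬ e.IsDiag) (P : Finset V) (l : List V)
    (hl : l.Nodup) (hd : ∀ w ∈ l, w ∉ P) :
    inn X P + (prof X P l).sum = inn X (P ∪ l.toFinset) := by
  induction l generalizing P with
  | nil => simp
  | cons w l ih =>
    rw [List.nodup_cons] at hl
    have hw : w ∉ P := hd w List.mem_cons_self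
    have h := ih (insert w P) hl.2 (by
      intro x hx
      rw [mem_insert]
      rintro (rfl | h)
      · exact hl.1 hx
      · exact hd x (List.mem_cons_of_mem _ hx) h)
    rw [inn_insert hX hw] at h
    rw [prof_cons, List.sum_cons, List.toFinset_cons]
    have h2 : P ∪ insert w l.toFinset = insert w P ∪ l.toFinset := by
      rw [insert_union, union_insert]
    rw [h2, ← h]
    omega

/-- Total excess over `j`. -/
def exc (j : ℕ) (ps : List ℕ) : ℕ := (ps.map fun p => p - j).sum

theorem exc_append (j : ℕ) (a b : List ℕ) : exc j (a ++ b) = exc j a + exc j b := by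
  simp [exc]

theorem prof_append (X : Finset (Sym2 V)) (P : Finset V) (a b : List V) :
    prof X P (a ++ b) = prof X P a ++ prof X (P ∪ a.toFinset) b := by
  induction a generalizing P with
  | nil => simp
  | cons w a ih =>
    rw [List.cons_append, prof_cons, prof_cons, List.cons_append, ih, List.toFinset_cons]
    have h2 : P ∪ insert w a.toFinset = insert w P ∪ a.toFinset := by
      rw [insert_union, union_insert]
    rw [h2]

theorem exc_split {X : Finset (Sym2 V)} (j : ℕ) (S Z : Finset V) (hZ : Z.card ≤ j) (l : List V) :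
    exc j (prof X (S ∪ Z) l) ≤ (prof X S l).sum := by
  induction l generalizing S with
  | nil => simp [exc]
  | cons w l ih =>
    have h := ih (insert w S)
    rw [insert_union] at h
    have h2 : exc j (prof X (S ∪ Z) (w :: l)) =
        (d1 X (S ∪ Z) w - j) + exc j (prof X (insert w (S ∪ Z)) l) := by
      simp [exc]
    have h3 := d1_union (X := X) S Z w
    have h4 := d1_le (X := X) Z w
    rw [h2, prof_cons, List.sum_cons]
    omega

theorem exc_le_mul (j k : ℕ) (ps : List ℕ) (h : ∀ p ∈ ps, p ≤ k) : exc j ps ≤ ps.length * k := by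
  induction ps with
  | nil => simp [exc]
  | cons p ps ih =>
    have h1 : exc j (p :: ps) = (p - j) + exc j ps := by simp [exc]
    have h2 := h p List.mem_cons_self
    have h3 := ih fun x hx => h x (List.mem_cons_of_mem _ hx)
    rw [h1, List.length_cons, add_mul, one_mul]
    omega

theorem prof_le {X : Finset (Sym2 V)} (P : Finset V) (l : List V) :
    ∀ p ∈ prof X P l, p ≤ P.card + l.length := by
  induction l generalizing P with
  | nil => simp
  | cons w l ih =>
    intro p hp
    rw [prof_cons, List.mem_cons] at hp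
    rcases hp with rfl | hp
    · exact (d1_le P w).trans (by omega)
    · have h1 := ih _ p hp
      have h2 := card_insert_le w P
      rw [List.length_cons]
      omega

end Karp
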