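import Pool.Agent.Karp.Asym5

/-!
# The lower bound for abstract programs
-/

namespace Karp

open Finset Filter

open Classical in
theorem main_prog (a ε : ℝ) (ha : 0 ≤ a) (hε : 0 < ε) :
    ∃ η : ℝ, 0 < η ∧ ∃ J : ℕ, ∀ j ≥ J, ∀ n k T M : ℕ, 2 ^ j ≤ n → n < 2 ^ (j + 1) →
      (1 + a + ε) * j ≤ k → (k : ℝ) ≤ (1 + a + ε) * (j + 1) + 1 →
      (T : ℝ) ≤ 2 ^ (η * (j : ℝ) ^ 2) → (M : ℝ) ≤ 2 ^ ((n : ℝ) ^ (2 * a)) →
      ∀ (A : Prog (Pr (Fin n)) (Fin M)), A.RO → ∀ o : Fin M → Finset (Fin n),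
      ((univ.filter fun g : Pr (Fin n) → Bool => (o (A.st g T)).card = k ∧
        ∀ e ∈ prs (o (A.st g T)), g e = true).card : ℝ) ≤
        6 * 2 ^ (-(η * (j : ℝ) ^ 2)) * 2 ^ Fintype.card (Pr (Fin n)) := by
  -- constants
  set K1 : ℕ := ⌈2 + a + ε⌉₊ with hK1
  have hK1' : 2 + a + ε ≤ K1 := Nat.le_ceil _
  set κ1 : ℝ := ((a + ε / 4) / (a + ε / 2)) ^ 2 with hκ1d
  have hae : 0 < a + ε / 2 := by positivity
  have hκ1 : 0 < κ1 := by positivity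
  have hκ1' : κ1 < 1 := by
    rw [hκ1d]
    apply pow_lt_one₀ (by positivity) _ (by norm_num)
    rw [div_lt_one hae]; linarith
  have hκe : (a + ε / 4) ^ 2 = κ1 * (a + ε / 2) ^ 2 := by
    rw [hκ1d, div_pow, div_mul_cancel₀ _ (by positivity)]
  have h2κ : (2 : ℝ) ^ κ1 < 2 := by
    calc (2 : ℝ) ^ κ1 < 2 ^ (1 : ℝ) := Real.rpow_lt_rpow_of_exponent_lt (by norm_num) hκ1'
      _ = 2 := Real.rpow_one 2
  obtain ⟨q, hq3, hq⟩ : ∃ q : ℕ, 3 ≤ q ∧ 2 ^ κ1 * (1 / 2 + 3 / (2 * (q : ℝ))) < 1 := by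
    obtain ⟨q, hq⟩ := exists_nat_gt (3 * (2 : ℝ) ^ κ1 / (2 - (2 : ℝ) ^ κ1))
    refine ⟨q + 3, by omega, ?_⟩
    rw [div_lt_iff₀ (by linarith)] at hq
    have hq0 : (0 : ℝ) < ((q + 3 : ℕ) : ℝ) := by positivity
    have hqq : (q : ℝ) ≤ ((q + 3 : ℕ) : ℝ) := by push_cast; linarith
    have h1 : (3 : ℝ) * 2 ^ κ1 < ((q + 3 : ℕ) : ℝ) * (2 - 2 ^ κ1) :=
      lt_of_lt_of_le hq (mul_le_mul_of_nonneg_right hqq (by linarith))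
    have h2 : 2 ^ κ1 * (1 / 2 + 3 / (2 * ((q + 3 : ℕ) : ℝ))) =
        (2 ^ κ1 * ((q + 3 : ℕ) : ℝ) + 3 * 2 ^ κ1) / (2 * ((q + 3 : ℕ) : ℝ)) := by
      field_simp
    rw [h2, div_lt_one (by positivity)]
    linarith
  obtain ⟨s, hs0, hsK, hσs⟩ : ∃ s : ℕ, 0 < s ∧ 4 * (K1 + 2) ≤ s ∧
      14 * (K1 + 2 : ℝ) ^ 2 * (1 / s) ≤ ε ^ 2 / 16 := by
    obtain ⟨s, hs⟩ := exists_nat_gt (14 * (K1 + 2 : ℝ) ^ 2 * 16 / ε ^ 2)
    refine ⟨s + 4 * (K1 + 2), by omega, by omega, ?_⟩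
    rw [div_lt_iff₀ (by positivity)] at hs
    have h0 : (0 : ℝ) < ((s + 4 * (K1 + 2) : ℕ) : ℝ) := by positivity
    rw [mul_one_div, div_le_iff₀ h0]
    have h1 : (s : ℝ) ≤ ((s + 4 * (K1 + 2) : ℕ) : ℝ) := by
      exact_mod_cast Nat.le_add_right _ _
    have h2 := mul_le_mul_of_nonneg_right h1 (show 0 ≤ ε ^ 2 by positivity)
    linarith
  have hs0' : (0 : ℝ) < s := by exact_mod_cast hs0
  have hsε : (1 / s : ℝ) ≤ ε ^ 2 / 8 := by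
    have h1 : (1 : ℝ) ≤ 14 * (K1 + 2 : ℝ) ^ 2 := by
      have : (0 : ℝ) ≤ K1 := Nat.cast_nonneg _
      nlinarith
    have h2 : (0 : ℝ) ≤ 1 / s := by positivity
    have h3 : 1 * (1 / s : ℝ) ≤ 14 * (K1 + 2 : ℝ) ^ 2 * (1 / s) :=
      mul_le_mul_of_nonneg_right h1 h2
    have h4 : 0 ≤ ε ^ 2 := by positivity
    linarith
  set κ : ℝ := ε ^ 2 / (16 * (4 + 2 * K1)) with hκd
  have hκ : 0 < κ := by
    rw [hκd]; positivity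
  have hκs : (4 + 2 * (K1 : ℝ)) * κ ≤ ε ^ 2 / 16 := by
    rw [hκd]
    apply le_of_eq
    field_simp
  set η0 : ℝ := min (min (1 / 4) (κ / 4)) (min (1 / (4 * s ^ 2)) (ε ^ 2 / 32)) with hη0
  have hη : 0 < η0 := by
    rw [hη0]
    apply lt_min <;> apply lt_min <;> positivity
  have hη1 : η0 ≤ 1 / 4 := (min_le_left _ _).trans (min_le_left _ _)
  have hη2 : 4 * η0 ≤ κ := by
    have : η0 ≤ κ / 4 := (min_le_left _ _).trans (min_le_right _ _)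
    linarith
  have hη3 : 4 * η0 ≤ 1 / s ^ 2 := by
    have : η0 ≤ 1 / (4 * s ^ 2) := (min_le_right _ _).trans (min_le_left _ _)
    have h2 : (1 : ℝ) / s ^ 2 = 4 * (1 / (4 * s ^ 2)) := by field_simp
    rw [h2]
    linarith
  have hη4 : η0 ≤ ε ^ 2 / 32 := (min_le_right _ _).trans (min_le_right _ _)
  have hF := Fac_ev a ε κ κ1 η0 K1 s q hε hκ hs0 hq hsε hη hη1 hη2 hη3 hη4
  obtain ⟨J, hJ⟩ := eventually_atTop.1 (hF.and (ev_ge (2 + a + ε)))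
  refine ⟨η0 / 2, by positivity, J, ?_⟩
  intro j hj n k T M hn1 hn2 hkl hku hT hM A hA o
  obtain ⟨F, hjge⟩ := hJ j hj
  have hk : (k : ℝ) ≤ K1 * j := by
    have h1 : (2 + a + ε) * (j : ℝ) ≤ K1 * j :=
      mul_le_mul_of_nonneg_right hK1' (Nat.cast_nonneg _)
    have h2 : (1 + a + ε) * ((j : ℝ) + 1) + 1 ≤ (2 + a + ε) * j := by
      have : (1 + a + ε) * ((j : ℝ) + 1) + 1 = (1 + a + ε) * j + (2 + a + ε) := by ring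
      rw [this]
      have : (2 + a + ε) * (j : ℝ) = (1 + a + ε) * j + j := by ring
      rw [this]
      linarith
    linarith
  have hjk : j ≤ k := by
    have h1 : (j : ℝ) ≤ k := by
      have h2 : 0 ≤ (a + ε) * (j : ℝ) := by positivity
      have h3 : (1 + a + ε) * (j : ℝ) = j + (a + ε) * j := by ring
      linarith
    exact_mod_cast h1
  have hc := Cond_of F ha hε hκ1 hq3 hs0 hn1 hn2 hjk hk
  have hc' : Cond (Fintype.card (Fin n)) k j (j + 1) (j ^ 3) q (j ^ 2) (j ^ 3) (j / s)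
      (j / s ^ 2) (4 * (K1 + 2) * (j / s))
      (4 * ⌊η0 * (j : ℝ) ^ 2⌋₊)
      (4 * ⌊η0 * (j : ℝ) ^ 2⌋₊ * ((⌈(n : ℝ) ^ (2 * a)⌉₊ + j ^ 2) + 1))
      ((⌈(n : ℝ) ^ (2 * a)⌉₊ + j ^ 2) + 1)
      (Nat.sqrt (4 * ⌊η0 * (j : ℝ) ^ 2⌋₊ * ((⌈(n : ℝ) ^ (2 * a)⌉₊ + j ^ 2) + 1)) + 1)
      ⌈(a + ε / 4) * j / κ1⌉₊ ((j : ℝ) ^ 4) (2 ^ κ1)
      ((1 / 2) ^ (⌈(n : ℝ) ^ (2 * a)⌉₊ + j ^ 2)) ((1 / 2) ^ ⌊η0 * (j : ℝ) ^ 2⌋₊) := by
    rw [Fintype.card_fin]; exact hc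
  have h1 := finite_bound hA hc' T o
  have h2 := total_of F ha hε hκ1 hκ.le hκe hs0 hsK hσs hκs hη hn2 hjk hk hkl hT hM
  refine h1.trans ?_
  rw [mul_comm (6 * (2 : ℝ) ^ (-(η0 / 2 * (j : ℝ) ^ 2)))]
  apply mul_le_mul_of_nonneg_left _ (by positivity)
  rw [Fintype.card_fin]
  exact h2

end Karp
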