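import Pool.Agent.Karp.Proc

/-!
# Martingale identity, planting bound, flip bound, swap inequality
-/

namespace Karp

open Finset

namespace Prog

variable {E S : Type} [DecidableEq E] {A : Prog E S}

/-- Flip the bit read at time `t`. -/
def flp (A : Prog E S) (t : ℕ) (g : E → Bool) : E → Bool :=
  match A.qr g t with
  | none => g
  | some e => Function.update g e (!g e)

theorem flp_none {t : ℕ} {g : E → Bool} (h : A.qr g t = none) :
    flp A t g = g := by
  unfold flp; rw [h]

theorem flp_some {t : ℕ} {g : E → Bool} {x : E} (h : A.qr g t = some x) :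
    flp A t g = Function.update g x (!g x) := by
  unfold flp; rw [h]

theorem flp_agree (hA : A.RO) (t : ℕ) (g : E → Bool) : ∀ e ∈ A.rd g t, flp A t g e = g e := by
  intro e he
  unfold flp
  cases hq : A.qr g t with
  | none => rfl
  | some x =>
    have hx : e ≠ x := by
      rintro rfl
      exact hA g t e hq he
    simp [Function.update_of_ne hx]

theorem flp_rd (hA : A.RO) (t : ℕ) (g : E → Bool) : A.rd (flp A t g) t = A.rd g t :=
  det_rd (flp_agree hA t g)

theorem flp_qr (hA : A.RO) (t : ℕ) (g : E → Bool) : A.qr (flp A t g) t = A.qr g t := by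
  unfold qr
  rw [det_st (flp_agree hA t g)]

theorem flp_flp (hA : A.RO) (t : ℕ) (g : E → Bool) : flp A t (flp A t g) = g := by
  have h := flp_qr hA t g
  cases hq : A.qr g t with
  | none => rw [flp_none hq, flp_none hq]
  | some x =>
    rw [flp_some (h.trans hq), flp_some hq]
    simp

theorem mart [Fintype E] (hA : A.RO) (f : E → Bool → ℝ) (hf : ∀ e, f e true + f e false = 2)
    (t : ℕ) : ∑ g : E → Bool, ∏ e ∈ A.rd g t, f e (g e) = 2 ^ Fintype.card E := by
  induction t with
  | zero => simp [rd]
  | succ t ih =>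
    have key : ∀ g : E → Bool, (∏ e ∈ A.rd g (t + 1), f e (g e)) +
        (∏ e ∈ A.rd (flp A t g) (t + 1), f e (flp A t g e)) = 2 * ∏ e ∈ A.rd g t, f e (g e) := by
      intro g
      have hP : ∏ e ∈ A.rd g t, f e (flp A t g e) = ∏ e ∈ A.rd g t, f e (g e) :=
        prod_congr rfl fun e he => by rw [flp_agree hA t g e he]
      rw [rd_succ, rd_succ, flp_rd hA, flp_qr hA]
      cases hq : A.qr g t with
      | none =>
        simp only [Option.toFinset_none, union_empty]
        rw [hP]; ring
      | some x =>
        have hx : x ∉ A.rd g t := hA g t x hq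
        have h1 : A.rd g t ∪ (some x).toFinset = insert x (A.rd g t) := by
          rw [Option.toFinset_some, union_comm, ← insert_eq]
        rw [h1, prod_insert hx, prod_insert hx, hP]
        have h2 : flp A t g x = !g x := by unfold flp; rw [hq]; simp
        rw [h2, ← add_mul]
        congr 1
        have := hf x
        cases g x <;> simp <;> linarith
    have h1 : ∑ g : E → Bool, ∏ e ∈ A.rd g (t + 1), f e (g e) =
        ∑ g : E → Bool, ∏ e ∈ A.rd (flp A t g) (t + 1), f e (flp A t g e) := by
      refine (Equiv.sum_comp (⟨flp A t, flp A t, flp_flp hA t, flp_flp hA t⟩ :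
        (E → Bool) ≃ (E → Bool)) (fun g => ∏ e ∈ A.rd g (t + 1), f e (g e))).symm
    have h2 : 2 * ∑ g : E → Bool, ∏ e ∈ A.rd g (t + 1), f e (g e) =
        2 * ∑ g : E → Bool, ∏ e ∈ A.rd g t, f e (g e) := by
      rw [two_mul, Finset.mul_sum]
      nth_rewrite 2 [h1]
      rw [← sum_add_distrib]
      exact sum_congr rfl fun g _ => key g
    have h3 := mul_left_cancel₀ (two_ne_zero) h2
    rw [h3, ih]

/-- Planting bound. -/
theorem plant [Fintype E] (hA : A.RO) (Q : Finset E) (t w : ℕ) :
    ((univ.filter fun g : E → Bool => (∀ e ∈ A.rd g t ∩ Q, g e = true) ∧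
      w ≤ (A.rd g t ∩ Q).card).card : ℝ) * 2 ^ w ≤ 2 ^ Fintype.card E := by
  classical
  set f : E → Bool → ℝ := fun e b => if e ∈ Q then (if b then 2 else 0) else 1 with hf
  have hf2 : ∀ e, f e true + f e false = 2 := by
    intro e
    by_cases h : e ∈ Q <;> simp [hf, h]
    norm_num
  have hf0 : ∀ e b, 0 ≤ f e b := by
    intro e b
    simp only [hf]
    split_ifs <;> norm_num
  rw [← mart hA f hf2 t, card_eq_sum_ones, Nat.cast_sum, sum_mul]
  refine (sum_le_sum ?_).trans (sum_le_sum_of_subset_of_nonneg (filter_subset _ _) ?_)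
  · intro g hg
    rw [mem_filter] at hg
    obtain ⟨-, h1, h2⟩ := hg
    rw [Nat.cast_one, one_mul]
    have : ∏ e ∈ A.rd g t, f e (g e) = 2 ^ (A.rd g t ∩ Q).card := by
      rw [← prod_subset (inter_subset_left (s₁ := A.rd g t) (s₂ := Q))]
      · rw [← prod_const]
        apply prod_congr rfl
        intro e he
        have := h1 e he
        rw [mem_inter] at he
        simp [hf, he.2, this]
      · intro e he hn
        have : e ∉ Q := fun hq => hn (mem_inter.2 ⟨he, hq⟩)
        simp [hf, this]
    rw [this]
    exact pow_le_pow_right₀ (by norm_num) h2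
  · intro g _ _
    exact prod_nonneg fun e _ => hf0 e _

/-- Flip bound for unread bits. `P` depends only on the bits read before `t`. -/
theorem unread [Fintype E] (t D : ℕ) (Q : Finset E) (P : (E → Bool) → Prop) [DecidablePred P]
    (hP : ∀ g h : E → Bool, (∀ e ∈ A.rd g t, h e = g e) → P g → P h) :
    (univ.filter fun g : E → Bool => P g ∧ (∀ e ∈ Q \ A.rd g t, g e = true) ∧
      D ≤ (Q \ A.rd g t).card).card * 2 ^ D ≤ (univ.filter P).card := by
  classical
  set X := univ.filter fun g : E → Bool => P g ∧ (∀ e ∈ Q \ A.rd g t, g e = true) ∧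
      D ≤ (Q \ A.rd g t).card with hX
  -- the map (g, T) ↦ g with T switched off
  have h1 : X.card * 2 ^ D ≤ (X.sigma fun g => (Q \ A.rd g t).powerset).card := by
    rw [card_sigma]
    rw [← smul_eq_mul, ← sum_const]
    apply sum_le_sum
    intro g hg
    rw [hX, mem_filter] at hg
    rw [card_powerset]
    exact Nat.pow_le_pow_right (by norm_num) hg.2.2.2
  refine h1.trans ?_
  apply card_le_card_of_injOn (fun p : (Σ _ : E → Bool, Finset E) =>
    (fun e => if e ∈ p.2 then false else p.1 e))
  · rintro ⟨g, T⟩ hp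
    simp only [coe_sigma, Set.mem_sigma_iff, mem_coe, mem_powerset] at hp
    obtain ⟨hg, hT⟩ := hp
    rw [hX, mem_filter] at hg
    simp only [coe_filter, mem_univ, true_and, Set.mem_ofPred_eq]
    refine hP g _ ?_ hg.2.1
    intro e he
    have : e ∉ T := fun h => (mem_sdiff.1 (hT h)).2 he
    simp [this]
  · rintro ⟨g, T⟩ hp ⟨g', T'⟩ hp' heq
    simp only [coe_sigma, Set.mem_sigma_iff, mem_coe, mem_powerset] at hp hp'
    obtain ⟨hg, hT⟩ := hp
    obtain ⟨hg', hT'⟩ := hp'
    rw [hX, mem_filter] at hg hg'
    simp only at heq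
    have hag : ∀ e ∈ A.rd g t, (fun e => if e ∈ T then false else g e) e = g e := by
      intro e he
      have : e ∉ T := fun h => (mem_sdiff.1 (hT h)).2 he
      simp [this]
    have hag' : ∀ e ∈ A.rd g' t, (fun e => if e ∈ T' then false else g' e) e = g' e := by
      intro e he
      have : e ∉ T' := fun h => (mem_sdiff.1 (hT' h)).2 he
      simp [this]
    have hrd : A.rd g t = A.rd g' t := by
      rw [← det_rd hag, ← det_rd hag', heq]
    have key : ∀ e, (e ∈ T ↔ e ∈ T') ∧ g e = g' e := by
      intro e
      have he := congrFun heq e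
      by_cases heQ : e ∈ Q \ A.rd g t
      · have h2 := hg.2.2.1 e heQ
        have h3 := hg'.2.2.1 e (hrd ▸ heQ)
        by_cases hT1 : e ∈ T <;> by_cases hT2 : e ∈ T' <;> simp_all
      · have hT1 : e ∉ T := fun h => heQ (hT h)
        have hT2 : e ∉ T' := fun h => heQ (by rw [hrd]; exact hT' h)
        simp_all
    have hgg : g = g' := funext fun e => (key e).2
    have hTT : T = T' := Finset.ext fun e => (key e).1
    subst hgg hTT
    rfl

/-- Swap inequality. -/
theorem swap [Fintype E] (hA : A.RO) {t T : ℕ} (htT : t ≤ T) (s : S) (P : (E → Bool) → Prop)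
    (hP : ∀ g h : E → Bool, (∀ e ∈ A.rd g t, h e = g e) → P g → P h) (B : S → Prop)
    [DecidableEq S] [DecidablePred P] [DecidablePred B] :
    (univ.filter fun g : E → Bool => A.st g t = s ∧ P g ∧ B (A.st g T)).card *
      (univ.filter fun g : E → Bool => A.st g t = s).card ≤
    (univ.filter fun g : E → Bool => A.st g t = s ∧ P g).card *
      (univ.filter fun g : E → Bool => A.st g t = s ∧ B (A.st g T)).card := by
  classical
  rw [← card_product, ← card_product]
  set U : (E → Bool) → (E → Bool) → Finset E := fun g h => A.rd g t ∪ A.rd h t with hU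
  -- first component of the image: g2 with the U-part of g1; second: g1 with the U-part of g2
  set F : (E → Bool) × (E → Bool) → (E → Bool) × (E → Bool) := fun p =>
    ((fun e => if e ∈ U p.1 p.2 then p.1 e else p.2 e),
     (fun e => if e ∈ U p.1 p.2 then p.2 e else p.1 e)) with hF
  have hF1 : ∀ p : (E → Bool) × (E → Bool), ∀ e ∈ A.rd p.1 t, (F p).1 e = p.1 e := by
    intro p e he
    have : e ∈ U p.1 p.2 := mem_union_left _ he
    simp [hF, this]
  have hF2 : ∀ p : (E → Bool) × (E → Bool), ∀ e ∈ A.rd p.2 t, (F p).2 e = p.2 e := by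
    intro p e he
    have : e ∈ U p.1 p.2 := mem_union_right _ he
    simp [hF, this]
  apply card_le_card_of_injOn F
  · rintro ⟨g, h⟩ hp
    simp only [coe_product, coe_filter, mem_univ, true_and, Set.mem_prod,
      Set.mem_ofPred_eq] at hp ⊢
    obtain ⟨⟨hg1, hg2, hg3⟩, hh⟩ := hp
    have e1 : A.st (F (g, h)).1 t = A.st g t := det_st (hF1 (g, h))
    have e2 : A.st (F (g, h)).2 t = A.st h t := det_st (hF2 (g, h))
    refine ⟨⟨e1.trans hg1, hP g _ (hF1 (g, h)) hg2⟩, e2.trans hh, ?_⟩
    have : A.st (F (g, h)).2 T = A.st g T := by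
      apply det_fut (T := T) (by rw [e2, hh, hg1]) _ T htT le_rfl
      intro e u htu huT hq
      have n1 : e ∉ A.rd g t := fut_disj hA rfl u e htu hq
      have n2 : e ∉ A.rd h t := fut_disj hA (by rw [hg1, hh]) u e htu hq
      have : e ∉ U g h := by simp [hU, n1, n2]
      simp [hF, this]
    rw [this]; exact hg3
  · rintro ⟨g, h⟩ hp ⟨g', h'⟩ hp' heq
    have r1 : A.rd g t = A.rd g' t := by
      rw [← det_rd (hF1 (g, h)), ← det_rd (hF1 (g', h')), heq]
    have r2 : A.rd h t = A.rd h' t := by
      rw [← det_rd (hF2 (g, h)), ← det_rd (hF2 (g', h')), heq]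
    have hUU : U g h = U g' h' := by simp only [hU]; rw [r1, r2]
    have h1 := fun e => congrFun (congrArg Prod.fst heq) e
    have h2 := fun e => congrFun (congrArg Prod.snd heq) e
    simp only [hF] at h1 h2
    have : g = g' := by
      funext e
      by_cases he : e ∈ U g h
      · have := h1 e; simpa [he, hUU ▸ he] using this
      · have := h2 e
        have he' : e ∉ U g' h' := hUU ▸ he
        simpa [he, he'] using this
    have h3 : h = h' := by
      funext e
      by_cases he : e ∈ U g h
      · have := h2 e; simpa [he, hUU ▸ he] using this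
      · have := h1 e
        have he' : e ∉ U g' h' := hUU ▸ he
        simpa [he, he'] using this
    rw [this, h3]

end Prog

end Karp
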