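import Pool.Agent.Karp.Inn

/-!
# Weighted number of small sets inside a given set
-/

namespace Karp

open Finset

variable {V : Type} [Fintype V] [DecidableEq V] {R1 R0 : Finset (Sym2 V)}

/-- Weight of a pair: absent 0, present 1, unread 1/2. -/
noncomputable def W (R1 R0 : Finset (Sym2 V)) (v u : V) : ℝ :=
  if s(v, u) ∈ R0 then 0 else if s(v, u) ∈ R1 then 1 else 1 / 2

theorem W_nonneg (v u : V) : 0 ≤ W R1 R0 v u := by
  unfold W; split_ifs <;> norm_num

theorem W_le_one (v u : V) : W R1 R0 v u ≤ 1 := by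
  unfold W; split_ifs <;> norm_num

/-- Weighted number of ordered `l`-tuples. -/
noncomputable def TT (R1 R0 : Finset (Sym2 V)) : ℕ → (V → ℝ) → ℝ
  | 0, _ => 1
  | l + 1, μ => ∑ v, μ v * TT R1 R0 l (fun u => μ u * W R1 R0 v u)

theorem TT_nonneg (l : ℕ) (μ : V → ℝ) (h : ∀ u, 0 ≤ μ u) : 0 ≤ TT R1 R0 l μ := by
  induction l generalizing μ with
  | zero => simp [TT]
  | succ l ih =>
    rw [TT]
    exact sum_nonneg fun v _ => mul_nonneg (h v) (ih _ fun u => mul_nonneg (h u) (W_nonneg _ _))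

theorem TT_mono (l : ℕ) (μ ν : V → ℝ) (h0 : ∀ u, 0 ≤ μ u) (h : ∀ u, μ u ≤ ν u) :
    TT R1 R0 l μ ≤ TT R1 R0 l ν := by
  induction l generalizing μ ν with
  | zero => simp [TT]
  | succ l ih =>
    rw [TT, TT]
    apply sum_le_sum
    intro v _
    have h1 : ∀ u, 0 ≤ μ u * W R1 R0 v u := fun u => mul_nonneg (h0 u) (W_nonneg _ _)
    apply mul_le_mul (h v) _ (TT_nonneg _ _ h1) ((h0 v).trans (h v))
    exact ih _ _ h1 fun u => mul_le_mul_of_nonneg_right (h u) (W_nonneg _ _)

/-- The values of `μ` are `0` or `2^-i` with `i ≤ I`. -/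
def Lev (I : ℕ) (μ : V → ℝ) : Prop := ∀ u, μ u = 0 ∨ ∃ i ≤ I, μ u = (1 / 2) ^ i

theorem Lev.nonneg {I : ℕ} {μ : V → ℝ} (h : Lev I μ) (u : V) : 0 ≤ μ u := by
  rcases h u with h | ⟨i, -, h⟩ <;> rw [h]
  positivity

theorem Lev.le_one {I : ℕ} {μ : V → ℝ} (h : Lev I μ) (u : V) : μ u ≤ 1 := by
  rcases h u with h | ⟨i, -, h⟩ <;> rw [h]
  · norm_num
  · exact pow_le_one₀ (by norm_num) (by norm_num)

theorem Lev.step {I : ℕ} {μ : V → ℝ} (h : Lev I μ) (v : V) :
    Lev (I + 1) (fun u => μ u * W R1 R0 v u) := by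
  intro u
  simp only
  rcases h u with h | ⟨i, hi, h⟩
  · left; rw [h, zero_mul]
  · rw [h]
    unfold W
    split_ifs
    · left; simp
    · right; exact ⟨i, by omega, by simp⟩
    · right; exact ⟨i + 1, by omega, by rw [pow_succ]⟩

/-- The level sets. -/
noncomputable def lv (μ : V → ℝ) (i : ℕ) : Finset V := univ.filter fun u => μ u = (1 / 2) ^ i

theorem half_inj {i j : ℕ} (h : (1 / 2 : ℝ) ^ i = (1 / 2) ^ j) : i = j :=
  pow_right_injective₀ (by norm_num) (by norm_num) h

/-- Exceptional vertices. -/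
noncomputable def bad (R1 R0 : Finset (Sym2 V)) (q u1 I : ℕ) (μ : V → ℝ) : Finset V :=
  (range (I + 1)).biUnion fun i => if u1 ≤ (lv μ i).card then
    univ.filter fun v => q * d1 R0 (lv μ i) v + 3 * (lv μ i).card < q * d1 R1 (lv μ i) v else ∅

theorem bad_card {q u0 u1 I : ℕ} (h3 : T3 R1 R0 q u0 u1) (μ : V → ℝ) :
    (bad R1 R0 q u1 I μ).card ≤ (I + 1) * u0 := by
  unfold bad
  refine card_biUnion_le.trans ?_
  calc _ ≤ ∑ _i ∈ range (I + 1), u0 := by
        apply sum_le_sum
        intro i _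
        split_ifs with h
        · exact (h3 _ h).le
        · simp
    _ = _ := by rw [sum_const, card_range, smul_eq_mul]

theorem sum_W_le (Z : Finset V) (v : V) :
    ∑ u ∈ Z, W R1 R0 v u ≤ (1 / 2) * Z.card + (1 / 2) * (d1 R1 Z v - d1 R0 Z v) := by
  have h : ∀ u ∈ Z, W R1 R0 v u ≤ 1 / 2 + (1 / 2) *
      ((if s(v, u) ∈ R1 then 1 else 0) - (if s(v, u) ∈ R0 then 1 else 0)) := by
    intro u _
    unfold W
    split_ifs <;> norm_num
  refine (sum_le_sum h).trans (le_of_eq ?_)
  rw [sum_add_distrib, sum_const, nsmul_eq_mul, ← mul_sum, sum_sub_distrib]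
  unfold d1
  rw [← sum_filter, ← sum_filter, sum_const, sum_const]
  simp only [nsmul_eq_mul, mul_one]
  ring

theorem level_le {q u1 : ℕ} (hq : 0 < q) (Z : Finset V) (v : V)
    (hv : u1 ≤ Z.card → ¬ q * d1 R0 Z v + 3 * Z.card < q * d1 R1 Z v) :
    ∑ u ∈ Z, W R1 R0 v u ≤ (1 / 2 + 3 / (2 * q)) * Z.card + u1 := by
  have hq0 : (0 : ℝ) < q := by exact_mod_cast hq
  rcases le_or_gt u1 Z.card with h | h
  · have h1 := hv h
    push Not at h1
    have h2 : (q : ℝ) * d1 R1 Z v ≤ q * d1 R0 Z v + 3 * Z.card := by exact_mod_cast h1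
    refine (sum_W_le Z v).trans ?_
    have h3 : (d1 R1 Z v : ℝ) - d1 R0 Z v ≤ 3 / q * Z.card := by
      rw [div_mul_eq_mul_div, le_div_iff₀ hq0]
      linarith
    have h4 : (0 : ℝ) ≤ u1 := Nat.cast_nonneg _
    have h5 : (3 / (2 * (q : ℝ))) = (1 / 2) * (3 / q) := by field_simp
    rw [h5]
    nlinarith
  · have h1 : ∑ u ∈ Z, W R1 R0 v u ≤ Z.card := by
      calc ∑ u ∈ Z, W R1 R0 v u ≤ ∑ _u ∈ Z, (1 : ℝ) := sum_le_sum fun u _ => W_le_one _ _
        _ = _ := by simp
    have h2 : (Z.card : ℝ) ≤ u1 := by exact_mod_cast h.le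
    have h3 : (0 : ℝ) ≤ (1 / 2 + 3 / (2 * q)) * Z.card := by positivity
    linarith

theorem reg_sum {q u1 I : ℕ} (hq : 0 < q) {μ : V → ℝ} (hμ : Lev I μ) {v : V}
    (hv : v ∉ bad R1 R0 q u1 I μ) :
    ∑ u, μ u * W R1 R0 v u ≤ (1 / 2 + 3 / (2 * q)) * (∑ u, μ u) + 2 * u1 := by
  have hv' : ∀ i ∈ range (I + 1), u1 ≤ (lv μ i).card →
      ¬ q * d1 R0 (lv μ i) v + 3 * (lv μ i).card < q * d1 R1 (lv μ i) v := by
    intro i hi h1 h2
    apply hv
    unfold bad
    rw [mem_biUnion]
    refine ⟨i, hi, ?_⟩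
    rw [if_pos h1, mem_filter]
    exact ⟨mem_univ _, h2⟩
  have h1 : ∀ F : V → ℝ, (∀ u, 0 ≤ F u) → ∑ u, μ u * F u =
      ∑ i ∈ range (I + 1), (1 / 2) ^ i * ∑ u ∈ lv μ i, F u := by
    intro F hF
    have h2 : ∀ u, μ u * F u = ∑ i ∈ range (I + 1), if μ u = (1 / 2) ^ i then
        (1 / 2) ^ i * F u else 0 := by
      intro u
      rcases hμ u with h | ⟨i, hi, h⟩
      · rw [h, zero_mul, sum_eq_zero]
        intro i _
        rw [if_neg]
        positivity
      · rw [sum_eq_single i]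
        · rw [if_pos h, h]
        · intro j _ hj
          rw [if_neg]
          rw [h]
          exact fun h => hj (half_inj h).symm
        · intro h; exact absurd (mem_range.2 (by omega)) h
    rw [sum_congr rfl fun u _ => h2 u, sum_comm]
    apply sum_congr rfl
    intro i _
    rw [← sum_filter, mul_sum]
    rfl
  rw [h1 _ fun u => W_nonneg v u]
  have h3 : ∑ u, μ u = ∑ i ∈ range (I + 1), (1 / 2) ^ i * ((lv μ i).card : ℝ) := by
    have := h1 (fun _ => 1) (fun _ => by norm_num)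
    simpa using this
  rw [h3, mul_sum]
  have h4 : (2 : ℝ) * u1 ≥ ∑ i ∈ range (I + 1), (1 / 2 : ℝ) ^ i * u1 := by
    rw [← sum_mul]
    apply mul_le_mul_of_nonneg_right _ (Nat.cast_nonneg _)
    have := geom_sum_eq (show (1 / 2 : ℝ) ≠ 1 by norm_num) (I + 1)
    rw [this]
    have h5 : (0 : ℝ) < (1 / 2) ^ (I + 1) := by positivity
    rw [div_le_iff_of_neg (by norm_num)]
    linarith
  refine le_trans ?_ (add_le_add le_rfl h4)
  rw [← sum_add_distrib]
  apply sum_le_sum
  intro i hi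
  have h5 := level_le hq (lv μ i) v (hv' i hi)
  have h6 := mul_le_mul_of_nonneg_left h5 (show (0 : ℝ) ≤ (1 / 2) ^ i by positivity)
  refine h6.trans (le_of_eq ?_)
  ring

/-- Main recursion. -/
theorem TT_bound {q u0 u1 k : ℕ} (hq : 0 < q) (h3 : T3 R1 R0 q u0 u1) {m0 Λ : ℝ} (hm0 : 0 ≤ m0)
    (hΛ : 1 ≤ Λ) (hm : Λ * ((1 / 2 + 3 / (2 * q)) * m0 + 2 * u1) ≤ m0) :
    ∀ (l b I : ℕ) (μ : V → ℝ), Lev I μ → I + l ≤ k → ∑ u, μ u ≤ m0 * Λ ^ b →
      TT R1 R0 l μ ≤ (m0 + (k + 1) * u0) ^ l * Λ ^ (b * (b + 1) / 2) := by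
  intro l
  induction l with
  | zero =>
    intro b I μ _ _ _
    rw [TT, pow_zero, one_mul]
    exact one_le_pow₀ hΛ
  | succ l ih =>
    intro b I μ hμ hI hs
    rw [TT]
    set M := m0 + (k + 1) * u0 with hM
    have hM0 : 0 ≤ M := by positivity
    have hs1 : (0 : ℝ) ≤ (k + 1) * u0 := by positivity
    rw [← sum_filter_add_sum_filter_not univ (fun v => v ∈ bad R1 R0 q u1 I μ)]
    -- exceptional part
    have hbad : ∑ v ∈ univ.filter (fun v => v ∈ bad R1 R0 q u1 I μ),
        μ v * TT R1 R0 l (fun u => μ u * W R1 R0 v u) ≤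
        ((k + 1) * u0) * (M ^ l * Λ ^ (b * (b + 1) / 2)) := by
      have h4 : ∀ v ∈ univ.filter (fun v => v ∈ bad R1 R0 q u1 I μ),
          μ v * TT R1 R0 l (fun u => μ u * W R1 R0 v u) ≤ M ^ l * Λ ^ (b * (b + 1) / 2) := by
        intro v _
        have h5 := ih b I μ hμ (by omega) hs
        have h6 : TT R1 R0 l (fun u => μ u * W R1 R0 v u) ≤ TT R1 R0 l μ := by
          apply TT_mono _ _ _ (fun u => mul_nonneg (hμ.nonneg u) (W_nonneg _ _))
          intro u
          exact mul_le_of_le_one_right (hμ.nonneg u) (W_le_one _ _)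
        have h7 := TT_nonneg (R1 := R1) (R0 := R0) l (fun u => μ u * W R1 R0 v u)
          (fun u => mul_nonneg (hμ.nonneg u) (W_nonneg _ _))
        calc _ ≤ 1 * TT R1 R0 l (fun u => μ u * W R1 R0 v u) :=
              mul_le_mul_of_nonneg_right (hμ.le_one v) h7
          _ ≤ _ := by rw [one_mul]; exact h6.trans h5
      refine (sum_le_card_nsmul _ _ _ h4).trans ?_
      rw [nsmul_eq_mul]
      apply mul_le_mul_of_nonneg_right _ (by positivity)
      have h5 : (univ.filter (fun v => v ∈ bad R1 R0 q u1 I μ)).card ≤ (k + 1) * u0 := by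
        rw [filter_mem_eq_inter, univ_inter]
        exact (bad_card h3 μ).trans (Nat.mul_le_mul_right _ (by omega))
      exact_mod_cast h5
    -- regular part
    have hreg : ∑ v ∈ univ.filter (fun v => ¬ v ∈ bad R1 R0 q u1 I μ),
        μ v * TT R1 R0 l (fun u => μ u * W R1 R0 v u) ≤
        m0 * (M ^ l * Λ ^ (b * (b + 1) / 2)) := by
      obtain ⟨b', hb', hb2⟩ : ∃ b' : ℕ, (∀ v, v ∉ bad R1 R0 q u1 I μ →
          ∑ u, μ u * W R1 R0 v u ≤ m0 * Λ ^ b') ∧
          Λ ^ b * Λ ^ (b' * (b' + 1) / 2) ≤ Λ ^ (b * (b + 1) / 2) := by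
        rcases Nat.eq_zero_or_pos b with rfl | hb
        · refine ⟨0, ?_, by simp⟩
          intro v hv
          have h4 := reg_sum hq hμ hv
          rw [pow_zero, mul_one] at hs ⊢
          have h5 : (0 : ℝ) ≤ 1 / 2 + 3 / (2 * q) := by positivity
          have h6 := mul_le_mul_of_nonneg_left hs h5
          have h7 : 0 ≤ (1 / 2 + 3 / (2 * (q : ℝ))) * m0 + 2 * u1 := by positivity
          nlinarith
        · refine ⟨b - 1, ?_, ?_⟩
          · intro v hv
            have h4 := reg_sum hq hμ hv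
            have h5 : (0 : ℝ) ≤ 1 / 2 + 3 / (2 * q) := by positivity
            have h6 := mul_le_mul_of_nonneg_left hs h5
            have h8 : (1 : ℝ) ≤ Λ ^ b := one_le_pow₀ hΛ
            have h9 : Λ ^ b = Λ ^ (b - 1) * Λ := by
              rw [← pow_succ]; congr 1; omega
            have h10 : (0 : ℝ) ≤ Λ ^ (b - 1) := by positivity
            have h11 : (0 : ℝ) ≤ 2 * u1 := by positivity
            calc _ ≤ (1 / 2 + 3 / (2 * (q : ℝ))) * (m0 * Λ ^ b) + 2 * u1 * Λ ^ b := by
                  nlinarith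
              _ = Λ ^ (b - 1) * (Λ * ((1 / 2 + 3 / (2 * q)) * m0 + 2 * u1)) := by
                  rw [h9]; ring
              _ ≤ Λ ^ (b - 1) * m0 := mul_le_mul_of_nonneg_left hm h10
              _ = _ := by ring
          · rw [← pow_add]
            apply pow_le_pow_right₀ hΛ
            obtain ⟨c, rfl⟩ : ∃ c, b = c + 1 := ⟨b - 1, by omega⟩
            have h1 : (c + 1) * (c + 1 + 1) = c * (c + 1) + (c + 1) * 2 := by ring
            rw [h1, Nat.add_mul_div_right _ _ (by norm_num)]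
            simp only [Nat.add_sub_cancel]
            omega
      have h4 : ∀ v ∈ univ.filter (fun v => ¬ v ∈ bad R1 R0 q u1 I μ),
          μ v * TT R1 R0 l (fun u => μ u * W R1 R0 v u) ≤
          μ v * (M ^ l * Λ ^ (b' * (b' + 1) / 2)) := by
        intro v hv
        rw [mem_filter] at hv
        apply mul_le_mul_of_nonneg_left _ (hμ.nonneg v)
        exact ih b' (I + 1) _ (hμ.step v) (by omega) (hb' v hv.2)
      refine (sum_le_sum h4).trans ?_
      rw [← sum_mul]
      have h5 : ∑ v ∈ univ.filter (fun v => ¬ v ∈ bad R1 R0 q u1 I μ), μ v ≤ m0 * Λ ^ b :=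
        (sum_le_sum_of_subset_of_nonneg (filter_subset _ _)
          fun v _ _ => hμ.nonneg v).trans hs
      calc _ ≤ m0 * Λ ^ b * (M ^ l * Λ ^ (b' * (b' + 1) / 2)) :=
            mul_le_mul_of_nonneg_right h5 (by positivity)
        _ = m0 * M ^ l * (Λ ^ b * Λ ^ (b' * (b' + 1) / 2)) := by ring
        _ ≤ m0 * M ^ l * Λ ^ (b * (b + 1) / 2) :=
            mul_le_mul_of_nonneg_left hb2 (by positivity)
        _ = _ := by ring
    calc _ ≤ ((k + 1) * u0) * (M ^ l * Λ ^ (b * (b + 1) / 2)) +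
          m0 * (M ^ l * Λ ^ (b * (b + 1) / 2)) := add_le_add hbad hreg
      _ = _ := by rw [hM]; ring

/-- Weight of a set. -/
noncomputable def wt (R1 R0 : Finset (Sym2 V)) (P : Finset V) : ℝ :=
  if clean R0 P then (1 / 2) ^ (P.card.choose 2 - inn R1 P) else 0

theorem wt_insert (h1 : ∀ e ∈ R1, ¬ e.IsDiag) (h0 : ∀ e ∈ R0, ¬ e.IsDiag)
    {P : Finset V} {v : V} (hv : v ∉ P) :
    wt R1 R0 (insert v P) = wt R1 R0 P * ∏ u ∈ P, W R1 R0 v u := by
  have hprod : ∏ u ∈ P, W R1 R0 v u = if ok R0 P v then (1 / 2) ^ (P.card - d1 R1 P v) else 0 := by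
    split_ifs with h
    · have h2 : ∀ u ∈ P, W R1 R0 v u = if s(v, u) ∈ R1 then 1 else 1 / 2 := by
        intro u hu
        unfold W
        rw [if_neg (h u hu)]
      rw [prod_congr rfl h2, prod_ite, prod_const_one, one_mul, prod_const]
      congr 1
      have := card_filter_add_card_filter_not (s := P) (fun u => s(v, u) ∈ R1)
      unfold d1
      omega
    · unfold ok at h
      push Not at h
      obtain ⟨u, hu, h2⟩ := h
      apply prod_eq_zero hu
      unfold W
      rw [if_pos h2]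
  rw [hprod]
  unfold wt
  have hci := clean_insert h0 hv
  rw [inn_insert h1 hv, card_insert_of_notMem hv]
  by_cases hc : clean R0 P
  · by_cases ho : ok R0 P v
    · rw [if_pos (hci.2 ⟨hc, ho⟩), if_pos hc, if_pos ho, ← pow_add]
      congr 1
      have h2 : (P.card + 1).choose 2 = P.card + P.card.choose 2 := by
        rw [Nat.choose_succ_succ' P.card 1, Nat.choose_one_right]
      have h3 := inn_le_choose h1 P
      have h4 := d1_le (X := R1) P v
      omega
    · rw [if_neg (fun h => ho (hci.1 h).2), if_neg ho, mul_zero]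
  · rw [if_neg (fun h => hc (hci.1 h).1), if_neg hc, zero_mul]

theorem sum_pc_le (F : Finset V → ℝ) (hF : ∀ P, 0 ≤ F P) (l : ℕ) :
    ∑ Q ∈ powersetCard (l + 1) (univ : Finset V), F Q ≤
      ∑ v : V, ∑ P ∈ (powersetCard l (univ : Finset V)).filter (fun P => v ∉ P),
        F (insert v P) := by
  calc ∑ Q ∈ powersetCard (l + 1) (univ : Finset V), F Q
      ≤ ∑ Q ∈ powersetCard (l + 1) (univ : Finset V), ∑ _v ∈ Q, F Q := by
        apply sum_le_sum
        intro Q hQ
        rw [mem_powersetCard] at hQ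
        rw [sum_const, hQ.2, nsmul_eq_mul]
        have := hF Q
        push_cast
        nlinarith
    _ = ∑ v : V, ∑ Q ∈ (powersetCard (l + 1) (univ : Finset V)).filter (fun Q => v ∈ Q), F Q := by
        apply sum_comm'
        intro Q v
        rw [mem_filter]
        constructor
        · rintro ⟨h1, h2⟩; exact ⟨⟨h1, h2⟩, mem_univ _⟩
        · rintro ⟨⟨h1, h2⟩, -⟩; exact ⟨h1, h2⟩
    _ = _ := by
        apply sum_congr rfl
        intro v _
        apply sum_nbij' (fun Q => Q.erase v) (fun P => insert v P)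
        · intro Q hQ
          rw [mem_filter, mem_powersetCard] at hQ
          rw [mem_filter, mem_powersetCard]
          refine ⟨⟨subset_univ _, ?_⟩, notMem_erase _ _⟩
          rw [card_erase_of_mem hQ.2, hQ.1.2, Nat.add_sub_cancel]
        · intro P hP
          rw [mem_filter, mem_powersetCard] at hP
          rw [mem_filter, mem_powersetCard]
          refine ⟨⟨subset_univ _, ?_⟩, mem_insert_self _ _⟩
          rw [card_insert_of_notMem hP.2, hP.1.2]
        · intro Q hQ
          rw [mem_filter] at hQ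
          exact insert_erase hQ.2
        · intro P hP
          rw [mem_filter] at hP
          exact erase_insert hP.2
        · intro Q hQ
          rw [mem_filter] at hQ
          rw [insert_erase hQ.2]

theorem sum_wt_le (h1 : ∀ e ∈ R1, ¬ e.IsDiag) (h0 : ∀ e ∈ R0, ¬ e.IsDiag) (l : ℕ) (μ : V → ℝ) (hμ : ∀ u, 0 ≤ μ u) :
    ∑ P ∈ powersetCard l (univ : Finset V), (∏ u ∈ P, μ u) * wt R1 R0 P ≤ TT R1 R0 l μ := by
  induction l generalizing μ with
  | zero =>
    rw [powersetCard_zero, sum_singleton, prod_empty, one_mul, TT]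
    unfold wt
    split_ifs
    · exact pow_le_one₀ (by norm_num) (by norm_num)
    · norm_num
  | succ l ih =>
    have hwt : ∀ P : Finset V, 0 ≤ wt R1 R0 P := by
      intro P; unfold wt; split_ifs <;> positivity
    rw [TT]
    calc ∑ P ∈ powersetCard (l + 1) (univ : Finset V), (∏ u ∈ P, μ u) * wt R1 R0 P
        ≤ ∑ v : V, ∑ P ∈ (powersetCard l (univ : Finset V)).filter (fun P => v ∉ P),
            (∏ u ∈ insert v P, μ u) * wt R1 R0 (insert v P) := by
          exact sum_pc_le (fun P => (∏ u ∈ P, μ u) * wt R1 R0 P)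
            (fun P => mul_nonneg (prod_nonneg fun u _ => hμ u) (hwt P)) l
      _ ≤ ∑ v : V, μ v * ∑ P ∈ powersetCard l (univ : Finset V),
            (∏ u ∈ P, μ u * W R1 R0 v u) * wt R1 R0 P := by
          apply sum_le_sum
          intro v _
          rw [mul_sum]
          calc _ = ∑ P ∈ (powersetCard l (univ : Finset V)).filter (fun P => v ∉ P),
                μ v * ((∏ u ∈ P, μ u * W R1 R0 v u) * wt R1 R0 P) := by
                apply sum_congr rfl
                intro P hP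
                rw [mem_filter] at hP
                rw [prod_insert hP.2, wt_insert h1 h0 hP.2, prod_mul_distrib]
                ring
            _ ≤ _ := by
                apply sum_le_sum_of_subset_of_nonneg (filter_subset _ _)
                intro P _ _
                exact mul_nonneg (hμ v) (mul_nonneg
                  (prod_nonneg fun u _ => mul_nonneg (hμ u) (W_nonneg _ _)) (hwt P))
      _ ≤ _ := by
          apply sum_le_sum
          intro v _
          exact mul_le_mul_of_nonneg_left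
            (ih _ fun u => mul_nonneg (hμ u) (W_nonneg _ _)) (hμ v)

end Karp
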