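import Mathlib

/-!
# Reading processes

`E` is a finite set of bits, `S` a set of memory states. A program reads, at each time, at most one
bit, chosen from its state, and updates its state.
-/

namespace Karp

open Finset

variable {E S : Type} [DecidableEq E]

/-- A layered program: at time `t` in state `s` it reads the bit `query t s` (or none). -/
structure Prog (E S : Type) where
  start : S
  query : ℕ → S → Option E
  next : ℕ → S → Bool → S

namespace Prog

variable (A : Prog E S)

/-- The bit received. -/
def ans (g : E → Bool) : Option E → Bool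
  | none => false
  | some e => g e

/-- State at time `t` on input `g`. -/
def st (g : E → Bool) : ℕ → S
  | 0 => A.start
  | t + 1 => A.next t (st g t) (ans g (A.query t (st g t)))

/-- The query at time `t`. -/
def qr (g : E → Bool) (t : ℕ) : Option E := A.query t (A.st g t)

/-- The set of bits read before time `t`. -/
def rd (g : E → Bool) : ℕ → Finset E
  | 0 => ∅
  | t + 1 => rd g t ∪ (A.qr g t).toFinset

/-- Read-once. -/
def RO : Prop := ∀ g t e, A.qr g t = some e → e ∉ A.rd g t

variable {A}

theorem st_succ (g : E → Bool) (t : ℕ) :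
    A.st g (t + 1) = A.next t (A.st g t) (ans g (A.qr g t)) := rfl

theorem rd_succ (g : E → Bool) (t : ℕ) :
    A.rd g (t + 1) = A.rd g t ∪ (A.qr g t).toFinset := rfl

theorem rd_mono (g : E → Bool) {s t : ℕ} (h : s ≤ t) : A.rd g s ⊆ A.rd g t := by
  induction h with
  | refl => exact subset_rfl
  | step _ ih => exact ih.trans subset_union_left

theorem mem_rd (g : E → Bool) (t : ℕ) (e : E) :
    e ∈ A.rd g t ↔ ∃ s < t, A.qr g s = some e := by
  induction t with
  | zero => simp [rd]
  | succ t ih =>
    rw [rd_succ, mem_union, ih]
    constructor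
    · rintro (⟨s, hs, h⟩ | h)
      · exact ⟨s, by omega, h⟩
      · rw [Option.mem_toFinset, Option.mem_def] at h
        exact ⟨t, by omega, h⟩
    · rintro ⟨s, hs, h⟩
      rcases Nat.lt_succ_iff_lt_or_eq.1 hs with h1 | h1
      · exact Or.inl ⟨s, h1, h⟩
      · right
        rw [Option.mem_toFinset, Option.mem_def, ← h1, h]

/-- Determinism. -/
theorem det {g h : E → Bool} {t : ℕ} (H : ∀ e ∈ A.rd g t, h e = g e) :
    ∀ s ≤ t, A.st h s = A.st g s ∧ A.rd h s = A.rd g s := by
  intro s
  induction s with
  | zero => intro _; exact ⟨rfl, rfl⟩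
  | succ s ih =>
    intro hs
    obtain ⟨h1, h2⟩ := ih (by omega)
    have hq : A.qr h s = A.qr g s := by simp [qr, h1]
    have ha : ans h (A.qr g s) = ans g (A.qr g s) := by
      cases hc : A.qr g s with
      | none => rfl
      | some e =>
        exact H e ((mem_rd g t e).2 ⟨s, by omega, hc⟩)
    exact ⟨by rw [st_succ, st_succ, h1, hq, ha], by rw [rd_succ, rd_succ, h2, hq]⟩

theorem det_st {g h : E → Bool} {t : ℕ} (H : ∀ e ∈ A.rd g t, h e = g e) : A.st h t = A.st g t :=
  (det H t le_rfl).1

theorem det_rd {g h : E → Bool} {t : ℕ} (H : ∀ e ∈ A.rd g t, h e = g e) : A.rd h t = A.rd g t :=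
  (det H t le_rfl).2

/-- Determinism of the future from a common state. -/
theorem det_fut {g h : E → Bool} {t : ℕ} (h0 : A.st h t = A.st g t) {T : ℕ}
    (H : ∀ e s, t ≤ s → s < T → A.qr g s = some e → h e = g e) :
    ∀ s, t ≤ s → s ≤ T → A.st h s = A.st g s := by
  intro s hts
  induction s, hts using Nat.le_induction with
  | base => intro _; exact h0
  | succ s hts ih =>
    intro hs
    have h1 := ih (by omega)
    have hq : A.qr h s = A.qr g s := by simp [qr, h1]
    have ha : ans h (A.qr g s) = ans g (A.qr g s) := by
      cases hc : A.qr g s with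
      | none => rfl
      | some e => exact H e s hts (by omega) hc
    rw [st_succ, st_succ, h1, hq, ha]

/-- A bit read before `t` on the way to a state is never read after `t` from this state. -/
theorem fut_disj (hA : A.RO) {g h : E → Bool} {t : ℕ} (h0 : A.st h t = A.st g t) :
    ∀ s e, t ≤ s → A.qr h s = some e → e ∉ A.rd g t := by
  intro s
  induction s using Nat.strong_induction_on with
  | _ s ih =>
    intro e hts hq he
    -- splice
    set k : E → Bool := fun x => if x ∈ A.rd g t then g x else h x with hk
    have hkg : ∀ x ∈ A.rd g t, k x = g x := fun x hx => by simp [hk, hx]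
    have hk1 : A.st k t = A.st g t := det_st hkg
    have hk2 : A.rd k t = A.rd g t := det_rd hkg
    have hk3 : ∀ u, t ≤ u → u ≤ s → A.st k u = A.st h u := by
      apply det_fut (by rw [hk1, h0])
      intro x u htu hus hx
      have : x ∉ A.rd g t := ih u hus x htu hx
      simp [hk, this]
    have hk4 : A.qr k s = some e := by
      unfold qr at hq ⊢
      rw [hk3 s hts le_rfl, hq]
    exact hA k s e hk4 (rd_mono k hts (by rw [hk2]; exact he))

end Prog

end Karp
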