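import Pool.Agent.Karp.Defs

/-!
# Probability that T1 fails
-/

namespace Karp

open Finset

variable {V : Type} [Fintype V] [DecidableEq V] {S : Type} {A : Prog (Pr V) S}

/-- Vertices outside `U` with no absent pair and at least `p` present pairs to `U`. -/
def good (A : Prog (Pr V) S) (t : ℕ) (U : Finset V) (p : ℕ) (g : Pr V → Bool) : Finset V :=
  (univ \ U).filter fun w => ok (r0 A g t) U w ∧ p ≤ d1 (r1 A g t) U w

theorem mem_r1 {g : Pr V → Bool} {t : ℕ} {e : Sym2 V} :
    e ∈ r1 A g t ↔ ∃ h : ¬ e.IsDiag, (⟨e, h⟩ : Pr V) ∈ A.rd g t ∧ g ⟨e, h⟩ = true := by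
  simp only [r1, mem_val, mem_filter]

theorem mem_r0 {g : Pr V → Bool} {t : ℕ} {e : Sym2 V} :
    e ∈ r0 A g t ↔ ∃ h : ¬ e.IsDiag, (⟨e, h⟩ : Pr V) ∈ A.rd g t ∧ g ⟨e, h⟩ = false := by
  simp only [r0, mem_val, mem_filter]

theorem plant_good (hA : A.RO) (t : ℕ) (U Z : Finset V) (hZ : Z ⊆ univ \ U) (p : ℕ) :
    ((univ.filter fun g : Pr V → Bool => Z ⊆ good A t U p g).card : ℝ) ≤
      2 ^ Fintype.card (Pr V) * ((1 / 2) ^ p) ^ Z.card := by
  classical
  have hdis : Disjoint Z U := by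
    rw [disjoint_left]
    intro w hw hU
    exact (mem_sdiff.1 (hZ hw)).2 hU
  have h := Prog.plant hA (cross Z U) t (p * Z.card)
  have h2 : ((univ.filter fun g : Pr V → Bool => Z ⊆ good A t U p g).card : ℝ) ≤
      ((univ.filter fun g : Pr V → Bool => (∀ e ∈ A.rd g t ∩ cross Z U, g e = true) ∧
      p * Z.card ≤ (A.rd g t ∩ cross Z U).card).card : ℝ) := by
    norm_cast
    apply card_le_card
    intro g hg
    rw [mem_filter] at hg ⊢
    obtain ⟨-, hg⟩ := hg
    have hall : ∀ e ∈ A.rd g t ∩ cross Z U, g e = true := by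
      intro e he
      rw [mem_inter, cross, mem_filter] at he
      obtain ⟨he1, -, w, hw, s, hs, h1⟩ := he
      have h3 := (mem_filter.1 (hg hw)).2.1 s hs
      rw [mem_r0] at h3
      by_contra hne
      rw [Bool.not_eq_true] at hne
      apply h3
      have hnd := e.2
      rw [h1] at hnd
      refine ⟨hnd, ?_⟩
      have : (⟨s(w, s), hnd⟩ : Pr V) = e := Subtype.ext h1.symm
      rw [this]
      exact ⟨he1, hne⟩
    refine ⟨mem_univ _, hall, ?_⟩
    calc p * Z.card = ∑ _w ∈ Z, p := by rw [sum_const, smul_eq_mul, mul_comm]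
      _ ≤ ∑ w ∈ Z, d1 (r1 A g t) U w := sum_le_sum fun w hw => (mem_filter.1 (hg hw)).2.2
      _ = (((A.rd g t).filter fun e => g e = true) ∩ cross Z U).card := by
          rw [card_cross hdis]; rfl
      _ ≤ _ := card_le_card (inter_subset_inter_right (filter_subset _ _))
  have h3 : (0 : ℝ) < 2 ^ (p * Z.card) := by positivity
  rw [← pow_mul, one_div, inv_pow, ← div_eq_mul_inv, le_div_iff₀ h3]
  exact (mul_le_mul_of_nonneg_right h2 h3.le).trans h

theorem sum_good (hA : A.RO) (t : ℕ) (U : Finset V) (p : ℕ) :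
    ∑ g : Pr V → Bool, (2 : ℝ) ^ (good A t U p g).card ≤
      2 ^ Fintype.card (Pr V) * (1 + (1 / 2) ^ p) ^ (univ \ U).card := by
  classical
  have h1 : ∀ g : Pr V → Bool, (2 : ℝ) ^ (good A t U p g).card =
      ∑ Z ∈ (univ \ U).powerset, if Z ⊆ good A t U p g then (1 : ℝ) else 0 := by
    intro g
    rw [← sum_filter, sum_const, nsmul_eq_mul, mul_one]
    have : ((univ \ U).powerset.filter fun Z => Z ⊆ good A t U p g) =
        (good A t U p g).powerset := by
      ext Z
      rw [mem_filter, mem_powerset, mem_powerset]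
      exact ⟨fun h => h.2, fun h => ⟨h.trans (filter_subset _ _), h⟩⟩
    rw [this, card_powerset]
    push_cast
    rfl
  calc ∑ g : Pr V → Bool, (2 : ℝ) ^ (good A t U p g).card
      = ∑ Z ∈ (univ \ U).powerset,
          ((univ.filter fun g : Pr V → Bool => Z ⊆ good A t U p g).card : ℝ) := by
        rw [sum_congr rfl fun g _ => h1 g, sum_comm]
        apply sum_congr rfl
        intro Z _
        rw [← sum_filter, sum_const, nsmul_eq_mul, mul_one]
    _ ≤ ∑ Z ∈ (univ \ U).powerset, 2 ^ Fintype.card (Pr V) * ((1 / 2) ^ p) ^ Z.card :=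
        sum_le_sum fun Z hZ => plant_good hA t U Z (mem_powerset.1 hZ) p
    _ = _ := by
        rw [← mul_sum]
        congr 1
        have := sum_pow_mul_eq_add_pow ((1 / 2 : ℝ) ^ p) 1 (univ \ U)
        simp only [one_pow, mul_one] at this
        rw [this, add_comm]

theorem pow_bound (n Lg p : ℕ) (hn : n ≤ 2 ^ Lg) :
    (1 + (1 / 2 : ℝ) ^ p) ^ n ≤ 2 ^ (2 * 2 ^ (Lg - p)) := by
  have h1 : (1 + (1 / 2 : ℝ) ^ p) ^ n ≤ Real.exp (n * (1 / 2) ^ p) := by
    have h := Real.add_one_le_exp ((1 / 2 : ℝ) ^ p)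
    rw [add_comm] at h
    calc (1 + (1 / 2 : ℝ) ^ p) ^ n ≤ (Real.exp ((1 / 2) ^ p)) ^ n :=
          pow_le_pow_left₀ (by positivity) h n
      _ = _ := by rw [← Real.exp_nat_mul]
  have h2 : (n : ℝ) * (1 / 2) ^ p ≤ ((2 ^ (Lg - p) : ℕ) : ℝ) := by
    have h3 : (n : ℝ) ≤ 2 ^ Lg := by exact_mod_cast hn
    rw [one_div, inv_pow, ← div_eq_mul_inv, div_le_iff₀ (by positivity)]
    refine h3.trans ?_
    push_cast
    rw [← pow_add]
    exact pow_le_pow_right₀ (by norm_num) (by omega)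
  refine h1.trans ((Real.exp_le_exp.2 h2).trans ?_)
  rw [← mul_one (((2 ^ (Lg - p) : ℕ) : ℝ)), Real.exp_nat_mul, pow_mul]
  apply pow_le_pow_left₀ (Real.exp_pos _).le
  have := Real.exp_one_lt_d9
  linarith

theorem typ1_one (hA : A.RO) (t : ℕ) (U : Finset V) (p Y Lg : ℕ)
    (hn : Fintype.card V ≤ 2 ^ Lg) (hY : 2 ≤ Y) :
    ((univ.filter fun g : Pr V → Bool => Y * 2 ^ (Lg - p) < (good A t U p g).card).card : ℝ) *
      2 ^ (Y - 2) ≤ 2 ^ Fintype.card (Pr V) := by
  classical
  have h1 := sum_good hA t U p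
  have h2 : (1 + (1 / 2 : ℝ) ^ p) ^ (univ \ U).card ≤ 2 ^ (2 * 2 ^ (Lg - p)) :=
    pow_bound _ _ _ ((card_le_univ _).trans hn)
  have h3 : ((univ.filter fun g : Pr V → Bool =>
      Y * 2 ^ (Lg - p) < (good A t U p g).card).card : ℝ) * 2 ^ (Y * 2 ^ (Lg - p)) ≤
      ∑ g : Pr V → Bool, (2 : ℝ) ^ (good A t U p g).card := by
    rw [card_eq_sum_ones, Nat.cast_sum, sum_mul]
    refine (sum_le_sum ?_).trans (sum_le_sum_of_subset_of_nonneg (filter_subset _ _) ?_)
    · intro g hg
      rw [mem_filter] at hg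
      rw [Nat.cast_one, one_mul]
      exact pow_le_pow_right₀ (by norm_num) hg.2.le
    · intro g _ _; positivity
  set c := ((univ.filter fun g : Pr V → Bool =>
      Y * 2 ^ (Lg - p) < (good A t U p g).card).card : ℝ) with hc
  have hc0 : 0 ≤ c := by positivity
  set z := 2 ^ (Lg - p) with hz
  have hz1 : 1 ≤ z := Nat.one_le_two_pow
  have h4 : c * 2 ^ (Y * z) ≤ 2 ^ Fintype.card (Pr V) * 2 ^ (2 * z) :=
    h3.trans (h1.trans (mul_le_mul_of_nonneg_left h2 (by positivity)))
  have h5 : (2 : ℝ) ^ (Y * z) = 2 ^ ((Y - 2) * z) * 2 ^ (2 * z) := by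
    rw [← pow_add, ← add_mul, Nat.sub_add_cancel hY]
  rw [h5, ← mul_assoc] at h4
  have h6 := le_of_mul_le_mul_right h4 (by positivity)
  refine le_trans (mul_le_mul_of_nonneg_left ?_ hc0) h6
  exact pow_le_pow_right₀ (by norm_num) (Nat.le_mul_of_pos_right _ hz1)

theorem card_small (k : ℕ) (hn : 1 ≤ Fintype.card V) :
    ((univ : Finset (Finset V)).filter fun U => U.card ≤ k).card ≤
      (k + 1) * Fintype.card V ^ k := by
  have h : ((univ : Finset (Finset V)).filter fun U => U.card ≤ k) ⊆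
      (range (k + 1)).biUnion fun i => powersetCard i univ := by
    intro U hU
    rw [mem_filter] at hU
    rw [mem_biUnion]
    exact ⟨U.card, by simp; omega, by simp [mem_powersetCard]⟩
  refine (card_le_card h).trans (card_biUnion_le.trans ?_)
  calc ∑ i ∈ range (k + 1), (powersetCard i (univ : Finset V)).card
      ≤ ∑ _i ∈ range (k + 1), Fintype.card V ^ k := by
        apply sum_le_sum
        intro i hi
        rw [card_powersetCard, card_univ]
        refine (Nat.choose_le_pow _ _).trans ?_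
        exact Nat.pow_le_pow_right hn (by rw [mem_range] at hi; omega)
    _ = _ := by rw [sum_const, card_range, smul_eq_mul]

open Classical in
/-- T1 fails rarely. -/
theorem typ1 (hA : A.RO) (t k Y Lg : ℕ) (hn1 : 1 ≤ Fintype.card V)
    (hn : Fintype.card V ≤ 2 ^ Lg) (hY : 2 ≤ Y) :
    ((univ.filter fun g : Pr V → Bool => ¬ T1 (r1 A g t) (r0 A g t) k Y Lg).card : ℝ) *
      2 ^ (Y - 2) ≤ (k + 1) ^ 2 * (Fintype.card V : ℝ) ^ k * 2 ^ Fintype.card (Pr V) := by
  set SS := ((univ : Finset (Finset V)).filter fun U => U.card ≤ k) with hSS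
  have hsub : (univ.filter fun g : Pr V → Bool => ¬ T1 (r1 A g t) (r0 A g t) k Y Lg) ⊆
      (SS ×ˢ range (k + 1)).biUnion fun x =>
        univ.filter fun g : Pr V → Bool => Y * 2 ^ (Lg - x.2) < (good A t x.1 x.2 g).card := by
    intro g hg
    rw [mem_filter] at hg
    obtain ⟨-, hg⟩ := hg
    unfold T1 at hg
    push Not at hg
    obtain ⟨U, hU, p, hp⟩ := hg
    rw [mem_biUnion]
    refine ⟨(U, p), ?_, ?_⟩
    · rw [mem_product, hSS, mem_filter, mem_range]
      refine ⟨⟨mem_univ _, hU⟩, ?_⟩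
      have hne : (((univ \ U).filter fun w =>
          ok (r0 A g t) U w ∧ d1 (r1 A g t) U w = p)).Nonempty := by
        rw [← card_pos]; omega
      obtain ⟨w, hw⟩ := hne
      rw [mem_filter] at hw
      have : d1 (r1 A g t) U w ≤ U.card := card_filter_le _ _
      omega
    · rw [mem_filter]
      refine ⟨mem_univ _, lt_of_lt_of_le hp (card_le_card ?_)⟩
      intro w hw
      rw [mem_filter] at hw
      rw [good, mem_filter]
      exact ⟨hw.1, hw.2.1, hw.2.2.ge⟩
  have h1 : ((univ.filter fun g : Pr V → Bool =>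
      ¬ T1 (r1 A g t) (r0 A g t) k Y Lg).card : ℝ) ≤ ∑ x ∈ SS ×ˢ range (k + 1),
      ((univ.filter fun g : Pr V → Bool =>
        Y * 2 ^ (Lg - x.2) < (good A t x.1 x.2 g).card).card : ℝ) := by
    have := (card_le_card hsub).trans card_biUnion_le
    exact_mod_cast this
  refine (mul_le_mul_of_nonneg_right h1 (by positivity)).trans ?_
  rw [sum_mul]
  refine (sum_le_sum fun x _ => typ1_one hA t x.1 x.2 Y Lg hn hY).trans ?_
  rw [sum_const, nsmul_eq_mul, card_product, card_range]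
  have h2 := card_small (V := V) k hn1
  rw [← hSS] at h2
  have h3 : ((SS.card * (k + 1) : ℕ) : ℝ) ≤ (k + 1) ^ 2 * (Fintype.card V : ℝ) ^ k := by
    have : SS.card * (k + 1) ≤ (k + 1) ^ 2 * Fintype.card V ^ k := by
      calc SS.card * (k + 1) ≤ ((k + 1) * Fintype.card V ^ k) * (k + 1) :=
            Nat.mul_le_mul_right _ h2
        _ = _ := by ring
    exact_mod_cast this
  exact mul_le_mul_of_nonneg_right h3 (by positivity)

end Karp
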