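import Pool.Agent.Karp.Typ1

/-!
# Probability that T3 fails
-/

namespace Karp

open Finset

variable {V : Type} [Fintype V] [DecidableEq V] {S : Type} {A : Prog (Pr V) S}

theorem real_ineq (a x y Q : ℝ) (ha : 0 < a) (ha3 : a ≤ 1 / 3) (hx : 0 ≤ x) (hy : 0 ≤ y)
    (hxy : x + y ≤ Q) (hd : 2 * a * Q ≤ x - y) :
    Q * a ^ 2 * Real.log 2 ≤ x * Real.log (1 + a) + y * Real.log (1 - a) := by
  have hQ : 0 ≤ Q := by linarith
  have h1 : a / (1 + a) ≤ Real.log (1 + a) := by
    have := Real.one_sub_inv_le_log_of_pos (show 0 < 1 + a by linarith)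
    have h : a / (1 + a) = 1 - (1 + a)⁻¹ := by field_simp; ring
    rw [h]; exact this
  have h2 : -(a ^ 2 / (1 - a ^ 2)) ≤ Real.log (1 + a) + Real.log (1 - a) := by
    rw [← Real.log_mul (by linarith) (by linarith)]
    have hp : (0:ℝ) < (1 + a) * (1 - a) := by nlinarith
    have := Real.one_sub_inv_le_log_of_pos hp
    have h : -(a ^ 2 / (1 - a ^ 2)) = 1 - ((1 + a) * (1 - a))⁻¹ := by
      have h3 : (1 + a) * (1 - a) = 1 - a ^ 2 := by ring
      rw [h3]
      have : (1 - a ^ 2) ≠ 0 := by rw [← h3]; exact hp.ne'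
      field_simp
      ring
    rw [h]; exact this
  have h3 : x * Real.log (1 + a) + y * Real.log (1 - a) =
      (x - y) * Real.log (1 + a) + y * (Real.log (1 + a) + Real.log (1 - a)) := by ring
  have hy2 : y ≤ Q / 2 := by nlinarith
  have h4 : 2 * a * Q * (a / (1 + a)) ≤ (x - y) * Real.log (1 + a) := by
    apply mul_le_mul hd h1 (by positivity)
    nlinarith
  have hden : 0 < 1 - a ^ 2 := by nlinarith
  have h5 : -(Q / 2 * (a ^ 2 / (1 - a ^ 2))) ≤
      y * (Real.log (1 + a) + Real.log (1 - a)) := by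
    have : y * (-(a ^ 2 / (1 - a ^ 2))) ≤ y * (Real.log (1 + a) + Real.log (1 - a)) :=
      mul_le_mul_of_nonneg_left h2 hy
    have h6 : y * (a ^ 2 / (1 - a ^ 2)) ≤ Q / 2 * (a ^ 2 / (1 - a ^ 2)) :=
      mul_le_mul_of_nonneg_right hy2 (by positivity)
    linarith
  rw [h3]
  refine le_trans ?_ (add_le_add h4 h5)
  have h7 : 2 * a * Q * (a / (1 + a)) + -(Q / 2 * (a ^ 2 / (1 - a ^ 2))) =
      Q * a ^ 2 * ((3 - 4 * a) / (2 * (1 - a ^ 2))) := by
    have : (1 - a ^ 2) = (1 - a) * (1 + a) := by ring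
    rw [this]
    have h8 : (1 - a) ≠ 0 := by linarith
    have h9 : (1 + a) ≠ 0 := by linarith
    field_simp
    ring
  rw [h7]
  apply mul_le_mul_of_nonneg_left _ (by positivity)
  have h10 := Real.log_two_lt_d9
  rw [le_div_iff₀ (by positivity)]
  nlinarith

theorem card_cross_le {Z U : Finset V} (hZU : Disjoint Z U) :
    (cross Z U).card ≤ Z.card * U.card := by
  have h := card_cross hZU (univ : Finset (Pr V))
  rw [univ_inter] at h
  rw [h]
  calc ∑ w ∈ Z, d1 (val univ) U w ≤ ∑ _w ∈ Z, U.card :=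
        sum_le_sum fun w _ => card_filter_le _ _
    _ = _ := by rw [sum_const, smul_eq_mul]

/-- One pair of sets. -/
theorem typ3_one (hA : A.RO) (t q u0 Lg : ℕ) (hq : 3 ≤ q) (hu0 : 2 * q ^ 2 * (Lg + 1) ≤ u0)
    (Z U : Finset V) (hZU : Disjoint Z U) (hZ : Z.card = u0) :
    ((univ.filter fun g : Pr V → Bool => ∀ v ∈ Z,
      q * d1 (r0 A g t) U v + 2 * U.card ≤ q * d1 (r1 A g t) U v).card : ℝ) *
      2 ^ (2 * (Lg + 1) * U.card) ≤ 2 ^ Fintype.card (Pr V) := by
  classical
  set a : ℝ := 1 / q with ha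
  have hq0 : (0 : ℝ) < q := by positivity
  have ha0 : 0 < a := by positivity
  have ha3 : a ≤ 1 / 3 := by
    rw [ha]
    apply one_div_le_one_div_of_le (by norm_num)
    exact_mod_cast hq
  set f : Pr V → Bool → ℝ := fun e b =>
    if e ∈ cross Z U then (if b then 1 + a else 1 - a) else 1 with hf
  have hf2 : ∀ e, f e true + f e false = 2 := by
    intro e
    by_cases h : e ∈ cross Z U <;> simp [hf, h] <;> ring
  have hf0 : ∀ e b, 0 ≤ f e b := by
    intro e b
    simp only [hf]
    split_ifs <;> linarith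
  rw [← Prog.mart hA f hf2 t, card_eq_sum_ones, Nat.cast_sum, sum_mul]
  refine (sum_le_sum ?_).trans (sum_le_sum_of_subset_of_nonneg (filter_subset _ _) ?_)
  swap
  · intro g _ _
    exact prod_nonneg fun e _ => hf0 e _
  intro g hg
  rw [mem_filter] at hg
  obtain ⟨-, hg⟩ := hg
  rw [Nat.cast_one, one_mul]
  set X1 := ((A.rd g t).filter fun e => g e = true) ∩ cross Z U with hX1
  set X0 := ((A.rd g t).filter fun e => g e = false) ∩ cross Z U with hX0
  have hprod : ∏ e ∈ A.rd g t, f e (g e) = (1 + a) ^ X1.card * (1 - a) ^ X0.card := by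
    have hsp : ∏ e ∈ A.rd g t, f e (g e) =
        (∏ e ∈ (A.rd g t).filter (fun e => g e = true), f e (g e)) *
        ∏ e ∈ (A.rd g t).filter (fun e => g e = false), f e (g e) := by
      rw [← prod_filter_mul_prod_filter_not (A.rd g t) (fun e => g e = true)]
      congr 1
      apply prod_congr _ (fun _ _ => rfl)
      apply filter_congr
      intro e _
      simp
    rw [hsp]
    congr 1
    · rw [← prod_subset (inter_subset_left
        (s₁ := (A.rd g t).filter fun e => g e = true) (s₂ := cross Z U))]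
      · rw [← prod_const]
        apply prod_congr rfl
        intro e he
        rw [mem_inter, mem_filter] at he
        simp [hf, he.2, he.1.2]
      · intro e he hn
        have : e ∉ cross Z U := fun h => hn (mem_inter.2 ⟨he, h⟩)
        simp [hf, this]
    · rw [← prod_subset (inter_subset_left
        (s₁ := (A.rd g t).filter fun e => g e = false) (s₂ := cross Z U))]
      · rw [← prod_const]
        apply prod_congr rfl
        intro e he
        rw [mem_inter, mem_filter] at he
        simp [hf, he.2, he.1.2]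
      · intro e he hn
        have : e ∉ cross Z U := fun h => hn (mem_inter.2 ⟨he, h⟩)
        simp [hf, this]
  have hc1 : X1.card = ∑ w ∈ Z, d1 (r1 A g t) U w := card_cross hZU _
  have hc0 : X0.card = ∑ w ∈ Z, d1 (r0 A g t) U w := card_cross hZU _
  have hdisj : Disjoint X1 X0 := by
    rw [disjoint_left]
    intro e h1 h0
    rw [hX1, mem_inter, mem_filter] at h1
    rw [hX0, mem_inter, mem_filter] at h0
    rw [h1.1.2] at h0
    simp at h0
  have hsum : X1.card + X0.card ≤ Z.card * U.card := by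
    rw [← card_union_of_disjoint hdisj]
    refine (card_le_card ?_).trans (card_cross_le hZU)
    exact union_subset inter_subset_right inter_subset_right
  have hdiff : q * X0.card + 2 * (Z.card * U.card) ≤ q * X1.card := by
    rw [hc1, hc0, mul_sum, mul_sum]
    calc ∑ w ∈ Z, q * d1 (r0 A g t) U w + 2 * (Z.card * U.card)
        = ∑ w ∈ Z, (q * d1 (r0 A g t) U w + 2 * U.card) := by
          rw [sum_add_distrib, sum_const, smul_eq_mul]; ring
      _ ≤ _ := sum_le_sum fun w hw => hg w hw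
  have hineq := real_ineq a X1.card X0.card ((Z.card * U.card : ℕ) : ℝ) ha0 ha3
    (Nat.cast_nonneg _) (Nat.cast_nonneg _) (by exact_mod_cast hsum) (by
      have : (q : ℝ) * X0.card + 2 * ((Z.card * U.card : ℕ) : ℝ) ≤ q * X1.card := by
        exact_mod_cast hdiff
      have h2 : 2 * a * ((Z.card * U.card : ℕ) : ℝ) = 2 * ((Z.card * U.card : ℕ) : ℝ) / q := by
        rw [ha]; ring
      rw [h2, div_le_iff₀ hq0]
      linarith)
  rw [hprod]
  clear_value X1 X0 f
  clear hprod hc1 hc0 hdisj hsum hdiff hf0 hf2 hf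
  have h1 : (1 + a) ^ X1.card * (1 - a) ^ X0.card =
      Real.exp (X1.card * Real.log (1 + a) + X0.card * Real.log (1 - a)) := by
    rw [Real.exp_add, Real.exp_nat_mul, Real.exp_nat_mul, Real.exp_log (by linarith),
      Real.exp_log (by linarith)]
  have h2 : (2 : ℝ) ^ (2 * (Lg + 1) * U.card) =
      Real.exp ((2 * (Lg + 1) * U.card : ℕ) * Real.log 2) := by
    rw [Real.exp_nat_mul, Real.exp_log (by norm_num)]
  rw [h1, h2]
  apply Real.exp_le_exp.2
  refine le_trans (mul_le_mul_of_nonneg_right ?_ (Real.log_nonneg (by norm_num))) hineq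
  have h3 : (2 * q ^ 2 * (Lg + 1) : ℝ) ≤ u0 := by exact_mod_cast hu0
  have h4 : ((Z.card * U.card : ℕ) : ℝ) * a ^ 2 = u0 * U.card / q ^ 2 := by
    rw [hZ, ha, Nat.cast_mul, one_div, inv_pow, ← div_eq_mul_inv]
  rw [h4, le_div_iff₀ (pow_pos hq0 2)]
  push_cast
  have h5 : (0 : ℝ) ≤ U.card := Nat.cast_nonneg _
  nlinarith [mul_le_mul_of_nonneg_right h3 h5]

open Classical in
/-- T3 fails rarely. -/
theorem typ3 (hA : A.RO) (t q u0 u1 Lg : ℕ) (hq : 3 ≤ q) (hu0 : 2 * q ^ 2 * (Lg + 1) ≤ u0)
    (hu1 : q * u0 ≤ u1) (hn : Fintype.card V ≤ 2 ^ Lg) :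
    ((univ.filter fun g : Pr V → Bool => ¬ T3 (r1 A g t) (r0 A g t) q u0 u1).card : ℝ) *
      2 ^ u0 ≤ (Fintype.card V + 1 : ℝ) * 2 ^ Fintype.card (Pr V) := by
  set n := Fintype.card V with hnd
  set IX := (Icc u0 n).sigma fun i =>
    (powersetCard u0 (univ : Finset V) ×ˢ powersetCard i (univ : Finset V)) with hIX
  set bad : (Finset V × Finset V) → Finset (Pr V → Bool) := fun x =>
    univ.filter fun g : Pr V → Bool => Disjoint x.1 x.2 ∧ x.1.card = u0 ∧ ∀ v ∈ x.1,
      q * d1 (r0 A g t) x.2 v + 2 * x.2.card ≤ q * d1 (r1 A g t) x.2 v with hbad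
  have hsub : (univ.filter fun g : Pr V → Bool => ¬ T3 (r1 A g t) (r0 A g t) q u0 u1) ⊆
      IX.biUnion fun x => bad x.2 := by
    intro g hg
    rw [mem_filter] at hg
    obtain ⟨-, hg⟩ := hg
    unfold T3 at hg
    push Not at hg
    obtain ⟨U, hU, hb⟩ := hg
    obtain ⟨Z, hZ, hZc⟩ := exists_subset_card_eq hb
    have hUZ : U.card ≤ (U \ Z).card + u0 := by
      have := card_sdiff_add_card_inter U Z
      have h2 : (U ∩ Z).card ≤ Z.card := card_le_card inter_subset_right
      omega
    have hge : u0 ≤ (U \ Z).card := by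
      have : 3 * u0 ≤ u1 := le_trans (Nat.mul_le_mul_right _ hq) hu1
      omega
    rw [mem_biUnion]
    refine ⟨⟨(U \ Z).card, (Z, U \ Z)⟩, ?_, ?_⟩
    · rw [hIX, mem_sigma, mem_product, mem_powersetCard, mem_powersetCard, mem_Icc]
      exact ⟨⟨hge, card_le_univ _⟩, ⟨subset_univ _, hZc⟩, subset_univ _, rfl⟩
    · rw [hbad, mem_filter]
      refine ⟨mem_univ _, disjoint_sdiff, hZc, ?_⟩
      intro v hv
      have h1 := (mem_filter.1 (hZ hv)).2
      have h2 : d1 (r0 A g t) (U \ Z) v ≤ d1 (r0 A g t) U v :=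
        card_le_card (filter_subset_filter _ sdiff_subset)
      have h3 : d1 (r1 A g t) U v ≤ d1 (r1 A g t) (U \ Z) v + u0 := by
        unfold d1
        rw [← hZc]
        refine (card_le_card ?_).trans (card_union_le _ _)
        intro s hs
        rw [mem_filter] at hs
        rw [mem_union, mem_filter, mem_sdiff]
        by_cases hsZ : s ∈ Z
        · exact Or.inr hsZ
        · exact Or.inl ⟨⟨hs.1, hsZ⟩, hs.2⟩
      have h4 : (U \ Z).card ≤ U.card := card_le_card sdiff_subset
      have h5 := Nat.mul_le_mul_left q h2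
      have h6 := Nat.mul_le_mul_left q h3
      rw [mul_add] at h6
      simp only
      omega
  have h1 : ((univ.filter fun g : Pr V → Bool =>
      ¬ T3 (r1 A g t) (r0 A g t) q u0 u1).card : ℝ) ≤ ∑ x ∈ IX, ((bad x.2).card : ℝ) := by
    have := (card_le_card hsub).trans card_biUnion_le
    exact_mod_cast this
  refine (mul_le_mul_of_nonneg_right h1 (by positivity)).trans ?_
  rw [hIX, sum_sigma, sum_mul]
  have h2 : ∀ i ∈ Icc u0 n, (∑ x ∈ powersetCard u0 (univ : Finset V) ×ˢ
      powersetCard i (univ : Finset V), ((bad x).card : ℝ)) * 2 ^ u0 ≤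
      2 ^ Fintype.card (Pr V) := by
    intro i hi
    rw [mem_Icc] at hi
    have h3 : ∀ x ∈ powersetCard u0 (univ : Finset V) ×ˢ powersetCard i (univ : Finset V),
        ((bad x).card : ℝ) ≤ 2 ^ Fintype.card (Pr V) / 2 ^ (2 * (Lg + 1) * i) := by
      intro x hx
      rw [mem_product, mem_powersetCard, mem_powersetCard] at hx
      rw [le_div_iff₀ (by positivity)]
      by_cases hd : Disjoint x.1 x.2
      · have := typ3_one hA t q u0 Lg hq hu0 x.1 x.2 hd hx.1.2
        rw [hx.2.2] at this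
        refine le_trans (mul_le_mul_of_nonneg_right ?_ (by positivity)) this
        norm_cast
        apply card_le_card
        intro g hg
        rw [hbad, mem_filter] at hg
        rw [mem_filter]
        refine ⟨mem_univ _, fun v hv => ?_⟩
        have := hg.2.2.2 v hv
        rw [hx.2.2] at this
        exact this
      · have : bad x = ∅ := by
          rw [hbad]
          apply filter_false_of_mem
          intro g _ h
          exact hd h.1
        rw [this, card_empty]
        simp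
    have h4 := sum_le_card_nsmul _ _ _ h3
    rw [nsmul_eq_mul, card_product, card_powersetCard, card_powersetCard, card_univ,
      ← hnd] at h4
    refine (mul_le_mul_of_nonneg_right h4 (by positivity)).trans ?_
    have h5 : ((n.choose u0 * n.choose i : ℕ) : ℝ) ≤ 2 ^ (Lg * (u0 + i)) := by
      have : n.choose u0 * n.choose i ≤ 2 ^ (Lg * (u0 + i)) := by
        calc n.choose u0 * n.choose i ≤ n ^ u0 * n ^ i :=
              Nat.mul_le_mul (Nat.choose_le_pow _ _) (Nat.choose_le_pow _ _)
          _ = n ^ (u0 + i) := by rw [pow_add]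
          _ ≤ (2 ^ Lg) ^ (u0 + i) := Nat.pow_le_pow_left hn _
          _ = _ := by rw [pow_mul]
      exact_mod_cast this
    have h6 : (2 : ℝ) ^ (Lg * (u0 + i)) * 2 ^ u0 ≤ 2 ^ (2 * (Lg + 1) * i) := by
      rw [← pow_add]
      apply pow_le_pow_right₀ (by norm_num)
      nlinarith [Nat.mul_le_mul_left Lg hi.1]
    calc ((n.choose u0 * n.choose i : ℕ) : ℝ) *
          (2 ^ Fintype.card (Pr V) / 2 ^ (2 * (Lg + 1) * i)) * 2 ^ u0
        ≤ 2 ^ (Lg * (u0 + i)) * (2 ^ Fintype.card (Pr V) / 2 ^ (2 * (Lg + 1) * i)) * 2 ^ u0 := by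
          gcongr
      _ = (2 ^ (Lg * (u0 + i)) * 2 ^ u0) * 2 ^ Fintype.card (Pr V) / 2 ^ (2 * (Lg + 1) * i) := by
          ring
      _ ≤ 2 ^ (2 * (Lg + 1) * i) * 2 ^ Fintype.card (Pr V) / 2 ^ (2 * (Lg + 1) * i) := by
          gcongr
      _ = _ := by field_simp
  refine (sum_le_sum h2).trans ?_
  rw [sum_const, nsmul_eq_mul, Nat.card_Icc]
  apply mul_le_mul_of_nonneg_right _ (by positivity)
  have : n + 1 - u0 ≤ n + 1 := Nat.sub_le _ _
  exact_mod_cast this

end Karp
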